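import Mathlib

set_option autoImplicit false

open scoped Pointwise

namespace Pool.Agent.Helper771.CosetQE

/-- Two subsets of an abelian group are parallel: both empty, or cosets of the same subgroup. -/
def Par {Γ : Type*} [AddCommGroup Γ] (A B : Set Γ) : Prop :=
  (A.Nonempty ↔ B.Nonempty) ∧ (∀ p ∈ A, ∀ q ∈ A, ∀ r ∈ B, p - q + r ∈ B) ∧
    (∀ p ∈ B, ∀ q ∈ B, ∀ r ∈ A, p - q + r ∈ A)

theorem Par.aff {Γ : Type*} [AddCommGroup Γ] {A B : Set Γ} (h : Par A B) :
    ∀ p ∈ A, ∀ q ∈ A, ∀ r ∈ A, p - q + r ∈ A := by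
  intro p hp q hq r hr
  obtain ⟨s, hs⟩ := h.1.1 ⟨p, hp⟩
  have h1 := h.2.1 p hp q hq s hs
  have h2 := h.2.2 _ h1 s hs r hr
  simpa using h2

theorem Par.symm {Γ : Type*} [AddCommGroup Γ] {A B : Set Γ} (h : Par A B) : Par B A :=
  ⟨h.1.symm, h.2.2, h.2.1⟩

/-- the stabiliser of a subset -/
def stab {Γ : Type*} [AddCommGroup Γ] (A : Set Γ) : AddSubgroup Γ where
  carrier := {g | ∀ x, g + x ∈ A ↔ x ∈ A}
  zero_mem' := by intro x; rw [zero_add]
  add_mem' := by
    intro a b ha hb x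
    rw [add_assoc, ha, hb]
  neg_mem' := by
    intro a ha x
    rw [← ha (-a + x), add_neg_cancel_left]

theorem mem_stab {Γ : Type*} [AddCommGroup Γ] {A : Set Γ} {g : Γ} :
    g ∈ stab A ↔ ∀ x, g + x ∈ A ↔ x ∈ A := Iff.rfl

theorem sub_mem_stab {Γ : Type*} [AddCommGroup Γ] {A : Set Γ}
    (h : ∀ p ∈ A, ∀ q ∈ A, ∀ r ∈ A, p - q + r ∈ A) {x y : Γ} (hx : x ∈ A) :
    y ∈ A ↔ y - x ∈ stab A := by
  constructor
  · intro hy z
    constructor
    · intro hz
      have := h x hx y hy _ hz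
      have e : x - y + (y - x + z) = z := by abel
      rwa [e] at this
    · intro hz
      exact h y hy x hx z hz
  · intro hy
    have := (hy x).2 hx
    simpa using this

theorem cover_of_cover {Γ : Type*} [AddCommGroup Γ] {ι : Type*} (T : Finset ι)
    (X Y : ι → Set Γ) (h : ∀ S ⊆ T, Par (⋂ i ∈ S, X i) (⋂ i ∈ S, Y i))
    (hY : ∀ g, ∃ i ∈ T, g ∈ Y i) : ∀ g, ∃ i ∈ T, g ∈ X i := by
  classical
  have h1 : ∀ i ∈ T, Par (X i) (Y i) := by
    intro i hi
    have := h {i} (by simpa using hi)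
    simpa using this
  set T' := T.filter (fun i => (Y i).Nonempty) with hT'
  have hT'T : ∀ i ∈ T', i ∈ T := fun i hi => (Finset.mem_filter.1 hi).1
  have hne : ∀ i ∈ T', (Y i).Nonempty := fun i hi => (Finset.mem_filter.1 hi).2
  -- points
  have hpt : ∃ y : ι → Γ, ∀ i ∈ T', y i ∈ Y i := by
    refine ⟨fun i => if hi : (Y i).Nonempty then hi.some else 0, ?_⟩
    intro i hi
    simp only [dif_pos (hne i hi)]
    exact (hne i hi).some_mem
  obtain ⟨y, hy⟩ := hpt
  have hcov : ⋃ i ∈ T', y i +ᵥ (stab (Y i) : Set Γ) = Set.univ := by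
    rw [Set.eq_univ_iff_forall]
    intro g
    obtain ⟨i, hi, hgi⟩ := hY g
    have hi' : i ∈ T' := Finset.mem_filter.2 ⟨hi, ⟨g, hgi⟩⟩
    simp only [Set.mem_iUnion]
    refine ⟨i, hi', ?_⟩
    rw [Set.mem_vadd_set]
    refine ⟨g - y i, ?_, by rw [vadd_eq_add]; abel⟩
    exact (sub_mem_stab (h1 i hi).symm.aff (hy i hi')).1 hgi
  have hcov2 := AddSubgroup.leftCoset_cover_filter_FiniteIndex hcov
  set T'' := T'.filter (fun i => (stab (Y i)).FiniteIndex) with hT''
  have hT''T' : ∀ i ∈ T'', i ∈ T' := fun i hi => (Finset.mem_filter.1 hi).1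
  have hfin : ∀ i ∈ T'', (stab (Y i)).FiniteIndex := fun i hi => (Finset.mem_filter.1 hi).2
  have hY2 : ∀ g, ∃ i ∈ T'', g ∈ Y i := by
    intro g
    have : g ∈ ⋃ k ∈ T'', y k +ᵥ (stab (Y k) : Set Γ) := by rw [hcov2]; trivial
    simp only [Set.mem_iUnion] at this
    obtain ⟨i, hi, hg⟩ := this
    rw [Set.mem_vadd_set] at hg
    obtain ⟨s, hs, rfl⟩ := hg
    refine ⟨i, hi, ?_⟩
    have := (hs (y i)).2 (hy i (hT''T' i hi))
    rw [vadd_eq_add, add_comm]
    exact this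
  let K : AddSubgroup Γ := ⨅ i : T'', stab (Y i)
  have hK : K.FiniteIndex := AddSubgroup.finiteIndex_iInf fun i => hfin i i.2
  have hKY : ∀ i ∈ T'', ∀ κ ∈ K, κ ∈ stab (Y i) := by
    intro i hi κ hκ
    rw [AddSubgroup.mem_iInf] at hκ
    exact hκ ⟨i, hi⟩
  have hKX : ∀ i ∈ T'', ∀ κ ∈ K, κ ∈ stab (X i) := by
    intro i hi κ hκ
    have hs := hKY i hi κ hκ
    have hp := h1 i (hT'T i (hT''T' i hi))
    have hyi := hy i (hT''T' i hi)
    obtain ⟨x, hx⟩ := hp.1.2 ⟨_, hyi⟩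
    have : κ = (κ + x) - x := by abel
    rw [this, ← sub_mem_stab hp.aff hx]
    have h3 := hp.2.2 (κ + y i) ((hs _).2 hyi) (y i) hyi x hx
    have h4 : κ + y i - y i + x = κ + x := by abel
    rwa [h4] at h3
  have : Finite (Γ ⧸ K) := AddSubgroup.finite_quotient_of_finiteIndex
  have : Fintype (Γ ⧸ K) := Fintype.ofFinite _
  have hout : ∀ g : Γ, ∃ κ ∈ K, g = κ + (QuotientAddGroup.mk (s := K) g).out := by
    intro g
    refine ⟨g - (QuotientAddGroup.mk (s := K) g).out, ?_, by abel⟩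
    have h3 : QuotientAddGroup.mk (s := K) ((QuotientAddGroup.mk (s := K) g).out) =
      QuotientAddGroup.mk (s := K) g := Quotient.out_eq' _
    rw [QuotientAddGroup.eq] at h3
    have h4 : g - (QuotientAddGroup.mk (s := K) g).out =
      -(QuotientAddGroup.mk (s := K) g).out + g := by abel
    rw [h4]; exact h3
  -- counting
  let f : (ι → Set Γ) → ι → (Γ ⧸ K) → ℤ := fun Z i q => if q.out ∈ Z i then 1 else 0
  have hexp : ∀ Z : ι → Set Γ, ∑ q : Γ ⧸ K, ∏ i ∈ T'', (-(f Z i q) + 1) =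
      ∑ S ∈ T''.powerset, (-1) ^ S.card * ∑ q : Γ ⧸ K, ∏ i ∈ S, f Z i q := by
    intro Z
    simp_rw [Finset.prod_add, Finset.prod_const_one, mul_one, Finset.prod_neg]
    rw [Finset.sum_comm]
    refine Finset.sum_congr rfl fun S _ => ?_
    rw [Finset.mul_sum]
  have hprod : ∀ (Z : ι → Set Γ) (S : Finset ι) (q : Γ ⧸ K), ∏ i ∈ S, f Z i q =
      if q.out ∈ ⋂ i ∈ S, Z i then 1 else 0 := by
    intro Z S q
    simp only [f, Finset.prod_ite_zero, Finset.prod_const_one, Set.mem_iInter]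
  have hcount : ∀ S ∈ T''.powerset, ∑ q : Γ ⧸ K, ∏ i ∈ S, f X i q =
      ∑ q : Γ ⧸ K, ∏ i ∈ S, f Y i q := by
    intro S hS
    rw [Finset.mem_powerset] at hS
    have hST : S ⊆ T := fun i hi => hT'T i (hT''T' i (hS hi))
    have hp := h S hST
    simp_rw [hprod]
    by_cases hne : (⋂ i ∈ S, X i).Nonempty
    · obtain ⟨x, hx⟩ := hne
      obtain ⟨z, hz⟩ := hp.1.1 ⟨x, hx⟩
      have hstX : ∀ κ ∈ K, ∀ u, u ∈ (⋂ i ∈ S, X i) → κ + u ∈ (⋂ i ∈ S, X i) := by
        intro κ hκ u hu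
        simp only [Set.mem_iInter] at hu ⊢
        intro i hi
        exact (hKX i (hS hi) κ hκ u).2 (hu i hi)
      have hstY : ∀ κ ∈ K, ∀ u, u ∈ (⋂ i ∈ S, Y i) → κ + u ∈ (⋂ i ∈ S, Y i) := by
        intro κ hκ u hu
        simp only [Set.mem_iInter] at hu ⊢
        intro i hi
        exact (hKY i (hS hi) κ hκ u).2 (hu i hi)
      refine Fintype.sum_equiv (Equiv.addRight (QuotientAddGroup.mk (s := K) (z - x))) _ _ ?_
      intro q
      congr 1
      rw [eq_iff_iff]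
      have hq : q = QuotientAddGroup.mk (s := K) q.out := (Quotient.out_eq' q).symm
      obtain ⟨κ, hκ, hκ'⟩ := hout (q.out + (z - x))
      have hq2 : (Equiv.addRight (QuotientAddGroup.mk (s := K) (z - x))) q =
          QuotientAddGroup.mk (s := K) (q.out + (z - x)) := by
        conv_lhs => rw [hq]
        rfl
      rw [hq2]
      constructor
      · intro hqX
        have h5 := hp.2.1 _ hqX x hx z hz
        have h6 : (QuotientAddGroup.mk (s := K) (q.out + (z - x))).out =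
            (-κ) + (q.out - x + z) := by
          rw [eq_neg_add_iff_add_eq, ← hκ']; abel
        rw [h6]
        exact hstY _ (neg_mem hκ) _ h5
      · intro hqY
        have h5 := hp.2.2 _ hqY z hz x hx
        have h6 : q.out = κ + ((QuotientAddGroup.mk (s := K) (q.out + (z - x))).out - z + x) := by
          have : q.out = q.out + (z - x) - z + x := by abel
          rw [this]
          conv_lhs => rw [hκ']
          abel_nf
        rw [h6]
        exact hstX _ hκ _ h5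
    · have hne2 : ¬ (⋂ i ∈ S, Y i).Nonempty := fun hh => hne (hp.1.2 hh)
      rw [Set.not_nonempty_iff_eq_empty] at hne hne2
      rw [hne, hne2]
  have hsum : ∑ q : Γ ⧸ K, ∏ i ∈ T'', (-(f X i q) + 1) =
      ∑ q : Γ ⧸ K, ∏ i ∈ T'', (-(f Y i q) + 1) := by
    rw [hexp, hexp]
    exact Finset.sum_congr rfl fun S hS => by rw [hcount S hS]
  have hzero : ∑ q : Γ ⧸ K, ∏ i ∈ T'', (-(f Y i q) + 1) = 0 := by
    refine Finset.sum_eq_zero fun q _ => ?_
    obtain ⟨i, hi, hq⟩ := hY2 q.out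
    refine Finset.prod_eq_zero hi ?_
    simp [f, hq]
  rw [hzero] at hsum
  have hnn : ∀ q ∈ (Finset.univ : Finset (Γ ⧸ K)), 0 ≤ ∏ i ∈ T'', (-(f X i q) + 1) := by
    intro q _
    refine Finset.prod_nonneg fun i _ => ?_
    simp only [f]
    split_ifs <;> simp
  rw [Finset.sum_eq_zero_iff_of_nonneg hnn] at hsum
  intro g
  have h7 := hsum (QuotientAddGroup.mk (s := K) g) (Finset.mem_univ _)
  rw [Finset.prod_eq_zero_iff] at h7
  obtain ⟨i, hi, hi'⟩ := h7
  refine ⟨i, hT'T i (hT''T' i hi), ?_⟩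
  obtain ⟨κ, hκ, hκ'⟩ := hout g
  rw [hκ']
  refine (hKX i hi κ hκ _).2 ?_
  by_contra hcon
  simp [f, hcon] at hi'

end Pool.Agent.Helper771.CosetQE
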