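import Mathlib

set_option autoImplicit false

namespace Pool.Agent.Helper771.FreeLieGrad

universe u v w

open Finset

theorem triple_left {M : Type*} [AddCommMonoid M] (n : ℕ) (g : ℕ → ℕ → ℕ → M) :
    ∑ p ∈ antidiagonal n, ∑ q ∈ antidiagonal p.1, g q.1 q.2 p.2 =
      ∑ p ∈ antidiagonal n, ∑ q ∈ antidiagonal p.2, g p.1 q.1 q.2 := by
  rw [Finset.sum_sigma', Finset.sum_sigma']
  refine Finset.sum_nbij' (fun s => ⟨(s.2.1, s.2.2 + s.1.2), (s.2.2, s.1.2)⟩)
    (fun s => ⟨(s.1.1 + s.2.1, s.2.2), (s.1.1, s.2.1)⟩) ?_ ?_ ?_ ?_ ?_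
  · rintro ⟨⟨a, b⟩, ⟨c, d⟩⟩ h
    simp only [mem_sigma, HasAntidiagonal.mem_antidiagonal] at h
    obtain ⟨h1, h2⟩ := h
    rw [mem_sigma, HasAntidiagonal.mem_antidiagonal, HasAntidiagonal.mem_antidiagonal]
    exact ⟨by dsimp only; omega, by dsimp only⟩
  · rintro ⟨⟨a, b⟩, ⟨c, d⟩⟩ h
    simp only [mem_sigma, HasAntidiagonal.mem_antidiagonal] at h
    obtain ⟨h1, h2⟩ := h
    rw [mem_sigma, HasAntidiagonal.mem_antidiagonal, HasAntidiagonal.mem_antidiagonal]
    exact ⟨by dsimp only; omega, by dsimp only⟩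
  · rintro ⟨⟨a, b⟩, ⟨c, d⟩⟩ h
    simp only [mem_sigma, HasAntidiagonal.mem_antidiagonal] at h
    obtain ⟨h1, h2⟩ := h
    subst h2; rfl
  · rintro ⟨⟨a, b⟩, ⟨c, d⟩⟩ h
    simp only [mem_sigma, HasAntidiagonal.mem_antidiagonal] at h
    obtain ⟨h1, h2⟩ := h
    subst h2; rfl
  · rintro ⟨⟨a, b⟩, ⟨c, d⟩⟩ h
    rfl

theorem triple_mid {M : Type*} [AddCommMonoid M] (n : ℕ) (g : ℕ → ℕ → ℕ → M) :
    ∑ p ∈ antidiagonal n, ∑ q ∈ antidiagonal p.2, g q.1 p.1 q.2 =
      ∑ p ∈ antidiagonal n, ∑ q ∈ antidiagonal p.2, g p.1 q.1 q.2 := by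
  rw [Finset.sum_sigma', Finset.sum_sigma']
  refine Finset.sum_nbij' (fun s => ⟨(s.2.1, s.1.1 + s.2.2), (s.1.1, s.2.2)⟩)
    (fun s => ⟨(s.2.1, s.1.1 + s.2.2), (s.1.1, s.2.2)⟩) ?_ ?_ ?_ ?_ ?_
  · rintro ⟨⟨a, b⟩, ⟨c, d⟩⟩ h
    simp only [mem_sigma, HasAntidiagonal.mem_antidiagonal] at h
    obtain ⟨h1, h2⟩ := h
    rw [mem_sigma, HasAntidiagonal.mem_antidiagonal, HasAntidiagonal.mem_antidiagonal]
    exact ⟨by dsimp only; omega, by dsimp only⟩
  · rintro ⟨⟨a, b⟩, ⟨c, d⟩⟩ h
    simp only [mem_sigma, HasAntidiagonal.mem_antidiagonal] at h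
    obtain ⟨h1, h2⟩ := h
    rw [mem_sigma, HasAntidiagonal.mem_antidiagonal, HasAntidiagonal.mem_antidiagonal]
    exact ⟨by dsimp only; omega, by dsimp only⟩
  · rintro ⟨⟨a, b⟩, ⟨c, d⟩⟩ h
    simp only [mem_sigma, HasAntidiagonal.mem_antidiagonal] at h
    obtain ⟨h1, h2⟩ := h
    subst h2; rfl
  · rintro ⟨⟨a, b⟩, ⟨c, d⟩⟩ h
    simp only [mem_sigma, HasAntidiagonal.mem_antidiagonal] at h
    obtain ⟨h1, h2⟩ := h
    subst h2; rfl
  · rintro ⟨⟨a, b⟩, ⟨c, d⟩⟩ h
    rfl

/-- sequences in a Lie algebra, with the Cauchy product bracket -/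
def Seq (M : Type u) : Type u := ℕ → M

section Seq

variable {K : Type v} [Field K] {M : Type u} [LieRing M] [LieAlgebra K M]

instance : AddCommGroup (Seq M) := inferInstanceAs (AddCommGroup (ℕ → M))
instance : Module K (Seq M) := inferInstanceAs (Module K (ℕ → M))
instance : Bracket (Seq M) (Seq M) := ⟨fun a b n => ∑ p ∈ antidiagonal n, ⁅a p.1, b p.2⁆⟩

theorem Seq.lie_apply (a b : Seq M) (n : ℕ) :
    ⁅a, b⁆ n = ∑ p ∈ antidiagonal n, ⁅a p.1, b p.2⁆ := rfl

theorem Seq.add_apply (a b : Seq M) (n : ℕ) : (a + b) n = a n + b n := rfl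
theorem Seq.smul_apply (c : K) (a : Seq M) (n : ℕ) : (c • a) n = c • a n := rfl
theorem Seq.zero_apply (n : ℕ) : (0 : Seq M) n = 0 := rfl

theorem lie_finsum {N : Type*} [LieRing N] {ι : Type*} (s : Finset ι) (a : N) (f : ι → N) :
    ⁅a, ∑ i ∈ s, f i⁆ = ∑ i ∈ s, ⁅a, f i⁆ := by
  classical
  induction s using Finset.induction_on with
  | empty => simp
  | insert i s hi ih => rw [sum_insert hi, sum_insert hi, lie_add, ih]

theorem finsum_lie {N : Type*} [LieRing N] {ι : Type*} (s : Finset ι) (a : N) (f : ι → N) :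
    ⁅∑ i ∈ s, f i, a⁆ = ∑ i ∈ s, ⁅f i, a⁆ := by
  classical
  induction s using Finset.induction_on with
  | empty => simp
  | insert i s hi ih => rw [sum_insert hi, sum_insert hi, add_lie, ih]

instance : LieRing (Seq M) where
  add_lie a b c := by
    funext n
    simp only [Seq.lie_apply, Seq.add_apply, add_lie, sum_add_distrib]
  lie_add a b c := by
    funext n
    simp only [Seq.lie_apply, Seq.add_apply, lie_add, sum_add_distrib]
  lie_self a := by
    funext n
    rw [Seq.lie_apply, Seq.zero_apply]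
    -- pair up the terms
    refine Finset.sum_involution (fun p _ => (p.2, p.1)) ?_ ?_ ?_ ?_
    · intro p hp
      change ⁅a p.1, a p.2⁆ + ⁅a p.2, a p.1⁆ = 0
      rw [← lie_skew (a p.1) (a p.2)]; exact neg_add_cancel _
    · intro p hp hne heq
      apply hne
      have : p.1 = p.2 := (congrArg Prod.snd heq)
      rw [this, lie_self]
    · intro p hp
      simp only [HasAntidiagonal.mem_antidiagonal] at hp ⊢
      omega
    · intro p hp
      rfl
  leibniz_lie a b c := by
    funext n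
    simp only [Seq.lie_apply, Seq.add_apply, lie_finsum, finsum_lie]
    rw [triple_left n (fun i j l => ⁅⁅a i, b j⁆, c l⁆),
      triple_mid n (fun i j l => ⁅b j, ⁅a i, c l⁆⁆), ← sum_add_distrib]
    refine sum_congr rfl fun p _ => ?_
    rw [← sum_add_distrib]
    refine sum_congr rfl fun q _ => ?_
    exact leibniz_lie _ _ _

instance : LieAlgebra K (Seq M) where
  lie_smul c a b := by
    funext n
    simp only [Seq.lie_apply, Seq.smul_apply, lie_smul, smul_sum]

end Seq


/-! ### Induction principles for the free Lie algebra -/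

section Induction

variable {K : Type u} [Field K] {Y : Type v}


theorem free_induction {P : (FreeLieAlgebra K Y) → Prop} (of : ∀ y, P (FreeLieAlgebra.of K y)) (zero : P 0)
    (add : ∀ a b, P a → P b → P (a + b)) (smul : ∀ (c : K) a, P a → P (c • a))
    (lie : ∀ a b, P a → P b → P ⁅a, b⁆) (z : FreeLieAlgebra K Y) : P z := by
  let T : LieSubalgebra K (FreeLieAlgebra K Y) :=
    { carrier := {z | P z}
      add_mem' := fun {a b} ha hb => add a b ha hb
      zero_mem' := zero
      smul_mem' := fun c a ha => smul c a ha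
      lie_mem' := fun {a b} ha hb => lie a b ha hb }
  let f : (FreeLieAlgebra K Y) →ₗ⁅K⁆ T := FreeLieAlgebra.lift K (fun y => ⟨_, of y⟩)
  have h1 : T.incl.comp f = LieHom.id := by
    apply FreeLieAlgebra.hom_ext
    intro i
    simp [f]
  have h2 : T.incl (f z) = z := by
    have := DFunLike.congr_fun h1 z
    simpa using this
  rw [← h2]
  exact (f z).2

end Induction

/-! ### The weight components -/

section Comp

variable {K : Type u} [Field K] {Y : Type v} (w : Y → ℕ)

/-- the homomorphism to sequences, `y ↦ y t^{w(y)}` -/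
noncomputable def gamSeq : FreeLieAlgebra K Y →ₗ⁅K⁆ Seq (FreeLieAlgebra K Y) :=
  FreeLieAlgebra.lift K (fun y n => if n = w y then FreeLieAlgebra.of K y else 0)

/-- the component of weight `n` -/
noncomputable def comp (n : ℕ) : FreeLieAlgebra K Y →ₗ[K] FreeLieAlgebra K Y where
  toFun z := gamSeq w z n
  map_add' a b := by rw [map_add]; rfl
  map_smul' c a := by rw [map_smul]; rfl

theorem comp_of (n : ℕ) (y : Y) : comp (K := K) w n (FreeLieAlgebra.of K y) =
    if n = w y then FreeLieAlgebra.of K y else 0 := by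
  have h : gamSeq w (FreeLieAlgebra.of K y) =
      (fun n => if n = w y then FreeLieAlgebra.of K y else 0 : Seq (FreeLieAlgebra K Y)) :=
    FreeLieAlgebra.lift_of_apply (R := K) (L := Seq (FreeLieAlgebra K Y)) _ y
  exact congrFun h n

theorem comp_lie (n : ℕ) (a b : FreeLieAlgebra K Y) :
    comp w n ⁅a, b⁆ = ∑ p ∈ antidiagonal n, ⁅comp w p.1 a, comp w p.2 b⁆ := by
  change gamSeq w ⁅a, b⁆ n = _
  rw [LieHom.map_lie]
  rfl

/-- homogeneous elements of weight `m` -/
def Hom (w : Y → ℕ) (m : ℕ) : Submodule K (FreeLieAlgebra K Y) where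
  carrier := {z | ∀ n, comp w n z = if n = m then z else 0}
  add_mem' := by
    intro a b ha hb n
    rw [map_add, ha n, hb n]
    split_ifs <;> simp
  zero_mem' := by
    intro n
    rw [map_zero]; split_ifs <;> rfl
  smul_mem' := by
    intro c a ha n
    rw [map_smul, ha n]
    split_ifs <;> simp

theorem mem_Hom {m : ℕ} {z : FreeLieAlgebra K Y} :
    z ∈ Hom w m ↔ ∀ n, comp w n z = if n = m then z else 0 := Iff.rfl

theorem comp_same {m : ℕ} {z : FreeLieAlgebra K Y} (h : z ∈ Hom w m) : comp w m z = z := by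
  rw [h m, if_pos rfl]

theorem comp_ne {m n : ℕ} {z : FreeLieAlgebra K Y} (h : z ∈ Hom w m) (hn : n ≠ m) :
    comp w n z = 0 := by
  rw [h n, if_neg hn]

theorem of_mem_Hom (y : Y) : FreeLieAlgebra.of K y ∈ Hom w (w y) := fun n => comp_of w n y

theorem lie_mem_Hom {i j : ℕ} {a b : FreeLieAlgebra K Y} (ha : a ∈ Hom w i) (hb : b ∈ Hom w j) :
    ⁅a, b⁆ ∈ Hom w (i + j) := by
  intro n
  rw [comp_lie]
  split_ifs with h
  · subst h
    rw [Finset.sum_eq_single (i, j)]
    · rw [comp_same w ha, comp_same w hb]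
    · rintro ⟨p, q⟩ hp hne
      rw [HasAntidiagonal.mem_antidiagonal] at hp
      dsimp only at hp ⊢
      by_cases hpi : p = i
      · have : q ≠ j := by
          rintro rfl
          exact hne (by rw [hpi])
        rw [comp_ne w hb this, lie_zero]
      · rw [comp_ne w ha hpi, zero_lie]
    · intro h
      exact absurd (by rw [HasAntidiagonal.mem_antidiagonal]) h
  · refine Finset.sum_eq_zero ?_
    rintro ⟨p, q⟩ hp
    rw [HasAntidiagonal.mem_antidiagonal] at hp
    dsimp only at hp ⊢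
    by_cases hpi : p = i
    · have : q ≠ j := by
        rintro rfl
        exact h (by rw [← hp, hpi])
      rw [comp_ne w hb this, lie_zero]
    · rw [comp_ne w ha hpi, zero_lie]

theorem lie_iSup {T : ℕ → Submodule K (FreeLieAlgebra K Y)}
    (hT : ∀ i j, ∀ a ∈ T i, ∀ b ∈ T j, ⁅a, b⁆ ∈ T (i + j)) {a b : FreeLieAlgebra K Y}
    (ha : a ∈ ⨆ i, T i) (hb : b ∈ ⨆ i, T i) : ⁅a, b⁆ ∈ ⨆ i, T i := by
  induction ha using Submodule.iSup_induction' with
  | mem i a ha =>
    induction hb using Submodule.iSup_induction' with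
    | mem j b hb => exact Submodule.mem_iSup_of_mem (i + j) (hT i j a ha b hb)
    | zero => rw [lie_zero]; exact Submodule.zero_mem _
    | add b b' _ _ h1 h2 => rw [lie_add]; exact Submodule.add_mem _ h1 h2
  | zero => rw [zero_lie]; exact Submodule.zero_mem _
  | add a a' _ _ h1 h2 => rw [add_lie]; exact Submodule.add_mem _ h1 h2

theorem mem_iSup_of {T : ℕ → Submodule K (FreeLieAlgebra K Y)}
    (hT : ∀ i j, ∀ a ∈ T i, ∀ b ∈ T j, ⁅a, b⁆ ∈ T (i + j))
    (hof : ∀ y, FreeLieAlgebra.of K y ∈ T (w y)) (z : FreeLieAlgebra K Y) : z ∈ ⨆ i, T i := by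
  refine free_induction (P := fun z => z ∈ ⨆ i, T i) ?_ ?_ ?_ ?_ ?_ z
  · intro y
    exact Submodule.mem_iSup_of_mem (w y) (hof y)
  · exact Submodule.zero_mem _
  · intro a b ha hb
    exact Submodule.add_mem _ ha hb
  · intro c a ha
    exact Submodule.smul_mem _ c ha
  · intro a b ha hb
    exact lie_iSup hT ha hb

theorem mem_iSup_Hom (z : FreeLieAlgebra K Y) : z ∈ ⨆ i, Hom w i :=
  mem_iSup_of w (fun _ _ _ ha _ hb => lie_mem_Hom w ha hb) (fun y => of_mem_Hom w y) z

/-- graded induction -/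
theorem Hom_le {T : ℕ → Submodule K (FreeLieAlgebra K Y)}
    (hT : ∀ i j, ∀ a ∈ T i, ∀ b ∈ T j, a ∈ Hom w i → b ∈ Hom w j → ⁅a, b⁆ ∈ T (i + j))
    (hof : ∀ y, FreeLieAlgebra.of K y ∈ T (w y)) (m : ℕ) : Hom w m ≤ T m := by
  have h1 : ∀ z : FreeLieAlgebra K Y, z ∈ ⨆ i, (T i ⊓ Hom w i) := by
    refine mem_iSup_of w ?_ ?_
    · rintro i j a ⟨ha, ha'⟩ b ⟨hb, hb'⟩
      exact ⟨hT i j a ha b hb ha' hb', lie_mem_Hom w ha' hb'⟩
    · intro y
      exact ⟨hof y, of_mem_Hom w y⟩
  have h2 : ∀ z ∈ ⨆ i, (T i ⊓ Hom w i), ∀ n, comp w n z ∈ T n := by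
    intro z hz n
    induction hz using Submodule.iSup_induction' with
    | mem i a ha =>
      rw [ha.2 n]
      split_ifs with h
      · rw [h]; exact ha.1
      · exact Submodule.zero_mem _
    | zero => rw [map_zero]; exact Submodule.zero_mem _
    | add a b _ _ h1 h2 => rw [map_add]; exact Submodule.add_mem _ h1 h2
  intro z hz
  rw [← comp_same w hz]
  exact h2 z (h1 z) m

theorem comp_mem_Hom (n : ℕ) (z : FreeLieAlgebra K Y) : comp w n z ∈ Hom w n := by
  have hz := mem_iSup_Hom w z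
  induction hz using Submodule.iSup_induction' with
  | mem i a ha =>
    rw [ha n]
    split_ifs with h
    · rw [h]; exact ha
    · exact Submodule.zero_mem _
  | zero => rw [map_zero]; exact Submodule.zero_mem _
  | add a b _ _ h1 h2 => rw [map_add]; exact Submodule.add_mem _ h1 h2

theorem comp_comp (m n : ℕ) (z : FreeLieAlgebra K Y) :
    comp w m (comp w n z) = if m = n then comp w n z else 0 := comp_mem_Hom w n z m

theorem exists_bound (z : FreeLieAlgebra K Y) :
    ∃ N, ∀ M, N ≤ M → comp w M z = 0 ∧ ∑ n ∈ range M, comp w n z = z := by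
  have hz := mem_iSup_Hom w z
  induction hz using Submodule.iSup_induction' with
  | mem i a ha =>
    refine ⟨i + 1, fun M hM => ⟨comp_ne w ha (by omega), ?_⟩⟩
    rw [Finset.sum_eq_single i]
    · exact comp_same w ha
    · intro n _ hn
      exact comp_ne w ha hn
    · intro h
      exact absurd (Finset.mem_range.2 (by omega)) h
  | zero => exact ⟨0, fun M _ => ⟨map_zero _, by simp⟩⟩
  | add a b _ _ h1 h2 =>
    obtain ⟨N, hN⟩ := h1
    obtain ⟨N', hN'⟩ := h2
    refine ⟨max N N', fun M hM => ⟨?_, ?_⟩⟩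
    · rw [map_add, (hN M (by omega)).1, (hN' M (by omega)).1, add_zero]
    · simp only [map_add, Finset.sum_add_distrib]
      rw [(hN M (by omega)).2, (hN' M (by omega)).2]

theorem eq_zero_of_comp {z : FreeLieAlgebra K Y} (h : ∀ n, comp w n z = 0) : z = 0 := by
  obtain ⟨N, hN⟩ := exists_bound w z
  rw [← (hN N le_rfl).2]
  exact Finset.sum_eq_zero fun n _ => h n

theorem Hom_zero (hw : ∀ y, 1 ≤ w y) {z : FreeLieAlgebra K Y} (hz : z ∈ Hom w 0) : z = 0 := by
  have := Hom_le (K := K) w (T := fun m => if m = 0 then ⊥ else ⊤) (by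
    intro i j a ha b hb _ _
    by_cases hij : i + j = 0
    · have hi : i = 0 := by omega
      simp only [hi, if_true] at ha
      rw [Submodule.mem_bot] at ha
      rw [ha, zero_lie]
      exact Submodule.zero_mem _
    · simp only [hij, if_false]
      exact Submodule.mem_top) (by
    intro y
    have : w y ≠ 0 := by have := hw y; omega
    simp only [this, if_false]
    exact Submodule.mem_top) 0 hz
  simpa using this

theorem comp_zero (hw : ∀ y, 1 ≤ w y) (z : FreeLieAlgebra K Y) : comp w 0 z = 0 :=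
  Hom_zero w hw (comp_mem_Hom w 0 z)

end Comp

end Pool.Agent.Helper771.FreeLieGrad
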