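import Mathlib
import Pool.Agent.Helper771.FreeLieGrad

set_option autoImplicit false

namespace Pool.Agent.Helper771.FreeLieGrad

universe u v w v'

open Finset

section Maps

variable {K : Type u} [Field K] {Y : Type v} {Z : Type v'}

theorem map_mem_Hom (wY : Y → ℕ) (wZ : Z → ℕ)
    (f : FreeLieAlgebra K Y →ₗ⁅K⁆ FreeLieAlgebra K Z)
    (hf : ∀ y, f (FreeLieAlgebra.of K y) ∈ Hom wZ (wY y)) {m : ℕ} {z : FreeLieAlgebra K Y}
    (hz : z ∈ Hom wY m) : f z ∈ Hom wZ m := by
  refine Hom_le wY (T := fun m => (Hom wZ m).comap (f : FreeLieAlgebra K Y →ₗ[K]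
    FreeLieAlgebra K Z)) ?_ hf m hz
  intro i j a ha b hb _ _
  change f ⁅a, b⁆ ∈ Hom wZ (i + j)
  rw [LieHom.map_lie]
  exact lie_mem_Hom wZ ha hb

theorem comp_map (wY : Y → ℕ) (wZ : Z → ℕ)
    (f : FreeLieAlgebra K Y →ₗ⁅K⁆ FreeLieAlgebra K Z)
    (hf : ∀ y, f (FreeLieAlgebra.of K y) ∈ Hom wZ (wY y)) (n : ℕ) (z : FreeLieAlgebra K Y) :
    comp wZ n (f z) = f (comp wY n z) := by
  have hz := mem_iSup_Hom wY z
  induction hz using Submodule.iSup_induction' with
  | mem i a ha =>
    rw [ha n, map_mem_Hom wY wZ f hf ha n]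
    split_ifs
    · rfl
    · rw [map_zero]
  | zero => simp only [map_zero]
  | add a b _ _ h1 h2 => simp only [map_add, h1, h2]

/-- the graded leading part of a homomorphism -/
noncomputable def leadHom (wY : Y → ℕ) (wZ : Z → ℕ)
    (ψ : FreeLieAlgebra K Y →ₗ⁅K⁆ FreeLieAlgebra K Z) :
    FreeLieAlgebra K Y →ₗ⁅K⁆ FreeLieAlgebra K Z :=
  FreeLieAlgebra.lift K (fun y => comp wZ (wY y) (ψ (FreeLieAlgebra.of K y)))

theorem leadHom_of (wY : Y → ℕ) (wZ : Z → ℕ)
    (ψ : FreeLieAlgebra K Y →ₗ⁅K⁆ FreeLieAlgebra K Z) (y : Y) :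
    leadHom wY wZ ψ (FreeLieAlgebra.of K y) = comp wZ (wY y) (ψ (FreeLieAlgebra.of K y)) := by
  unfold leadHom
  rw [FreeLieAlgebra.lift_of_apply]

theorem lead_aux (wY : Y → ℕ) (wZ : Z → ℕ)
    (ψ : FreeLieAlgebra K Y →ₗ⁅K⁆ FreeLieAlgebra K Z)
    (hψ : ∀ y, ∀ n, wY y < n → comp wZ n (ψ (FreeLieAlgebra.of K y)) = 0) {m : ℕ}
    {z : FreeLieAlgebra K Y} (hz : z ∈ Hom wY m) :
    (∀ n, m < n → comp wZ n (ψ z) = 0) ∧ comp wZ m (ψ z) = leadHom wY wZ ψ z := by
  have key := Hom_le (K := K) wY (T := fun m =>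
    { carrier := {z | (∀ n, m < n → comp wZ n (ψ z) = 0) ∧ comp wZ m (ψ z) = leadHom wY wZ ψ z}
      add_mem' := by
        rintro a b ⟨ha, ha'⟩ ⟨hb, hb'⟩
        refine ⟨fun n hn => ?_, ?_⟩
        · rw [map_add, map_add, ha n hn, hb n hn, add_zero]
        · rw [map_add, map_add, map_add, ha', hb']
      zero_mem' := by
        refine ⟨fun n _ => ?_, ?_⟩
        · rw [map_zero, map_zero]
        · rw [map_zero, map_zero, map_zero]
      smul_mem' := by
        rintro c a ⟨ha, ha'⟩
        refine ⟨fun n hn => ?_, ?_⟩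
        · rw [map_smul, map_smul, ha n hn, smul_zero]
        · rw [map_smul, map_smul, map_smul, ha'] }) (by
      rintro i j a ⟨ha, ha'⟩ b ⟨hb, hb'⟩ _ _
      refine ⟨fun n hn => ?_, ?_⟩
      · rw [LieHom.map_lie, comp_lie]
        refine Finset.sum_eq_zero ?_
        rintro ⟨p, q⟩ hp
        rw [HasAntidiagonal.mem_antidiagonal] at hp
        dsimp only at hp ⊢
        by_cases hpi : i < p
        · rw [ha p hpi, zero_lie]
        · rw [hb q (by omega), lie_zero]
      · rw [LieHom.map_lie, comp_lie, LieHom.map_lie, ← ha', ← hb']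
        rw [Finset.sum_eq_single (i, j)]
        · rintro ⟨p, q⟩ hp hne
          rw [HasAntidiagonal.mem_antidiagonal] at hp
          dsimp only at hp ⊢
          by_cases hpi : i < p
          · rw [ha p hpi, zero_lie]
          · by_cases hqj : j < q
            · rw [hb q hqj, lie_zero]
            · exfalso
              apply hne
              have h1 : p = i := by omega
              have h2 : q = j := by omega
              rw [h1, h2]
        · intro h
          exact absurd (by rw [HasAntidiagonal.mem_antidiagonal]) h) (by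
      intro y
      exact ⟨hψ y, (leadHom_of wY wZ ψ y).symm⟩) m hz
  exact key

/-- elements of weight at most `D` -/
def Le (w : Y → ℕ) (D : ℕ) : Submodule K (FreeLieAlgebra K Y) where
  carrier := {z | ∀ n, D < n → comp w n z = 0}
  add_mem' := by
    intro a b ha hb n hn
    rw [map_add, ha n hn, hb n hn, add_zero]
  zero_mem' := by
    intro n _
    rw [map_zero]
  smul_mem' := by
    intro c a ha n hn
    rw [map_smul, ha n hn, smul_zero]

theorem mem_Le {w : Y → ℕ} {D : ℕ} {z : FreeLieAlgebra K Y} :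
    z ∈ Le w D ↔ ∀ n, D < n → comp w n z = 0 := Iff.rfl

theorem Hom_le_Le (w : Y → ℕ) {m D : ℕ} (h : m ≤ D) {z : FreeLieAlgebra K Y}
    (hz : z ∈ Hom w m) : z ∈ Le w D := fun n hn => comp_ne w hz (by omega)

theorem Le_mono (w : Y → ℕ) {D D' : ℕ} (h : D ≤ D') {z : FreeLieAlgebra K Y}
    (hz : z ∈ Le w D) : z ∈ Le w D' := fun n hn => hz n (by omega)

theorem exists_Le (w : Y → ℕ) (z : FreeLieAlgebra K Y) : ∃ D, z ∈ Le w D := by
  obtain ⟨N, hN⟩ := exists_bound w z
  exact ⟨N, fun n hn => (hN n hn.le).1⟩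

theorem sum_comp_of_Le (w : Y → ℕ) {D : ℕ} {z : FreeLieAlgebra K Y} (hz : z ∈ Le w D) :
    ∑ n ∈ range (D + 1), comp w n z = z := by
  obtain ⟨N, hN⟩ := exists_bound w z
  have h1 := (hN (max N (D + 1)) (le_max_left _ _)).2
  rw [← Finset.sum_subset (Finset.range_subset_range.2 (le_max_right N (D + 1)))] at h1
  · exact h1
  · intro n _ hn
    rw [Finset.mem_range] at hn
    exact hz n (by omega)

theorem lead_Le (wY : Y → ℕ) (wZ : Z → ℕ)
    (ψ : FreeLieAlgebra K Y →ₗ⁅K⁆ FreeLieAlgebra K Z)
    (hψ : ∀ y, ∀ n, wY y < n → comp wZ n (ψ (FreeLieAlgebra.of K y)) = 0) {D : ℕ}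
    {z : FreeLieAlgebra K Y} (hz : z ∈ Le wY D) :
    (∀ n, D < n → comp wZ n (ψ z) = 0) ∧ comp wZ D (ψ z) = leadHom wY wZ ψ (comp wY D z) := by
  rw [← sum_comp_of_Le wY hz]
  constructor
  · intro n hn
    rw [map_sum, map_sum]
    refine Finset.sum_eq_zero fun k hk => ?_
    rw [Finset.mem_range] at hk
    exact (lead_aux wY wZ ψ hψ (comp_mem_Hom wY k z)).1 n (by omega)
  · rw [map_sum, map_sum, map_sum, Finset.sum_range_succ, Finset.sum_eq_zero, zero_add,
      (lead_aux wY wZ ψ hψ (comp_mem_Hom wY D z)).2]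
    · rw [Finset.sum_eq_single_of_mem D (by simp), comp_comp, if_pos rfl]
      intro k _ hk
      rw [comp_comp, if_neg hk.symm]
    · intro k hk
      rw [Finset.mem_range] at hk
      exact (lead_aux wY wZ ψ hψ (comp_mem_Hom wY k z)).1 D hk

/-- If the graded leading part of `ψ` is injective, then `ψ` preserves weights exactly. -/
theorem mem_Le_of_map (wY : Y → ℕ) (wZ : Z → ℕ)
    (ψ : FreeLieAlgebra K Y →ₗ⁅K⁆ FreeLieAlgebra K Z)
    (hψ : ∀ y, ∀ n, wY y < n → comp wZ n (ψ (FreeLieAlgebra.of K y)) = 0)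
    (hinj : Function.Injective (leadHom wY wZ ψ)) {D : ℕ} {z : FreeLieAlgebra K Y}
    (hz : ψ z ∈ Le wZ D) : z ∈ Le wY D := by
  obtain ⟨E, hE⟩ := exists_Le wY z
  induction E with
  | zero => exact Le_mono wY (Nat.zero_le D) hE
  | succ E ih =>
    by_cases h : E + 1 ≤ D
    · exact Le_mono wY h hE
    · apply ih
      intro n hn
      by_cases hn' : n = E + 1
      · subst hn'
        have h1 := (lead_Le wY wZ ψ hψ hE).2
        rw [hz (E + 1) (by omega)] at h1
        exact hinj (by rw [← h1, map_zero])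
      · exact hE n (by omega)

/-- a unipotent endomorphism is injective -/
theorem injective_of_low (w : Y → ℕ) (κ : FreeLieAlgebra K Y →ₗ⁅K⁆ FreeLieAlgebra K Y)
    (hκ : ∀ y, ∀ n, n ≤ w y → comp w n (κ (FreeLieAlgebra.of K y)) =
      comp w n (FreeLieAlgebra.of K y)) : Function.Injective κ := by
  have key : ∀ m, ∀ z ∈ Hom w m, ∀ n, n ≤ m → comp w n (κ z) = comp w n z := by
    intro m z hz
    have := Hom_le (K := K) w (T := fun m =>
      { carrier := {z | z ∈ Hom w m ∧ ∀ n, n ≤ m → comp w n (κ z) = comp w n z}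
        add_mem' := by
          rintro a b ⟨ha, ha'⟩ ⟨hb, hb'⟩
          refine ⟨Submodule.add_mem _ ha hb, fun n hn => ?_⟩
          rw [map_add, map_add, map_add, ha' n hn, hb' n hn]
        zero_mem' := ⟨Submodule.zero_mem _, fun n hn => by rw [map_zero]⟩
        smul_mem' := by
          rintro c a ⟨ha, ha'⟩
          refine ⟨Submodule.smul_mem _ c ha, fun n hn => ?_⟩
          rw [map_smul, map_smul, map_smul, ha' n hn] }) (by
        rintro i j a ⟨ha, ha'⟩ b ⟨hb, hb'⟩ _ _
        refine ⟨lie_mem_Hom w ha hb, fun n hn => ?_⟩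
        rw [LieHom.map_lie, comp_lie, comp_lie]
        refine Finset.sum_congr rfl ?_
        rintro ⟨p, q⟩ hp
        rw [HasAntidiagonal.mem_antidiagonal] at hp
        dsimp only at hp ⊢
        by_cases hpi : p ≤ i
        · by_cases hqj : q ≤ j
          · rw [ha' p hpi, hb' q hqj]
          · have hpi' : p < i := by omega
            rw [ha' p hpi, comp_ne w ha hpi'.ne, zero_lie, zero_lie]
        · have hqj : q < j := by omega
          rw [hb' q hqj.le, comp_ne w hb hqj.ne, lie_zero, lie_zero]) (by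
        intro y
        exact ⟨of_mem_Hom w y, hκ y⟩) m hz
    exact this.2
  rw [injective_iff_map_eq_zero]
  intro z hz
  by_contra hne
  have hex : ∃ n, comp w n z ≠ 0 := by
    by_contra hcon
    push Not at hcon
    exact hne (eq_zero_of_comp w hcon)
  classical
  let m := Nat.find hex
  have hm : comp w m z ≠ 0 := Nat.find_spec hex
  have hmin : ∀ k, k < m → comp w k z = 0 := fun k hk => by
    have := Nat.find_min hex hk
    simpa using this
  apply hm
  obtain ⟨N, hN⟩ := exists_bound w z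
  have h1 : comp w m (κ z) = comp w m z := by
    conv_lhs => rw [← (hN N le_rfl).2]
    conv_rhs => rw [← (hN N le_rfl).2]
    rw [map_sum, map_sum, map_sum]
    refine Finset.sum_congr rfl fun k _ => ?_
    by_cases hk : k < m
    · rw [hmin k hk, map_zero]
    · exact key k _ (comp_mem_Hom w k z) m (by omega)
  rw [← h1, hz, map_zero]

end Maps

/-! ### Linear maps killing brackets -/

section Ab

variable {K : Type u} [Field K] {Y : Type v} {Z : Type v'}

/-- a vector space with zero bracket -/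
def AbL (V : Type w) : Type w := V

section
variable {V : Type w} [AddCommGroup V] [Module K V]

instance : AddCommGroup (AbL V) := inferInstanceAs (AddCommGroup V)
instance : Module K (AbL V) := inferInstanceAs (Module K V)
instance : Bracket (AbL V) (AbL V) := ⟨fun _ _ => 0⟩

theorem AbL.lie_eq (a b : AbL V) : ⁅a, b⁆ = 0 := rfl

instance : LieRing (AbL V) where
  add_lie a b c := by simp only [AbL.lie_eq, add_zero]
  lie_add a b c := by simp only [AbL.lie_eq, add_zero]
  lie_self a := rfl
  leibniz_lie a b c := by simp only [AbL.lie_eq, add_zero]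

instance : LieAlgebra K (AbL V) where
  lie_smul c a b := by simp only [AbL.lie_eq, smul_zero]

end

/-- the linear map killing brackets with prescribed values on generators -/
noncomputable def abMap {V : Type w} [AddCommGroup V] [Module K V] (f : Y → V) :
    FreeLieAlgebra K Y →ₗ[K] V :=
  ((FreeLieAlgebra.lift K (L := AbL V) f : FreeLieAlgebra K Y →ₗ⁅K⁆ AbL V) :
    FreeLieAlgebra K Y →ₗ[K] AbL V)

theorem abMap_of {V : Type w} [AddCommGroup V] [Module K V] (f : Y → V) (y : Y) :
    abMap (K := K) f (FreeLieAlgebra.of K y) = f y :=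
  FreeLieAlgebra.lift_of_apply (R := K) (L := AbL V) f y

theorem abMap_lie {V : Type w} [AddCommGroup V] [Module K V] (f : Y → V)
    (a b : FreeLieAlgebra K Y) : abMap (K := K) f ⁅a, b⁆ = 0 :=
  LieHom.map_lie (FreeLieAlgebra.lift K (L := AbL V) f) a b

theorem ab_unique {V : Type w} [AddCommGroup V] [Module K V]
    (f g : FreeLieAlgebra K Y →ₗ[K] V) (hf : ∀ a b : FreeLieAlgebra K Y, f ⁅a, b⁆ = 0)
    (hg : ∀ a b : FreeLieAlgebra K Y, g ⁅a, b⁆ = 0)
    (h : ∀ y, f (FreeLieAlgebra.of K y) = g (FreeLieAlgebra.of K y)) (z : FreeLieAlgebra K Y) :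
    f z = g z := by
  refine free_induction (P := fun z => f z = g z) h ?_ ?_ ?_ ?_ z
  · rw [map_zero, map_zero]
  · intro a b ha hb
    rw [map_add, map_add, ha, hb]
  · intro c a ha
    rw [map_smul, map_smul, ha]
  · intro a b _ _
    rw [hf, hg]

/-- the abelianisation -/
noncomputable def ab : FreeLieAlgebra K Y →ₗ[K] (Y →₀ K) := abMap fun y => Finsupp.single y 1

theorem ab_of (y : Y) : ab (K := K) (FreeLieAlgebra.of K y) = Finsupp.single y 1 := abMap_of _ _

theorem ab_lie (a b : FreeLieAlgebra K Y) : ab ⁅a, b⁆ = 0 := abMap_lie _ _ _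

/-- linear combination of generators -/
noncomputable def linc : (Y →₀ K) →ₗ[K] FreeLieAlgebra K Y :=
  Finsupp.linearCombination K (FreeLieAlgebra.of K)

theorem linc_single (y : Y) (c : K) : linc (Finsupp.single y c) = c • FreeLieAlgebra.of K y := by
  unfold linc
  rw [Finsupp.linearCombination_single]

theorem ab_linc (c : Y →₀ K) : ab (linc c) = c := by
  induction c using Finsupp.induction_linear with
  | zero => rw [map_zero, map_zero]
  | add f g hf hg => rw [map_add, map_add, hf, hg]
  | single y c => rw [linc_single, map_smul, ab_of, Finsupp.smul_single, smul_eq_mul, mul_one]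

theorem comp_one_eq (z : FreeLieAlgebra K Y) : comp (fun _ => 1) 1 z = linc (ab z) := by
  refine ab_unique (comp (fun _ => 1) 1) (linc ∘ₗ ab) ?_ ?_ ?_ z
  · intro a b
    rw [comp_lie]
    refine Finset.sum_eq_zero ?_
    rintro ⟨p, q⟩ hp
    rw [HasAntidiagonal.mem_antidiagonal] at hp
    dsimp only at hp ⊢
    by_cases hp0 : p = 0
    · rw [hp0, comp_zero _ (fun _ => le_rfl), zero_lie]
    · have : q = 0 := by omega
      rw [this, comp_zero _ (fun _ => le_rfl), lie_zero]
  · intro a b
    rw [LinearMap.comp_apply, ab_lie, map_zero]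
  · intro y
    rw [LinearMap.comp_apply, ab_of, linc_single, one_smul, comp_of, if_pos rfl]

/-- Homomorphisms which are injective on abelianisations are injective. -/
theorem lift_injective_of_linearIndependent (h : Z → FreeLieAlgebra K Y)
    (hh : LinearIndependent K (fun i => ab (h i))) :
    Function.Injective (FreeLieAlgebra.lift K h) := by
  obtain ⟨q, hq⟩ := LinearMap.exists_leftInverse_of_injective
    (Finsupp.linearCombination K (fun i => ab (h i))) (LinearMap.ker_eq_bot.2 hh)
  let θ : FreeLieAlgebra K Y →ₗ⁅K⁆ FreeLieAlgebra K Z :=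
    FreeLieAlgebra.lift K (fun y => linc (q (Finsupp.single y 1)))
  have h1 : ∀ z, ab (θ z) = q (ab z) := by
    intro z
    refine ab_unique (ab ∘ₗ (θ : FreeLieAlgebra K Y →ₗ[K] FreeLieAlgebra K Z)) (q ∘ₗ ab)
      ?_ ?_ ?_ z
    · intro a b
      change ab (θ ⁅a, b⁆) = 0
      rw [LieHom.map_lie, ab_lie]
    · intro a b
      rw [LinearMap.comp_apply, ab_lie, map_zero]
    · intro y
      change ab (θ (FreeLieAlgebra.of K y)) = q (ab (FreeLieAlgebra.of K y))
      simp only [θ]
      rw [FreeLieAlgebra.lift_of_apply, ab_linc, ab_of]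
  have h2 : ∀ i, q (ab (h i)) = Finsupp.single i 1 := by
    intro i
    have := LinearMap.congr_fun hq (Finsupp.single i 1)
    simpa using this
  have hκ : Function.Injective (θ.comp (FreeLieAlgebra.lift K h)) := by
    refine injective_of_low (fun _ => 1) _ ?_
    intro y n hn
    have h3 : (θ.comp (FreeLieAlgebra.lift K h)) (FreeLieAlgebra.of K y) = θ (h y) := by
      change θ (FreeLieAlgebra.lift K h (FreeLieAlgebra.of K y)) = _
      rw [FreeLieAlgebra.lift_of_apply]
    rw [h3]
    rcases Nat.lt_or_ge n 1 with h0 | h0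
    · have : n = 0 := by omega
      subst this
      rw [comp_zero _ (fun _ => le_rfl), comp_zero _ (fun _ => le_rfl)]
    · have : n = 1 := by omega
      subst this
      rw [comp_one_eq, comp_one_eq, h1, h2, ab_of]
  exact Function.Injective.of_comp (f := θ) hκ

end Ab

end Pool.Agent.Helper771.FreeLieGrad
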