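import Mathlib
import Pool.Agent.Helper771.FreeLieMaps

set_option autoImplicit false

namespace Pool.Agent.Helper771.FreeLieGrad

universe u v w v'

open Finset

/-! ### Dual numbers and derivations -/

section Dual

variable {K : Type u} [Field K] {M : Type v} [LieRing M] [LieAlgebra K M]

/-- dual numbers over a Lie algebra -/
def DualL (M : Type v) : Type v := M × M

instance : AddCommGroup (DualL M) := inferInstanceAs (AddCommGroup (M × M))
instance : Module K (DualL M) := inferInstanceAs (Module K (M × M))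
instance : Bracket (DualL M) (DualL M) := ⟨fun a b => (⁅a.1, b.1⁆, ⁅a.1, b.2⁆ + ⁅a.2, b.1⁆)⟩

theorem DualL.lie_fst (a b : DualL M) : (⁅a, b⁆ : DualL M).1 = ⁅a.1, b.1⁆ := rfl
theorem DualL.lie_snd (a b : DualL M) : (⁅a, b⁆ : DualL M).2 = ⁅a.1, b.2⁆ + ⁅a.2, b.1⁆ := rfl
theorem DualL.add_fst (a b : DualL M) : (a + b).1 = a.1 + b.1 := rfl
theorem DualL.add_snd (a b : DualL M) : (a + b).2 = a.2 + b.2 := rfl
theorem DualL.zero_fst : (0 : DualL M).1 = 0 := rfl
theorem DualL.zero_snd : (0 : DualL M).2 = 0 := rfl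
theorem DualL.smul_fst (c : K) (a : DualL M) : (c • a).1 = c • a.1 := rfl
theorem DualL.smul_snd (c : K) (a : DualL M) : (c • a).2 = c • a.2 := rfl

omit [LieRing M] in
theorem DualL.ext' {a b : DualL M} (h : a.1 = b.1) (h' : a.2 = b.2) : a = b := Prod.ext h h'

instance : LieRing (DualL M) where
  add_lie a b c := by
    apply DualL.ext'
    · simp only [DualL.lie_fst, DualL.add_fst, add_lie]
    · simp only [DualL.lie_snd, DualL.add_fst, DualL.add_snd, add_lie]; abel
  lie_add a b c := by
    apply DualL.ext'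
    · simp only [DualL.lie_fst, DualL.add_fst, lie_add]
    · simp only [DualL.lie_snd, DualL.add_fst, DualL.add_snd, lie_add]; abel
  lie_self a := by
    apply DualL.ext'
    · simp only [DualL.lie_fst, lie_self, DualL.zero_fst]
    · simp only [DualL.lie_snd, DualL.zero_snd]
      rw [← lie_skew]; exact neg_add_cancel _
  leibniz_lie a b c := by
    apply DualL.ext'
    · simp only [DualL.lie_fst, DualL.add_fst]
      exact leibniz_lie _ _ _
    · simp only [DualL.lie_fst, DualL.lie_snd, DualL.add_snd, lie_add, add_lie]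
      rw [leibniz_lie a.1 b.1 c.2, leibniz_lie a.1 b.2 c.1, leibniz_lie a.2 b.1 c.1]
      abel

instance : LieAlgebra K (DualL M) where
  lie_smul c a b := by
    apply DualL.ext'
    · simp only [DualL.lie_fst, DualL.smul_fst, lie_smul]
    · simp only [DualL.lie_snd, DualL.smul_fst, DualL.smul_snd, lie_smul, smul_add]

/-- derivations of the free Lie algebra with prescribed values on the generators -/
theorem exists_derivation {Z : Type w} (δ : Z → FreeLieAlgebra K Z) :
    ∃ D : FreeLieAlgebra K Z →ₗ[K] FreeLieAlgebra K Z,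
      (∀ z, D (FreeLieAlgebra.of K z) = δ z) ∧
      ∀ a b : FreeLieAlgebra K Z, D ⁅a, b⁆ = ⁅D a, b⁆ + ⁅a, D b⁆ := by
  let f : FreeLieAlgebra K Z →ₗ⁅K⁆ DualL (FreeLieAlgebra K Z) :=
    FreeLieAlgebra.lift K (fun z => (FreeLieAlgebra.of K z, δ z))
  have hf : ∀ z, f (FreeLieAlgebra.of K z) = (FreeLieAlgebra.of K z, δ z) := fun z =>
    FreeLieAlgebra.lift_of_apply (R := K) (L := DualL (FreeLieAlgebra K Z)) _ z
  have h1 : ∀ z, (f z).1 = z := by
    intro z
    refine free_induction (P := fun z => (f z).1 = z) ?_ ?_ ?_ ?_ ?_ z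
    · intro y; rw [hf]
    · rw [map_zero]; rfl
    · intro a b ha hb
      rw [map_add, DualL.add_fst, ha, hb]
    · intro c a ha
      rw [map_smul, DualL.smul_fst, ha]
    · intro a b ha hb
      rw [LieHom.map_lie, DualL.lie_fst, ha, hb]
  refine ⟨{ toFun := fun z => (f z).2, map_add' := ?_, map_smul' := ?_ }, ?_, ?_⟩
  · intro a b; rw [map_add]; rfl
  · intro c a; rw [map_smul]; rfl
  · intro z
    change (f (FreeLieAlgebra.of K z)).2 = _
    rw [hf]
  · intro a b
    change (f ⁅a, b⁆).2 = ⁅(f a).2, b⁆ + ⁅a, (f b).2⁆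
    rw [LieHom.map_lie, DualL.lie_snd, h1, h1, add_comm]

end Dual

/-! ### The semidirect product with a derivation -/

section Semi

variable {K : Type u} [Field K] {M : Type v} [LieRing M] [LieAlgebra K M]

/-- `K ⋉ M` -/
structure EL (D : M →ₗ[K] M) (_ : ∀ a b : M, D ⁅a, b⁆ = ⁅D a, b⁆ + ⁅a, D b⁆) :
    Type (max u v) where
  fst : K
  snd : M

variable {D : M →ₗ[K] M} {hD : ∀ a b : M, D ⁅a, b⁆ = ⁅D a, b⁆ + ⁅a, D b⁆}

theorem EL.ext' {a b : EL D hD} (h : a.fst = b.fst) (h' : a.snd = b.snd) : a = b := by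
  cases a; cases b; simp_all

instance : Add (EL D hD) := ⟨fun a b => ⟨a.fst + b.fst, a.snd + b.snd⟩⟩
instance : Zero (EL D hD) := ⟨⟨0, 0⟩⟩
instance : Neg (EL D hD) := ⟨fun a => ⟨-a.fst, -a.snd⟩⟩
instance : SMul K (EL D hD) := ⟨fun c a => ⟨c * a.fst, c • a.snd⟩⟩

@[simp] theorem EL.add_fst (a b : EL D hD) : (a + b).fst = a.fst + b.fst := rfl
@[simp] theorem EL.add_snd (a b : EL D hD) : (a + b).snd = a.snd + b.snd := rfl
@[simp] theorem EL.zero_fst : (0 : EL D hD).fst = 0 := rfl
@[simp] theorem EL.zero_snd : (0 : EL D hD).snd = 0 := rfl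
@[simp] theorem EL.neg_fst (a : EL D hD) : (-a).fst = -a.fst := rfl
@[simp] theorem EL.neg_snd (a : EL D hD) : (-a).snd = -a.snd := rfl
@[simp] theorem EL.smul_fst (c : K) (a : EL D hD) : (c • a).fst = c * a.fst := rfl
@[simp] theorem EL.smul_snd (c : K) (a : EL D hD) : (c • a).snd = c • a.snd := rfl

instance : AddCommGroup (EL D hD) where
  add_assoc a b c := EL.ext' (by simp [add_assoc]) (by simp [add_assoc])
  zero_add a := EL.ext' (by simp) (by simp)
  add_zero a := EL.ext' (by simp) (by simp)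
  add_comm a b := EL.ext' (by simp [add_comm]) (by simp [add_comm])
  neg_add_cancel a := EL.ext' (by simp) (by simp)
  nsmul := nsmulRec
  zsmul := zsmulRec

@[simp] theorem EL.sub_fst (a b : EL D hD) : (a - b).fst = a.fst - b.fst := by
  rw [sub_eq_add_neg, EL.add_fst, EL.neg_fst, sub_eq_add_neg]
@[simp] theorem EL.sub_snd (a b : EL D hD) : (a - b).snd = a.snd - b.snd := by
  rw [sub_eq_add_neg, EL.add_snd, EL.neg_snd, sub_eq_add_neg]

instance : Module K (EL D hD) where
  one_smul a := EL.ext' (by simp) (by simp)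
  mul_smul a b c := EL.ext' (by simp [mul_assoc]) (by simp [mul_smul])
  smul_zero a := EL.ext' (by simp) (by simp)
  smul_add a b c := EL.ext' (by simp [mul_add]) (by simp)
  add_smul a b c := EL.ext' (by simp [add_mul]) (by simp [add_smul])
  zero_smul a := EL.ext' (by simp) (by simp)

instance : Bracket (EL D hD) (EL D hD) :=
  ⟨fun a b => ⟨0, a.fst • D b.snd - b.fst • D a.snd + ⁅a.snd, b.snd⁆⟩⟩

@[simp] theorem EL.lie_fst (a b : EL D hD) : (⁅a, b⁆ : EL D hD).fst = 0 := rfl
@[simp] theorem EL.lie_snd (a b : EL D hD) :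
    (⁅a, b⁆ : EL D hD).snd = a.fst • D b.snd - b.fst • D a.snd + ⁅a.snd, b.snd⁆ := rfl

instance : LieRing (EL D hD) where
  add_lie a b c := by
    apply EL.ext'
    · simp only [EL.lie_fst, EL.add_fst, add_zero]
    · simp only [EL.lie_snd, EL.add_fst, EL.add_snd, add_lie, map_add]; module
  lie_add a b c := by
    apply EL.ext'
    · simp only [EL.lie_fst, EL.add_fst, add_zero]
    · simp only [EL.lie_snd, EL.add_fst, EL.add_snd, lie_add, map_add]; module
  lie_self a := by
    apply EL.ext'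
    · rfl
    · simp only [EL.lie_snd, EL.zero_snd, lie_self, sub_self, add_zero]
  leibniz_lie a b c := by
    apply EL.ext'
    · simp only [EL.lie_fst, EL.add_fst, add_zero]
    · simp only [EL.lie_fst, EL.lie_snd, EL.add_snd, lie_add, add_lie, lie_sub, sub_lie, map_add,
        map_sub, map_smul, hD, lie_smul, smul_lie]
      rw [leibniz_lie a.2 b.2 c.2, ← lie_skew (D a.2) b.2]
      module

instance : LieAlgebra K (EL D hD) where
  lie_smul c a b := by
    apply EL.ext'
    · simp only [EL.lie_fst, EL.smul_fst, mul_zero]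
    · simp only [EL.lie_snd, EL.smul_fst, EL.smul_snd, lie_smul, map_smul]; module

end Semi

/-! ### Lazard elimination -/

section Elim

variable {K : Type u} [Field K] {Y : Type v}

/-- Lazard elimination: the kernel of a functional is a free Lie algebra. -/
theorem elim (y₀ : Y) (χ : Y → K) (hχ : χ y₀ = 1) :
    ∃ e : FreeLieAlgebra K (ℕ × {y : Y // y ≠ y₀}) →ₗ⁅K⁆ FreeLieAlgebra K Y,
      (∀ m y, e (FreeLieAlgebra.of K (m, y)) =
        (fun z : FreeLieAlgebra K Y => ⁅FreeLieAlgebra.of K y₀, z⁆)^[m]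
          (FreeLieAlgebra.of K (y : Y) - χ y • FreeLieAlgebra.of K y₀)) ∧
      Function.Injective e ∧
      (∀ z, abMap χ (e z) = 0) ∧
      ∀ z, abMap χ z = 0 → ∃ z', e z' = z := by
  classical
  obtain ⟨D, hDof, hD⟩ := exists_derivation (K := K)
    (fun p : ℕ × {y : Y // y ≠ y₀} => FreeLieAlgebra.of K (p.1 + 1, p.2))
  let e : FreeLieAlgebra K (ℕ × {y : Y // y ≠ y₀}) →ₗ⁅K⁆ FreeLieAlgebra K Y :=
    FreeLieAlgebra.lift K (fun p =>
      (fun z : FreeLieAlgebra K Y => ⁅FreeLieAlgebra.of K y₀, z⁆)^[p.1]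
          (FreeLieAlgebra.of K (p.2 : Y) - χ p.2 • FreeLieAlgebra.of K y₀))
  have he : ∀ m y, e (FreeLieAlgebra.of K (m, y)) =
        (fun z : FreeLieAlgebra K Y => ⁅FreeLieAlgebra.of K y₀, z⁆)^[m]
          (FreeLieAlgebra.of K (y : Y) - χ y • FreeLieAlgebra.of K y₀) := by
    intro m y
    simp only [e]
    rw [FreeLieAlgebra.lift_of_apply]
  let g : Y → EL D hD := fun y =>
    if h : y = y₀ then ⟨1, 0⟩ else ⟨χ y, FreeLieAlgebra.of K (0, ⟨y, h⟩)⟩
  let U : FreeLieAlgebra K Y →ₗ⁅K⁆ EL D hD := FreeLieAlgebra.lift K g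
  have hU : ∀ y, U (FreeLieAlgebra.of K y) = g y := fun y =>
    FreeLieAlgebra.lift_of_apply (R := K) (L := EL D hD) _ y
  have hU0 : U (FreeLieAlgebra.of K y₀) = ⟨1, 0⟩ := by
    rw [hU]; simp [g]
  have hU1 : ∀ y : {y : Y // y ≠ y₀}, U (FreeLieAlgebra.of K (y : Y)) =
      ⟨χ y, FreeLieAlgebra.of K (0, y)⟩ := by
    intro y
    rw [hU]
    simp [g, y.2]
  have hiter : ∀ m (y : {y : Y // y ≠ y₀}), U ((fun z : FreeLieAlgebra K Y =>
      ⁅FreeLieAlgebra.of K y₀, z⁆)^[m]
          (FreeLieAlgebra.of K (y : Y) - χ y • FreeLieAlgebra.of K y₀)) =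
      ⟨0, FreeLieAlgebra.of K (m, y)⟩ := by
    intro m y
    induction m with
    | zero =>
      rw [Function.iterate_zero, id, map_sub, map_smul, hU0, hU1]
      apply EL.ext'
      · simp
      · simp
    | succ m ih =>
      rw [Function.iterate_succ_apply', LieHom.map_lie, ih, hU0]
      apply EL.ext'
      · simp
      · simp [hDof]
  have hUe : ∀ z, U (e z) = ⟨0, z⟩ := by
    intro z
    refine free_induction (P := fun z => U (e z) = ⟨0, z⟩) ?_ ?_ ?_ ?_ ?_ z
    · rintro ⟨m, y⟩
      rw [he, hiter]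
    · rw [map_zero, map_zero]; rfl
    · intro a b ha hb
      rw [map_add, map_add, ha, hb]
      exact EL.ext' (by simp) (by simp)
    · intro c a ha
      rw [map_smul, map_smul, ha]
      exact EL.ext' (by simp) (by simp)
    · intro a b ha hb
      rw [LieHom.map_lie, LieHom.map_lie, ha, hb]
      exact EL.ext' (by simp) (by simp)
  have heD : ∀ z, e (D z) = ⁅FreeLieAlgebra.of K y₀, e z⁆ := by
    intro z
    refine free_induction (P := fun z => e (D z) = ⁅FreeLieAlgebra.of K y₀, e z⁆)
      ?_ ?_ ?_ ?_ ?_ z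
    · rintro ⟨m, y⟩
      rw [hDof, he, he, Function.iterate_succ_apply']
    · rw [map_zero, map_zero, lie_zero]
    · intro a b ha hb
      rw [map_add, map_add, map_add, lie_add, ha, hb]
    · intro c a ha
      rw [map_smul, map_smul, map_smul, lie_smul, ha]
    · intro a b ha hb
      rw [hD, map_add, LieHom.map_lie, LieHom.map_lie, LieHom.map_lie, ha, hb]
      exact (leibniz_lie _ _ _).symm
  have hrec : ∀ z, z = (U z).fst • FreeLieAlgebra.of K y₀ + e (U z).snd := by
    intro z
    refine free_induction (P := fun z => z = (U z).fst • FreeLieAlgebra.of K y₀ + e (U z).snd)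
      ?_ ?_ ?_ ?_ ?_ z
    · intro y
      by_cases h : y = y₀
      · subst h
        rw [hU0]
        simp
      · have := hU1 ⟨y, h⟩
        change U (FreeLieAlgebra.of K y) = _ at this
        rw [this]
        simp only
        rw [he]
        simp
    · rw [map_zero, EL.zero_fst, EL.zero_snd, zero_smul, map_zero, add_zero]
    · intro a b ha hb
      rw [map_add, EL.add_fst, EL.add_snd, map_add]
      nth_rewrite 1 [ha, hb]
      module
    · intro c a ha
      rw [map_smul, EL.smul_fst, EL.smul_snd, map_smul]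
      nth_rewrite 1 [ha]
      module
    · intro a b ha hb
      rw [LieHom.map_lie, EL.lie_fst, EL.lie_snd, map_add, map_sub, map_smul, map_smul, heD, heD,
        LieHom.map_lie]
      nth_rewrite 1 [ha, hb]
      simp only [lie_add, add_lie, lie_smul, smul_lie, lie_self, smul_zero, zero_add, zero_smul]
      rw [← lie_skew (e (U a).snd) (FreeLieAlgebra.of K y₀)]
      module
  have hfst : ∀ z, (U z).fst = abMap χ z := by
    intro z
    refine ab_unique (⟨⟨fun z => (U z).fst, ?_⟩, ?_⟩ : FreeLieAlgebra K Y →ₗ[K] K) (abMap χ)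
      ?_ ?_ ?_ z
    · intro a b; rw [map_add, EL.add_fst]
    · intro c a
      change (U (c • a)).fst = c • (U a).fst
      rw [map_smul, EL.smul_fst]; rfl
    · intro a b
      change (U ⁅a, b⁆).fst = 0
      rw [LieHom.map_lie, EL.lie_fst]
    · intro a b
      exact abMap_lie _ _ _
    · intro y
      change (U (FreeLieAlgebra.of K y)).1 = _
      rw [abMap_of]
      by_cases h : y = y₀
      · subst h
        rw [hU0, hχ]
      · have := hU1 ⟨y, h⟩
        change U (FreeLieAlgebra.of K y) = _ at this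
        rw [this]
  refine ⟨e, he, ?_, ?_, ?_⟩
  · intro a b hab
    have h1 := hUe a
    rw [hab, hUe] at h1
    exact (congrArg EL.snd h1).symm
  · intro z
    rw [← hfst, hUe]
  · intro z hz
    refine ⟨(U z).snd, ?_⟩
    have h1 := hrec z
    rw [hfst, hz, zero_smul, zero_add] at h1
    exact h1.symm

end Elim

end Pool.Agent.Helper771.FreeLieGrad
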