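import Mathlib
import Pool.Agent.Helper771.FreeLieElim

set_option autoImplicit false

namespace Pool.Agent.Helper771.FreeLieGrad

universe u v w v'

open Finset

section Witt

variable {K : Type u} [Field K] {Y : Type v} (w : Y → ℕ)

/-- span of the brackets of homogeneous elements of lower weight -/
noncomputable def Br (m : ℕ) : Submodule K (FreeLieAlgebra K Y) :=
  Submodule.span K {z | ∃ i j, 1 ≤ i ∧ 1 ≤ j ∧ i + j = m ∧ ∃ a ∈ Hom (K := K) w i,
    ∃ b ∈ Hom (K := K) w j, z = ⁅a, b⁆}

theorem sub_linc_mem_Br (hw : ∀ y, 1 ≤ w y) {m : ℕ} {z : FreeLieAlgebra K Y}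
    (hz : z ∈ Hom w m) : z - linc (ab z) ∈ Br w m := by
  have := Hom_le (K := K) w (T := fun m =>
    { carrier := {z | z - linc (ab z) ∈ Br w m}
      add_mem' := by
        intro a b ha hb
        change a + b - linc (ab (a + b)) ∈ Br w m
        have e : a + b - linc (ab (a + b)) = (a - linc (ab a)) + (b - linc (ab b)) := by
          rw [map_add, map_add]; abel
        rw [e]
        exact Submodule.add_mem _ ha hb
      zero_mem' := by
        change (0 : FreeLieAlgebra K Y) - linc (ab 0) ∈ Br w m
        rw [map_zero, map_zero, sub_zero]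
        exact Submodule.zero_mem _
      smul_mem' := by
        intro c a ha
        change c • a - linc (ab (c • a)) ∈ Br w m
        rw [map_smul, map_smul, ← smul_sub]
        exact Submodule.smul_mem _ c ha }) (by
      intro i j a _ b _ ha hb
      change ⁅a, b⁆ - linc (ab ⁅a, b⁆) ∈ Br w (i + j)
      rw [ab_lie, map_zero, sub_zero]
      by_cases hi : i = 0
      · subst hi
        rw [Hom_zero w hw ha, zero_lie]
        exact Submodule.zero_mem _
      · by_cases hj : j = 0
        · subst hj
          rw [Hom_zero w hw hb, lie_zero]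
          exact Submodule.zero_mem _
        · exact Submodule.subset_span ⟨i, j, by omega, by omega, rfl, a, ha, b, hb, rfl⟩) (by
      intro y
      change FreeLieAlgebra.of K y - linc (ab (FreeLieAlgebra.of K y)) ∈ Br w (w y)
      rw [ab_of, linc_single, one_smul, sub_self]
      exact Submodule.zero_mem _) m hz
  exact this

theorem mem_Br_of_ab (hw : ∀ y, 1 ≤ w y) {m : ℕ} {z : FreeLieAlgebra K Y}
    (hz : z ∈ Hom w m) (h : ab z = 0) : z ∈ Br w m := by
  have := sub_linc_mem_Br w hw hz
  rwa [h, map_zero, sub_zero] at this

theorem ab_support {m : ℕ} {z : FreeLieAlgebra K Y} (hz : z ∈ Hom w m) (y : Y)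
    (hy : w y ≠ m) : ab z y = 0 := by
  have := Hom_le (K := K) w (T := fun m =>
    { carrier := {z | ∀ y, w y ≠ m → ab z y = 0}
      add_mem' := by
        intro a b ha hb y hy
        rw [map_add, Finsupp.add_apply, ha y hy, hb y hy, add_zero]
      zero_mem' := by
        intro y _
        rw [map_zero]; rfl
      smul_mem' := by
        intro c a ha y hy
        rw [map_smul, Finsupp.smul_apply, ha y hy, smul_zero] }) (by
      intro i j a _ b _ _ _ y _
      rw [ab_lie]; rfl) (by
      intro y y' hy'
      rw [ab_of]
      refine Finsupp.single_eq_of_ne ?_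
      rintro rfl
      exact hy' rfl) m hz
  exact this y hy

/-- the Lie subalgebra generated by a subfamily -/
noncomputable def gen {ι : Type w} (h : ι → FreeLieAlgebra K Y) (s : Set ι) :
    LieSubalgebra K (FreeLieAlgebra K Y) :=
  LieSubalgebra.lieSpan K (FreeLieAlgebra K Y) (h '' s)

theorem gen_mono {ι : Type w} (h : ι → FreeLieAlgebra K Y) {s t : Set ι} (hst : s ⊆ t) :
    gen h s ≤ gen h t := LieSubalgebra.lieSpan_mono (Set.image_mono hst)

theorem mem_gen {ι : Type w} (h : ι → FreeLieAlgebra K Y) {s : Set ι} {i : ι} (hi : i ∈ s) :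
    h i ∈ gen h s := LieSubalgebra.subset_lieSpan ⟨i, hi, rfl⟩

theorem gen_le {ι : Type w} {h : ι → FreeLieAlgebra K Y} {s : Set ι}
    {T : LieSubalgebra K (FreeLieAlgebra K Y)} (hT : ∀ i ∈ s, h i ∈ T) : gen h s ≤ T := by
  unfold gen
  rw [LieSubalgebra.lieSpan_le]
  rintro _ ⟨i, hi, rfl⟩
  exact hT i hi

theorem map_gen {Z : Type v'} {ι : Type w} {h : ι → FreeLieAlgebra K Y} {s : Set ι}
    (f : FreeLieAlgebra K Y →ₗ⁅K⁆ FreeLieAlgebra K Z) {z : FreeLieAlgebra K Y}
    (hz : z ∈ gen h s) : f z ∈ gen (fun i => f (h i)) s := by
  have : gen h s ≤ (gen (fun i => f (h i)) s).comap f :=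
    gen_le fun i hi => mem_gen (fun i => f (h i)) hi
  exact this hz

theorem Hom_le_gen {ι : Type w} (hw : ∀ y, 1 ≤ w y) (h : ι → FreeLieAlgebra K Y) (d : ι → ℕ)
    (hh : ∀ i, h i ∈ Hom w (d i)) (D : ℕ)
    (hB : ∀ y, w y ≤ D → Finsupp.single y (1 : K) ∈
      Submodule.span K (Set.range fun i : {i // d i = w y} => ab (h i))) :
    ∀ m, m ≤ D → ∀ z ∈ Hom w m, z ∈ gen h {i | d i ≤ m} := by
  intro m
  induction m using Nat.strong_induction_on with
  | _ m ih =>
    intro hm z hz
    have hBr : ∀ v ∈ Br w m, v ∈ gen h {i | d i ≤ m} := by
      intro v hv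
      refine (Submodule.span_le (p := (gen h {i | d i ≤ m}).toSubmodule)).2 ?_ hv
      rintro _ ⟨i, j, hi, hj, hij, a, ha, b, hb, rfl⟩
      refine LieSubalgebra.lie_mem _ ?_ ?_
      · exact gen_mono h (fun k (hk : d k ≤ i) => by change d k ≤ m; omega)
          (ih i (by omega) (by omega) a ha)
      · exact gen_mono h (fun k (hk : d k ≤ j) => by change d k ≤ m; omega)
          (ih j (by omega) (by omega) b hb)
    have hof : ∀ y, w y = m → FreeLieAlgebra.of K y ∈ gen h {i | d i ≤ m} := by
      intro y hy
      have h1 := hB y (by omega)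
      rw [Finsupp.mem_span_range_iff_exists_finsupp] at h1
      obtain ⟨c, hc⟩ := h1
      let s : FreeLieAlgebra K Y := c.sum fun i a => a • h i
      have hs1 : s ∈ gen h {i | d i ≤ m} := by
        refine sum_mem fun i _ => ?_
        refine LieSubalgebra.smul_mem _ _ (mem_gen h ?_)
        change d i ≤ m
        rw [i.2, hy]
      have hs2 : s ∈ Hom w m := by
        refine sum_mem fun i _ => ?_
        refine Submodule.smul_mem _ _ ?_
        have h1 := hh i
        have h2 : d i = m := i.2.trans hy
        rwa [h2] at h1
      have hs3 : ab s = Finsupp.single y 1 := by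
        rw [← hc]
        simp only [s, Finsupp.sum, map_sum, map_smul]
      have h2 : FreeLieAlgebra.of K y - s ∈ Br w m := by
        refine mem_Br_of_ab w hw (Submodule.sub_mem _ ?_ hs2) ?_
        · have := of_mem_Hom (K := K) w y
          rwa [hy] at this
        · rw [map_sub, ab_of, hs3, sub_self]
      have h3 : FreeLieAlgebra.of K y = (FreeLieAlgebra.of K y - s) + s := by abel
      rw [h3]
      exact add_mem (hBr _ h2) hs1
    have h4 : z = (z - linc (ab z)) + linc (ab z) := by abel
    rw [h4]
    refine add_mem (hBr _ (sub_linc_mem_Br w hw hz)) ?_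
    unfold linc
    rw [Finsupp.linearCombination_apply]
    refine sum_mem fun y hy => ?_
    refine LieSubalgebra.smul_mem _ _ (hof y ?_)
    by_contra hne
    rw [Finsupp.mem_support_iff] at hy
    exact hy (ab_support w hz y hne)

/-- **Shirshov–Witt for homogeneous elements**: homogeneous elements none of which lies in the
subalgebra generated by the others are free generators. -/
theorem injective_of_reduced {ι : Type} [Finite ι] (D : ℕ) (N : ℕ) :
    ∀ (Y : Type) (w : Y → ℕ), (∀ y, 1 ≤ w y) → Module.Finite K (Le (K := K) w D) →
      Module.finrank K (Le (K := K) w D) < N → ∀ (h : ι → FreeLieAlgebra K Y) (d : ι → ℕ),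
      (∀ i, d i ≤ D) → (∀ i, h i ∈ Hom w (d i)) → (∀ i, h i ∉ gen h {j | j ≠ i}) →
      Function.Injective (FreeLieAlgebra.lift K h) := by
  classical
  induction N with
  | zero => intro Y w _ _ hN; exact absurd hN (Nat.not_lt_zero _)
  | succ N ih =>
    intro Y w hw hfin hN h d hd hh hred
    by_cases hli : LinearIndependent K (fun i => ab (h i))
    · exact lift_injective_of_linearIndependent h hli
    have : Fintype ι := Fintype.ofFinite ι
    by_cases hB : ∀ y, w y ≤ D → Finsupp.single y (1 : K) ∈
      Submodule.span K (Set.range fun i : {i // d i = w y} => ab (h i))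
    · exfalso
      rw [Fintype.not_linearIndependent_iff] at hli
      obtain ⟨c, hc, i₀, hi₀⟩ := hli
      set n := d i₀ with hn
      let v := ∑ i ∈ Finset.univ.filter (fun i => d i = n), c i • h i
      have hv1 : v ∈ Hom w n := by
        refine sum_mem fun i hi => Submodule.smul_mem _ _ ?_
        have h1 := hh i
        rwa [(Finset.mem_filter.1 hi).2] at h1
      have hv2 : ab v = 0 := by
        ext y
        by_cases hy : w y = n
        · have h1 : ab v y = (∑ i, c i • ab (h i)) y := by
            simp only [v, map_sum, map_smul]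
            rw [Finset.sum_filter, Finsupp.finsetSum_apply, Finsupp.finsetSum_apply]
            refine Finset.sum_congr rfl fun i _ => ?_
            split_ifs with hi
            · rfl
            · rw [Finsupp.smul_apply, ab_support w (hh i) y (by rw [hy]; exact fun e => hi e.symm),
                smul_zero]
              rfl
          rw [h1, hc]
        · rw [ab_support w hv1 y hy]; rfl
      have hv3 := mem_Br_of_ab w hw hv1 hv2
      have hv4 : v ∈ gen h {j | j ≠ i₀} := by
        refine (Submodule.span_le (p := (gen h {j | j ≠ i₀}).toSubmodule)).2 ?_ hv3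
        rintro _ ⟨i, j, hi, hj, hij, a, ha, b, hb, rfl⟩
        have hnD : n ≤ D := hd i₀
        refine LieSubalgebra.lie_mem _ ?_ ?_
        · refine gen_mono h ?_ (Hom_le_gen w hw h d hh D hB i (by omega) a ha)
          intro k hk
          change k ≠ i₀
          rintro rfl
          have : d k ≤ i := hk
          omega
        · refine gen_mono h ?_ (Hom_le_gen w hw h d hh D hB j (by omega) b hb)
          intro k hk
          change k ≠ i₀
          rintro rfl
          have : d k ≤ j := hk
          omega
      apply hred i₀
      have h5 : h i₀ = (c i₀)⁻¹ • (v - ∑ i ∈ (Finset.univ.filter (fun i => d i = n)).erase i₀,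
          c i • h i) := by
        simp only [v]
        have h6 : i₀ ∈ Finset.univ.filter (fun i => d i = n) :=
          Finset.mem_filter.2 ⟨Finset.mem_univ i₀, rfl⟩
        rw [← Finset.add_sum_erase _ (fun i => c i • h i) h6,
          add_sub_cancel_right, smul_smul, inv_mul_cancel₀ hi₀, one_smul]
      rw [h5]
      refine LieSubalgebra.smul_mem _ _ (sub_mem hv4 (sum_mem fun i hi => ?_))
      exact LieSubalgebra.smul_mem _ _ (mem_gen h (Finset.mem_erase.1 hi).1)
    · push Not at hB
      obtain ⟨y₁, hy₁, hy₁'⟩ := hB
      obtain ⟨lam, hlam, hlam'⟩ := Submodule.exists_le_ker_of_notMem hy₁'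
      set n := w y₁ with hn
      let χ : Y → K := fun y => if w y = n then lam (Finsupp.single y 1) /
        lam (Finsupp.single y₁ 1) else 0
      have hχ : χ y₁ = 1 := by
        simp only [χ, ← hn, if_true]
        exact div_self hlam
      have hχ0 : ∀ y, w y ≠ n → χ y = 0 := fun y hy => by simp only [χ, if_neg hy]
      obtain ⟨e, he, hinj, hker, hsurj⟩ := elim (K := K) y₁ χ hχ
      have hab : ∀ z : FreeLieAlgebra K Y, abMap χ z = Finsupp.linearCombination K χ (ab z) := by
        intro z
        refine ab_unique (abMap χ) (Finsupp.linearCombination K χ ∘ₗ ab) ?_ ?_ ?_ z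
        · intro a b; exact abMap_lie _ _ _
        · intro a b
          rw [LinearMap.comp_apply, ab_lie, map_zero]
        · intro y
          rw [LinearMap.comp_apply, ab_of, abMap_of, Finsupp.linearCombination_single, one_smul]
      have hlc : ∀ c : Y →₀ K, (∀ y, w y ≠ n → c y = 0) →
          Finsupp.linearCombination K χ c = lam c / lam (Finsupp.single y₁ 1) := by
        intro c hc
        have h1 : lam c = c.sum fun y a => a * lam (Finsupp.single y 1) := by
          conv_lhs => rw [← Finsupp.sum_single c]
          rw [Finsupp.sum, map_sum]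
          refine Finset.sum_congr rfl fun y _ => ?_
          change _ = c y * lam (Finsupp.single y 1)
          rw [← smul_eq_mul, ← map_smul, Finsupp.smul_single, smul_eq_mul, mul_one]
        rw [h1, Finsupp.linearCombination_apply, Finsupp.sum, Finsupp.sum, Finset.sum_div]
        refine Finset.sum_congr rfl fun y hy => ?_
        have hwy : w y = n := by
          by_contra hne
          exact (Finsupp.mem_support_iff.1 hy) (hc y hne)
        simp only [χ, if_pos hwy, smul_eq_mul]
        rw [mul_div_assoc]
      have hχh : ∀ i, abMap χ (h i) = 0 := by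
        intro i
        rw [hab]
        by_cases hi : d i = n
        · have h1 := hh i
          rw [hi] at h1
          rw [hlc _ (fun y hy => ab_support w h1 y hy)]
          have h2 : ab (h i) ∈ LinearMap.ker lam :=
            hlam' (Submodule.subset_span ⟨⟨i, hi⟩, rfl⟩)
          rw [LinearMap.mem_ker] at h2
          rw [h2, zero_div]
        · rw [Finsupp.linearCombination_apply]
          refine Finset.sum_eq_zero fun y hy => ?_
          by_cases hwy : w y = n
          · exfalso
            exact (Finsupp.mem_support_iff.1 hy)
              (ab_support w (hh i) y (by rw [hwy]; exact fun e => hi e.symm))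
          · simp only [hχ0 y hwy, smul_zero]
      choose h' hh' using fun i => hsurj (h i) (hχh i)
      let wZ : ℕ × {y : Y // y ≠ y₁} → ℕ := fun p => p.1 * n + w p.2
      have hwZ : ∀ p, 1 ≤ wZ p := fun p => by
        have := hw p.2
        simp only [wZ]; omega
      have hegr : ∀ p, e (FreeLieAlgebra.of K p) ∈ Hom w (wZ p) := by
        rintro ⟨m, y⟩
        rw [he]
        induction m with
        | zero =>
          simp only [wZ, zero_mul, zero_add, Function.iterate_zero, id]
          refine Submodule.sub_mem _ (of_mem_Hom w _) ?_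
          by_cases hwy : w y = n
          · rw [hwy]
            exact Submodule.smul_mem _ _ (of_mem_Hom w y₁)
          · rw [hχ0 _ hwy, zero_smul]
            exact Submodule.zero_mem _
        | succ m ihm =>
          rw [Function.iterate_succ_apply']
          have h1 := lie_mem_Hom w (of_mem_Hom (K := K) w y₁) ihm
          have e1 : w y₁ + wZ (m, y) = wZ (m + 1, y) := by
            simp only [wZ, ← hn]; ring
          rwa [e1] at h1
      have hh'gr : ∀ i, h' i ∈ Hom wZ (d i) := by
        intro i k
        apply hinj
        rw [← comp_map wZ w e hegr, hh', hh i k]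
        split_ifs
        · rw [hh']
        · rw [map_zero]
      -- dimension
      let f : Le (K := K) wZ D →ₗ[K] Le (K := K) w D :=
        { toFun := fun z => ⟨e z, fun k hk => by
            rw [comp_map wZ w e hegr, z.2 k hk, map_zero]⟩
          map_add' := fun a b => by ext; simp
          map_smul' := fun c a => by ext; simp }
      have hf : Function.Injective f := by
        intro a b hab
        have := congrArg Subtype.val hab
        exact Subtype.ext (hinj this)
      have hfin' : Module.Finite K (Le (K := K) wZ D) := Module.Finite.of_injective f hf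
      have hlt : Module.finrank K (Le (K := K) wZ D) < N := by
        have h1 : Module.finrank K (LinearMap.range f) < Module.finrank K (Le (K := K) w D) := by
          apply Submodule.finrank_lt
          intro htop
          have h2 : (⟨FreeLieAlgebra.of K y₁, Hom_le_Le w hy₁ (of_mem_Hom w y₁)⟩ :
              Le (K := K) w D) ∈ LinearMap.range f := by rw [htop]; trivial
          obtain ⟨z, hz⟩ := h2
          have h3 : e z = FreeLieAlgebra.of K y₁ := congrArg Subtype.val hz
          have h4 := hker z
          rw [h3, abMap_of, hχ] at h4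
          exact one_ne_zero h4
        rw [LinearMap.finrank_range_of_inj hf] at h1
        omega
      have hred' : ∀ i, h' i ∉ gen h' {j | j ≠ i} := by
        intro i hi
        apply hred i
        have h1 := map_gen e hi
        have h2 : (fun i => e (h' i)) = h := funext hh'
        rwa [h2, hh'] at h1
      have hfinal := ih (ℕ × {y : Y // y ≠ y₁}) wZ hwZ hfin' hlt h' d hd hh'gr hred'
      have hcomp : ∀ z, FreeLieAlgebra.lift K h z = e (FreeLieAlgebra.lift K h' z) := by
        intro z
        have : FreeLieAlgebra.lift K h = e.comp (FreeLieAlgebra.lift K h') := by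
          apply FreeLieAlgebra.hom_ext
          intro i
          rw [FreeLieAlgebra.lift_of_apply]
          change h i = e (FreeLieAlgebra.lift K h' (FreeLieAlgebra.of K i))
          rw [FreeLieAlgebra.lift_of_apply, hh']
        rw [this]; rfl
      intro a b hab'
      rw [hcomp, hcomp] at hab'
      exact hfinal (hinj hab')

end Witt

end Pool.Agent.Helper771.FreeLieGrad
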