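import Mathlib

set_option autoImplicit false

namespace Pool.Agent.Helper771.LieHomog

open FirstOrder

universe u v w

set_option linter.unusedSectionVars false

/-- The function symbols of the first-order language of Lie algebras over `K`. -/
inductive LieFn (K : Type u) : ℕ → Type u
  | zero : LieFn K 0
  | add : LieFn K 2
  | neg : LieFn K 1
  | bracket : LieFn K 2
  | smul (c : K) : LieFn K 1

/-- The first-order language of Lie algebras over `K`: `0, +, -`, the bracket and one unary symbol
for every scalar. -/
def lieLang (K : Type u) : FirstOrder.Language.{u, 0} := ⟨LieFn K, fun _ => Empty⟩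

/-- The interpretation of the function symbols in a Lie algebra. -/
def lieFunMap (K : Type u) [Field K] (A : Type v) [LieRing A] [LieAlgebra K A] :
    ∀ {n : ℕ}, LieFn K n → (Fin n → A) → A
  | _, LieFn.zero, _ => 0
  | _, LieFn.add, xs => xs 0 + xs 1
  | _, LieFn.neg, xs => - xs 0
  | _, LieFn.bracket, xs => ⁅xs 0, xs 1⁆
  | _, LieFn.smul c, xs => c • xs 0

/-- A Lie algebra as a structure for the language of Lie algebras over `K`. -/
instance lieStructure (K : Type u) [Field K] (A : Type v) [LieRing A] [LieAlgebra K A] :
    (lieLang K).Structure A where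
  funMap := fun f xs => lieFunMap K A f xs
  RelMap := fun r _ => r.elim

/-- Two tuples have the same complete first-order type in `A`. -/
def SameType (K : Type u) [Field K] (A : Type v) [LieRing A] [LieAlgebra K A] {m : ℕ}
    (μ ν : Fin m → A) : Prop :=
  ∀ φ : (lieLang K).Formula (Fin m), φ.Realize μ ↔ φ.Realize ν

/-- The Lie algebra `A` is logically homogeneous: tuples of the same type are conjugate under an
automorphism of the Lie algebra `A`. -/
def LogicallyHomogeneous (K : Type u) [Field K] (A : Type v) [LieRing A] [LieAlgebra K A] :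
    Prop :=
  ∀ m : ℕ, 1 ≤ m → ∀ μ ν : Fin m → A, SameType K A μ ν →
    ∃ σ : A ≃ₗ⁅K⁆ A, ∀ i, σ (μ i) = ν i

/-- The free `n`-nilpotent Lie algebra `N_{r,n} = L_r / γ_{n+1}(L_r)` (Mathlib numbers the lower
central series so that `γ_{n+1}` is `lowerCentralSeries n`). -/
abbrev FreeNilpLie (K : Type u) [Field K] (r n : ℕ) : Type u :=
  FreeLieAlgebra K (Fin r) ⧸
    LieModule.lowerCentralSeries K (FreeLieAlgebra K (Fin r)) (FreeLieAlgebra K (Fin r)) n

/-- The free `n`-solvable Lie algebra `S_{r,n} = L_r / L_r^{(n)}` (`derivedSeries n` is the `n`-th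
term of the derived series, term `0` being the whole algebra). -/
abbrev FreeSolvLie (K : Type u) [Field K] (r n : ℕ) : Type u :=
  FreeLieAlgebra K (Fin r) ⧸ LieAlgebra.derivedSeries K (FreeLieAlgebra K (Fin r)) n

end Pool.Agent.Helper771.LieHomog
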