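import Mathlib
import Pool.Agent.Helper771.LieHomogDefs

set_option autoImplicit false

namespace Pool.Agent.Helper771.LieHomog

open FirstOrder

universe u v w

set_option linter.unusedSectionVars false

/-! ### The lower central series -/

section LCS

variable {K : Type u} [Field K] {A : Type v} [LieRing A] [LieAlgebra K A]

variable (K A) in
/-- the lower central series, `gam 0 = A` -/
def gam (k : ℕ) : LieIdeal K A := LieModule.lowerCentralSeries K A A k

theorem lie_mem_gam {k : ℕ} (a : A) {b : A} (hb : b ∈ gam K A k) : ⁅a, b⁆ ∈ gam K A (k + 1) := by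
  unfold gam at *
  rw [LieModule.lowerCentralSeries_succ]
  exact LieSubmodule.lie_mem_lie (LieSubmodule.mem_top a) hb

theorem gam_succ_le {k : ℕ} {P : Submodule K A} (h : ∀ a : A, ∀ b ∈ gam K A k, ⁅a, b⁆ ∈ P) :
    ∀ z ∈ gam K A (k + 1), z ∈ P := by
  intro z hz
  have h1 : z ∈ (gam K A (k + 1)).toSubmodule := hz
  unfold gam at h1 h
  rw [LieModule.lowerCentralSeries_succ, LieSubmodule.lieIdeal_oper_eq_linear_span'] at h1
  refine (Submodule.span_le.2 ?_) h1
  rintro _ ⟨a, _, b, hb, rfl⟩
  exact h a b hb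

theorem mem_gam_zero (a : A) : a ∈ gam K A 0 := by
  unfold gam
  rw [LieModule.lowerCentralSeries_zero]
  exact LieSubmodule.mem_top a

theorem lie_mem_gam_one (a b : A) : ⁅a, b⁆ ∈ gam K A 1 := lie_mem_gam a (mem_gam_zero b)

/-- `[γ_2, γ_{k+1}] ⊆ γ_{k+3}` -/
theorem lie_gam_one {k : ℕ} {t b : A} (ht : t ∈ gam K A 1) (hb : b ∈ gam K A k) :
    ⁅t, b⁆ ∈ gam K A (k + 2) := by
  let P : Submodule K A := (gam K A (k + 2)).toSubmodule.comap
    ((LieModule.toEnd K A A : A →ₗ[K] Module.End K A).flip b)
  have : t ∈ P := by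
    refine gam_succ_le (P := P) ?_ t ht
    intro c d _
    change ⁅⁅c, d⁆, b⁆ ∈ gam K A (k + 2)
    rw [lie_lie]
    exact sub_mem (lie_mem_gam _ (lie_mem_gam _ hb)) (lie_mem_gam _ (lie_mem_gam _ hb))
  exact this

theorem map_mem_gam {B : Type w} [LieRing B] [LieAlgebra K B] (f : A →ₗ⁅K⁆ B) (k : ℕ) :
    ∀ z ∈ gam K A k, f z ∈ gam K B k := by
  induction k with
  | zero => intro z _; exact mem_gam_zero _
  | succ k ih =>
    refine gam_succ_le (P := (gam K B (k + 1)).toSubmodule.comap (f : A →ₗ[K] B)) ?_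
    intro a b hb
    change f ⁅a, b⁆ ∈ gam K B (k + 1)
    rw [LieHom.map_lie]
    exact lie_mem_gam _ (ih b hb)

end LCS

/-! ### A test algebra -/

section Test

/-- The Lie algebra `V ⊕ (V ⊗ V)`, `V = K^r`, with bracket `[(v,s),(w,t)] = (0, v ⊗ w - w ⊗ v)`. -/
structure TestLie (K : Type u) (r : ℕ) where
  lin : Fin r → K
  quad : Fin r → Fin r → K

variable (K : Type u) [Field K] (r : ℕ)

theorem TestLie.ext' {K : Type u} {r : ℕ} {a b : TestLie K r} (h : a.lin = b.lin)
    (h' : a.quad = b.quad) : a = b := by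
  cases a; cases b; simp_all

instance : Add (TestLie K r) := ⟨fun a b => ⟨a.lin + b.lin, a.quad + b.quad⟩⟩
instance : Zero (TestLie K r) := ⟨⟨0, 0⟩⟩
instance : Neg (TestLie K r) := ⟨fun a => ⟨-a.lin, -a.quad⟩⟩
instance : SMul K (TestLie K r) := ⟨fun c a => ⟨c • a.lin, c • a.quad⟩⟩

@[simp] theorem add_lin (a b : TestLie K r) : (a + b).lin = a.lin + b.lin := rfl
@[simp] theorem add_quad (a b : TestLie K r) : (a + b).quad = a.quad + b.quad := rfl
@[simp] theorem zero_lin : (0 : TestLie K r).lin = 0 := rfl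
@[simp] theorem zero_quad : (0 : TestLie K r).quad = 0 := rfl
@[simp] theorem neg_lin (a : TestLie K r) : (-a).lin = -a.lin := rfl
@[simp] theorem neg_quad (a : TestLie K r) : (-a).quad = -a.quad := rfl
@[simp] theorem smul_lin (c : K) (a : TestLie K r) : (c • a).lin = c • a.lin := rfl
@[simp] theorem smul_quad (c : K) (a : TestLie K r) : (c • a).quad = c • a.quad := rfl

instance : AddCommGroup (TestLie K r) where
  add_assoc a b c := TestLie.ext' (by simp [add_assoc]) (by simp [add_assoc])
  zero_add a := TestLie.ext' (by simp) (by simp)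
  add_zero a := TestLie.ext' (by simp) (by simp)
  add_comm a b := TestLie.ext' (by simp [add_comm]) (by simp [add_comm])
  neg_add_cancel a := TestLie.ext' (by simp) (by simp)
  nsmul := nsmulRec
  zsmul := zsmulRec

instance : Bracket (TestLie K r) (TestLie K r) :=
  ⟨fun a b => ⟨0, fun i j => a.lin i * b.lin j - b.lin i * a.lin j⟩⟩

@[simp] theorem lie_lin (a b : TestLie K r) : ⁅a, b⁆.lin = 0 := rfl
@[simp] theorem lie_quad (a b : TestLie K r) :
    ⁅a, b⁆.quad = fun i j => a.lin i * b.lin j - b.lin i * a.lin j := rfl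

instance : LieRing (TestLie K r) where
  add_lie a b c := TestLie.ext' (by simp) (by ext i j; simp; ring)
  lie_add a b c := TestLie.ext' (by simp) (by ext i j; simp; ring)
  lie_self a := TestLie.ext' (by simp) (by ext i j; simp)
  leibniz_lie a b c := TestLie.ext' (by simp) (by ext i j; simp)

instance : Module K (TestLie K r) where
  one_smul a := TestLie.ext' (by simp) (by simp)
  mul_smul a b c := TestLie.ext' (by simp [mul_smul]) (by simp [mul_smul])
  smul_zero a := TestLie.ext' (by simp) (by simp)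
  smul_add a b c := TestLie.ext' (by simp) (by simp)
  add_smul a b c := TestLie.ext' (by simp [add_smul]) (by simp [add_smul])
  zero_smul a := TestLie.ext' (by simp) (by simp)

instance : LieAlgebra K (TestLie K r) where
  lie_smul c a b := TestLie.ext' (by simp) (by ext i j; simp; ring)

theorem testLie_gam_two : ∀ z ∈ gam K (TestLie K r) 2, z = 0 := by
  intro z hz
  have := gam_succ_le (K := K) (A := TestLie K r) (k := 1) (P := ⊥) (by
    intro a b hb
    have hb' : b ∈ (LinearMap.ker (⟨⟨fun a => a.lin, fun _ _ => rfl⟩, fun _ _ => rfl⟩ :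
        TestLie K r →ₗ[K] (Fin r → K))) := by
      refine gam_succ_le ?_ b hb
      intro c d _
      rfl
    have hb'' : b.lin = 0 := hb'
    rw [Submodule.mem_bot]
    exact TestLie.ext' (by simp) (by ext i j; simp [hb''])) z hz
  simpa using this

/-- the linear part as a linear map -/
def linL : TestLie K r →ₗ[K] (Fin r → K) where
  toFun a := a.lin
  map_add' _ _ := rfl
  map_smul' _ _ := rfl

@[simp] theorem linL_apply (a : TestLie K r) : linL K r a = a.lin := rfl

end Test

/-! ### Generation -/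

section Gen

variable {K : Type u} [Field K] {r : ℕ} {F : Type u} [LieRing F] [LieAlgebra K F]
  {x : Fin r → F}

/-- In a Lie algebra generated by `x`, all brackets lie in `∑ [x_i, F]`. -/
theorem lie_repr (hgen : LieSubalgebra.lieSpan K F (Set.range x) = ⊤) (u c : F) :
    ∃ w : Fin r → F, ⁅u, c⁆ = ∑ i, ⁅x i, w i⁆ := by
  let T : LieSubalgebra K F :=
    { carrier := {u | ∀ c : F, ∃ w : Fin r → F, ⁅u, c⁆ = ∑ i, ⁅x i, w i⁆}
      add_mem' := by
        intro a b ha hb c
        obtain ⟨w, hw⟩ := ha c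
        obtain ⟨w', hw'⟩ := hb c
        refine ⟨w + w', ?_⟩
        rw [add_lie, hw, hw', ← Finset.sum_add_distrib]
        simp
      zero_mem' := by intro c; exact ⟨0, by simp⟩
      smul_mem' := by
        intro t a ha c
        obtain ⟨w, hw⟩ := ha c
        refine ⟨t • w, ?_⟩
        rw [smul_lie, hw, Finset.smul_sum]
        simp
      lie_mem' := by
        intro a b ha hb c
        obtain ⟨w, hw⟩ := ha ⁅b, c⁆
        obtain ⟨w', hw'⟩ := hb ⁅a, c⁆
        refine ⟨w - w', ?_⟩
        rw [lie_lie, hw, hw', ← Finset.sum_sub_distrib]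
        simp }
  have hT : T = ⊤ := by
    rw [eq_top_iff, ← hgen, LieSubalgebra.lieSpan_le]
    rintro _ ⟨i, rfl⟩ c
    refine ⟨Pi.single i c, ?_⟩
    rw [Finset.sum_eq_single i]
    · simp
    · intro j _ hj; simp [Pi.single_eq_of_ne hj]
    · simp
  have hu : u ∈ T := by rw [hT]; trivial
  exact hu c

theorem gam_one_repr (hgen : LieSubalgebra.lieSpan K F (Set.range x) = ⊤) (z : F)
    (hz : z ∈ gam K F 1) : ∃ w : Fin r → F, z = ∑ i, ⁅x i, w i⁆ := by
  let P : Submodule K F :=
    { carrier := {z | ∃ w : Fin r → F, z = ∑ i, ⁅x i, w i⁆}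
      add_mem' := by
        rintro a b ⟨w, rfl⟩ ⟨w', rfl⟩
        exact ⟨w + w', by simp [Finset.sum_add_distrib]⟩
      zero_mem' := ⟨0, by simp⟩
      smul_mem' := by
        rintro t a ⟨w, rfl⟩
        exact ⟨t • w, by simp [Finset.smul_sum]⟩ }
  have : z ∈ P := gam_succ_le (P := P) (fun a b _ => lie_repr hgen a b) z hz
  exact this

/-- Every element is a linear combination of the generators plus an element of `∑ [x_i, F]`. -/
theorem exists_repr (hgen : LieSubalgebra.lieSpan K F (Set.range x) = ⊤) (z : F) :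
    ∃ (c : Fin r → K) (w : Fin r → F), z = ∑ i, c i • x i + ∑ i, ⁅x i, w i⁆ := by
  let T : LieSubalgebra K F :=
    { carrier := {z | ∃ (c : Fin r → K) (w : Fin r → F),
        z = ∑ i, c i • x i + ∑ i, ⁅x i, w i⁆}
      add_mem' := by
        rintro a b ⟨c, w, rfl⟩ ⟨c', w', rfl⟩
        refine ⟨c + c', w + w', ?_⟩
        simp only [Pi.add_apply, add_smul, lie_add, Finset.sum_add_distrib]
        abel
      zero_mem' := ⟨0, 0, by simp⟩
      smul_mem' := by
        rintro t a ⟨c, w, rfl⟩
        refine ⟨t • c, t • w, ?_⟩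
        simp only [smul_add, Finset.smul_sum, Pi.smul_apply, smul_eq_mul, mul_smul, lie_smul]
      lie_mem' := by
        intro a b _ _
        obtain ⟨w, hw⟩ := lie_repr hgen a b
        exact ⟨0, w, by simp [hw]⟩ }
  have hT : T = ⊤ := by
    rw [eq_top_iff, ← hgen, LieSubalgebra.lieSpan_le]
    rintro _ ⟨i, rfl⟩
    refine ⟨Pi.single i 1, 0, ?_⟩
    simp [Pi.single_apply]
  have hz : z ∈ T := by rw [hT]; trivial
  exact hz

/-- Every element of a generated Lie algebra is the value of a term at the generators. -/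
theorem exists_term (hgen : LieSubalgebra.lieSpan K F (Set.range x) = ⊤) (z : F) :
    ∃ t : (lieLang K).Term (Fin r), t.realize x = z := by
  let T : LieSubalgebra K F :=
    { carrier := {z | ∃ t : (lieLang K).Term (Fin r), t.realize x = z}
      add_mem' := by
        rintro a b ⟨s, rfl⟩ ⟨t, rfl⟩
        exact ⟨Language.Term.func (l := 2) (LieFn.add : LieFn K 2) ![s, t], rfl⟩
      zero_mem' := ⟨Language.Term.func (l := 0) (LieFn.zero : LieFn K 0) ![], rfl⟩
      smul_mem' := by
        rintro c a ⟨s, rfl⟩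
        exact ⟨Language.Term.func (l := 1) (LieFn.smul c : LieFn K 1) ![s], rfl⟩
      lie_mem' := by
        rintro a b ⟨s, rfl⟩ ⟨t, rfl⟩
        exact ⟨Language.Term.func (l := 2) (LieFn.bracket : LieFn K 2) ![s, t], rfl⟩ }
  have hT : T = ⊤ := by
    rw [eq_top_iff, ← hgen, LieSubalgebra.lieSpan_le]
    rintro _ ⟨i, rfl⟩
    exact ⟨Language.Term.var i, rfl⟩
  have hz : z ∈ T := by rw [hT]; trivial
  exact hz

/-- left bracket with a fixed element, as a linear map -/
def adx (K : Type u) [Field K] {F : Type u} [LieRing F] [LieAlgebra K F] (a : F) : F →ₗ[K] F where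
  toFun b := ⁅a, b⁆
  map_add' b c := lie_add a b c
  map_smul' t b := lie_smul t a b

/-- A finitely generated nilpotent Lie algebra is finite-dimensional. -/
theorem finite_of_gen (hgen : LieSubalgebra.lieSpan K F (Set.range x) = ⊤) {n : ℕ}
    (hnil : ∀ z ∈ gam K F n, z = 0) : Module.Finite K F := by
  have key : ∀ k : ℕ, ∃ G : Submodule K F, G.FG ∧ ∀ z : F, ∃ g ∈ G, ∃ t ∈ gam K F k,
      z = g + t := by
    intro k
    induction k with
    | zero => exact ⟨⊥, Submodule.fg_bot, fun z => ⟨0, Submodule.zero_mem _, z, mem_gam_zero z,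
        by simp⟩⟩
    | succ k ih =>
      obtain ⟨G, hG, hG'⟩ := ih
      refine ⟨Submodule.span K (Set.range x) ⊔
        ⨆ i, Submodule.map (adx K (x i)) G, ?_, ?_⟩
      · refine Submodule.FG.sup (Submodule.fg_span (Set.finite_range x)) ?_
        exact Submodule.fg_iSup _ fun i => Submodule.FG.map (adx K (x i)) hG
      · intro z
        obtain ⟨c, w, rfl⟩ := exists_repr hgen z
        choose g hg t ht hgt using fun i => hG' (w i)
        refine ⟨∑ i, c i • x i + ∑ i, ⁅x i, g i⁆, ?_, ∑ i, ⁅x i, t i⁆, ?_, ?_⟩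
        · refine Submodule.add_mem _ ?_ ?_
          · refine Submodule.sum_mem _ fun i _ => ?_
            refine Submodule.mem_sup_left ?_
            exact Submodule.smul_mem _ _ (Submodule.subset_span ⟨i, rfl⟩)
          · refine Submodule.sum_mem _ fun i _ => ?_
            refine Submodule.mem_sup_right (Submodule.mem_iSup_of_mem i ?_)
            exact ⟨g i, hg i, rfl⟩
        · refine sum_mem fun i _ => ?_
          exact lie_mem_gam (x i) (ht i)
        · have e1 : ∑ i, ⁅x i, w i⁆ = ∑ i, ⁅x i, g i⁆ + ∑ i, ⁅x i, t i⁆ := by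
            rw [← Finset.sum_add_distrib]
            refine Finset.sum_congr rfl fun i _ => ?_
            rw [← lie_add, ← hgt i]
          rw [e1, add_assoc]
  obtain ⟨G, hG, hG'⟩ := key n
  have : G = ⊤ := by
    rw [eq_top_iff]
    intro z _
    obtain ⟨g, hg, t, ht, rfl⟩ := hG' z
    rw [hnil t ht, add_zero]
    exact hg
  exact ⟨this ▸ hG⟩

/-- If the elements of `S` together with the brackets span, then `S` is everything. -/
theorem top_of_sup_gam {n : ℕ} (hnil : ∀ z ∈ gam K F n, z = 0) (S : LieSubalgebra K F)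
    (h : ∀ z : F, ∃ s ∈ S, ∃ t ∈ gam K F 1, z = s + t) : ∀ z : F, z ∈ S := by
  have key : ∀ k : ℕ, ∀ z ∈ gam K F k, ∃ s ∈ S, ∃ t ∈ gam K F (k + 1), z = s + t := by
    intro k
    induction k with
    | zero => intro z _; exact h z
    | succ k ih =>
      have e : ∀ z ∈ gam K F (k + 1), z ∈ S.toSubmodule ⊔ (gam K F (k + 2)).toSubmodule := by
        refine gam_succ_le ?_
        intro a b hb
        obtain ⟨s, hs, t, ht, rfl⟩ := h a
        obtain ⟨s', hs', t', ht', hb'⟩ := ih b hb
        have h1 : ⁅s, s'⁆ ∈ S.toSubmodule := S.lie_mem hs hs'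
        have h2 : ⁅s, t'⁆ ∈ (gam K F (k + 2)).toSubmodule := lie_mem_gam s ht'
        have h3 : ⁅t, b⁆ ∈ (gam K F (k + 2)).toSubmodule := lie_gam_one ht hb
        rw [add_lie]
        have h4 : ⁅s, b⁆ = ⁅s, s'⁆ + ⁅s, t'⁆ := by rw [hb', lie_add]
        rw [h4]
        exact Submodule.add_mem _ (Submodule.add_mem _ (Submodule.mem_sup_left h1)
          (Submodule.mem_sup_right h2)) (Submodule.mem_sup_right h3)
      intro z hz
      obtain ⟨s, hs, t, ht, hst⟩ := Submodule.mem_sup.1 (e z hz)
      exact ⟨s, hs, t, ht, hst.symm⟩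
  have key2 : ∀ k : ℕ, ∀ z : F, ∃ s ∈ S, ∃ t ∈ gam K F k, z = s + t := by
    intro k
    induction k with
    | zero => intro z; exact ⟨0, S.zero_mem, z, mem_gam_zero z, by simp⟩
    | succ k ih =>
      intro z
      obtain ⟨s, hs, t, ht, rfl⟩ := ih z
      obtain ⟨s', hs', t', ht', rfl⟩ := key k t ht
      exact ⟨s + s', S.add_mem hs hs', t', ht', by abel⟩
  intro z
  obtain ⟨s, hs, t, ht, rfl⟩ := key2 n z
  rw [hnil t ht, add_zero]
  exact hs

/-- The semantic form of the basis condition. -/
def IsBaseLike (y : Fin r → F) : Prop :=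
  (∀ i, ∀ p q : Fin r → F, y i ≠ ∑ j, ⁅p j, q j⁆) ∧
  ∀ z : F, ∃ u p q : Fin r → F, (∀ i, ⁅u i, y i⁆ = 0) ∧
    z = ∑ i, u i + ∑ j, ⁅p j, q j⁆

theorem test_lin_repr (h : F →ₗ⁅K⁆ TestLie K r) (hh : ∀ i, h (x i) = ⟨Pi.single i 1, 0⟩)
    (c : Fin r → K) (w : Fin r → F) :
    (h (∑ i, c i • x i + ∑ i, ⁅x i, w i⁆)).lin = c := by
  have h1 : (linL K r) (h (∑ i, c i • x i + ∑ i, ⁅x i, w i⁆)) = c := by
    rw [map_add, map_sum, map_sum, map_add, map_sum, map_sum]
    simp only [map_smul, LieHom.map_lie, hh, linL_apply, lie_lin, Finset.sum_const_zero,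
      add_zero]
    ext j
    simp [Finset.sum_apply, Pi.single_apply]
  exact h1

theorem isBaseLike_gen (hgen : LieSubalgebra.lieSpan K F (Set.range x) = ⊤)
    (h : F →ₗ⁅K⁆ TestLie K r) (hh : ∀ i, h (x i) = ⟨Pi.single i 1, 0⟩) : IsBaseLike x := by
  constructor
  · intro i p q hi
    have h1 : (linL K r) (h (x i)) = 0 := by
      rw [hi, map_sum, map_sum]
      simp
    rw [hh] at h1
    have := congrFun h1 i
    simp at this
  · intro z
    obtain ⟨c, w, rfl⟩ := exists_repr hgen z
    refine ⟨fun i => c i • x i, x, w, ?_, rfl⟩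
    intro i
    simp

theorem bijective_of_isBaseLike (hgen : LieSubalgebra.lieSpan K F (Set.range x) = ⊤) {n : ℕ}
    (hnil : ∀ z ∈ gam K F n, z = 0)
    (h : F →ₗ⁅K⁆ TestLie K r) (hh : ∀ i, h (x i) = ⟨Pi.single i 1, 0⟩)
    {y : Fin r → F} (hy : IsBaseLike y) (σ : F →ₗ⁅K⁆ F) (hσ : ∀ i, σ (x i) = y i) :
    Function.Bijective σ := by
  -- elements with zero linear part are sums of brackets
  have hker : ∀ z : F, (h z).lin = 0 → ∃ w : Fin r → F, z = ∑ j, ⁅x j, w j⁆ := by
    intro z hz
    obtain ⟨c, w, rfl⟩ := exists_repr hgen z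
    rw [test_lin_repr h hh] at hz
    refine ⟨w, ?_⟩
    simp [hz]
  have hker2 : ∀ z : F, (h z).lin = 0 → z ∈ gam K F 1 := by
    intro z hz
    obtain ⟨w, rfl⟩ := hker z hz
    exact sum_mem fun j _ => lie_mem_gam_one _ _
  have hyl : ∀ i, (h (y i)).lin ≠ 0 := by
    intro i hi
    obtain ⟨w, hw⟩ := hker _ hi
    exact hy.1 i x w hw
  have hall := top_of_sup_gam hnil σ.range (by
    intro z
    obtain ⟨u, p, q, hu, rfl⟩ := hy.2 z
    have hui : ∀ i, ∃ c : K, u i - c • y i ∈ gam K F 1 := by
      intro i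
      obtain ⟨j, hj⟩ : ∃ j, (h (y i)).lin j ≠ 0 := by
        by_contra hcon
        push Not at hcon
        exact hyl i (funext hcon)
      refine ⟨(h (u i)).lin j / (h (y i)).lin j, hker2 _ ?_⟩
      have hcomm := congrArg TestLie.quad (congrArg h (hu i))
      rw [LieHom.map_lie, map_zero] at hcomm
      simp only [lie_quad, zero_quad] at hcomm
      have h1 : (linL K r) (h (u i - ((h (u i)).lin j / (h (y i)).lin j) • y i)) = 0 := by
        rw [map_sub, map_sub, map_smul, map_smul]
        ext k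
        simp only [linL_apply, Pi.sub_apply, Pi.smul_apply, smul_eq_mul, Pi.zero_apply]
        have h2 := congrFun (congrFun hcomm k) j
        simp only [Pi.zero_apply] at h2
        field_simp
        linear_combination h2
      exact h1
    choose c hc using hui
    refine ⟨∑ i, c i • y i, ?_, ∑ i, (u i - c i • y i) + ∑ j, ⁅p j, q j⁆, ?_, ?_⟩
    · refine sum_mem fun i _ => ?_
      exact σ.range.smul_mem _ ⟨x i, hσ i⟩
    · exact add_mem (sum_mem fun i _ => hc i) (sum_mem fun j _ => lie_mem_gam_one _ _)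
    · rw [Finset.sum_sub_distrib]; abel)
  have hsurj : Function.Surjective σ := fun z => by
    obtain ⟨a, ha⟩ := hall z
    exact ⟨a, ha⟩
  have := finite_of_gen hgen hnil
  have hinj : Function.Injective (σ : F →ₗ[K] F) := by
    rw [LinearMap.injective_iff_surjective]
    exact hsurj
  exact ⟨hinj, hsurj⟩

end Gen

/-! ### Definability of bases -/

section Formulas

variable (K : Type u)

/-- the term `0` -/
def zeroT {α : Type w} : (lieLang K).Term α :=
  Language.Term.func (l := 0) (LieFn.zero : LieFn K 0) ![]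

/-- the term `s + t` -/
def addT {α : Type w} (s t : (lieLang K).Term α) : (lieLang K).Term α :=
  Language.Term.func (l := 2) (LieFn.add : LieFn K 2) ![s, t]

/-- the term `[s, t]` -/
def lieT {α : Type w} (s t : (lieLang K).Term α) : (lieLang K).Term α :=
  Language.Term.func (l := 2) (LieFn.bracket : LieFn K 2) ![s, t]

/-- the sum of a list of terms -/
def sumT {α : Type w} : List ((lieLang K).Term α) → (lieLang K).Term α
  | [] => zeroT K
  | t :: l => addT K t (sumT l)

variable {K} [Field K] {A : Type v} [LieRing A] [LieAlgebra K A]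

theorem realize_zeroT {α : Type w} (v : α → A) : (zeroT K).realize v = 0 := rfl

theorem realize_addT {α : Type w} (v : α → A) (s t : (lieLang K).Term α) :
    (addT K s t).realize v = s.realize v + t.realize v := rfl

theorem realize_lieT {α : Type w} (v : α → A) (s t : (lieLang K).Term α) :
    (lieT K s t).realize v = ⁅s.realize v, t.realize v⁆ := rfl

theorem realize_sumT {α : Type w} (v : α → A) (l : List ((lieLang K).Term α)) :
    (sumT K l).realize v = (l.map fun t => t.realize v).sum := by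
  induction l with
  | nil => rfl
  | cons t l ih => rw [sumT, realize_addT, ih]; simp

theorem realize_sumT_ofFn {α : Type w} (v : α → A) {r : ℕ} (f : Fin r → (lieLang K).Term α) :
    (sumT K (List.ofFn f)).realize v = ∑ i, (f i).realize v := by
  rw [realize_sumT, List.map_ofFn, List.sum_ofFn]
  rfl

variable (K)

/-- variable terms -/
abbrev vr {α : Type w} (a : α) : (lieLang K).Term α := Language.Term.var a

/-- The first-order formula expressing `IsBaseLike`. -/
noncomputable def baseF (r : ℕ) : (lieLang K).Formula (Fin r) :=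
  Language.Formula.iInf (fun i : Fin r =>
    Language.Formula.iAlls (Fin r ⊕ Fin r)
      (∼ (Language.Term.equal (vr K (Sum.inl i : Fin r ⊕ (Fin r ⊕ Fin r)))
        (sumT K (List.ofFn fun j : Fin r =>
          lieT K (vr K (Sum.inr (Sum.inl j))) (vr K (Sum.inr (Sum.inr j)))))))) ⊓
  Language.Formula.iAlls (Fin 1)
    (Language.Formula.iExs (Fin r ⊕ (Fin r ⊕ Fin r))
      (Language.Formula.iInf (fun i : Fin r =>
          Language.Term.equal
            (lieT K (vr K (Sum.inr (Sum.inl i) : (Fin r ⊕ Fin 1) ⊕ (Fin r ⊕ (Fin r ⊕ Fin r))))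
              (vr K (Sum.inl (Sum.inl i)))) (zeroT K)) ⊓
        Language.Term.equal (vr K (Sum.inl (Sum.inr 0)))
          (addT K (sumT K (List.ofFn fun i : Fin r => vr K (Sum.inr (Sum.inl i))))
            (sumT K (List.ofFn fun j : Fin r =>
              lieT K (vr K (Sum.inr (Sum.inr (Sum.inl j))))
                (vr K (Sum.inr (Sum.inr (Sum.inr j)))))))))

theorem realize_baseF {r : ℕ} (y : Fin r → A) : (baseF K r).Realize y ↔ IsBaseLike y := by
  unfold baseF IsBaseLike
  rw [Language.Formula.realize_inf]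
  refine and_congr ?_ ?_
  · rw [Language.Formula.realize_iInf]
    refine forall_congr' fun i => ?_
    rw [Language.Formula.realize_iAlls]
    constructor
    · intro h p q
      have := h (Sum.elim p q)
      rw [Language.Formula.realize_not, Language.Formula.realize_equal, realize_sumT_ofFn] at this
      exact this
    · intro h pq
      rw [Language.Formula.realize_not, Language.Formula.realize_equal, realize_sumT_ofFn]
      exact h (fun j => pq (Sum.inl j)) (fun j => pq (Sum.inr j))
  · rw [Language.Formula.realize_iAlls]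
    constructor
    · intro h z
      have := h (fun _ => z)
      rw [Language.Formula.realize_iExs] at this
      obtain ⟨upq, h1⟩ := this
      rw [Language.Formula.realize_inf, Language.Formula.realize_iInf,
        Language.Formula.realize_equal, realize_addT, realize_sumT_ofFn, realize_sumT_ofFn] at h1
      refine ⟨fun i => upq (Sum.inl i), fun i => upq (Sum.inr (Sum.inl i)),
        fun i => upq (Sum.inr (Sum.inr i)), ?_, h1.2⟩
      intro i
      have h2 := h1.1 i
      rw [Language.Formula.realize_equal] at h2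
      exact h2
    · intro h z
      obtain ⟨u, p, q, hu, hz⟩ := h (z 0)
      rw [Language.Formula.realize_iExs]
      refine ⟨Sum.elim u (Sum.elim p q), ?_⟩
      rw [Language.Formula.realize_inf, Language.Formula.realize_iInf,
        Language.Formula.realize_equal, realize_addT, realize_sumT_ofFn, realize_sumT_ofFn]
      refine ⟨?_, hz⟩
      intro i
      rw [Language.Formula.realize_equal]
      exact hu i

end Formulas

/-! ### Homogeneity -/

section Main

variable {K : Type u} [Field K] {r : ℕ} {F : Type u} [LieRing F] [LieAlgebra K F]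
  {x : Fin r → F}

/-- homomorphisms commute with terms -/
theorem map_realize (σ : F →ₗ⁅K⁆ F) {α : Type w} (v : α → F) (t : (lieLang K).Term α) :
    σ (t.realize v) = t.realize (fun a => σ (v a)) := by
  induction t with
  | var a => rfl
  | @func l f ts ih =>
    match l, f with
    | _, LieFn.zero => exact map_zero σ
    | _, LieFn.add =>
      change σ ((ts 0).realize v + (ts 1).realize v) = _
      rw [map_add, ih 0, ih 1]; rfl
    | _, LieFn.neg =>
      change σ (- (ts 0).realize v) = _
      rw [map_neg, ih 0]; rfl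
    | _, LieFn.bracket =>
      change σ ⁅(ts 0).realize v, (ts 1).realize v⁆ = _
      rw [LieHom.map_lie, ih 0, ih 1]; rfl
    | _, LieFn.smul c =>
      change σ (c • (ts 0).realize v) = _
      rw [map_smul, ih 0]; rfl

theorem homogeneous_of_two_le (hgen : LieSubalgebra.lieSpan K F (Set.range x) = ⊤) {n : ℕ}
    (hnil : ∀ z ∈ gam K F n, z = 0)
    (h : F →ₗ⁅K⁆ TestLie K r) (hh : ∀ i, h (x i) = ⟨Pi.single i 1, 0⟩)
    (huni : ∀ y : Fin r → F, ∃ f : F →ₗ⁅K⁆ F, ∀ i, f (x i) = y i) :
    LogicallyHomogeneous K F := by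
  intro m _ μ ν hμν
  choose t ht using fun i => exists_term hgen (μ i)
  let Φ : (lieLang K).Formula (Fin m) :=
    Language.Formula.iExs (Fin r) ((baseF K r).relabel (Sum.inr : Fin r → Fin m ⊕ Fin r) ⊓
      Language.Formula.iInf (fun i : Fin m =>
        Language.Term.equal (vr K (Sum.inl i : Fin m ⊕ Fin r)) ((t i).relabel Sum.inr)))
  have hΦ : ∀ z : Fin m → F, Φ.Realize z ↔
      ∃ y : Fin r → F, IsBaseLike y ∧ ∀ i, z i = (t i).realize y := by
    intro z
    rw [Language.Formula.realize_iExs]
    refine exists_congr fun y => ?_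
    rw [Language.Formula.realize_inf, Language.Formula.realize_relabel, realize_baseF,
      Language.Formula.realize_iInf]
    refine and_congr Iff.rfl (forall_congr' fun i => ?_)
    rw [Language.Formula.realize_equal, Language.Term.realize_relabel]
    rfl
  have h1 : Φ.Realize μ := (hΦ μ).2 ⟨x, isBaseLike_gen hgen h hh, fun i => (ht i).symm⟩
  obtain ⟨y, hy, hy'⟩ := (hΦ ν).1 ((hμν Φ).1 h1)
  obtain ⟨σ, hσ⟩ := huni y
  have hbij := bijective_of_isBaseLike hgen hnil h hh hy σ hσ
  refine ⟨LieEquiv.ofBijective σ hbij, ?_⟩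
  intro i
  change σ (μ i) = ν i
  rw [← ht i, hy' i, map_realize]
  congr 1
  funext j
  exact hσ j

/-- the abelian case -/
theorem homogeneous_of_abelian [Module.Finite K F] (h0 : ∀ a b : F, ⁅a, b⁆ = 0) :
    LogicallyHomogeneous K F := by
  intro m _ μ ν hμν
  have hrel : ∀ c : Fin m → K, ∑ i, c i • μ i = 0 ↔ ∑ i, c i • ν i = 0 := by
    intro c
    have := hμν (Language.Term.equal (sumT K (List.ofFn fun i : Fin m =>
      (Language.Term.func (l := 1) (LieFn.smul (c i) : LieFn K 1) ![vr K i] :
        (lieLang K).Term (Fin m)))) (zeroT K))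
    rw [Language.Formula.realize_equal, Language.Formula.realize_equal, realize_sumT_ofFn,
      realize_sumT_ofFn] at this
    exact this
  let f : (Fin m → K) →ₗ[K] F := Fintype.linearCombination K μ
  let g : (Fin m → K) →ₗ[K] F := Fintype.linearCombination K ν
  have hker : LinearMap.ker f = LinearMap.ker g := by
    ext c
    rw [LinearMap.mem_ker, LinearMap.mem_ker]
    exact hrel c
  let e : LinearMap.range f ≃ₗ[K] LinearMap.range g :=
    f.quotKerEquivRange.symm ≪≫ₗ Submodule.quotEquivOfEq _ _ hker ≪≫ₗ g.quotKerEquivRange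
  have he : ∀ c : Fin m → K, (e ⟨f c, c, rfl⟩ : F) = g c := by
    intro c
    have h1 : f.quotKerEquivRange.symm ⟨f c, c, rfl⟩ = Submodule.Quotient.mk c := by
      rw [LinearEquiv.symm_apply_eq]
      rfl
    simp only [e, LinearEquiv.trans_apply, h1]
    rfl
  obtain ⟨P, hP⟩ := Submodule.exists_isCompl (LinearMap.range f)
  obtain ⟨Q, hQ⟩ := Submodule.exists_isCompl (LinearMap.range g)
  have hfin : Module.finrank K P = Module.finrank K Q := by
    have h1 := Submodule.finrank_add_eq_of_isCompl hP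
    have h2 := Submodule.finrank_add_eq_of_isCompl hQ
    have h3 := e.finrank_eq
    omega
  let e' : P ≃ₗ[K] Q := LinearEquiv.ofFinrankEq P Q hfin
  let E : F ≃ₗ[K] F := (Submodule.prodEquivOfIsCompl _ _ hP).symm ≪≫ₗ
    (e.prodCongr e') ≪≫ₗ Submodule.prodEquivOfIsCompl _ _ hQ
  have hE : ∀ c : Fin m → K, E (f c) = g c := by
    intro c
    have h1 : (Submodule.prodEquivOfIsCompl _ _ hP).symm (f c) = (⟨f c, c, rfl⟩, 0) := by
      rw [LinearEquiv.symm_apply_eq]
      simp
    simp only [E, LinearEquiv.trans_apply, h1]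
    rw [LinearEquiv.prodCongr_apply]
    simp [he]
  let σ : F ≃ₗ⁅K⁆ F :=
    { E with
      map_lie' := by
        intro a b
        change E ⁅a, b⁆ = ⁅E a, E b⁆
        rw [h0, h0, map_zero] }
  refine ⟨σ, ?_⟩
  intro i
  have h1 := hE (Pi.single i 1)
  have h2 : f (Pi.single i 1) = μ i := by
    simp [f, Fintype.linearCombination_apply, Pi.single_apply]
  have h3 : g (Pi.single i 1) = ν i := by
    simp [g, Fintype.linearCombination_apply, Pi.single_apply]
  rw [h2, h3] at h1
  exact h1

end Main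

/-! ### The free nilpotent Lie algebra -/

section Concrete

variable (K : Type u) [Field K] (r n : ℕ)

/-- the quotient map as a homomorphism of Lie algebras -/
noncomputable def qm : FreeLieAlgebra K (Fin r) →ₗ⁅K⁆ FreeNilpLie K r n where
  toFun a := LieSubmodule.Quotient.mk a
  map_add' _ _ := rfl
  map_smul' _ _ := rfl
  map_lie' := rfl

theorem qm_surj : Function.Surjective (qm K r n) := fun z => Quot.exists_rep z

theorem qm_eq_zero {a : FreeLieAlgebra K (Fin r)} :
    qm K r n a = 0 ↔ a ∈ gam K (FreeLieAlgebra K (Fin r)) n :=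
  Submodule.Quotient.mk_eq_zero _

/-- the generators -/
noncomputable def gx (i : Fin r) : FreeNilpLie K r n := qm K r n (FreeLieAlgebra.of K i)

theorem free_gen : LieSubalgebra.lieSpan K (FreeLieAlgebra K (Fin r))
    (Set.range (FreeLieAlgebra.of K)) = ⊤ := by
  set S := LieSubalgebra.lieSpan K (FreeLieAlgebra K (Fin r)) (Set.range (FreeLieAlgebra.of K))
    with hS
  have hx : ∀ i, FreeLieAlgebra.of K i ∈ S := fun i => LieSubalgebra.subset_lieSpan ⟨i, rfl⟩
  let f : FreeLieAlgebra K (Fin r) →ₗ⁅K⁆ S := FreeLieAlgebra.lift K (fun i => ⟨_, hx i⟩)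
  have h1 : S.incl.comp f = LieHom.id := by
    apply FreeLieAlgebra.hom_ext
    intro i
    simp [f]
  rw [eq_top_iff]
  intro z _
  have h2 : S.incl (f z) = z := by
    have := DFunLike.congr_fun h1 z
    simpa using this
  rw [← h2]
  exact (f z).2

theorem nilp_gen : LieSubalgebra.lieSpan K (FreeNilpLie K r n) (Set.range (gx K r n)) = ⊤ := by
  rw [eq_top_iff]
  intro z _
  obtain ⟨a, rfl⟩ := qm_surj K r n z
  have ha : a ∈ LieSubalgebra.lieSpan K (FreeLieAlgebra K (Fin r))
      (Set.range (FreeLieAlgebra.of K)) := by rw [free_gen]; trivial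
  have hle : LieSubalgebra.lieSpan K (FreeLieAlgebra K (Fin r))
      (Set.range (FreeLieAlgebra.of K)) ≤
      (LieSubalgebra.lieSpan K (FreeNilpLie K r n) (Set.range (gx K r n))).comap (qm K r n) := by
    rw [LieSubalgebra.lieSpan_le]
    rintro _ ⟨i, rfl⟩
    exact LieSubalgebra.subset_lieSpan ⟨i, rfl⟩
  exact hle ha

theorem nilp_nil : ∀ z ∈ gam K (FreeNilpLie K r n) n, z = 0 := by
  have key : ∀ k : ℕ, ∀ z ∈ gam K (FreeNilpLie K r n) k,
      ∃ a ∈ gam K (FreeLieAlgebra K (Fin r)) k, qm K r n a = z := by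
    intro k
    induction k with
    | zero =>
      intro z _
      obtain ⟨a, rfl⟩ := qm_surj K r n z
      exact ⟨a, mem_gam_zero a, rfl⟩
    | succ k ih =>
      intro z hz
      have : z ∈ ((gam K (FreeLieAlgebra K (Fin r)) (k + 1)).toSubmodule.map
          (qm K r n : FreeLieAlgebra K (Fin r) →ₗ[K] FreeNilpLie K r n)) := by
        refine gam_succ_le ?_ z hz
        intro a b hb
        obtain ⟨a', rfl⟩ := qm_surj K r n a
        obtain ⟨b', hb', rfl⟩ := ih b hb
        exact ⟨⁅a', b'⁆, lie_mem_gam _ hb', LieHom.map_lie _ _ _⟩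
      obtain ⟨a, ha, ha'⟩ := this
      exact ⟨a, ha, ha'⟩
  intro z hz
  obtain ⟨a, ha, rfl⟩ := key n z hz
  exact (qm_eq_zero K r n).2 ha

theorem exists_lift {B : Type u} [LieRing B] [LieAlgebra K B] (hB : ∀ z ∈ gam K B n, z = 0)
    (y : Fin r → B) : ∃ g : FreeNilpLie K r n →ₗ⁅K⁆ B, ∀ i, g (gx K r n i) = y i := by
  let f : FreeLieAlgebra K (Fin r) →ₗ⁅K⁆ B := FreeLieAlgebra.lift K y
  let g₀ : FreeNilpLie K r n →ₗ[K] B :=
    (LieModule.lowerCentralSeries K (FreeLieAlgebra K (Fin r)) (FreeLieAlgebra K (Fin r))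
      n).toSubmodule.liftQ (f : FreeLieAlgebra K (Fin r) →ₗ[K] B) (by
        intro a ha
        exact hB _ (map_mem_gam f n a ha))
  have hg : ∀ a, g₀ (qm K r n a) = f a := fun a => rfl
  refine ⟨{ g₀ with map_lie' := ?_ }, ?_⟩
  · intro a b
    obtain ⟨a, rfl⟩ := qm_surj K r n a
    obtain ⟨b, rfl⟩ := qm_surj K r n b
    change g₀ ⁅qm K r n a, qm K r n b⁆ = ⁅g₀ (qm K r n a), g₀ (qm K r n b)⁆
    rw [← LieHom.map_lie, hg, hg, hg, LieHom.map_lie]
  · intro i
    change g₀ (qm K r n (FreeLieAlgebra.of K i)) = y i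
    rw [hg]
    simp [f]

theorem testLie_nilp (hn : 2 ≤ n) : ∀ z ∈ gam K (TestLie K r) n, z = 0 := by
  intro z hz
  apply testLie_gam_two
  exact LieModule.antitone_lowerCentralSeries K (TestLie K r) (TestLie K r) hn hz

end Concrete

/-- Part (b) of Q1: for every field `K` and all `r, n ≥ 1` the free `n`-nilpotent Lie algebra of
rank `r` over `K` is logically homogeneous. -/
theorem nilpotent_homogeneous (K : Type u) [Field K] (r n : ℕ) (_hr : 1 ≤ r) (hn : 1 ≤ n) :
    LogicallyHomogeneous K (FreeNilpLie K r n) := by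
  obtain rfl | hn2 : n = 1 ∨ 2 ≤ n := by omega
  · have hfin := finite_of_gen (nilp_gen K r 1) (nilp_nil K r 1)
    apply homogeneous_of_abelian
    intro a b
    exact nilp_nil K r 1 _ (lie_mem_gam_one a b)
  · obtain ⟨h, hh⟩ := exists_lift K r n (testLie_nilp K r n hn2)
      (fun i => ⟨Pi.single i 1, 0⟩)
    exact homogeneous_of_two_le (nilp_gen K r n) (nilp_nil K r n) h hh
      (fun y => exists_lift K r n (nilp_nil K r n) y)

end Pool.Agent.Helper771.LieHomog
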