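import Mathlib
import Pool.Agent.Helper771.LieHomogNilp
import Pool.Agent.Helper771.FreeLieWitt

set_option autoImplicit false

namespace Pool.Agent.Helper771.FreeLieGrad

universe u v w v'

open Finset Pool.Agent.Helper771.LieHomog

/-! ### Finite dimensionality of the bounded parts -/

section FinDim

variable {K : Type u} [Field K] {r : ℕ}

theorem exists_fg_add_gam {F : Type u} [LieRing F] [LieAlgebra K F] {x : Fin r → F}
    (hgen : LieSubalgebra.lieSpan K F (Set.range x) = ⊤) (k : ℕ) :
    ∃ G : Submodule K F, G.FG ∧ ∀ z : F, ∃ g ∈ G, ∃ t ∈ gam K F k, z = g + t := by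
  induction k with
  | zero => exact ⟨⊥, Submodule.fg_bot, fun z => ⟨0, Submodule.zero_mem _, z, mem_gam_zero z,
      by simp⟩⟩
  | succ k ih =>
    obtain ⟨G, hG, hG'⟩ := ih
    refine ⟨Submodule.span K (Set.range x) ⊔
      ⨆ i, Submodule.map (adx K (x i)) G, ?_, ?_⟩
    · refine Submodule.FG.sup (Submodule.fg_span (Set.finite_range x)) ?_
      exact Submodule.fg_iSup _ fun i => Submodule.FG.map (adx K (x i)) hG
    · intro z
      obtain ⟨c, w, rfl⟩ := exists_repr hgen z
      choose g hg t ht hgt using fun i => hG' (w i)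
      refine ⟨∑ i, c i • x i + ∑ i, ⁅x i, g i⁆, ?_, ∑ i, ⁅x i, t i⁆, ?_, ?_⟩
      · refine Submodule.add_mem _ ?_ ?_
        · refine Submodule.sum_mem _ fun i _ => ?_
          refine Submodule.mem_sup_left ?_
          exact Submodule.smul_mem _ _ (Submodule.subset_span ⟨i, rfl⟩)
        · refine Submodule.sum_mem _ fun i _ => ?_
          refine Submodule.mem_sup_right (Submodule.mem_iSup_of_mem i ?_)
          exact ⟨g i, hg i, rfl⟩
      · refine sum_mem fun i _ => ?_
        exact lie_mem_gam (x i) (ht i)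
      · have e1 : ∑ i, ⁅x i, w i⁆ = ∑ i, ⁅x i, g i⁆ + ∑ i, ⁅x i, t i⁆ := by
          rw [← Finset.sum_add_distrib]
          refine Finset.sum_congr rfl fun i _ => ?_
          rw [← lie_add, ← hgt i]
        rw [e1, add_assoc]

theorem comp_gam {Y : Type} (w : Y → ℕ) (hw : ∀ y, 1 ≤ w y) (k : ℕ) :
    ∀ z ∈ gam K (FreeLieAlgebra K Y) k, ∀ n, n ≤ k → comp w n z = 0 := by
  induction k with
  | zero =>
    intro z _ n hn
    have : n = 0 := by omega
    subst this
    exact comp_zero w hw z
  | succ k ih =>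
    intro z hz
    have := gam_succ_le (K := K) (A := FreeLieAlgebra K Y) (k := k) (P :=
      { carrier := {z | ∀ n, n ≤ k + 1 → comp w n z = 0}
        add_mem' := by
          intro a b ha hb n hn
          rw [map_add, ha n hn, hb n hn, add_zero]
        zero_mem' := by
          intro n _
          rw [map_zero]
        smul_mem' := by
          intro c a ha n hn
          rw [map_smul, ha n hn, smul_zero] }) (by
        intro a b hb n hn
        rw [comp_lie]
        refine Finset.sum_eq_zero ?_
        rintro ⟨p, q⟩ hp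
        rw [HasAntidiagonal.mem_antidiagonal] at hp
        dsimp only at hp ⊢
        by_cases hp0 : p = 0
        · rw [hp0, comp_zero w hw, zero_lie]
        · rw [ih b hb q (by omega), lie_zero]) z hz
    exact this

theorem le_finite (w : Fin r → ℕ) (hw : ∀ y, 1 ≤ w y) (D : ℕ) :
    Module.Finite K (Le (K := K) w D) := by
  have hgen : LieSubalgebra.lieSpan K (FreeLieAlgebra K (Fin r))
    (Set.range (FreeLieAlgebra.of K)) = ⊤ := free_gen K r
  obtain ⟨G, hG, hG'⟩ := exists_fg_add_gam (K := K) hgen D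
  let P : FreeLieAlgebra K (Fin r) →ₗ[K] FreeLieAlgebra K (Fin r) :=
    ∑ n ∈ range (D + 1), comp w n
  have hle : Le (K := K) w D ≤ G.map P := by
    intro z hz
    obtain ⟨g, hg, t, ht, hz'⟩ := hG' z
    refine ⟨g, hg, ?_⟩
    have h1 : P z = z := by
      simp only [P, LinearMap.sum_apply]
      exact sum_comp_of_Le w hz
    have h2 : P t = 0 := by
      simp only [P, LinearMap.sum_apply]
      refine Finset.sum_eq_zero fun n hn => ?_
      rw [Finset.mem_range] at hn
      exact comp_gam w hw D t ht n (by omega)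
    rw [← h1, hz', map_add, h2, add_zero]
  have : Module.Finite K (G.map P) := Module.Finite.iff_fg.2 (hG.map P)
  exact Module.Finite.of_injective (Submodule.inclusion hle) (Submodule.inclusion_injective hle)

end FinDim

/-! ### Degree -/

section Degree

variable {K : Type u} [Field K] {Y : Type v} (w : Y → ℕ)

open Classical in
/-- the degree -/
noncomputable def deg (z : FreeLieAlgebra K Y) : ℕ := Nat.find (exists_Le w z)

theorem mem_Le_deg (z : FreeLieAlgebra K Y) : z ∈ Le w (deg w z) := by
  classical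
  exact Nat.find_spec (exists_Le w z)

theorem deg_le {z : FreeLieAlgebra K Y} {D : ℕ} (h : z ∈ Le w D) : deg w z ≤ D := by
  classical
  exact Nat.find_min' (exists_Le w z) h

theorem one_le_deg (hw : ∀ y, 1 ≤ w y) {z : FreeLieAlgebra K Y} (hz : z ≠ 0) : 1 ≤ deg w z := by
  by_contra h
  have h0 : deg w z = 0 := by omega
  have h1 := mem_Le_deg w z
  rw [h0] at h1
  have h2 := sum_comp_of_Le w h1
  rw [zero_add, Finset.sum_range_one, comp_zero w hw] at h2
  exact hz h2.symm

end Degree

/-! ### The retraction onto a subset of the generators -/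

section Proj

variable {K : Type u} [Field K] {Y : Type v}

open Classical in
/-- kill the generators outside `S` -/
noncomputable def pr (S : Set Y) : FreeLieAlgebra K Y →ₗ⁅K⁆ FreeLieAlgebra K Y :=
  FreeLieAlgebra.lift K (fun y => if y ∈ S then FreeLieAlgebra.of K y else 0)

theorem pr_of_mem {S : Set Y} {y : Y} (hy : y ∈ S) :
    pr S (FreeLieAlgebra.of K y) = FreeLieAlgebra.of K y := by
  unfold pr
  rw [FreeLieAlgebra.lift_of_apply, if_pos hy]

theorem pr_of_not_mem {S : Set Y} {y : Y} (hy : y ∉ S) :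
    pr S (FreeLieAlgebra.of K y) = 0 := by
  unfold pr
  rw [FreeLieAlgebra.lift_of_apply, if_neg hy]

/-- homomorphisms agreeing on the generators in `S` agree on the subalgebra they generate -/
theorem eq_of_pr {B : Type w} [LieRing B] [LieAlgebra K B] {S : Set Y}
    (f g : FreeLieAlgebra K Y →ₗ⁅K⁆ B)
    (h : ∀ y ∈ S, f (FreeLieAlgebra.of K y) = g (FreeLieAlgebra.of K y))
    {z : FreeLieAlgebra K Y} (hz : pr S z = z) : f z = g z := by
  have h1 : ∀ z, f (pr S z) = g (pr S z) := by
    intro z
    have : f.comp (pr S) = g.comp (pr S) := by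
      apply FreeLieAlgebra.hom_ext
      intro y
      change f (pr S (FreeLieAlgebra.of K y)) = g (pr S (FreeLieAlgebra.of K y))
      by_cases hy : y ∈ S
      · rw [pr_of_mem hy, h y hy]
      · rw [pr_of_not_mem hy, map_zero, map_zero]
    exact LieHom.congr_fun this z
  rw [← hz]
  exact h1 z

theorem pr_fix_lift {S : Set Y} {Z : Type v'} {T : Set Z}
    (f : FreeLieAlgebra K Y →ₗ⁅K⁆ FreeLieAlgebra K Z)
    (h : ∀ y ∈ S, pr T (f (FreeLieAlgebra.of K y)) = f (FreeLieAlgebra.of K y))
    {z : FreeLieAlgebra K Y} (hz : pr S z = z) : pr T (f z) = f z :=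
  eq_of_pr ((pr T).comp f) f h hz

theorem pr_comp_fix (w : Y → ℕ) {S : Set Y} {z : FreeLieAlgebra K Y} (hz : pr S z = z) (n : ℕ) :
    pr S (comp w n z) = comp w n z := by
  have h1 := comp_map w w (pr S) (by
    intro y
    by_cases hy : y ∈ S
    · rw [pr_of_mem hy]; exact of_mem_Hom w y
    · rw [pr_of_not_mem hy]; exact Submodule.zero_mem _) n z
  rw [← h1, hz]

theorem pr_fix_of_Hom (w : Y → ℕ) {D m : ℕ} (hm : m ≤ D) {z : FreeLieAlgebra K Y}
    (hz : z ∈ Hom w m) : pr {y | w y ≤ D} z = z := by
  have := Hom_le (K := K) w (T := fun m => if m ≤ D then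
    { carrier := {z | pr {y | w y ≤ D} z = z}
      add_mem' := by
        intro a b (ha : pr _ a = a) (hb : pr _ b = b)
        change pr _ (a + b) = a + b
        rw [map_add, ha, hb]
      zero_mem' := map_zero _
      smul_mem' := by
        intro c a (ha : pr _ a = a)
        change pr _ (c • a) = c • a
        rw [map_smul, ha] } else ⊤) (by
      intro i j a ha b hb _ _
      split_ifs with h
      · have hi : i ≤ D := by omega
        have hj : j ≤ D := by omega
        rw [if_pos hi] at ha
        rw [if_pos hj] at hb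
        have ha' : pr {y | w y ≤ D} a = a := ha
        have hb' : pr {y | w y ≤ D} b = b := hb
        change pr {y | w y ≤ D} ⁅a, b⁆ = ⁅a, b⁆
        rw [LieHom.map_lie, ha', hb']
      · exact Submodule.mem_top) (by
      intro y
      split_ifs with h
      · exact pr_of_mem (S := {y | w y ≤ D}) h
      · exact Submodule.mem_top) m hz
  rw [if_pos hm] at this
  exact this

theorem pr_fix_of_Le (w : Y → ℕ) {D : ℕ} {z : FreeLieAlgebra K Y}
    (hz : z ∈ Le w D) : pr {y | w y ≤ D} z = z := by
  rw [← sum_comp_of_Le w hz, map_sum]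
  refine Finset.sum_congr rfl fun n hn => ?_
  rw [Finset.mem_range] at hn
  exact pr_fix_of_Hom w (by omega) (comp_mem_Hom w n z)

end Proj

/-! ### Reduction -/

section Reduce

variable {K : Type u} [Field K] {r : ℕ}

/-- the standard weight -/
def w1 (r : ℕ) : Fin r → ℕ := fun _ => 1

theorem w1_pos (r : ℕ) (y : Fin r) : 1 ≤ w1 r y := le_rfl

/-- degrees of the images of the generators -/
noncomputable def dd (ψ : FreeLieAlgebra K (Fin r) →ₗ⁅K⁆ FreeLieAlgebra K (Fin r)) (i : Fin r) : ℕ :=
  deg (w1 r) (ψ (FreeLieAlgebra.of K i))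

/-- the leading parts of the images are free -/
def Reduced (ψ : FreeLieAlgebra K (Fin r) →ₗ⁅K⁆ FreeLieAlgebra K (Fin r)) : Prop :=
  Function.Injective (leadHom (dd ψ) (w1 r) ψ)

theorem of_ne_zero {Y : Type v} (y : Y) : FreeLieAlgebra.of K y ≠ 0 := by
  intro h
  have := ab_of (K := K) y
  rw [h, map_zero] at this
  have h2 := congrArg (fun f => f y) this
  simp at h2

theorem exists_reduced_aux (N : ℕ) :
    ∀ ψ : FreeLieAlgebra K (Fin r) →ₗ⁅K⁆ FreeLieAlgebra K (Fin r), Function.Injective ψ →
      ∑ i, dd ψ i ≤ N → ∃ α : FreeLieAlgebra K (Fin r) ≃ₗ⁅K⁆ FreeLieAlgebra K (Fin r),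
        Reduced (ψ.comp (α : FreeLieAlgebra K (Fin r) →ₗ⁅K⁆ FreeLieAlgebra K (Fin r))) := by
  classical
  induction N using Nat.strong_induction_on with
  | _ N ih =>
    intro ψ hψ hN
    by_cases hred : Reduced ψ
    · refine ⟨LieEquiv.refl, ?_⟩
      have : ψ.comp ((LieEquiv.refl : FreeLieAlgebra K (Fin r) ≃ₗ⁅K⁆ FreeLieAlgebra K (Fin r)) :
          FreeLieAlgebra K (Fin r) →ₗ⁅K⁆ FreeLieAlgebra K (Fin r)) = ψ := by
        ext z; rfl
      rw [this]; exact hred
    · set d := dd ψ with hd
      let h : Fin r → FreeLieAlgebra K (Fin r) := fun i =>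
        comp (w1 r) (d i) (ψ (FreeLieAlgebra.of K i))
      have hhom : ∀ i, h i ∈ Hom (w1 r) (d i) := fun i => comp_mem_Hom _ _ _
      have hfin := le_finite (K := K) (w1 r) (w1_pos r) (∑ i, d i)
      have hex : ∃ i, h i ∈ gen h {j | j ≠ i} := by
        by_contra hcon
        push Not at hcon
        apply hred
        exact injective_of_reduced (K := K) (∑ i, d i)
          (Module.finrank K (Le (K := K) (w1 r) (∑ i, d i)) + 1) (Fin r) (w1 r) (w1_pos r)
          hfin (Nat.lt_succ_self _) h d
          (fun i => Finset.single_le_sum (f := d) (fun _ _ => Nat.zero_le _) (Finset.mem_univ i))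
          hhom hcon
      obtain ⟨i, hi⟩ := hex
      -- lift to the source
      have hlift : ∃ g, pr {j | j ≠ i} g = g ∧ FreeLieAlgebra.lift K h g = h i := by
        let T : LieSubalgebra K (FreeLieAlgebra K (Fin r)) :=
          { carrier := {z | ∃ g, pr {j | j ≠ i} g = g ∧ FreeLieAlgebra.lift K h g = z}
            add_mem' := by
              rintro _ _ ⟨a, ha, rfl⟩ ⟨b, hb, rfl⟩
              exact ⟨a + b, by rw [map_add, ha, hb], by rw [map_add]⟩
            zero_mem' := ⟨0, map_zero _, map_zero _⟩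
            smul_mem' := by
              rintro c _ ⟨a, ha, rfl⟩
              exact ⟨c • a, by rw [map_smul, ha], by rw [map_smul]⟩
            lie_mem' := by
              rintro _ _ ⟨a, ha, rfl⟩ ⟨b, hb, rfl⟩
              exact ⟨⁅a, b⁆, by rw [LieHom.map_lie, ha, hb], by rw [LieHom.map_lie]⟩ }
        have : gen h {j | j ≠ i} ≤ T := gen_le fun j hj =>
          ⟨FreeLieAlgebra.of K j, pr_of_mem (S := {j | j ≠ i}) hj, by
            rw [FreeLieAlgebra.lift_of_apply]⟩
        exact this hi
      obtain ⟨g₀, hg₀, hg₀'⟩ := hlift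
      let g := comp d (d i) g₀
      have hg1 : pr {j | j ≠ i} g = g := pr_comp_fix d hg₀ _
      have hg2 : FreeLieAlgebra.lift K h g = h i := by
        have := comp_map d (w1 r) (FreeLieAlgebra.lift K h) (by
          intro y
          rw [FreeLieAlgebra.lift_of_apply]
          exact hhom y) (d i) g₀
        rw [← this, hg₀', comp_same (w1 r) (hhom i)]
      have hg3 : g ∈ Hom d (d i) := comp_mem_Hom d _ _
      -- the elementary automorphism
      let el : FreeLieAlgebra K (Fin r) → (FreeLieAlgebra K (Fin r) →ₗ⁅K⁆ FreeLieAlgebra K (Fin r)) :=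
        fun g => FreeLieAlgebra.lift K (fun j => if j = i then FreeLieAlgebra.of K i - g
          else FreeLieAlgebra.of K j)
      have hel0 : ∀ g, el g (FreeLieAlgebra.of K i) = FreeLieAlgebra.of K i - g := by
        intro g
        simp only [el]
        rw [FreeLieAlgebra.lift_of_apply, if_pos rfl]
      have hel1 : ∀ g, ∀ j, j ≠ i → el g (FreeLieAlgebra.of K j) = FreeLieAlgebra.of K j := by
        intro g j hj
        simp only [el]
        rw [FreeLieAlgebra.lift_of_apply, if_neg hj]
      have hel2 : ∀ g z, pr {j | j ≠ i} z = z → el g z = z := by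
        intro g z hz
        exact eq_of_pr (el g) LieHom.id (fun j hj => hel1 g j hj) hz
      have hel3 : ∀ g', pr {j | j ≠ i} g' = g' → ∀ z, el (-g') (el g' z) = z := by
        intro g' hg z
        have : (el (-g')).comp (el g') = LieHom.id := by
          apply FreeLieAlgebra.hom_ext
          intro j
          change el (-g') (el g' (FreeLieAlgebra.of K j)) = FreeLieAlgebra.of K j
          by_cases hj : j = i
          · rw [hj, hel0, map_sub, hel0, hel2 _ g' hg]
            abel
          · rw [hel1 g' j hj, hel1 _ j hj]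
        exact LieHom.congr_fun this z
      have hgneg : pr {j | j ≠ i} (-g) = -g := by rw [map_neg, hg1]
      let α : FreeLieAlgebra K (Fin r) ≃ₗ⁅K⁆ FreeLieAlgebra K (Fin r) :=
        { el g with
          invFun := el (-g)
          left_inv := hel3 g hg1
          right_inv := by
            intro z
            have := hel3 (-g) hgneg z
            rwa [neg_neg] at this }
      have hα : ∀ z, α z = el g z := fun z => rfl
      set ψ' := ψ.comp (α : FreeLieAlgebra K (Fin r) →ₗ⁅K⁆ FreeLieAlgebra K (Fin r)) with hψ'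
      have hψ'a : ∀ z, ψ' z = ψ (el g z) := fun z => rfl
      have hinj' : Function.Injective ψ' := hψ.comp α.injective
      have hd1 : ∀ j, j ≠ i → dd ψ' j = d j := by
        intro j hj
        rw [hd]
        unfold dd
        rw [hψ'a, hel1 g j hj]
      have hψ_deg : ∀ y, ∀ n, d y < n → comp (w1 r) n (ψ (FreeLieAlgebra.of K y)) = 0 :=
        fun y n hn => mem_Le_deg (w1 r) (ψ (FreeLieAlgebra.of K y)) n hn
      have hdi : 1 ≤ d i := one_le_deg (w1 r) (w1_pos r) (by
        intro h0
        exact of_ne_zero (K := K) i (hψ (by rw [h0, map_zero])))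
      have hd2 : dd ψ' i < d i := by
        have h1 : ψ' (FreeLieAlgebra.of K i) ∈ Le (w1 r) (d i - 1) := by
          intro n hn
          rw [hψ'a, hel0, map_sub, map_sub]
          have h2 := lead_aux d (w1 r) ψ hψ_deg hg3
          by_cases hn' : n = d i
          · subst hn'
            rw [h2.2]
            have h3 : leadHom d (w1 r) ψ g = h i := hg2
            rw [h3]
            exact sub_self _
          · rw [hψ_deg i n (by omega), h2.1 n (by omega), sub_zero]
        have := deg_le (w1 r) h1
        unfold dd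
        omega
      have hsum : ∑ j, dd ψ' j < ∑ j, d j := by
        refine Finset.sum_lt_sum (fun j _ => ?_) ⟨i, Finset.mem_univ i, hd2⟩
        by_cases hj : j = i
        · rw [hj]; exact hd2.le
        · exact (hd1 j hj).le
      obtain ⟨β, hβ⟩ := ih (∑ j, dd ψ' j) (lt_of_lt_of_le hsum hN) ψ' hinj' le_rfl
      refine ⟨β.trans α, ?_⟩
      have : ψ.comp ((β.trans α : FreeLieAlgebra K (Fin r) ≃ₗ⁅K⁆ FreeLieAlgebra K (Fin r)) :
          FreeLieAlgebra K (Fin r) →ₗ⁅K⁆ FreeLieAlgebra K (Fin r)) =
          ψ'.comp (β : FreeLieAlgebra K (Fin r) →ₗ⁅K⁆ FreeLieAlgebra K (Fin r)) := by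
        ext z; rfl
      rw [this]
      exact hβ

theorem exists_reduced (ψ : FreeLieAlgebra K (Fin r) →ₗ⁅K⁆ FreeLieAlgebra K (Fin r))
    (hψ : Function.Injective ψ) :
    ∃ α : FreeLieAlgebra K (Fin r) ≃ₗ⁅K⁆ FreeLieAlgebra K (Fin r),
        Reduced (ψ.comp (α : FreeLieAlgebra K (Fin r) →ₗ⁅K⁆ FreeLieAlgebra K (Fin r))) :=
  exists_reduced_aux _ ψ hψ le_rfl

theorem Reduced.mem_Le {ψ : FreeLieAlgebra K (Fin r) →ₗ⁅K⁆ FreeLieAlgebra K (Fin r)}
    (h : Reduced ψ) {D : ℕ} {z : FreeLieAlgebra K (Fin r)} (hz : ψ z ∈ Le (w1 r) D) :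
    pr {i | dd ψ i ≤ D} z = z :=
  pr_fix_of_Le (dd ψ) (mem_Le_of_map (dd ψ) (w1 r) ψ
    (fun y n hn => mem_Le_deg (w1 r) (ψ (FreeLieAlgebra.of K y)) n hn) h hz)

end Reduce

end Pool.Agent.Helper771.FreeLieGrad
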