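import Mathlib
import Pool.Agent.Helper771.FreeLieReduce

set_option autoImplicit false

namespace Pool.Agent.Helper771.FreeLieGrad

universe u v w v'

open Finset

section Rank

variable {K : Type u} [Field K] {r : ℕ}


/-- If `ψ'(Lie⟨x_{S'}⟩) ⊆ ψ(Lie⟨x_S⟩)` and the latter contains the `ψ`-images of `x_S` inside
`ψ'(Lie⟨x_{S'}⟩)`, then `|S| ≤ |S'|`. -/
theorem rank_le (ψ ψ' : FreeLieAlgebra K (Fin r) →ₗ⁅K⁆ FreeLieAlgebra K (Fin r)) (hψ : Function.Injective ψ) (S S' : Finset (Fin r))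
    (h1 : ∀ j ∈ S', ∃ a, ψ a = ψ' (FreeLieAlgebra.of K j))
    (h2 : ∀ i ∈ S, ∃ m, pr (S' : Set (Fin r)) m = m ∧ ψ' m = ψ (FreeLieAlgebra.of K i)) :
    S.card ≤ S'.card := by
  classical
  have h1' : ∀ j, ∃ a, j ∈ S' → ψ a = ψ' (FreeLieAlgebra.of K j) := by
    intro j
    by_cases hj : j ∈ S'
    · obtain ⟨a, ha⟩ := h1 j hj
      exact ⟨a, fun _ => ha⟩
    · exact ⟨0, fun h => absurd h hj⟩
  choose a ha using h1'
  let θ : FreeLieAlgebra K (Fin r) →ₗ⁅K⁆ FreeLieAlgebra K (Fin r) := FreeLieAlgebra.lift K a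
  have hθ : ∀ j, θ (FreeLieAlgebra.of K j) = a j := fun j => FreeLieAlgebra.lift_of_apply _ _
  have hcomp : ∀ m, pr (S' : Set (Fin r)) m = m → ψ (θ m) = ψ' m := by
    intro m hm
    exact eq_of_pr (ψ.comp θ) ψ' (fun j hj => by
      change ψ (θ (FreeLieAlgebra.of K j)) = _
      rw [hθ, ha j hj]) hm
  let V : Submodule K (Fin r →₀ K) := Submodule.span K (Set.range fun j : S' => ab (a j))
  have hV : ∀ m, pr (S' : Set (Fin r)) m = m → ab (θ m) ∈ V := by
    intro m hm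
    -- work in the quotient by V
    have h3 : (V.mkQ ∘ₗ ab ∘ₗ (θ.comp (pr (S' : Set (Fin r))) : FreeLieAlgebra K (Fin r) →ₗ[K] FreeLieAlgebra K (Fin r))) m = 0 := by
      rw [ab_unique (V.mkQ ∘ₗ ab ∘ₗ (θ.comp (pr (S' : Set (Fin r))) : FreeLieAlgebra K (Fin r) →ₗ[K] FreeLieAlgebra K (Fin r))) 0 ?_ ?_ ?_ m]
      · rfl
      · intro x y
        change V.mkQ (ab (θ (pr _ ⁅x, y⁆))) = 0
        rw [LieHom.map_lie, LieHom.map_lie, ab_lie, map_zero]
      · intro x y; rfl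
      · intro j
        change V.mkQ (ab (θ (pr (S' : Set (Fin r)) (FreeLieAlgebra.of K j)))) = 0
        by_cases hj : j ∈ S'
        · rw [pr_of_mem (S := (S' : Set (Fin r))) hj, hθ, Submodule.mkQ_apply,
            Submodule.Quotient.mk_eq_zero]
          exact Submodule.subset_span ⟨⟨j, hj⟩, rfl⟩
        · rw [pr_of_not_mem (S := (S' : Set (Fin r))) hj, map_zero, map_zero, map_zero]
    have h4 : V.mkQ (ab (θ (pr (S' : Set (Fin r)) m))) = 0 := h3
    rw [hm, Submodule.mkQ_apply, Submodule.Quotient.mk_eq_zero] at h4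
    exact h4
  have hS : ∀ i ∈ S, (Finsupp.single i 1 : Fin r →₀ K) ∈ V := by
    intro i hi
    obtain ⟨m, hm, hm'⟩ := h2 i hi
    have h5 : θ m = FreeLieAlgebra.of K i := hψ (by rw [hcomp m hm, hm'])
    rw [← ab_of, ← h5]
    exact hV m hm
  have hli : LinearIndependent K (fun i : S => (⟨Finsupp.single (i : Fin r) 1, hS i i.2⟩ : V)) := by
    apply LinearIndependent.of_comp V.subtype
    have h := ((Finsupp.basisSingleOne (R := K) (ι := Fin r)).linearIndependent).comp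
      (fun i : S => (i : Fin r)) Subtype.val_injective
    convert h using 1
    funext i
    simp
  have hfin : Module.Finite K V := inferInstance
  have h7 := hli.fintype_card_le_finrank
  have h8 : Module.finrank K V ≤ Fintype.card S' := finrank_range_le_card _
  rw [Fintype.card_coe] at h7 h8
  exact h7.trans h8

end Rank

section Takahasi

variable {K : Type u} [Field K] {r : ℕ}


/-- powers of an endomorphism -/
noncomputable def pw (φ : FreeLieAlgebra K (Fin r) →ₗ⁅K⁆ FreeLieAlgebra K (Fin r)) : ℕ → (FreeLieAlgebra K (Fin r) →ₗ⁅K⁆ FreeLieAlgebra K (Fin r))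
  | 0 => LieHom.id
  | n + 1 => φ.comp (pw φ n)

theorem pw_zero (φ : FreeLieAlgebra K (Fin r) →ₗ⁅K⁆ FreeLieAlgebra K (Fin r)) (z : FreeLieAlgebra K (Fin r)) : pw φ 0 z = z := rfl
theorem pw_succ (φ : FreeLieAlgebra K (Fin r) →ₗ⁅K⁆ FreeLieAlgebra K (Fin r)) (n : ℕ) (z : FreeLieAlgebra K (Fin r)) : pw φ (n + 1) z = φ (pw φ n z) := rfl

theorem pw_add (φ : FreeLieAlgebra K (Fin r) →ₗ⁅K⁆ FreeLieAlgebra K (Fin r)) (m n : ℕ) (z : FreeLieAlgebra K (Fin r)) : pw φ (m + n) z = pw φ m (pw φ n z) := by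
  induction m with
  | zero => rw [zero_add]; rfl
  | succ m ih => rw [Nat.succ_add, pw_succ, pw_succ, ih]

theorem pw_injective (φ : FreeLieAlgebra K (Fin r) →ₗ⁅K⁆ FreeLieAlgebra K (Fin r)) (hφ : Function.Injective φ) (n : ℕ) :
    Function.Injective (pw φ n) := by
  induction n with
  | zero => intro a b h; exact h
  | succ n ih => exact hφ.comp ih

/-- the stable image -/
def Stab (φ : FreeLieAlgebra K (Fin r) →ₗ⁅K⁆ FreeLieAlgebra K (Fin r)) (z : FreeLieAlgebra K (Fin r)) : Prop := ∀ n, ∃ z', pw φ n z' = z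

/-- **Takahasi's theorem** for an injective endomorphism of a free Lie algebra of finite rank:
the stable image is a free factor. -/
theorem takahasi (φ : FreeLieAlgebra K (Fin r) →ₗ⁅K⁆ FreeLieAlgebra K (Fin r)) (hφ : Function.Injective φ) :
    ∃ (α : FreeLieAlgebra K (Fin r) ≃ₗ⁅K⁆ FreeLieAlgebra K (Fin r)) (S : Finset (Fin r)),
      ∀ z, Stab φ z ↔ ∃ m, pr (S : Set (Fin r)) m = m ∧ α m = z := by
  classical
  choose α hα using fun n => exists_reduced (pw φ n) (pw_injective φ hφ n)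
  let ψ : ℕ → (FreeLieAlgebra K (Fin r) →ₗ⁅K⁆ FreeLieAlgebra K (Fin r)) := fun n => (pw φ n).comp (α n : FreeLieAlgebra K (Fin r) →ₗ⁅K⁆ FreeLieAlgebra K (Fin r))
  have hψa : ∀ n z, ψ n z = pw φ n (α n z) := fun n z => rfl
  have hψi : ∀ n, Function.Injective (ψ n) := fun n =>
    (pw_injective φ hφ n).comp (α n).injective
  let S : ℕ → ℕ → Finset (Fin r) := fun n D => Finset.univ.filter (fun i => dd (ψ n) i ≤ D)
  have hS : ∀ n D, ((S n D : Finset (Fin r)) : Set (Fin r)) = {i | dd (ψ n) i ≤ D} := by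
    intro n D; ext i; simp [S]
  -- the spaces V n D
  let V : ℕ → ℕ → Submodule K (FreeLieAlgebra K (Fin r)) := fun n D =>
    LinearMap.range (pw φ n : FreeLieAlgebra K (Fin r) →ₗ[K] FreeLieAlgebra K (Fin r)) ⊓ Le (w1 r) D
  have hV1 : ∀ n D z, z ∈ V n D → ∃ m, pr (S n D : Set (Fin r)) m = m ∧ ψ n m = z := by
    rintro n D z ⟨⟨z', rfl⟩, hz⟩
    refine ⟨(α n).symm z', ?_, ?_⟩
    · rw [hS]
      apply Reduced.mem_Le (hα n)
      change pw φ n (α n ((α n).symm z')) ∈ Le (w1 r) D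
      rw [LieEquiv.apply_symm_apply]
      exact hz
    · rw [hψa, LieEquiv.apply_symm_apply]; rfl
  have hV2 : ∀ n D i, i ∈ S n D → ψ n (FreeLieAlgebra.of K i) ∈ V n D := by
    intro n D i hi
    refine ⟨⟨α n (FreeLieAlgebra.of K i), rfl⟩, ?_⟩
    have h1 : dd (ψ n) i ≤ D := (Finset.mem_filter.1 hi).2
    exact Le_mono (w1 r) h1 (mem_Le_deg (w1 r) (ψ n (FreeLieAlgebra.of K i)))
  have hVanti : ∀ n D, V (n + 1) D ≤ V n D := by
    rintro n D z ⟨⟨z', rfl⟩, hz⟩
    refine ⟨⟨φ z', ?_⟩, hz⟩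
    change pw φ n (φ z') = pw φ (n + 1) z'
    rw [pw_add]; rfl
  have hVanti' : ∀ D, Antitone fun n => V n D := fun D =>
    antitone_nat_of_succ_le fun n => hVanti n D
  -- stabilisation
  have hstab : ∀ D, ∃ N, ∀ n, N ≤ n → V n D = V N D := by
    intro D
    have hfin := le_finite (K := K) (w1 r) (w1_pos r) D
    let f : ℕ →o (Submodule K (Le (K := K) (w1 r) D))ᵒᵈ :=
      { toFun := fun n => OrderDual.toDual ((V n D).comap (Le (w1 r) D).subtype)
        monotone' := by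
          intro a b hab
          exact Submodule.comap_mono (hVanti' D hab) }
    obtain ⟨N, hN⟩ := IsArtinian.monotone_stabilizes f
    refine ⟨N, fun n hn => ?_⟩
    have h1 : (V N D).comap (Le (w1 r) D).subtype = (V n D).comap (Le (w1 r) D).subtype :=
      hN n hn
    apply le_antisymm (hVanti' D hn)
    intro z hz
    have h2 : (⟨z, hz.2⟩ : Le (K := K) (w1 r) D) ∈ (V N D).comap (Le (w1 r) D).subtype := hz
    rw [h1] at h2
    exact h2
  choose N hN using hstab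
  -- ranks
  have hcard_le : ∀ n m D, V n D = V m D → (S n D).card ≤ (S m D).card := by
    intro n m D hnm
    refine rank_le (ψ n) (ψ m) (hψi n) (S n D) (S m D) ?_ ?_
    · intro j hj
      have h1 := hV2 m D j hj
      rw [← hnm] at h1
      obtain ⟨a, _, ha⟩ := hV1 n D _ h1
      exact ⟨a, ha⟩
    · intro i hi
      have h1 := hV2 n D i hi
      rw [hnm] at h1
      exact hV1 m D _ h1
  have hcard : ∀ n D, N D ≤ n → (S n D).card = (S (N D) D).card := fun n D hn =>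
    le_antisymm (hcard_le _ _ _ (hN D n hn)) (hcard_le _ _ _ (hN D n hn).symm)
  have hmax : ∃ D₀, ∀ D, (S (N D) D).card ≤ (S (N D₀) D₀).card := by
    let P : ℕ → Prop := fun k => ∃ D, (S (N D) D).card = k
    have hP : ∃ k, P k := ⟨_, 0, rfl⟩
    have hb : ∀ k, P k → k ≤ r := by
      rintro k ⟨D, rfl⟩
      exact (Finset.card_le_univ _).trans (by simp)
    obtain ⟨D₀, hD₀⟩ := Nat.findGreatest_spec (P := P) (hb _ hP.choose_spec) hP.choose_spec
    refine ⟨D₀, fun D => ?_⟩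
    rw [hD₀]
    exact Nat.le_findGreatest (hb _ ⟨D, rfl⟩) ⟨D, rfl⟩
  obtain ⟨D₀, hD₀⟩ := hmax
  set N₀ := N D₀ with hN₀
  -- elements of the stable image
  have hdown : ∀ z, Stab φ z → ∃ m, pr (S N₀ D₀ : Set (Fin r)) m = m ∧ ψ N₀ m = z := by
    intro z hz
    obtain ⟨D₁, hD₁⟩ := exists_Le (w1 r) z
    set D := max D₁ D₀ with hD
    have hzD : z ∈ Le (w1 r) D := Le_mono (w1 r) (le_max_left _ _) hD₁
    set n := max (N D) N₀ with hn
    have hsub : S n D₀ ⊆ S n D := by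
      intro i hi
      rw [Finset.mem_filter] at hi ⊢
      exact ⟨hi.1, hi.2.trans (le_max_right _ _)⟩
    have heq : S n D₀ = S n D := by
      apply Finset.eq_of_subset_of_card_le hsub
      rw [hcard n D (le_max_left _ _), hcard n D₀ (le_max_right _ _)]
      exact hD₀ D
    obtain ⟨z', hz'⟩ := hz n
    obtain ⟨m, hm, hm'⟩ := hV1 n D z ⟨⟨z', hz'⟩, hzD⟩
    rw [← heq] at hm
    -- move to N₀
    have hVn : V n D₀ = V N₀ D₀ := hN D₀ n (le_max_right _ _)
    have h1 : ∀ j, ∃ a, j ∈ S n D₀ → pr (S N₀ D₀ : Set (Fin r)) a = a ∧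
        ψ N₀ a = ψ n (FreeLieAlgebra.of K j) := by
      intro j
      by_cases hj : j ∈ S n D₀
      · have h2 := hV2 n D₀ j hj
        rw [hVn] at h2
        obtain ⟨a, ha, ha'⟩ := hV1 N₀ D₀ _ h2
        exact ⟨a, fun _ => ⟨ha, ha'⟩⟩
      · exact ⟨0, fun h => absurd h hj⟩
    choose a ha using h1
    let θ : FreeLieAlgebra K (Fin r) →ₗ⁅K⁆ FreeLieAlgebra K (Fin r) := FreeLieAlgebra.lift K a
    have hθ : ∀ j, θ (FreeLieAlgebra.of K j) = a j := fun j => FreeLieAlgebra.lift_of_apply _ _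
    refine ⟨θ m, ?_, ?_⟩
    · exact pr_fix_lift θ (fun j hj => by rw [hθ]; exact (ha j hj).1) hm
    · rw [← hm']
      exact eq_of_pr ((ψ N₀).comp θ) (ψ n) (fun j hj => by
        change ψ N₀ (θ (FreeLieAlgebra.of K j)) = _
        rw [hθ]; exact (ha j hj).2) hm
  have hup : ∀ m, pr (S N₀ D₀ : Set (Fin r)) m = m → Stab φ (ψ N₀ m) := by
    intro m hm n
    let T : LieSubalgebra K (FreeLieAlgebra K (Fin r)) := (pw φ n).range
    have h1 : ∀ j ∈ S N₀ D₀, ψ N₀ (FreeLieAlgebra.of K j) ∈ T := by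
      intro j hj
      have h2 := hV2 N₀ D₀ j hj
      have h3 : ψ N₀ (FreeLieAlgebra.of K j) ∈ V n D₀ := by
        rcases le_total N₀ n with h | h
        · rw [hN D₀ n h]; exact h2
        · exact hVanti' D₀ h h2
      exact h3.1
    have h4 : ∀ z, ψ N₀ (pr (S N₀ D₀ : Set (Fin r)) z) ∈ T := by
      intro z
      refine free_induction (P := fun z => ψ N₀ (pr (S N₀ D₀ : Set (Fin r)) z) ∈ T)
        ?_ ?_ ?_ ?_ ?_ z
      · intro j
        by_cases hj : j ∈ S N₀ D₀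
        · rw [pr_of_mem (S := (S N₀ D₀ : Set (Fin r))) hj]
          exact h1 j hj
        · rw [pr_of_not_mem (S := (S N₀ D₀ : Set (Fin r))) hj, map_zero]
          exact T.zero_mem
      · rw [map_zero, map_zero]; exact T.zero_mem
      · intro x y hx hy
        rw [map_add, map_add]; exact T.add_mem hx hy
      · intro c x hx
        rw [map_smul, map_smul]; exact T.smul_mem c hx
      · intro x y hx hy
        rw [LieHom.map_lie, LieHom.map_lie]; exact T.lie_mem hx hy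
    have h5 := h4 m
    rw [hm] at h5
    obtain ⟨z', hz'⟩ := h5
    exact ⟨z', hz'⟩
  refine ⟨α N₀, S N₀ D₀, fun z => ⟨?_, ?_⟩⟩
  · intro hz
    have h1 : Stab φ (pw φ N₀ z) := by
      intro n
      obtain ⟨z', hz'⟩ := hz n
      refine ⟨pw φ N₀ z', ?_⟩
      rw [← pw_add, add_comm, pw_add, hz']
    obtain ⟨m, hm, hm'⟩ := hdown _ h1
    exact ⟨m, hm, pw_injective φ hφ N₀ hm'⟩
  · rintro ⟨m, hm, rfl⟩ n
    obtain ⟨z', hz'⟩ := hup m hm (N₀ + n)
    rw [hψa, pw_add] at hz'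
    exact ⟨z', pw_injective φ hφ N₀ hz'⟩

/-- The main algebraic theorem: tuples exchanged by two injective endomorphisms are conjugate under
an automorphism. -/
theorem exists_automorphism (σ σ' : FreeLieAlgebra K (Fin r) →ₗ⁅K⁆ FreeLieAlgebra K (Fin r)) (hσ : Function.Injective σ)
    (hσ' : Function.Injective σ') {ι : Type v} (μ ν : ι → FreeLieAlgebra K (Fin r)) (h1 : ∀ i, σ (μ i) = ν i)
    (h2 : ∀ i, σ' (ν i) = μ i) : ∃ τ : FreeLieAlgebra K (Fin r) ≃ₗ⁅K⁆ FreeLieAlgebra K (Fin r), ∀ i, τ (μ i) = ν i := by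
  classical
  let φ : FreeLieAlgebra K (Fin r) →ₗ⁅K⁆ FreeLieAlgebra K (Fin r) := σ'.comp σ
  let φ' : FreeLieAlgebra K (Fin r) →ₗ⁅K⁆ FreeLieAlgebra K (Fin r) := σ.comp σ'
  have hφ : Function.Injective φ := hσ'.comp hσ
  have hφ' : Function.Injective φ' := hσ.comp hσ'
  obtain ⟨α, S, hα⟩ := takahasi φ hφ
  obtain ⟨β, S', hβ⟩ := takahasi φ' hφ'
  have hcomm : ∀ n z, σ (pw φ n z) = pw φ' n (σ z) := by
    intro n z
    induction n with
    | zero => rfl
    | succ n ih =>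
      rw [pw_succ, pw_succ, ← ih]; rfl
  have hcomm' : ∀ n z, σ' (pw φ' n z) = pw φ n (σ' z) := by
    intro n z
    induction n with
    | zero => rfl
    | succ n ih =>
      rw [pw_succ, pw_succ, ← ih]; rfl
  have hst1 : ∀ z, Stab φ z → Stab φ' (σ z) := by
    intro z hz n
    obtain ⟨z', hz'⟩ := hz n
    exact ⟨σ z', by rw [← hcomm, hz']⟩
  have hst2 : ∀ z, Stab φ' z → Stab φ (σ' z) := by
    intro z hz n
    obtain ⟨z', hz'⟩ := hz n
    exact ⟨σ' z', by rw [← hcomm', hz']⟩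
  have hst3 : ∀ z, Stab φ' z → ∃ z', Stab φ' z' ∧ φ' z' = z := by
    intro z hz
    obtain ⟨z₁, hz₁⟩ := hz 1
    have e1 : φ' z₁ = z := hz₁
    refine ⟨z₁, fun n => ?_, e1⟩
    obtain ⟨z₂, hz₂⟩ := hz (n + 1)
    refine ⟨z₂, hφ' ?_⟩
    rw [← pw_succ, hz₂, e1]
  have hst4 : ∀ z, Stab φ' z → ∃ u, Stab φ u ∧ σ u = z := by
    intro z hz
    obtain ⟨z', hz', rfl⟩ := hst3 z hz
    exact ⟨σ' z', hst2 z' hz', rfl⟩
  have hμ : ∀ i, Stab φ (μ i) := by
    intro i n
    refine ⟨μ i, ?_⟩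
    induction n with
    | zero => rfl
    | succ n ih =>
      rw [pw_succ, ih]
      change σ' (σ (μ i)) = μ i
      rw [h1, h2]
  -- the map between the two free factors
  let ρ : FreeLieAlgebra K (Fin r) →ₗ⁅K⁆ FreeLieAlgebra K (Fin r) := ((β.symm : FreeLieAlgebra K (Fin r) →ₗ⁅K⁆ FreeLieAlgebra K (Fin r)).comp σ).comp (α : FreeLieAlgebra K (Fin r) →ₗ⁅K⁆ FreeLieAlgebra K (Fin r))
  have hρa : ∀ z, ρ z = β.symm (σ (α z)) := fun z => rfl
  have hρi : Function.Injective ρ := β.symm.injective.comp (hσ.comp α.injective)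
  have hρ1 : ∀ m, pr (S : Set (Fin r)) m = m → pr (S' : Set (Fin r)) (ρ m) = ρ m := by
    intro m hm
    have h3 : Stab φ' (σ (α m)) := hst1 _ ((hα _).2 ⟨m, hm, rfl⟩)
    obtain ⟨m', hm', hm''⟩ := (hβ _).1 h3
    rw [hρa, ← hm'', LieEquiv.symm_apply_apply]
    exact hm'
  have hρ2 : ∀ m', pr (S' : Set (Fin r)) m' = m' → ∃ m, pr (S : Set (Fin r)) m = m ∧
      ρ m = m' := by
    intro m' hm'
    obtain ⟨u, hu, hu'⟩ := hst4 (β m') ((hβ _).2 ⟨m', hm', rfl⟩)
    obtain ⟨m, hm, hm''⟩ := (hα _).1 hu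
    refine ⟨m, hm, ?_⟩
    rw [hρa, hm'', hu', LieEquiv.symm_apply_apply]
  have hid : ∀ z : FreeLieAlgebra K (Fin r), (LieHom.id : FreeLieAlgebra K (Fin r) →ₗ⁅K⁆ FreeLieAlgebra K (Fin r)) z = z := fun z => rfl
  have hc1 : S.card ≤ S'.card := by
    refine rank_le ρ LieHom.id hρi S S' ?_ ?_
    · intro j hj
      obtain ⟨m, _, hm⟩ := hρ2 _ (pr_of_mem (K := K) (S := (S' : Set (Fin r))) hj)
      exact ⟨m, hm⟩
    · intro i hi
      exact ⟨ρ (FreeLieAlgebra.of K i), hρ1 _ (pr_of_mem (S := (S : Set (Fin r))) hi), rfl⟩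
  have hc2 : S'.card ≤ S.card := by
    refine rank_le LieHom.id ρ (fun a b h => h) S' S ?_ ?_
    · intro j hj
      exact ⟨ρ (FreeLieAlgebra.of K j), rfl⟩
    · intro i hi
      obtain ⟨m, hm, hm'⟩ := hρ2 _ (pr_of_mem (K := K) (S := (S' : Set (Fin r))) hi)
      exact ⟨m, hm, hm'⟩
  let e₀ : {x // x ∈ S} ≃ {x // x ∈ S'} := Finset.equivOfCardEq (le_antisymm hc1 hc2)
  let e : Equiv.Perm (Fin r) := e₀.extendSubtype
  have he1 : ∀ i, i ∈ S → e i ∈ S' := fun i hi => e₀.extendSubtype_mem i hi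
  have he2 : ∀ i, i ∉ S → e i ∉ S' := fun i hi => e₀.extendSubtype_not_mem i hi
  have he3 : ∀ j, j ∉ S' → e.symm j ∉ S := by
    intro j hj hi
    have := he1 _ hi
    rw [Equiv.apply_symm_apply] at this
    exact hj this
  have hκ : ∀ j, ∃ m, j ∈ S' → pr (S : Set (Fin r)) m = m ∧ ρ m = FreeLieAlgebra.of K j := by
    intro j
    by_cases hj : j ∈ S'
    · obtain ⟨m, hm, hm'⟩ := hρ2 _ (pr_of_mem (K := K) (S := (S' : Set (Fin r))) hj)
      exact ⟨m, fun _ => ⟨hm, hm'⟩⟩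
    · exact ⟨0, fun h => absurd h hj⟩
  choose κ hκ using hκ
  let P : FreeLieAlgebra K (Fin r) →ₗ⁅K⁆ FreeLieAlgebra K (Fin r) := FreeLieAlgebra.lift K (fun i =>
    if i ∈ S then ρ (FreeLieAlgebra.of K i) else FreeLieAlgebra.of K (e i))
  let Q : FreeLieAlgebra K (Fin r) →ₗ⁅K⁆ FreeLieAlgebra K (Fin r) := FreeLieAlgebra.lift K (fun j =>
    if j ∈ S' then κ j else FreeLieAlgebra.of K (e.symm j))
  have hP1 : ∀ i ∈ S, P (FreeLieAlgebra.of K i) = ρ (FreeLieAlgebra.of K i) := by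
    intro i hi
    simp only [P]
    rw [FreeLieAlgebra.lift_of_apply, if_pos hi]
  have hP2 : ∀ i, i ∉ S → P (FreeLieAlgebra.of K i) = FreeLieAlgebra.of K (e i) := by
    intro i hi
    simp only [P]
    rw [FreeLieAlgebra.lift_of_apply, if_neg hi]
  have hQ1 : ∀ j ∈ S', Q (FreeLieAlgebra.of K j) = κ j := by
    intro j hj
    simp only [Q]
    rw [FreeLieAlgebra.lift_of_apply, if_pos hj]
  have hQ2 : ∀ j, j ∉ S' → Q (FreeLieAlgebra.of K j) = FreeLieAlgebra.of K (e.symm j) := by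
    intro j hj
    simp only [Q]
    rw [FreeLieAlgebra.lift_of_apply, if_neg hj]
  have hPρ : ∀ m, pr (S : Set (Fin r)) m = m → P m = ρ m := fun m hm =>
    eq_of_pr P ρ (fun i hi => hP1 i hi) hm
  have hPQ : ∀ z, P (Q z) = z := by
    intro z
    have : P.comp Q = LieHom.id := by
      apply FreeLieAlgebra.hom_ext
      intro j
      change P (Q (FreeLieAlgebra.of K j)) = FreeLieAlgebra.of K j
      by_cases hj : j ∈ S'
      · rw [hQ1 j hj, hPρ _ (hκ j hj).1, (hκ j hj).2]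
      · rw [hQ2 j hj, hP2 _ (he3 j hj), Equiv.apply_symm_apply]
    exact LieHom.congr_fun this z
  have hQP : ∀ z, Q (P z) = z := by
    intro z
    have : Q.comp P = LieHom.id := by
      apply FreeLieAlgebra.hom_ext
      intro i
      change Q (P (FreeLieAlgebra.of K i)) = FreeLieAlgebra.of K i
      by_cases hi : i ∈ S
      · have h3 : pr (S : Set (Fin r)) (Q (P (FreeLieAlgebra.of K i))) =
            Q (P (FreeLieAlgebra.of K i)) := by
          refine pr_fix_lift (S := (S' : Set (Fin r))) Q ?_ ?_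
          · intro j hj
            rw [hQ1 j hj]; exact (hκ j hj).1
          · rw [hP1 i hi]
            exact hρ1 _ (pr_of_mem (S := (S : Set (Fin r))) hi)
        apply hρi
        rw [← hPρ _ h3, hPQ, hP1 i hi]
      · rw [hP2 i hi, hQ2 _ (he2 i hi), Equiv.symm_apply_apply]
    exact LieHom.congr_fun this z
  let PE : FreeLieAlgebra K (Fin r) ≃ₗ⁅K⁆ FreeLieAlgebra K (Fin r) := { P with invFun := Q, left_inv := hQP, right_inv := hPQ }
  refine ⟨(α.symm.trans PE).trans β, fun i => ?_⟩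
  obtain ⟨m, hm, hm'⟩ := (hα _).1 (hμ i)
  change β (P (α.symm (μ i))) = ν i
  rw [← hm', LieEquiv.symm_apply_apply, hPρ m hm, hρa, LieEquiv.apply_symm_apply, hm', h1]

end Takahasi

end Pool.Agent.Helper771.FreeLieGrad
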