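import Mathlib

set_option autoImplicit false

namespace Pool.Agent.Helper771.FreeNilp

open FirstOrder

universe u v w

set_option linter.unusedSectionVars false

/-- The function symbols of the first-order language of `K`-algebras. -/
inductive AlgFn (K : Type u) : ℕ → Type u
  | zero : AlgFn K 0
  | add : AlgFn K 2
  | neg : AlgFn K 1
  | mul : AlgFn K 2
  | smul (c : K) : AlgFn K 1

/-- The first-order language of `K`-algebras: `0, +, -, *` and one unary symbol for every scalar. -/
def algLang (K : Type u) : FirstOrder.Language.{u, 0} := ⟨AlgFn K, fun _ => Empty⟩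

/-- The interpretation of the function symbols in an algebra. -/
def algFunMap (K : Type u) [Field K] (A : Type v) [NonUnitalRing A] [Module K A] :
    ∀ {n : ℕ}, AlgFn K n → (Fin n → A) → A
  | _, AlgFn.zero, _ => 0
  | _, AlgFn.add, xs => xs 0 + xs 1
  | _, AlgFn.neg, xs => - xs 0
  | _, AlgFn.mul, xs => xs 0 * xs 1
  | _, AlgFn.smul c, xs => c • xs 0

/-- An algebra as a structure for the language of `K`-algebras. -/
instance algStructure (K : Type u) [Field K] (A : Type v) [NonUnitalRing A] [Module K A] :
    (algLang K).Structure A where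
  funMap := fun f xs => algFunMap K A f xs
  RelMap := fun r _ => r.elim

/-- Two tuples have the same complete first-order type in `A`. -/
def SameType (K : Type u) [Field K] (A : Type v) [NonUnitalRing A] [Module K A] {m : ℕ}
    (μ ν : Fin m → A) : Prop :=
  ∀ φ : (algLang K).Formula (Fin m), φ.Realize μ ↔ φ.Realize ν

/-- `A` is logically homogeneous: tuples of the same type are conjugate under an
automorphism (a bijective `K`-algebra homomorphism) of `A`. -/
def LogicallyHomogeneous (K : Type u) [Field K] (A : Type v) [NonUnitalRing A] [Module K A] :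
    Prop :=
  ∀ m : ℕ, 1 ≤ m → ∀ μ ν : Fin m → A, SameType K A μ ν →
    ∃ σ : A →ₙₐ[K] A, Function.Bijective σ ∧ ∀ i, σ (μ i) = ν i

/-- The `K`-span of all products `a * b` with `a ∈ P` and `b ∈ Q`. -/
def spanMul (K : Type u) [Field K] (A : Type v) [NonUnitalRing A] [Module K A]
    (P Q : Submodule K A) : Submodule K A :=
  Submodule.span K {z | ∃ a ∈ P, ∃ b ∈ Q, z = a * b}

/-- The powers of an algebra: `A^1 = A` and `A^{k+2} = ∑_{i+j=k+2} A^i A^j` (sum over
`i, j ≥ 1`).  The value at `0` is irrelevant. -/
def algPow (K : Type u) [Field K] (A : Type v) [NonUnitalRing A] [Module K A] :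
    ℕ → Submodule K A
  | 0 => ⊤
  | 1 => ⊤
  | (k + 2) => ⨆ i : Fin (k + 1),
      spanMul K A (algPow K A (i.val + 1)) (algPow K A (k + 1 - i.val))
  termination_by k => k
  decreasing_by
    · have := i.isLt; omega
    · omega

/-- `A` is nilpotent of index `n`: `A^n = 0`. -/
def IsNilp (K : Type u) [Field K] (A : Type v) [NonUnitalRing A] [Module K A] (n : ℕ) : Prop :=
  algPow K A n = ⊥

/-- The derived powers of an algebra: `A^{(0)} = A` and `A^{(k+1)} = A^{(k)} A^{(k)}`. -/
def solvPow (K : Type u) [Field K] (A : Type v) [NonUnitalRing A] [Module K A] :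
    ℕ → Submodule K A
  | 0 => ⊤
  | (k + 1) => spanMul K A (solvPow K A k) (solvPow K A k)

/-- `A` is solvable of length `n`: `A^{(n)} = 0`. -/
def IsSolv (K : Type u) [Field K] (A : Type v) [NonUnitalRing A] [Module K A] (n : ℕ) : Prop :=
  solvPow K A n = ⊥

/-- `F` with the generators `x 0, ..., x (r-1)` is the free algebra of rank `r` in the variety of
`n`-nilpotent associative `K`-algebras (universal property). -/
def IsFreeNilp (K : Type u) [Field K] (n r : ℕ) (F : Type u) [NonUnitalRing F] [Module K F]
    (x : Fin r → F) : Prop :=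
  IsNilp K F n ∧
  ∀ (B : Type u) [NonUnitalRing B] [Module K B] [IsScalarTower K B B] [SMulCommClass K B B],
    IsNilp K B n → ∀ y : Fin r → B, ∃! f : F →ₙₐ[K] B, ∀ i, f (x i) = y i

/-- `F` with the generators `x 0, ..., x (r-1)` is the free algebra of rank `r` in the variety of
`n`-solvable associative `K`-algebras (universal property). -/
def IsFreeSolv (K : Type u) [Field K] (n r : ℕ) (F : Type u) [NonUnitalRing F] [Module K F]
    (x : Fin r → F) : Prop :=
  IsSolv K F n ∧
  ∀ (B : Type u) [NonUnitalRing B] [Module K B] [IsScalarTower K B B] [SMulCommClass K B B],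
    IsSolv K B n → ∀ y : Fin r → B, ∃! f : F →ₙₐ[K] B, ∀ i, f (x i) = y i

/-! ### Powers of algebras -/

section Powers

variable (K : Type u) [Field K] (A : Type v) [NonUnitalRing A] [Module K A]

theorem algPow_one : algPow K A 1 = ⊤ := by rw [algPow]

theorem algPow_add_two (k : ℕ) : algPow K A (k + 2) = ⨆ i : Fin (k + 1),
      spanMul K A (algPow K A (i.val + 1)) (algPow K A (k + 1 - i.val)) := by
  rw [algPow]

variable {K A}

theorem mul_mem_spanMul {P Q : Submodule K A} {a b : A} (ha : a ∈ P) (hb : b ∈ Q) :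
    a * b ∈ spanMul K A P Q :=
  Submodule.subset_span ⟨a, ha, b, hb, rfl⟩

theorem spanMul_le {P Q R : Submodule K A} (h : ∀ a ∈ P, ∀ b ∈ Q, a * b ∈ R) :
    spanMul K A P Q ≤ R := by
  refine Submodule.span_le.2 ?_
  rintro z ⟨a, ha, b, hb, rfl⟩
  exact h a ha b hb

theorem spanMul_mono {P Q P' Q' : Submodule K A} (h : P ≤ P') (h' : Q ≤ Q') :
    spanMul K A P Q ≤ spanMul K A P' Q' :=
  spanMul_le fun _ ha _ hb => mul_mem_spanMul (h ha) (h' hb)

theorem mul_mem_algPow {i j : ℕ} (hi : 1 ≤ i) (hj : 1 ≤ j) {a b : A}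
    (ha : a ∈ algPow K A i) (hb : b ∈ algPow K A j) : a * b ∈ algPow K A (i + j) := by
  obtain ⟨k, hk⟩ : ∃ k, i + j = k + 2 := ⟨i + j - 2, by omega⟩
  rw [hk, algPow_add_two]
  have hi' : i - 1 < k + 1 := by omega
  refine Submodule.mem_iSup_of_mem (⟨i - 1, hi'⟩ : Fin (k + 1)) ?_
  have e1 : (⟨i - 1, hi'⟩ : Fin (k + 1)).val + 1 = i := by simp; omega
  have e2 : k + 1 - (⟨i - 1, hi'⟩ : Fin (k + 1)).val = j := by simp; omega
  rw [e1, e2]
  exact mul_mem_spanMul ha hb

theorem algPow_le_of {k : ℕ} {R : Submodule K A}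
    (h : ∀ i j : ℕ, 1 ≤ i → 1 ≤ j → i + j = k + 2 → ∀ a ∈ algPow K A i, ∀ b ∈ algPow K A j,
      a * b ∈ R) : algPow K A (k + 2) ≤ R := by
  rw [algPow_add_two]
  refine iSup_le fun i => spanMul_le fun a ha b hb => ?_
  have := i.isLt
  exact h (i.val + 1) (k + 1 - i.val) (by omega) (by omega) (by omega) a ha b hb

theorem algPow_succ_le : ∀ k : ℕ, 1 ≤ k → algPow K A (k + 1) ≤ algPow K A k := by
  intro k
  induction k using Nat.strong_induction_on with
  | _ k ih =>
    intro hk
    obtain rfl | hk2 : k = 1 ∨ 2 ≤ k := by omega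
    · rw [algPow_one]; exact le_top
    · obtain ⟨l, rfl⟩ : ∃ l, k = l + 1 := ⟨k - 1, by omega⟩
      refine algPow_le_of ?_
      intro i j hi hj hij a ha b hb
      by_cases h1 : 2 ≤ i
      · have ha' : a ∈ algPow K A (i - 1) := by
          have := ih (i - 1) (by omega) (by omega)
          rw [show i - 1 + 1 = i by omega] at this
          exact this ha
        have := mul_mem_algPow (by omega : 1 ≤ i - 1) hj ha' hb
        rwa [show i - 1 + j = l + 1 by omega] at this
      · have h2 : 2 ≤ j := by omega
        have hb' : b ∈ algPow K A (j - 1) := by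
          have := ih (j - 1) (by omega) (by omega)
          rw [show j - 1 + 1 = j by omega] at this
          exact this hb
        have := mul_mem_algPow hi (by omega : 1 ≤ j - 1) ha hb'
        rwa [show i + (j - 1) = l + 1 by omega] at this

theorem algPow_anti {k l : ℕ} (hk : 1 ≤ k) (hkl : k ≤ l) : algPow K A l ≤ algPow K A k := by
  induction l, hkl using Nat.le_induction with
  | base => exact le_rfl
  | succ l hl ih => exact (algPow_succ_le l (by omega)).trans ih

/-- images of powers under homomorphisms -/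
theorem map_mem_algPow {B : Type w} [NonUnitalRing B] [Module K B] (f : A →ₙₐ[K] B) :
    ∀ k : ℕ, ∀ z ∈ algPow K A k, f z ∈ algPow K B k := by
  intro k
  induction k using Nat.strong_induction_on with
  | _ k ih =>
    match k, ih with
    | 0, _ => intro z _; rw [algPow]; trivial
    | 1, _ => intro z _; rw [algPow]; trivial
    | (l + 2), ih =>
      intro z hz
      have key : algPow K A (l + 2) ≤ (algPow K B (l + 2)).comap (f : A →ₗ[K] B) := by
        refine algPow_le_of ?_
        intro i j hi hj hij a ha b hb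
        simp only [Submodule.mem_comap]
        have h1 := ih i (by omega) a ha
        have h2 := ih j (by omega) b hb
        have := mul_mem_algPow hi hj h1 h2
        rw [hij] at this
        simpa using this
      simpa using key hz

/-- In an associative algebra `A^i A^j ⊆ A A^{i+j-1}`. -/
theorem mul_mem_spanMul_top [IsScalarTower K A A] [SMulCommClass K A A] :
    ∀ i : ℕ, 1 ≤ i → ∀ j : ℕ, 1 ≤ j → ∀ a ∈ algPow K A i,
      ∀ b ∈ algPow K A j, a * b ∈ spanMul K A ⊤ (algPow K A (i + j - 1)) := by
  intro i
  induction i using Nat.strong_induction_on with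
  | _ i ih =>
    intro hi j hj a ha b hb
    obtain rfl | hi2 : i = 1 ∨ 2 ≤ i := by omega
    · rw [show 1 + j - 1 = j by omega]
      exact mul_mem_spanMul trivial hb
    · obtain ⟨l, rfl⟩ : ∃ l, i = l + 2 := ⟨i - 2, by omega⟩
      have key : algPow K A (l + 2) ≤
          (spanMul K A ⊤ (algPow K A (l + 2 + j - 1))).comap (LinearMap.mulRight K b) := by
        refine algPow_le_of ?_
        intro p q hp hq hpq c hc d hd
        simp only [Submodule.mem_comap, LinearMap.mulRight_apply]
        rw [mul_assoc]
        have h1 : d * b ∈ algPow K A (q + j) := mul_mem_algPow hq hj hd hb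
        have h2 := ih p (by omega) hp (q + j) (by omega) c hc (d * b) h1
        rwa [show p + (q + j) - 1 = l + 2 + j - 1 by omega] at h2
      simpa using key ha

theorem algPow_succ [IsScalarTower K A A] [SMulCommClass K A A] {k : ℕ} (hk : 1 ≤ k) :
    algPow K A (k + 1) = spanMul K A ⊤ (algPow K A k) := by
  apply le_antisymm
  · obtain ⟨l, rfl⟩ : ∃ l, k = l + 1 := ⟨k - 1, by omega⟩
    refine algPow_le_of ?_
    intro i j hi hj hij a ha b hb
    have := mul_mem_spanMul_top i hi j hj a ha b hb
    rwa [show i + j - 1 = l + 1 by omega] at this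
  · refine spanMul_le ?_
    intro a _ b hb
    have : a ∈ algPow K A 1 := by rw [algPow_one]; trivial
    have := mul_mem_algPow le_rfl hk this hb
    rwa [add_comm] at this

/-- `A^i A^j = A^{i+j}` in an associative algebra. -/
theorem spanMul_algPow [IsScalarTower K A A] [SMulCommClass K A A] :
    ∀ i : ℕ, 1 ≤ i → ∀ j : ℕ, 1 ≤ j →
      spanMul K A (algPow K A i) (algPow K A j) = algPow K A (i + j) := by
  intro i hi j hj
  apply le_antisymm
  · exact spanMul_le fun a ha b hb => mul_mem_algPow hi hj ha hb
  · induction i, hi using Nat.le_induction with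
    | base =>
      rw [algPow_one, add_comm, algPow_succ hj]
    | succ i hi ih =>
      rw [show i + 1 + j = (i + j) + 1 by omega, algPow_succ (by omega : 1 ≤ i + j)]
      refine spanMul_le ?_
      intro a _ b hb
      have hb' := ih hb
      have key : spanMul K A (algPow K A i) (algPow K A j) ≤
          (spanMul K A (algPow K A (i + 1)) (algPow K A j)).comap (LinearMap.mulLeft K a) := by
        refine spanMul_le ?_
        intro c hc d hd
        simp only [Submodule.mem_comap, LinearMap.mulLeft_apply]
        rw [← mul_assoc]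
        refine mul_mem_spanMul ?_ hd
        rw [algPow_succ hi]
        exact mul_mem_spanMul trivial hc
      simpa using key hb'

theorem solvPow_eq [IsScalarTower K A A] [SMulCommClass K A A] (k : ℕ) :
    solvPow K A k = algPow K A (2 ^ k) := by
  induction k with
  | zero => simp [solvPow, algPow_one]
  | succ k ih =>
    rw [solvPow, ih, spanMul_algPow _ Nat.one_le_two_pow _ Nat.one_le_two_pow]
    congr 1
    rw [pow_succ]; omega

end Powers


/-! ### A test algebra -/

section Test

/-- The algebra `V ⊕ (V ⊗ V)` with `V = K^r`, the product being `(v, s) (w, t) = (0, v ⊗ w)`. -/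
structure TestAlg (K : Type u) (r : ℕ) where
  lin : Fin r → K
  quad : Fin r → Fin r → K

variable (K : Type u) [Field K] (r : ℕ)

theorem TestAlg.ext' {K : Type u} {r : ℕ} {a b : TestAlg K r} (h : a.lin = b.lin)
    (h' : a.quad = b.quad) : a = b := by
  cases a; cases b; simp_all

instance : Add (TestAlg K r) := ⟨fun a b => ⟨a.lin + b.lin, a.quad + b.quad⟩⟩
instance : Zero (TestAlg K r) := ⟨⟨0, 0⟩⟩
instance : Neg (TestAlg K r) := ⟨fun a => ⟨-a.lin, -a.quad⟩⟩
instance : Mul (TestAlg K r) := ⟨fun a b => ⟨0, fun i j => a.lin i * b.lin j⟩⟩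
instance : SMul K (TestAlg K r) := ⟨fun c a => ⟨c • a.lin, c • a.quad⟩⟩

@[simp] theorem add_lin (a b : TestAlg K r) : (a + b).lin = a.lin + b.lin := rfl
@[simp] theorem add_quad (a b : TestAlg K r) : (a + b).quad = a.quad + b.quad := rfl
@[simp] theorem zero_lin : (0 : TestAlg K r).lin = 0 := rfl
@[simp] theorem zero_quad : (0 : TestAlg K r).quad = 0 := rfl
@[simp] theorem neg_lin (a : TestAlg K r) : (-a).lin = -a.lin := rfl
@[simp] theorem neg_quad (a : TestAlg K r) : (-a).quad = -a.quad := rfl
@[simp] theorem mul_lin (a b : TestAlg K r) : (a * b).lin = 0 := rfl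
@[simp] theorem mul_quad (a b : TestAlg K r) :
    (a * b).quad = fun i j => a.lin i * b.lin j := rfl
@[simp] theorem smul_lin (c : K) (a : TestAlg K r) : (c • a).lin = c • a.lin := rfl
@[simp] theorem smul_quad (c : K) (a : TestAlg K r) : (c • a).quad = c • a.quad := rfl

instance : NonUnitalRing (TestAlg K r) where
  add_assoc a b c := TestAlg.ext' (by simp [add_assoc]) (by simp [add_assoc])
  zero_add a := TestAlg.ext' (by simp) (by simp)
  add_zero a := TestAlg.ext' (by simp) (by simp)
  add_comm a b := TestAlg.ext' (by simp [add_comm]) (by simp [add_comm])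
  neg_add_cancel a := TestAlg.ext' (by simp) (by simp)
  nsmul := nsmulRec
  zsmul := zsmulRec
  left_distrib a b c := TestAlg.ext' (by simp) (by ext i j; simp [mul_add])
  right_distrib a b c := TestAlg.ext' (by simp) (by ext i j; simp [add_mul])
  zero_mul a := TestAlg.ext' (by simp) (by ext i j; simp)
  mul_zero a := TestAlg.ext' (by simp) (by ext i j; simp)
  mul_assoc a b c := TestAlg.ext' (by simp) (by ext i j; simp)

instance : Module K (TestAlg K r) where
  one_smul a := TestAlg.ext' (by simp) (by simp)
  mul_smul a b c := TestAlg.ext' (by simp [mul_smul]) (by simp [mul_smul])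
  smul_zero a := TestAlg.ext' (by simp) (by simp)
  smul_add a b c := TestAlg.ext' (by simp) (by simp)
  add_smul a b c := TestAlg.ext' (by simp [add_smul]) (by simp [add_smul])
  zero_smul a := TestAlg.ext' (by simp) (by simp)

instance : IsScalarTower K (TestAlg K r) (TestAlg K r) where
  smul_assoc c a b := TestAlg.ext' (by simp) (by ext i j; simp [mul_assoc])

instance : SMulCommClass K (TestAlg K r) (TestAlg K r) where
  smul_comm c a b := TestAlg.ext' (by simp) (by ext i j; simp [mul_left_comm])

theorem testAlg_pow_three : algPow K (TestAlg K r) 3 = ⊥ := by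
  rw [algPow_succ (by norm_num : 1 ≤ 2), eq_bot_iff]
  refine spanMul_le ?_
  intro a _ b hb
  have key : algPow K (TestAlg K r) 2 ≤ (⊥ : Submodule K (TestAlg K r)).comap
      (LinearMap.mulLeft K a) := by
    refine algPow_le_of ?_
    intro i j _ _ _ c _ d _
    simp only [Submodule.mem_comap, LinearMap.mulLeft_apply, Submodule.mem_bot]
    exact TestAlg.ext' (by simp) (by ext i j; simp)
  simpa using key hb

theorem testAlg_nilp {n : ℕ} (hn : 3 ≤ n) : IsNilp K (TestAlg K r) n := by
  have := algPow_anti (K := K) (A := TestAlg K r) (by norm_num : 1 ≤ 3) hn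
  rw [testAlg_pow_three] at this
  exact eq_bot_iff.2 this

/-- the linear part as a linear map -/
def linL : TestAlg K r →ₗ[K] (Fin r → K) where
  toFun a := a.lin
  map_add' _ _ := rfl
  map_smul' _ _ := rfl

@[simp] theorem linL_apply (a : TestAlg K r) : linL K r a = a.lin := rfl

end Test

/-! ### Structure of the free nilpotent algebra -/

section Free

variable {K : Type u} [Field K] {n r : ℕ} {F : Type u} [NonUnitalRing F] [Module K F]
  [IsScalarTower K F F] [SMulCommClass K F F] {x : Fin r → F}

/-- subalgebras of nilpotent algebras are nilpotent -/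
theorem IsNilp.subalgebra (hF : IsNilp K F n) (S : NonUnitalSubalgebra K F) :
    IsNilp K S n := by
  unfold IsNilp at *
  rw [eq_bot_iff]
  intro z hz
  have h := map_mem_algPow (NonUnitalSubalgebraClass.subtype S) n z hz
  rw [hF] at h
  simpa using h

theorem IsFreeNilp.hom_ext (hF : IsFreeNilp K n r F x) {B : Type u} [NonUnitalRing B]
    [Module K B] [IsScalarTower K B B] [SMulCommClass K B B] (hB : IsNilp K B n)
    {f g : F →ₙₐ[K] B} (h : ∀ i, f (x i) = g (x i)) : f = g := by
  obtain ⟨_, _, hu⟩ := hF.2 B hB (fun i => g (x i))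
  rw [hu f h, hu g (fun _ => rfl)]

/-- The free algebra is generated by the free generators. -/
theorem IsFreeNilp.adjoin_eq_top (hF : IsFreeNilp K n r F x) :
    NonUnitalAlgebra.adjoin K (Set.range x) = ⊤ := by
  set S := NonUnitalAlgebra.adjoin K (Set.range x) with hS
  have hx : ∀ i, x i ∈ S := fun i => NonUnitalAlgebra.subset_adjoin K ⟨i, rfl⟩
  obtain ⟨f, hf, _⟩ := hF.2 S (hF.1.subalgebra S) (fun i => ⟨x i, hx i⟩)
  have h1 : (NonUnitalSubalgebraClass.subtype S).comp f = NonUnitalAlgHom.id K F := by
    apply hF.hom_ext hF.1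
    intro i
    simp [hf i]
  rw [eq_top_iff]
  intro z _
  have h2 : (NonUnitalSubalgebraClass.subtype S) (f z) = z := by
    have := DFunLike.congr_fun h1 z
    simpa using this
  rw [← h2]
  exact (f z).2

/-- Every element is a linear combination of the generators plus an element of `∑ x_i F`. -/
theorem IsFreeNilp.exists_repr (hF : IsFreeNilp K n r F x) (z : F) :
    ∃ (c : Fin r → K) (w : Fin r → F), z = ∑ i, c i • x i + ∑ i, x i * w i := by
  have hz : z ∈ NonUnitalAlgebra.adjoin K (Set.range x) := by
    rw [hF.adjoin_eq_top]; trivial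
  induction hz using NonUnitalAlgebra.adjoin_induction with
  | mem y hy =>
    obtain ⟨i, rfl⟩ := hy
    refine ⟨Pi.single i 1, 0, ?_⟩
    simp [Pi.single_apply]
  | add a b _ _ ha hb =>
    obtain ⟨c, w, rfl⟩ := ha
    obtain ⟨c', w', rfl⟩ := hb
    refine ⟨c + c', w + w', ?_⟩
    simp only [Pi.add_apply, add_smul, mul_add, Finset.sum_add_distrib]
    abel
  | zero => exact ⟨0, 0, by simp⟩
  | mul a b _ _ ha hb =>
    obtain ⟨c, w, rfl⟩ := ha
    refine ⟨0, fun i => c i • b + w i * b, ?_⟩
    simp only [add_mul, Finset.sum_mul, mul_add, Finset.sum_add_distrib, Pi.zero_apply, zero_smul,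
      Finset.sum_const_zero, zero_add, mul_assoc, smul_mul_assoc, mul_smul_comm]
  | smul t a _ ha =>
    obtain ⟨c, w, rfl⟩ := ha
    refine ⟨t • c, t • w, ?_⟩
    simp only [smul_add, Finset.smul_sum, Pi.smul_apply, smul_eq_mul, mul_smul, mul_smul_comm]

/-- Every element of the free algebra is the value of a term at the generators. -/
theorem IsFreeNilp.exists_term (hF : IsFreeNilp K n r F x) (z : F) :
    ∃ t : (algLang K).Term (Fin r), t.realize x = z := by
  have hz : z ∈ NonUnitalAlgebra.adjoin K (Set.range x) := by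
    rw [hF.adjoin_eq_top]; trivial
  induction hz using NonUnitalAlgebra.adjoin_induction with
  | mem y hy =>
    obtain ⟨i, rfl⟩ := hy
    exact ⟨Language.Term.var i, rfl⟩
  | add a b _ _ ha hb =>
    obtain ⟨s, rfl⟩ := ha
    obtain ⟨t, rfl⟩ := hb
    exact ⟨Language.Term.func (l := 2) (AlgFn.add : AlgFn K 2) ![s, t], rfl⟩
  | zero => exact ⟨Language.Term.func (l := 0) (AlgFn.zero : AlgFn K 0) ![], rfl⟩
  | mul a b _ _ ha hb =>
    obtain ⟨s, rfl⟩ := ha
    obtain ⟨t, rfl⟩ := hb
    exact ⟨Language.Term.func (l := 2) (AlgFn.mul : AlgFn K 2) ![s, t], rfl⟩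
  | smul c a _ ha =>
    obtain ⟨s, rfl⟩ := ha
    exact ⟨Language.Term.func (l := 1) (AlgFn.smul c : AlgFn K 1) ![s], rfl⟩

/-- The free nilpotent algebra is finite-dimensional. -/
theorem IsFreeNilp.finite (hF : IsFreeNilp K n r F x) (hn : 1 ≤ n) : Module.Finite K F := by
  have key : ∀ k : ℕ, 1 ≤ k → ∃ G : Submodule K F, G.FG ∧ G ⊔ algPow K F k = ⊤ := by
    intro k hk
    induction k, hk using Nat.le_induction with
    | base => exact ⟨⊥, Submodule.fg_bot, by rw [algPow_one]; simp⟩
    | succ k hk ih =>
      obtain ⟨G, hG, hG'⟩ := ih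
      refine ⟨Submodule.span K (Set.range x) ⊔ ⨆ i, G.map (LinearMap.mulLeft K (x i)), ?_, ?_⟩
      · refine Submodule.FG.sup (Submodule.fg_span (Set.finite_range x)) ?_
        exact Submodule.fg_iSup _ fun i => hG.map _
      · rw [eq_top_iff]
        intro z _
        obtain ⟨c, w, rfl⟩ := hF.exists_repr z
        refine Submodule.add_mem _ ?_ ?_
        · refine Submodule.sum_mem _ fun i _ => ?_
          refine Submodule.mem_sup_left (Submodule.mem_sup_left ?_)
          exact Submodule.smul_mem _ _ (Submodule.subset_span ⟨i, rfl⟩)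
        · refine Submodule.sum_mem _ fun i _ => ?_
          have hw : w i ∈ G ⊔ algPow K F k := by rw [hG']; trivial
          obtain ⟨g, hg, t, ht, hgt⟩ := Submodule.mem_sup.1 hw
          rw [← hgt, mul_add]
          refine Submodule.add_mem _ ?_ ?_
          · refine Submodule.mem_sup_left (Submodule.mem_sup_right ?_)
            exact Submodule.mem_iSup_of_mem i ⟨g, hg, rfl⟩
          · refine Submodule.mem_sup_right ?_
            rw [algPow_succ hk]
            exact mul_mem_spanMul trivial ht
  obtain ⟨G, hG, hG'⟩ := key n hn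
  have h0 : algPow K F n = ⊥ := hF.1
  rw [h0, sup_bot_eq] at hG'
  exact ⟨hG' ▸ hG⟩

/-- If the elements of `S` together with the products span, then `S` is everything. -/
theorem top_of_sup_sq (hF : IsNilp K F n) (hn : 1 ≤ n) (S : NonUnitalSubalgebra K F)
    (h : ∀ z : F, ∃ s ∈ S, ∃ t ∈ algPow K F 2, z = s + t) : ∀ z : F, z ∈ S := by
  have key : ∀ k : ℕ, 1 ≤ k → ∀ z ∈ algPow K F k, ∃ s ∈ S, ∃ t ∈ algPow K F (k + 1), z = s + t := by
    intro k hk
    induction k, hk using Nat.le_induction with
    | base => intro z _; exact h z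
    | succ k hk ih =>
      have e : algPow K F (k + 1) ≤ S.toSubmodule ⊔ algPow K F (k + 1 + 1) := by
        rw [algPow_succ hk]
        refine spanMul_le ?_
        intro a _ b hb
        obtain ⟨s, hs, t, ht, rfl⟩ := h a
        obtain ⟨s', hs', t', ht', rfl⟩ := ih b hb
        rw [mul_add, add_mul, add_mul]
        have h1 : s * s' ∈ S.toSubmodule := S.mul_mem hs hs'
        have h2 : t * s' + (s * t' + t * t') ∈ algPow K F (k + 1 + 1) := by
          have hb' : s' + t' ∈ algPow K F k := hb
          have h3 : t * (s' + t') ∈ algPow K F (2 + k) := mul_mem_algPow (by norm_num) hk ht hb'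
          have h4 : s * t' ∈ algPow K F (1 + (k + 1)) :=
            mul_mem_algPow le_rfl (by omega) (by rw [algPow_one]; trivial) ht'
          rw [show 2 + k = k + 1 + 1 by omega] at h3
          rw [show 1 + (k + 1) = k + 1 + 1 by omega] at h4
          have := Submodule.add_mem _ h3 h4
          convert this using 1
          rw [mul_add]; abel
        have := Submodule.add_mem (S.toSubmodule ⊔ algPow K F (k + 1 + 1))
          (Submodule.mem_sup_left h1) (Submodule.mem_sup_right h2)
        convert this using 1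
        abel
      intro z hz
      obtain ⟨s, hs, t, ht, hst⟩ := Submodule.mem_sup.1 (e hz)
      exact ⟨s, hs, t, ht, hst.symm⟩
  have key2 : ∀ k : ℕ, 1 ≤ k → ∀ z : F, ∃ s ∈ S, ∃ t ∈ algPow K F k, z = s + t := by
    intro k hk
    induction k, hk using Nat.le_induction with
    | base => intro z; exact ⟨0, S.zero_mem, z, by rw [algPow_one]; trivial, by simp⟩
    | succ k hk ih =>
      intro z
      obtain ⟨s, hs, t, ht, rfl⟩ := ih z
      obtain ⟨s', hs', t', ht', rfl⟩ := key k hk t ht
      exact ⟨s + s', S.add_mem hs hs', t', ht', by abel⟩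
  intro z
  obtain ⟨s, hs, t, ht, rfl⟩ := key2 n hn z
  have h0 : algPow K F n = ⊥ := hF
  rw [h0, Submodule.mem_bot] at ht
  simpa [ht] using hs

/-- A surjective endomorphism is bijective. -/
theorem IsFreeNilp.bijective (hF : IsFreeNilp K n r F x) (hn : 1 ≤ n) (σ : F →ₙₐ[K] F)
    (hσ : Function.Surjective σ) : Function.Bijective σ := by
  have := hF.finite hn
  have h : Function.Injective (σ : F →ₗ[K] F) := by
    rw [LinearMap.injective_iff_surjective]
    exact hσ
  exact ⟨h, hσ⟩

/-- The homomorphism to the test algebra. -/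
theorem IsFreeNilp.exists_test (hF : IsFreeNilp K n r F x) (hn : 3 ≤ n) :
    ∃ h : F →ₙₐ[K] TestAlg K r, ∀ i, h (x i) = ⟨Pi.single i 1, 0⟩ := by
  obtain ⟨f, hf, _⟩ := hF.2 (TestAlg K r) (testAlg_nilp K r hn) (fun i => ⟨Pi.single i 1, 0⟩)
  exact ⟨f, hf⟩

/-- The semantic form of the basis condition. -/
def IsBaseLike (y : Fin r → F) : Prop :=
  (∀ i, ∀ p q : Fin r → F, y i ≠ ∑ j, p j * q j) ∧
  ∀ z : F, ∃ u p q : Fin r → F, (∀ i, u i * y i = y i * u i) ∧
    z = ∑ i, u i + ∑ j, p j * q j

theorem test_lin_repr (h : F →ₙₐ[K] TestAlg K r) (hh : ∀ i, h (x i) = ⟨Pi.single i 1, 0⟩)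
    (c : Fin r → K) (w : Fin r → F) :
    (h (∑ i, c i • x i + ∑ i, x i * w i)).lin = c := by
  have h1 : (linL K r) (h (∑ i, c i • x i + ∑ i, x i * w i)) = c := by
    rw [map_add, map_sum, map_sum, map_add, map_sum, map_sum]
    simp only [map_smul, map_mul, hh, linL_apply, mul_lin, Finset.sum_const_zero,
      add_zero]
    ext j
    simp [Finset.sum_apply, Pi.single_apply]
  exact h1

theorem IsFreeNilp.isBaseLike (hF : IsFreeNilp K n r F x) (hn : 3 ≤ n) : IsBaseLike x := by
  obtain ⟨h, hh⟩ := hF.exists_test hn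
  constructor
  · intro i p q hi
    have h1 : (linL K r) (h (x i)) = 0 := by
      rw [hi, map_sum, map_sum]
      simp
    rw [hh] at h1
    have := congrFun h1 i
    simp at this
  · intro z
    obtain ⟨c, w, rfl⟩ := hF.exists_repr z
    refine ⟨fun i => c i • x i, x, w, ?_, rfl⟩
    intro i
    rw [smul_mul_assoc, mul_smul_comm]

theorem IsFreeNilp.bijective_of_isBaseLike (hF : IsFreeNilp K n r F x) (hn : 3 ≤ n)
    {y : Fin r → F} (hy : IsBaseLike y) (σ : F →ₙₐ[K] F) (hσ : ∀ i, σ (x i) = y i) :
    Function.Bijective σ := by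
  obtain ⟨h, hh⟩ := hF.exists_test hn
  apply hF.bijective (by omega)
  have hsq : ∀ a b : F, a * b ∈ algPow K F 2 := fun a b =>
    mul_mem_algPow (i := 1) (j := 1) le_rfl le_rfl (by rw [algPow_one]; trivial)
      (by rw [algPow_one]; trivial)
  -- elements with zero linear part are sums of products
  have hker : ∀ z : F, (h z).lin = 0 → ∃ w : Fin r → F, z = ∑ j, x j * w j := by
    intro z hz
    obtain ⟨c, w, rfl⟩ := hF.exists_repr z
    rw [test_lin_repr h hh] at hz
    refine ⟨w, ?_⟩
    simp [hz]
  have hker2 : ∀ z : F, (h z).lin = 0 → z ∈ algPow K F 2 := by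
    intro z hz
    obtain ⟨w, rfl⟩ := hker z hz
    exact Submodule.sum_mem _ fun j _ => hsq _ _
  have hyl : ∀ i, (h (y i)).lin ≠ 0 := by
    intro i hi
    obtain ⟨w, hw⟩ := hker _ hi
    exact hy.1 i x w hw
  have hall := top_of_sup_sq hF.1 (by omega) (NonUnitalAlgHom.range σ) (by
    intro z
    obtain ⟨u, p, q, hu, rfl⟩ := hy.2 z
    have hui : ∀ i, ∃ c : K, u i - c • y i ∈ algPow K F 2 := by
      intro i
      obtain ⟨j, hj⟩ : ∃ j, (h (y i)).lin j ≠ 0 := by
        by_contra hcon
        push Not at hcon
        exact hyl i (funext hcon)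
      refine ⟨(h (u i)).lin j / (h (y i)).lin j, hker2 _ ?_⟩
      have hcomm := congrArg TestAlg.quad (congrArg h (hu i))
      simp only [map_mul, mul_quad] at hcomm
      have h1 : (linL K r) (h (u i - ((h (u i)).lin j / (h (y i)).lin j) • y i)) = 0 := by
        rw [map_sub, map_sub, map_smul, map_smul]
        ext k
        simp only [linL_apply, Pi.sub_apply, Pi.smul_apply, smul_eq_mul, Pi.zero_apply]
        have h2 := congrFun (congrFun hcomm k) j
        field_simp
        linear_combination h2
      exact h1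
    choose c hc using hui
    refine ⟨∑ i, c i • y i, ?_, ∑ i, (u i - c i • y i) + ∑ j, p j * q j, ?_, ?_⟩
    · refine ⟨∑ i, c i • x i, ?_⟩
      change σ (∑ i, c i • x i) = _
      rw [map_sum]
      simp only [map_smul, hσ]
    · refine Submodule.add_mem _ (Submodule.sum_mem _ fun i _ => hc i) ?_
      exact Submodule.sum_mem _ fun j _ => hsq _ _
    · rw [Finset.sum_sub_distrib]; abel)
  intro z
  exact hall z

end Free

/-! ### Definability of bases -/

section Formulas

variable (K : Type u)

/-- the term `0` -/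
def zeroT {α : Type w} : (algLang K).Term α :=
  Language.Term.func (l := 0) (AlgFn.zero : AlgFn K 0) ![]

/-- the term `s + t` -/
def addT {α : Type w} (s t : (algLang K).Term α) : (algLang K).Term α :=
  Language.Term.func (l := 2) (AlgFn.add : AlgFn K 2) ![s, t]

/-- the term `s * t` -/
def mulT {α : Type w} (s t : (algLang K).Term α) : (algLang K).Term α :=
  Language.Term.func (l := 2) (AlgFn.mul : AlgFn K 2) ![s, t]

/-- the sum of a list of terms -/
def sumT {α : Type w} : List ((algLang K).Term α) → (algLang K).Term α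
  | [] => zeroT K
  | t :: l => addT K t (sumT l)

variable {K} [Field K] {A : Type v} [NonUnitalRing A] [Module K A]

theorem realize_zeroT {α : Type w} (v : α → A) : (zeroT K).realize v = 0 := rfl

theorem realize_addT {α : Type w} (v : α → A) (s t : (algLang K).Term α) :
    (addT K s t).realize v = s.realize v + t.realize v := rfl

theorem realize_mulT {α : Type w} (v : α → A) (s t : (algLang K).Term α) :
    (mulT K s t).realize v = s.realize v * t.realize v := rfl

theorem realize_sumT {α : Type w} (v : α → A) (l : List ((algLang K).Term α)) :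
    (sumT K l).realize v = (l.map fun t => t.realize v).sum := by
  induction l with
  | nil => rfl
  | cons t l ih => rw [sumT, realize_addT, ih]; simp

theorem realize_sumT_ofFn {α : Type w} (v : α → A) {r : ℕ} (f : Fin r → (algLang K).Term α) :
    (sumT K (List.ofFn f)).realize v = ∑ i, (f i).realize v := by
  rw [realize_sumT, List.map_ofFn, List.sum_ofFn]
  rfl

variable (K)

/-- variable terms -/
abbrev vr {α : Type w} (a : α) : (algLang K).Term α := Language.Term.var a

/-- The first-order formula expressing `IsBaseLike`. -/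
noncomputable def baseF (r : ℕ) : (algLang K).Formula (Fin r) :=
  Language.Formula.iInf (fun i : Fin r =>
    Language.Formula.iAlls (Fin r ⊕ Fin r)
      (∼ (Language.Term.equal (vr K (Sum.inl i : Fin r ⊕ (Fin r ⊕ Fin r)))
        (sumT K (List.ofFn fun j : Fin r =>
          mulT K (vr K (Sum.inr (Sum.inl j))) (vr K (Sum.inr (Sum.inr j)))))))) ⊓
  Language.Formula.iAlls (Fin 1)
    (Language.Formula.iExs (Fin r ⊕ (Fin r ⊕ Fin r))
      (Language.Formula.iInf (fun i : Fin r =>
          Language.Term.equal
            (mulT K (vr K (Sum.inr (Sum.inl i) : (Fin r ⊕ Fin 1) ⊕ (Fin r ⊕ (Fin r ⊕ Fin r))))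
              (vr K (Sum.inl (Sum.inl i))))
            (mulT K (vr K (Sum.inl (Sum.inl i))) (vr K (Sum.inr (Sum.inl i))))) ⊓
        Language.Term.equal (vr K (Sum.inl (Sum.inr 0)))
          (addT K (sumT K (List.ofFn fun i : Fin r => vr K (Sum.inr (Sum.inl i))))
            (sumT K (List.ofFn fun j : Fin r =>
              mulT K (vr K (Sum.inr (Sum.inr (Sum.inl j))))
                (vr K (Sum.inr (Sum.inr (Sum.inr j)))))))))

theorem realize_baseF {r : ℕ} (y : Fin r → A) : (baseF K r).Realize y ↔ IsBaseLike y := by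
  unfold baseF IsBaseLike
  rw [Language.Formula.realize_inf]
  refine and_congr ?_ ?_
  · rw [Language.Formula.realize_iInf]
    refine forall_congr' fun i => ?_
    rw [Language.Formula.realize_iAlls]
    constructor
    · intro h p q
      have := h (Sum.elim p q)
      rw [Language.Formula.realize_not, Language.Formula.realize_equal, realize_sumT_ofFn] at this
      exact this
    · intro h pq
      rw [Language.Formula.realize_not, Language.Formula.realize_equal, realize_sumT_ofFn]
      exact h (fun j => pq (Sum.inl j)) (fun j => pq (Sum.inr j))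
  · rw [Language.Formula.realize_iAlls]
    constructor
    · intro h z
      have := h (fun _ => z)
      rw [Language.Formula.realize_iExs] at this
      obtain ⟨upq, h1⟩ := this
      rw [Language.Formula.realize_inf, Language.Formula.realize_iInf,
        Language.Formula.realize_equal, realize_addT, realize_sumT_ofFn, realize_sumT_ofFn] at h1
      refine ⟨fun i => upq (Sum.inl i), fun i => upq (Sum.inr (Sum.inl i)),
        fun i => upq (Sum.inr (Sum.inr i)), ?_, h1.2⟩
      intro i
      have h2 := h1.1 i
      rw [Language.Formula.realize_equal] at h2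
      exact h2
    · intro h z
      obtain ⟨u, p, q, hu, hz⟩ := h (z 0)
      rw [Language.Formula.realize_iExs]
      refine ⟨Sum.elim u (Sum.elim p q), ?_⟩
      rw [Language.Formula.realize_inf, Language.Formula.realize_iInf,
        Language.Formula.realize_equal, realize_addT, realize_sumT_ofFn, realize_sumT_ofFn]
      refine ⟨?_, hz⟩
      intro i
      rw [Language.Formula.realize_equal]
      exact hu i

end Formulas

/-! ### Homogeneity -/

section Main

variable {K : Type u} [Field K] {n r : ℕ} {F : Type u} [NonUnitalRing F] [Module K F]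
  [IsScalarTower K F F] [SMulCommClass K F F] {x : Fin r → F}

/-- homomorphisms commute with terms -/
theorem map_realize (σ : F →ₙₐ[K] F) {α : Type w} (v : α → F) (t : (algLang K).Term α) :
    σ (t.realize v) = t.realize (fun a => σ (v a)) := by
  induction t with
  | var a => rfl
  | @func l f ts ih =>
    match l, f with
    | _, AlgFn.zero => exact map_zero σ
    | _, AlgFn.add =>
      change σ ((ts 0).realize v + (ts 1).realize v) = _
      rw [map_add, ih 0, ih 1]; rfl
    | _, AlgFn.neg =>
      change σ (- (ts 0).realize v) = _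
      rw [map_neg, ih 0]; rfl
    | _, AlgFn.mul =>
      change σ ((ts 0).realize v * (ts 1).realize v) = _
      rw [map_mul, ih 0, ih 1]; rfl
    | _, AlgFn.smul c =>
      change σ (c • (ts 0).realize v) = _
      rw [map_smul, ih 0]; rfl

theorem IsFreeNilp.homogeneous_of_three_le (hF : IsFreeNilp K n r F x) (hn : 3 ≤ n) :
    LogicallyHomogeneous K F := by
  intro m _ μ ν hμν
  choose t ht using fun i => hF.exists_term (μ i)
  let Φ : (algLang K).Formula (Fin m) :=
    Language.Formula.iExs (Fin r) ((baseF K r).relabel (Sum.inr : Fin r → Fin m ⊕ Fin r) ⊓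
      Language.Formula.iInf (fun i : Fin m =>
        Language.Term.equal (vr K (Sum.inl i : Fin m ⊕ Fin r)) ((t i).relabel Sum.inr)))
  have hΦ : ∀ z : Fin m → F, Φ.Realize z ↔
      ∃ y : Fin r → F, IsBaseLike y ∧ ∀ i, z i = (t i).realize y := by
    intro z
    rw [Language.Formula.realize_iExs]
    refine exists_congr fun y => ?_
    rw [Language.Formula.realize_inf, Language.Formula.realize_relabel, realize_baseF,
      Language.Formula.realize_iInf]
    refine and_congr Iff.rfl (forall_congr' fun i => ?_)
    rw [Language.Formula.realize_equal, Language.Term.realize_relabel]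
    rfl
  have h1 : Φ.Realize μ := (hΦ μ).2 ⟨x, hF.isBaseLike hn, fun i => (ht i).symm⟩
  obtain ⟨y, hy, hy'⟩ := (hΦ ν).1 ((hμν Φ).1 h1)
  obtain ⟨σ, hσ, _⟩ := hF.2 F hF.1 y
  refine ⟨σ, hF.bijective_of_isBaseLike hn hy σ hσ, ?_⟩
  intro i
  rw [← ht i, hy' i, map_realize]
  congr 1
  funext j
  exact hσ j

/-- the case of zero multiplication -/
theorem homogeneous_of_mul_eq_zero [Module.Finite K F] (h0 : ∀ a b : F, a * b = 0) :
    LogicallyHomogeneous K F := by
  intro m _ μ ν hμν
  have hrel : ∀ c : Fin m → K, ∑ i, c i • μ i = 0 ↔ ∑ i, c i • ν i = 0 := by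
    intro c
    have := hμν (Language.Term.equal (sumT K (List.ofFn fun i : Fin m =>
      (Language.Term.func (l := 1) (AlgFn.smul (c i) : AlgFn K 1) ![vr K i] :
        (algLang K).Term (Fin m)))) (zeroT K))
    rw [Language.Formula.realize_equal, Language.Formula.realize_equal, realize_sumT_ofFn,
      realize_sumT_ofFn] at this
    exact this
  let f : (Fin m → K) →ₗ[K] F := Fintype.linearCombination K μ
  let g : (Fin m → K) →ₗ[K] F := Fintype.linearCombination K ν
  have hker : LinearMap.ker f = LinearMap.ker g := by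
    ext c
    rw [LinearMap.mem_ker, LinearMap.mem_ker]
    exact hrel c
  let e : LinearMap.range f ≃ₗ[K] LinearMap.range g :=
    f.quotKerEquivRange.symm ≪≫ₗ Submodule.quotEquivOfEq _ _ hker ≪≫ₗ g.quotKerEquivRange
  have he : ∀ c : Fin m → K, (e ⟨f c, c, rfl⟩ : F) = g c := by
    intro c
    have h1 : f.quotKerEquivRange.symm ⟨f c, c, rfl⟩ = Submodule.Quotient.mk c := by
      rw [LinearEquiv.symm_apply_eq]
      rfl
    simp only [e, LinearEquiv.trans_apply, h1]
    rfl
  obtain ⟨P, hP⟩ := Submodule.exists_isCompl (LinearMap.range f)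
  obtain ⟨Q, hQ⟩ := Submodule.exists_isCompl (LinearMap.range g)
  have hfin : Module.finrank K P = Module.finrank K Q := by
    have h1 := Submodule.finrank_add_eq_of_isCompl hP
    have h2 := Submodule.finrank_add_eq_of_isCompl hQ
    have h3 := e.finrank_eq
    omega
  let e' : P ≃ₗ[K] Q := LinearEquiv.ofFinrankEq P Q hfin
  let E : F ≃ₗ[K] F := (Submodule.prodEquivOfIsCompl _ _ hP).symm ≪≫ₗ
    (e.prodCongr e') ≪≫ₗ Submodule.prodEquivOfIsCompl _ _ hQ
  have hE : ∀ c : Fin m → K, E (f c) = g c := by
    intro c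
    have h1 : (Submodule.prodEquivOfIsCompl _ _ hP).symm (f c) = (⟨f c, c, rfl⟩, 0) := by
      rw [LinearEquiv.symm_apply_eq]
      simp
    simp only [E, LinearEquiv.trans_apply, h1]
    rw [LinearEquiv.prodCongr_apply]
    simp [he]
  let σ : F →ₙₐ[K] F :=
    { toFun := E
      map_smul' := fun c a => by simp
      map_zero' := by simp
      map_add' := fun a b => by simp
      map_mul' := fun a b => by rw [h0, h0]; simp }
  refine ⟨σ, E.bijective, ?_⟩
  intro i
  have h1 := hE (Pi.single i 1)
  have h2 : f (Pi.single i 1) = μ i := by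
    simp [f, Fintype.linearCombination_apply, Pi.single_apply]
  have h3 : g (Pi.single i 1) = ν i := by
    simp [g, Fintype.linearCombination_apply, Pi.single_apply]
  rw [h2, h3] at h1
  exact h1

/-- The free `n`-nilpotent associative algebra of finite rank over a field is logically
homogeneous. -/
theorem IsFreeNilp.homogeneous (hF : IsFreeNilp K n r F x) (hn : 1 ≤ n) :
    LogicallyHomogeneous K F := by
  obtain rfl | rfl | hn3 : n = 1 ∨ n = 2 ∨ 3 ≤ n := by omega
  · intro m _ μ ν _
    have h1 : (⊤ : Submodule K F) = ⊥ := by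
      rw [← algPow_one K F]; exact hF.1
    have h2 : ∀ a : F, a = 0 := by
      intro a
      have : a ∈ (⊤ : Submodule K F) := trivial
      rw [h1] at this
      simpa using this
    refine ⟨NonUnitalAlgHom.id K F, Function.bijective_id, ?_⟩
    intro i
    rw [h2 (μ i), h2 (ν i)]
    simp
  · have := hF.finite (by norm_num)
    apply homogeneous_of_mul_eq_zero
    intro a b
    have h1 : a * b ∈ algPow K F (1 + 1) := mul_mem_algPow le_rfl le_rfl
      (by rw [algPow_one]; trivial) (by rw [algPow_one]; trivial)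
    have h2 : algPow K F 2 = ⊥ := hF.1
    rw [show 1 + 1 = 2 from rfl, h2] at h1
    simpa using h1
  · exact hF.homogeneous_of_three_le hn3

theorem isNilp_iff_isSolv (B : Type v) [NonUnitalRing B] [Module K B] [IsScalarTower K B B]
    [SMulCommClass K B B] (n : ℕ) : IsSolv K B n ↔ IsNilp K B (2 ^ n) := by
  unfold IsSolv IsNilp
  rw [solvPow_eq]

theorem IsFreeSolv.isFreeNilp (hF : IsFreeSolv K n r F x) : IsFreeNilp K (2 ^ n) r F x := by
  refine ⟨(isNilp_iff_isSolv F n).1 hF.1, ?_⟩
  intro B _ _ _ _ hB y
  exact hF.2 B ((isNilp_iff_isSolv B n).2 hB) y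

/-- The free `n`-solvable associative algebra of finite rank over a field is logically
homogeneous. -/
theorem IsFreeSolv.homogeneous (hF : IsFreeSolv K n r F x) :
    LogicallyHomogeneous K F :=
  hF.isFreeNilp.homogeneous Nat.one_le_two_pow

end Main

/-! ### Existence of the free nilpotent algebra (so that the theorems are not vacuous) -/

section Existence

/-- The quotient of an algebra by its `n`-th power. -/
def NilQuot (K : Type u) [Field K] (R : Type u) [NonUnitalRing R] [Module K R] (n : ℕ) : Type u :=
  R ⧸ algPow K R n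

variable (K : Type u) [Field K] (R : Type u) [NonUnitalRing R] [Module K R]
  [IsScalarTower K R R] [SMulCommClass K R R]

theorem mul_mem_left {n : ℕ} (hn : 1 ≤ n) (a : R) {b : R} (hb : b ∈ algPow K R n) :
    a * b ∈ algPow K R n := by
  have h : a * b ∈ algPow K R (1 + n) :=
    mul_mem_algPow le_rfl hn (by rw [algPow_one]; trivial) hb
  rw [add_comm] at h
  exact algPow_succ_le n hn h

theorem mul_mem_right {n : ℕ} (hn : 1 ≤ n) {a : R} (b : R) (ha : a ∈ algPow K R n) :
    a * b ∈ algPow K R n :=
  algPow_succ_le n hn (mul_mem_algPow hn le_rfl ha (by rw [algPow_one]; trivial))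

variable (n : ℕ) [hn : Fact (1 ≤ n)]

instance : AddCommGroup (NilQuot K R n) := inferInstanceAs (AddCommGroup (R ⧸ algPow K R n))

instance : Module K (NilQuot K R n) := inferInstanceAs (Module K (R ⧸ algPow K R n))

/-- the quotient map -/
def nq : R →ₗ[K] NilQuot K R n := (algPow K R n).mkQ

theorem nq_surj : Function.Surjective (nq K R n) := Submodule.mkQ_surjective _

theorem nq_eq {a b : R} : nq K R n a = nq K R n b ↔ a - b ∈ algPow K R n :=
  Submodule.Quotient.eq _

instance : Mul (NilQuot K R n) :=
  ⟨fun a b => Quotient.map₂ (fun a b : R => a * b) (by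
    intro a a' ha b b' hb
    have h1 : a - a' ∈ algPow K R n := (Submodule.quotientRel_def _).1 ha
    have h2 : b - b' ∈ algPow K R n := (Submodule.quotientRel_def _).1 hb
    refine (Submodule.quotientRel_def _).2 ?_
    have h3 := Submodule.add_mem _ (mul_mem_right K R hn.out b h1) (mul_mem_left K R hn.out a' h2)
    convert h3 using 1
    simp only [sub_mul, mul_sub]
    abel) a b⟩

theorem nq_mul (a b : R) : nq K R n (a * b) = nq K R n a * nq K R n b := rfl

instance : NonUnitalRing (NilQuot K R n) where
  left_distrib a b c := by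
    obtain ⟨a, rfl⟩ := nq_surj K R n a
    obtain ⟨b, rfl⟩ := nq_surj K R n b
    obtain ⟨c, rfl⟩ := nq_surj K R n c
    rw [← map_add, ← nq_mul, ← nq_mul, ← nq_mul, ← map_add, mul_add]
  right_distrib a b c := by
    obtain ⟨a, rfl⟩ := nq_surj K R n a
    obtain ⟨b, rfl⟩ := nq_surj K R n b
    obtain ⟨c, rfl⟩ := nq_surj K R n c
    rw [← map_add, ← nq_mul, ← nq_mul, ← nq_mul, ← map_add, add_mul]
  zero_mul a := by
    obtain ⟨a, rfl⟩ := nq_surj K R n a
    rw [← map_zero (nq K R n), ← nq_mul, zero_mul]
  mul_zero a := by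
    obtain ⟨a, rfl⟩ := nq_surj K R n a
    rw [← map_zero (nq K R n), ← nq_mul, mul_zero]
  mul_assoc a b c := by
    obtain ⟨a, rfl⟩ := nq_surj K R n a
    obtain ⟨b, rfl⟩ := nq_surj K R n b
    obtain ⟨c, rfl⟩ := nq_surj K R n c
    rw [← nq_mul, ← nq_mul, ← nq_mul, ← nq_mul, mul_assoc]

instance : IsScalarTower K (NilQuot K R n) (NilQuot K R n) where
  smul_assoc c a b := by
    obtain ⟨a, rfl⟩ := nq_surj K R n a
    obtain ⟨b, rfl⟩ := nq_surj K R n b
    rw [smul_eq_mul, smul_eq_mul, ← map_smul, ← nq_mul, ← nq_mul, ← map_smul, smul_mul_assoc]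

instance : SMulCommClass K (NilQuot K R n) (NilQuot K R n) where
  smul_comm c a b := by
    obtain ⟨a, rfl⟩ := nq_surj K R n a
    obtain ⟨b, rfl⟩ := nq_surj K R n b
    rw [smul_eq_mul, smul_eq_mul, ← map_smul, ← nq_mul, ← nq_mul, ← map_smul, mul_smul_comm]

/-- the quotient map as a homomorphism -/
def nqHom : R →ₙₐ[K] NilQuot K R n where
  toFun := nq K R n
  map_smul' c a := by simp
  map_zero' := by simp
  map_add' a b := by simp
  map_mul' a b := nq_mul K R n a b

omit hn in
theorem algPow_le_map_of_surjective {B : Type u} [NonUnitalRing B] [Module K B]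
    (f : R →ₙₐ[K] B) (hf : Function.Surjective f) :
    ∀ k : ℕ, ∀ z ∈ algPow K B k, ∃ a ∈ algPow K R k, f a = z := by
  intro k
  induction k using Nat.strong_induction_on with
  | _ k ih =>
    match k, ih with
    | 0, _ =>
      intro z _
      obtain ⟨a, rfl⟩ := hf z
      exact ⟨a, by rw [algPow]; trivial, rfl⟩
    | 1, _ =>
      intro z _
      obtain ⟨a, rfl⟩ := hf z
      exact ⟨a, by rw [algPow]; trivial, rfl⟩
    | (l + 2), ih =>
      intro z hz
      have key : algPow K B (l + 2) ≤ (algPow K R (l + 2)).map (f : R →ₗ[K] B) := by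
        refine algPow_le_of ?_
        intro i j hi hj hij a ha b hb
        obtain ⟨a', ha', rfl⟩ := ih i (by omega) a ha
        obtain ⟨b', hb', rfl⟩ := ih j (by omega) b hb
        refine ⟨a' * b', ?_, ?_⟩
        · rw [← hij]; exact mul_mem_algPow hi hj ha' hb'
        · simp
      obtain ⟨a, ha, ha'⟩ := key hz
      exact ⟨a, ha, ha'⟩

theorem nilQuot_isNilp : IsNilp K (NilQuot K R n) n := by
  unfold IsNilp
  rw [eq_bot_iff]
  intro z hz
  obtain ⟨a, ha, rfl⟩ := algPow_le_map_of_surjective K R (nqHom K R n) (nq_surj K R n) n z hz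
  rw [Submodule.mem_bot]
  have : nq K R n a = nq K R n 0 := (nq_eq K R n).2 (by simpa using ha)
  rw [map_zero] at this
  exact this

/-- homomorphisms to nilpotent algebras factor through the quotient -/
theorem exists_lift {B : Type u} [NonUnitalRing B] [Module K B] (hB : IsNilp K B n)
    (f : R →ₙₐ[K] B) : ∃ g : NilQuot K R n →ₙₐ[K] B, ∀ a, g (nqHom K R n a) = f a := by
  let g₀ : NilQuot K R n →ₗ[K] B := (algPow K R n).liftQ (f : R →ₗ[K] B) (by
    intro a ha
    have := map_mem_algPow f n a ha
    rw [hB] at this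
    simpa using this)
  have hg : ∀ a, g₀ (nq K R n a) = f a := fun a => rfl
  refine ⟨{ toFun := g₀
            map_smul' := fun c a => by simp
            map_zero' := by simp
            map_add' := fun a b => by simp
            map_mul' := ?_ }, hg⟩
  intro a b
  obtain ⟨a, rfl⟩ := nq_surj K R n a
  obtain ⟨b, rfl⟩ := nq_surj K R n b
  rw [← nq_mul]
  change g₀ (nq K R n (a * b)) = g₀ (nq K R n a) * g₀ (nq K R n b)
  rw [hg, hg, hg, map_mul]

end Existence

/-- The free associative algebra (without unit) on `r` generators. -/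
abbrev FreeAlg (K : Type u) [Field K] (r : ℕ) : Type u := MonoidAlgebra K (FreeSemigroup (Fin r))

/-- The free `n`-nilpotent associative algebra of rank `r` exists. -/
theorem isFreeNilp_nilQuot (K : Type u) [Field K] (n r : ℕ) [hn : Fact (1 ≤ n)] :
    IsFreeNilp K n r (NilQuot K (FreeAlg K r) n)
      (fun i => nqHom K (FreeAlg K r) n (MonoidAlgebra.single (FreeSemigroup.of i) 1)) := by
  refine ⟨nilQuot_isNilp K _ n, ?_⟩
  intro B _ _ _ _ hB y
  obtain ⟨g, hg⟩ := exists_lift K (FreeAlg K r) n hB
    (MonoidAlgebra.liftMagma K (FreeSemigroup.lift y))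
  refine ⟨g, ?_, ?_⟩
  · intro i
    simp only [hg]
    simp [MonoidAlgebra.liftMagma]
  · intro g' hg'
    have h1 : g'.comp (nqHom K (FreeAlg K r) n) = g.comp (nqHom K (FreeAlg K r) n) := by
      apply MonoidAlgebra.nonUnitalAlgHom_ext'
      apply FreeSemigroup.hom_ext
      funext i
      have h2 := hg' i
      simp only [Function.comp_apply, MulHom.comp_apply]
      change g' (nqHom K (FreeAlg K r) n (MonoidAlgebra.single (FreeSemigroup.of i) 1)) =
        g (nqHom K (FreeAlg K r) n (MonoidAlgebra.single (FreeSemigroup.of i) 1))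
      rw [h2, hg]
      simp [MonoidAlgebra.liftMagma]
    ext z
    obtain ⟨a, rfl⟩ := nq_surj K (FreeAlg K r) n z
    exact DFunLike.congr_fun h1 a

/-- Non-vacuity: the free `n`-nilpotent algebra of rank `r` exists for all `n ≥ 1`. -/
theorem exists_isFreeNilp (K : Type u) [Field K] (n r : ℕ) (hn : 1 ≤ n) :
    ∃ (F : Type u) (_ : NonUnitalRing F) (_ : Module K F) (_ : IsScalarTower K F F)
      (_ : SMulCommClass K F F) (x : Fin r → F), IsFreeNilp K n r F x :=
  haveI : Fact (1 ≤ n) := ⟨hn⟩
  ⟨NilQuot K (FreeAlg K r) n, inferInstance, inferInstance, inferInstance, inferInstance, _,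
    isFreeNilp_nilQuot K n r⟩

/-- Non-vacuity: the free `n`-solvable algebra of rank `r` exists for all `n`. -/
theorem exists_isFreeSolv (K : Type u) [Field K] (n r : ℕ) :
    ∃ (F : Type u) (_ : NonUnitalRing F) (_ : Module K F) (_ : IsScalarTower K F F)
      (_ : SMulCommClass K F F) (x : Fin r → F), IsFreeSolv K n r F x := by
  obtain ⟨F, i1, i2, i3, i4, x, hF⟩ := exists_isFreeNilp K (2 ^ n) r Nat.one_le_two_pow
  refine ⟨F, i1, i2, i3, i4, x, (isNilp_iff_isSolv F n).2 hF.1, ?_⟩
  intro B _ _ _ _ hB y
  exact hF.2 B ((isNilp_iff_isSolv B n).1 hB) y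

end Pool.Agent.Helper771.FreeNilp
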