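import Mathlib
import Pool.Agent.Helper771.LieHomogDefs
import Pool.Agent.Helper771.CosetQE

set_option autoImplicit false

namespace Pool.Agent.Helper771.LieHomog

open FirstOrder Pool.Agent.Helper771.CosetQE

universe u v w

set_option linter.unusedSectionVars false

section EF

variable {K : Type u} [Field K] {F : Type v} [LieRing F] [LieAlgebra K F]

/-- affine sets stable under a set of endomorphisms -/
def Good (E : Set (F →ₗ⁅K⁆ F)) {α : Type w} {n : ℕ} (P : Set ((α → F) × (Fin n → F))) : Prop :=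
  (∀ p ∈ P, ∀ q ∈ P, ∀ r ∈ P, p - q + r ∈ P) ∧
    ∀ σ ∈ E, ∀ p ∈ P, ((fun i => σ (p.1 i)), (fun i => σ (p.2 i))) ∈ P

/-- extend a point by one coordinate -/
def ext1 {α : Type w} {n : ℕ} (p : (α → F) × (Fin n → F)) (c : F) :
    (α → F) × (Fin (n + 1) → F) := (p.1, Fin.snoc p.2 c)

theorem ext1_comb {α : Type w} {n : ℕ} (p q r : (α → F) × (Fin n → F)) (c d e : F) :
    ext1 p c - ext1 q d + ext1 r e = ext1 (p - q + r) (c - d + e) := by
  unfold ext1
  ext i
  · rfl
  · simp only [Prod.snd_add, Prod.snd_sub, Pi.add_apply, Pi.sub_apply]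
    refine Fin.lastCases ?_ (fun j => ?_) i
    · simp
    · simp

/-- the projection of a finite intersection -/
def proj {α : Type w} {n : ℕ} (S : Finset (Set ((α → F) × (Fin (n + 1) → F)))) :
    Set ((α → F) × (Fin n → F)) := {p | ∃ c, ∀ P ∈ S, ext1 p c ∈ P}

theorem good_proj (E : Set (F →ₗ⁅K⁆ F)) {α : Type w} {n : ℕ}
    (S : Finset (Set ((α → F) × (Fin (n + 1) → F)))) (hS : ∀ P ∈ S, Good E P) :
    Good E (proj S) := by
  constructor
  · rintro p ⟨c, hc⟩ q ⟨d, hd⟩ r ⟨e, he⟩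
    refine ⟨c - d + e, fun P hP => ?_⟩
    rw [← ext1_comb]
    exact (hS P hP).1 _ (hc P hP) _ (hd P hP) _ (he P hP)
  · rintro σ hσ p ⟨c, hc⟩
    refine ⟨σ c, fun P hP => ?_⟩
    have := (hS P hP).2 σ hσ _ (hc P hP)
    convert this using 1
    unfold ext1
    ext i
    · rfl
    · simp only
      refine Fin.lastCases ?_ (fun j => ?_) i
      · simp
      · simp

/-- the back-and-forth step -/
theorem ef_step (E : Set (F →ₗ⁅K⁆ F)) {α : Type w} {n : ℕ}
    (Fam : Finset (Set ((α → F) × (Fin (n + 1) → F)))) (hFam : ∀ P ∈ Fam, Good E P)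
    (p p' : (α → F) × (Fin n → F))
    (h : ∀ S ⊆ Fam, (p ∈ proj S ↔ p' ∈ proj S)) (c : F) :
    ∃ c', ∀ P ∈ Fam, (ext1 p c ∈ P ↔ ext1 p' c' ∈ P) := by
  classical
  set S := Fam.filter (fun P => ext1 p c ∈ P) with hS
  set T := Fam.filter (fun P => ext1 p c ∉ P) with hT
  have hSF : S ⊆ Fam := Finset.filter_subset _ _
  have hTF : T ⊆ Fam := Finset.filter_subset _ _
  have hpS : p ∈ proj S := ⟨c, fun P hP => (Finset.mem_filter.1 hP).2⟩
  obtain ⟨d, hd⟩ := (h S hSF).1 hpS
  have hc : ∀ P ∈ S, ext1 p c ∈ P := fun P hP => (Finset.mem_filter.1 hP).2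
  by_contra hcon
  push Not at hcon
  let C0 : Set F := {x | ∀ P ∈ S, ext1 p x ∈ P}
  let D0 : Set F := {x | ∀ P ∈ S, ext1 p' x ∈ P}
  have hC0 : ∀ x ∈ C0, ∀ y ∈ C0, ∀ z ∈ C0, x - y + z ∈ C0 := by
    intro x hx y hy z hz P hP
    have := (hFam P (hSF hP)).1 _ (hx P hP) _ (hy P hP) _ (hz P hP)
    rw [ext1_comb] at this
    simpa using this
  have hCD : ∀ x ∈ C0, ∀ y ∈ C0, ∀ z ∈ D0, x - y + z ∈ D0 := by
    intro x hx y hy z hz P hP
    have := (hFam P (hSF hP)).1 _ (hx P hP) _ (hy P hP) _ (hz P hP)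
    rw [ext1_comb] at this
    simpa using this
  have hDC : ∀ x ∈ D0, ∀ y ∈ D0, ∀ z ∈ C0, x - y + z ∈ C0 := by
    intro x hx y hy z hz P hP
    have := (hFam P (hSF hP)).1 _ (hx P hP) _ (hy P hP) _ (hz P hP)
    rw [ext1_comb] at this
    simpa using this
  let H : AddSubgroup F := stab C0
  let X : Set ((α → F) × (Fin (n + 1) → F)) → Set H := fun P => {g | ext1 p (c + g) ∈ P}
  let Y : Set ((α → F) × (Fin (n + 1) → F)) → Set H := fun P => {g | ext1 p' (d + g) ∈ P}
  have hcC : c ∈ C0 := hc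
  have hdD : d ∈ D0 := hd
  have hHC : ∀ g : H, c + g ∈ C0 := by
    intro g
    rw [add_comm]
    exact (g.2 c).2 hcC
  have hHD : ∀ g : H, d + g ∈ D0 := by
    intro g
    have h1 := hCD _ (hHC g) c hcC d hdD
    have e : c + (g : F) - c + d = d + g := by abel
    rwa [e] at h1
  have hDH : ∀ x ∈ D0, x - d ∈ H := by
    intro x hx
    have h1 := hDC x hx d hdD c hcC
    have h2 : c - x + d - c ∈ H ∨ True := Or.inr trivial
    have h3 : (x - d + c) - c ∈ stab C0 := (sub_mem_stab hC0 hcC).1 h1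
    have e : (x - d + c) - c = x - d := by abel
    rwa [e] at h3
  have hCH : ∀ x ∈ C0, x - c ∈ H := by
    intro x hx
    exact (sub_mem_stab hC0 hcC).1 hx
  have hpar : ∀ U ⊆ T, Par (⋂ i ∈ U, X i) (⋂ i ∈ U, Y i) := by
    intro U hU
    have hSU : S ∪ U ⊆ Fam := Finset.union_subset hSF (hU.trans hTF)
    refine ⟨⟨?_, ?_⟩, ?_, ?_⟩
    · rintro ⟨g, hg⟩
      simp only [Set.mem_iInter] at hg
      have : p ∈ proj (S ∪ U) := by
        refine ⟨c + g, fun P hP => ?_⟩
        rcases Finset.mem_union.1 hP with hP | hP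
        · exact hHC g P hP
        · exact hg P hP
      obtain ⟨x, hx⟩ := (h _ hSU).1 this
      have hxD : x ∈ D0 := fun P hP => hx P (Finset.mem_union_left _ hP)
      refine ⟨⟨x - d, hDH x hxD⟩, ?_⟩
      simp only [Set.mem_iInter]
      intro P hP
      change ext1 p' (d + (x - d)) ∈ P
      rw [add_sub_cancel]
      exact hx P (Finset.mem_union_right _ hP)
    · rintro ⟨g, hg⟩
      simp only [Set.mem_iInter] at hg
      have : p' ∈ proj (S ∪ U) := by
        refine ⟨d + g, fun P hP => ?_⟩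
        rcases Finset.mem_union.1 hP with hP | hP
        · exact hHD g P hP
        · exact hg P hP
      obtain ⟨x, hx⟩ := (h _ hSU).2 this
      have hxC : x ∈ C0 := fun P hP => hx P (Finset.mem_union_left _ hP)
      refine ⟨⟨x - c, hCH x hxC⟩, ?_⟩
      simp only [Set.mem_iInter]
      intro P hP
      change ext1 p (c + (x - c)) ∈ P
      rw [add_sub_cancel]
      exact hx P (Finset.mem_union_right _ hP)
    · intro g hg g' hg' k hk
      simp only [Set.mem_iInter] at hg hg' hk ⊢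
      intro P hP
      have h1 := (hFam P (hTF (hU hP))).1 _ (hg P hP) _ (hg' P hP) _ (hk P hP)
      rw [ext1_comb] at h1
      change ext1 p' (d + ((g - g' + k : H) : F)) ∈ P
      convert h1 using 2
      · simp
      · push_cast; abel
    · intro g hg g' hg' k hk
      simp only [Set.mem_iInter] at hg hg' hk ⊢
      intro P hP
      have h1 := (hFam P (hTF (hU hP))).1 _ (hg P hP) _ (hg' P hP) _ (hk P hP)
      rw [ext1_comb] at h1
      change ext1 p (c + ((g - g' + k : H) : F)) ∈ P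
      convert h1 using 2
      · simp
      · push_cast; abel
  have hY : ∀ g, ∃ i ∈ T, g ∈ Y i := by
    intro g
    obtain ⟨P, hP, hP'⟩ := hcon (d + g)
    have hPS : P ∉ S := by
      intro hPS
      rcases hP' with ⟨_, h2⟩ | ⟨h1, _⟩
      · exact h2 (hHD g P hPS)
      · exact h1 (hc P hPS)
    have hPT : P ∈ T := by
      rw [hT, Finset.mem_filter]
      refine ⟨hP, fun hh => hPS ?_⟩
      rw [hS, Finset.mem_filter]
      exact ⟨hP, hh⟩
    refine ⟨P, hPT, ?_⟩
    rcases hP' with ⟨h1, _⟩ | ⟨_, h2⟩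
    · exact absurd h1 (Finset.mem_filter.1 hPT).2
    · exact h2
  obtain ⟨P, hP, hP'⟩ := cover_of_cover T X Y hpar hY 0
  refine (Finset.mem_filter.1 hP).2 ?_
  have : ext1 p (c + ((0 : H) : F)) ∈ P := hP'
  simpa using this

variable (A : Submodule K F)

theorem term_aff (hA : ∀ x : F, ∀ a ∈ A, ⁅x, a⁆ ∈ A) (hab : ∀ a ∈ A, ∀ b ∈ A, ⁅a, b⁆ = 0)
    {β : Type w} (t : (lieLang K).Term β) (p q r : β → F) (hpq : ∀ j, p j - q j ∈ A)
    (hrq : ∀ j, r j - q j ∈ A) :
    t.realize p - t.realize q ∈ A ∧ t.realize r - t.realize q ∈ A ∧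
      t.realize (p - q + r) = t.realize p - t.realize q + t.realize r := by
  induction t with
  | var a => exact ⟨hpq a, hrq a, rfl⟩
  | @func l f ts ih =>
    match l, f with
    | _, LieFn.zero =>
      change (0 : F) - 0 ∈ A ∧ (0 : F) - 0 ∈ A ∧ (0 : F) = 0 - 0 + 0
      simp
    | _, LieFn.add =>
      obtain ⟨h1, h2, h3⟩ := ih 0
      obtain ⟨h4, h5, h6⟩ := ih 1
      change ((ts 0).realize p + (ts 1).realize p) - ((ts 0).realize q + (ts 1).realize q) ∈ A ∧
        ((ts 0).realize r + (ts 1).realize r) - ((ts 0).realize q + (ts 1).realize q) ∈ A ∧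
        (ts 0).realize (p - q + r) + (ts 1).realize (p - q + r) =
        ((ts 0).realize p + (ts 1).realize p) - ((ts 0).realize q + (ts 1).realize q) +
        ((ts 0).realize r + (ts 1).realize r)
      refine ⟨?_, ?_, ?_⟩
      · have := A.add_mem h1 h4
        convert this using 1; abel
      · have := A.add_mem h2 h5
        convert this using 1; abel
      · rw [h3, h6]; abel
    | _, LieFn.neg =>
      obtain ⟨h1, h2, h3⟩ := ih 0
      change -(ts 0).realize p - -(ts 0).realize q ∈ A ∧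
        -(ts 0).realize r - -(ts 0).realize q ∈ A ∧
        -(ts 0).realize (p - q + r) = -(ts 0).realize p - -(ts 0).realize q + -(ts 0).realize r
      refine ⟨?_, ?_, ?_⟩
      · have := A.neg_mem h1
        convert this using 1; abel
      · have := A.neg_mem h2
        convert this using 1; abel
      · rw [h3]; abel
    | _, LieFn.bracket =>
      obtain ⟨h1, h2, h3⟩ := ih 0
      obtain ⟨h4, h5, h6⟩ := ih 1
      change ⁅(ts 0).realize p, (ts 1).realize p⁆ - ⁅(ts 0).realize q, (ts 1).realize q⁆ ∈ A ∧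
        ⁅(ts 0).realize r, (ts 1).realize r⁆ - ⁅(ts 0).realize q, (ts 1).realize q⁆ ∈ A ∧
        ⁅(ts 0).realize (p - q + r), (ts 1).realize (p - q + r)⁆ =
        ⁅(ts 0).realize p, (ts 1).realize p⁆ - ⁅(ts 0).realize q, (ts 1).realize q⁆ +
        ⁅(ts 0).realize r, (ts 1).realize r⁆
      rw [h3, h6]
      generalize (ts 0).realize p = P1 at *
      generalize (ts 1).realize p = P2 at *
      generalize (ts 0).realize q = Q1 at *
      generalize (ts 1).realize q = Q2 at *
      generalize (ts 0).realize r = R1 at *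
      generalize (ts 1).realize r = R2 at *
      obtain ⟨a, ha⟩ : ∃ a, a = P1 - Q1 := ⟨_, rfl⟩
      obtain ⟨b, hb⟩ : ∃ b, b = R1 - Q1 := ⟨_, rfl⟩
      obtain ⟨c, hc⟩ : ∃ c, c = P2 - Q2 := ⟨_, rfl⟩
      obtain ⟨d, hd⟩ : ∃ d, d = R2 - Q2 := ⟨_, rfl⟩
      rw [← ha] at h1
      rw [← hb] at h2
      rw [← hc] at h4
      rw [← hd] at h5
      have eP1 : P1 = Q1 + a := by rw [ha]; abel
      have eR1 : R1 = Q1 + b := by rw [hb]; abel
      have eP2 : P2 = Q2 + c := by rw [hc]; abel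
      have eR2 : R2 = Q2 + d := by rw [hd]; abel
      have hac : ⁅a, c⁆ = 0 := hab a h1 c h4
      have had : ⁅a, d⁆ = 0 := hab a h1 d h5
      have hbc : ⁅b, c⁆ = 0 := hab b h2 c h4
      have hbd : ⁅b, d⁆ = 0 := hab b h2 d h5
      have hA' : ∀ x : F, ∀ a ∈ A, ⁅a, x⁆ ∈ A := fun x a ha => by
        rw [← lie_skew]; exact A.neg_mem (hA x a ha)
      subst eP1 eR1 eP2 eR2
      refine ⟨?_, ?_, ?_⟩
      · have : ⁅Q1 + a, Q2 + c⁆ - ⁅Q1, Q2⁆ = ⁅Q1, c⁆ + ⁅a, Q2⁆ := by
          simp only [lie_add, add_lie, hac]; abel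
        rw [this]
        exact A.add_mem (hA _ _ h4) (hA' _ _ h1)
      · have : ⁅Q1 + b, Q2 + d⁆ - ⁅Q1, Q2⁆ = ⁅Q1, d⁆ + ⁅b, Q2⁆ := by
          simp only [lie_add, add_lie, hbd]; abel
        rw [this]
        exact A.add_mem (hA _ _ h5) (hA' _ _ h2)
      · simp only [lie_add, add_lie, lie_sub, sub_lie, hac, had, hbc, hbd]
        abel
    | _, LieFn.smul c =>
      obtain ⟨h1, h2, h3⟩ := ih 0
      change c • (ts 0).realize p - c • (ts 0).realize q ∈ A ∧
        c • (ts 0).realize r - c • (ts 0).realize q ∈ A ∧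
        c • (ts 0).realize (p - q + r) = c • (ts 0).realize p - c • (ts 0).realize q +
          c • (ts 0).realize r
      refine ⟨?_, ?_, ?_⟩
      · rw [← smul_sub]; exact A.smul_mem _ h1
      · rw [← smul_sub]; exact A.smul_mem _ h2
      · rw [h3, smul_add, smul_sub]

theorem map_realize' {β : Type w} (t : (lieLang K).Term β) (σ : F →ₗ⁅K⁆ F) (x : β → F) :
    σ (t.realize x) = t.realize (fun i => σ (x i)) := by
  induction t with
  | var a => rfl
  | @func l f ts ih =>
    match l, f with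
    | _, LieFn.zero => exact map_zero σ
    | _, LieFn.add =>
      change σ ((ts 0).realize x + (ts 1).realize x) = _
      rw [map_add, ih 0, ih 1]; rfl
    | _, LieFn.neg =>
      change σ (- (ts 0).realize x) = _
      rw [map_neg, ih 0]; rfl
    | _, LieFn.bracket =>
      change σ ⁅(ts 0).realize x, (ts 1).realize x⁆ = _
      rw [LieHom.map_lie, ih 0, ih 1]; rfl
    | _, LieFn.smul c =>
      change σ (c • (ts 0).realize x) = _
      rw [map_smul, ih 0]; rfl

/-- every formula is decided by finitely many good sets -/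
theorem determined [Finite (F ⧸ A)] (hA : ∀ x : F, ∀ a ∈ A, ⁅x, a⁆ ∈ A)
    (hab : ∀ a ∈ A, ∀ b ∈ A, ⁅a, b⁆ = 0) (E : Set (F →ₗ⁅K⁆ F))
    (hE : ∀ σ ∈ E, ∀ z, σ z - z ∈ A) {α : Type w} [Finite α] {n : ℕ}
    (φ : (lieLang K).BoundedFormula α n) :
    ∃ Fam : Finset (Set ((α → F) × (Fin n → F))), (∀ P ∈ Fam, Good E P) ∧
      ∀ p p' : (α → F) × (Fin n → F), (∀ P ∈ Fam, (p ∈ P ↔ p' ∈ P)) →
        (φ.Realize p.1 p.2 ↔ φ.Realize p'.1 p'.2) := by
  classical
  induction φ with
  | falsum => exact ⟨∅, by simp, fun p p' _ => Iff.rfl⟩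
  | @equal n t₁ t₂ =>
    have : Finite ((α → F ⧸ A) × (Fin n → F ⧸ A)) := inferInstance
    have : Fintype ((α → F ⧸ A) × (Fin n → F ⧸ A)) := Fintype.ofFinite _
    let Q : ((α → F ⧸ A) × (Fin n → F ⧸ A)) → Set ((α → F) × (Fin n → F)) := fun c =>
      {p | (∀ j, Submodule.Quotient.mk (p.1 j) = c.1 j) ∧
        (∀ j, Submodule.Quotient.mk (p.2 j) = c.2 j) ∧
        t₁.realize (Sum.elim p.1 p.2) = t₂.realize (Sum.elim p.1 p.2)}
    refine ⟨Finset.univ.image Q, ?_, ?_⟩
    · intro P hP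
      obtain ⟨c, _, rfl⟩ := Finset.mem_image.1 hP
      constructor
      · rintro p ⟨hp1, hp2, hp3⟩ q ⟨hq1, hq2, hq3⟩ r ⟨hr1, hr2, hr3⟩
        have e : Sum.elim (p - q + r).1 (p - q + r).2 =
            Sum.elim p.1 p.2 - Sum.elim q.1 q.2 + Sum.elim r.1 r.2 := by
          funext j
          rcases j with j | j <;> rfl
        have hpq : ∀ j, Sum.elim p.1 p.2 j - Sum.elim q.1 q.2 j ∈ A := by
          rintro (j | j)
          · exact (Submodule.Quotient.eq A).1 ((hp1 j).trans (hq1 j).symm)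
          · exact (Submodule.Quotient.eq A).1 ((hp2 j).trans (hq2 j).symm)
        have hrq : ∀ j, Sum.elim r.1 r.2 j - Sum.elim q.1 q.2 j ∈ A := by
          rintro (j | j)
          · exact (Submodule.Quotient.eq A).1 ((hr1 j).trans (hq1 j).symm)
          · exact (Submodule.Quotient.eq A).1 ((hr2 j).trans (hq2 j).symm)
        refine ⟨?_, ?_, ?_⟩
        · intro j
          change Submodule.Quotient.mk (p.1 j - q.1 j + r.1 j) = c.1 j
          rw [Submodule.Quotient.mk_add, Submodule.Quotient.mk_sub, hp1, hq1, hr1]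
          abel
        · intro j
          change Submodule.Quotient.mk (p.2 j - q.2 j + r.2 j) = c.2 j
          rw [Submodule.Quotient.mk_add, Submodule.Quotient.mk_sub, hp2, hq2, hr2]
          abel
        · rw [e, (term_aff A hA hab t₁ _ _ _ hpq hrq).2.2,
            (term_aff A hA hab t₂ _ _ _ hpq hrq).2.2, hp3, hq3, hr3]
      · rintro σ hσ p ⟨hp1, hp2, hp3⟩
        refine ⟨?_, ?_, ?_⟩
        · intro j
          rw [← hp1 j]
          exact (Submodule.Quotient.eq A).2 (hE σ hσ _)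
        · intro j
          rw [← hp2 j]
          exact (Submodule.Quotient.eq A).2 (hE σ hσ _)
        · have e : Sum.elim (fun i => σ (p.1 i)) (fun i => σ (p.2 i)) =
              fun i => σ (Sum.elim p.1 p.2 i) := by
            funext j
            rcases j with j | j <;> rfl
          rw [e, ← map_realize', ← map_realize', hp3]
    · have key : ∀ p p' : (α → F) × (Fin n → F),
          (∀ P ∈ Finset.univ.image Q, (p ∈ P ↔ p' ∈ P)) →
          t₁.realize (Sum.elim p.1 p.2) = t₂.realize (Sum.elim p.1 p.2) →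
          t₁.realize (Sum.elim p'.1 p'.2) = t₂.realize (Sum.elim p'.1 p'.2) := by
        intro p p' h hp
        have h1 : p ∈ Q (fun j => Submodule.Quotient.mk (p.1 j),
            fun j => Submodule.Quotient.mk (p.2 j)) := ⟨fun _ => rfl, fun _ => rfl, hp⟩
        exact ((h _ (Finset.mem_image_of_mem Q (Finset.mem_univ _))).1 h1).2.2
      intro p p' h
      exact ⟨key p p' h, key p' p fun P hP => (h P hP).symm⟩
  | rel R => exact R.elim
  | imp φ₁ φ₂ ih₁ ih₂ =>
    obtain ⟨F₁, h₁, h₁'⟩ := ih₁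
    obtain ⟨F₂, h₂, h₂'⟩ := ih₂
    refine ⟨F₁ ∪ F₂, ?_, ?_⟩
    · intro P hP
      rcases Finset.mem_union.1 hP with hP | hP
      · exact h₁ P hP
      · exact h₂ P hP
    · intro p p' h
      rw [Language.BoundedFormula.realize_imp, Language.BoundedFormula.realize_imp,
        h₁' p p' fun P hP => h P (Finset.mem_union_left _ hP),
        h₂' p p' fun P hP => h P (Finset.mem_union_right _ hP)]
  | @all n φ ih =>
    obtain ⟨Fam, h₁, h₁'⟩ := ih
    refine ⟨Fam.powerset.image proj, ?_, ?_⟩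
    · intro P hP
      obtain ⟨S, hS, rfl⟩ := Finset.mem_image.1 hP
      rw [Finset.mem_powerset] at hS
      exact good_proj E S fun P hP => h₁ P (hS hP)
    · have key : ∀ p p' : (α → F) × (Fin n → F),
          (∀ P ∈ Fam.powerset.image proj, (p ∈ P ↔ p' ∈ P)) →
          (∀ c, φ.Realize p.1 (Fin.snoc p.2 c)) → ∀ c, φ.Realize p'.1 (Fin.snoc p'.2 c) := by
        intro p p' h hp c
        obtain ⟨c', hc'⟩ := ef_step E Fam h₁ p' p (fun S hS =>
          (h _ (Finset.mem_image_of_mem proj (Finset.mem_powerset.2 hS))).symm) c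
        exact (h₁' _ _ hc').2 (hp c')
      intro p p' h
      rw [Language.BoundedFormula.realize_all, Language.BoundedFormula.realize_all]
      exact ⟨key p p' h, key p' p fun P hP => (h P hP).symm⟩

/-- tuples exchanged by endomorphisms trivial modulo an abelian ideal of finite index have the
same type -/
theorem sameType_of_endos [Finite (F ⧸ A)] (hA : ∀ x : F, ∀ a ∈ A, ⁅x, a⁆ ∈ A)
    (hab : ∀ a ∈ A, ∀ b ∈ A, ⁅a, b⁆ = 0) {m : ℕ} (μ ν : Fin m → F) (σ σ' : F →ₗ⁅K⁆ F)
    (hσ : ∀ z, σ z - z ∈ A) (hσ' : ∀ z, σ' z - z ∈ A) (h1 : ∀ i, σ (μ i) = ν i)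
    (h2 : ∀ i, σ' (ν i) = μ i) : SameType K F μ ν := by
  intro φ
  obtain ⟨Fam, hF, hF'⟩ := determined A hA hab {σ, σ'} (by
    rintro τ (rfl | rfl)
    · exact hσ
    · exact hσ') φ
  refine hF' (μ, default) (ν, default) ?_
  intro P hP
  constructor
  · intro h
    have := (hF P hP).2 σ (by simp) _ h
    convert this using 1
    ext i
    · simp [h1]
    · exact i.elim0
  · intro h
    have := (hF P hP).2 σ' (by simp) _ h
    convert this using 1
    ext i
    · simp [h2]
    · exact i.elim0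

end EF

end Pool.Agent.Helper771.LieHomog
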