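import Mathlib
import Pool.Agent.Helper771.LieHomogDefs
import Pool.Agent.Helper771.LieHomogNilp
import Pool.Agent.Helper771.FreeLieTakahasi

set_option autoImplicit false

namespace Pool.Agent.Helper771.LieHomog

open FirstOrder Pool.Agent.Helper771.FreeLieGrad

universe u v w

set_option linter.unusedSectionVars false

section BaseLike

variable {K : Type u} [Field K] {r : ℕ} {F : Type u} [LieRing F] [LieAlgebra K F]
  {x : Fin r → F}

/-- a base-like tuple spans modulo brackets -/
theorem baseLike_span (hgen : LieSubalgebra.lieSpan K F (Set.range x) = ⊤)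
    (h : F →ₗ⁅K⁆ TestLie K r) (hh : ∀ i, h (x i) = ⟨Pi.single i 1, 0⟩)
    {y : Fin r → F} (hy : IsBaseLike y) (z : F) :
    ∃ c : Fin r → K, z - ∑ i, c i • y i ∈ gam K F 1 := by
  have hker : ∀ z : F, (h z).lin = 0 → ∃ w : Fin r → F, z = ∑ j, ⁅x j, w j⁆ := by
    intro z hz
    obtain ⟨c, w, rfl⟩ := exists_repr hgen z
    rw [test_lin_repr h hh] at hz
    refine ⟨w, ?_⟩
    simp [hz]
  have hker2 : ∀ z : F, (h z).lin = 0 → z ∈ gam K F 1 := by
    intro z hz
    obtain ⟨w, rfl⟩ := hker z hz
    exact sum_mem fun j _ => lie_mem_gam_one _ _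
  have hyl : ∀ i, (h (y i)).lin ≠ 0 := by
    intro i hi
    obtain ⟨w, hw⟩ := hker _ hi
    exact hy.1 i x w hw
  obtain ⟨u, p, q, hu, rfl⟩ := hy.2 z
  have hui : ∀ i, ∃ c : K, u i - c • y i ∈ gam K F 1 := by
    intro i
    obtain ⟨j, hj⟩ : ∃ j, (h (y i)).lin j ≠ 0 := by
      by_contra hcon
      push Not at hcon
      exact hyl i (funext hcon)
    refine ⟨(h (u i)).lin j / (h (y i)).lin j, hker2 _ ?_⟩
    have hcomm := congrArg TestLie.quad (congrArg h (hu i))
    rw [LieHom.map_lie, map_zero] at hcomm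
    simp only [lie_quad, zero_quad] at hcomm
    have h1 : (linL K r) (h (u i - ((h (u i)).lin j / (h (y i)).lin j) • y i)) = 0 := by
      rw [map_sub, map_sub, map_smul, map_smul]
      ext k
      simp only [linL_apply, Pi.sub_apply, Pi.smul_apply, smul_eq_mul, Pi.zero_apply]
      have h2 := congrFun (congrFun hcomm k) j
      simp only [Pi.zero_apply] at h2
      field_simp
      linear_combination h2
    exact h1
  choose c hc using hui
  refine ⟨c, ?_⟩
  have e : ∑ i, u i + ∑ j, ⁅p j, q j⁆ - ∑ i, c i • y i =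
      ∑ i, (u i - c i • y i) + ∑ j, ⁅p j, q j⁆ := by
    rw [Finset.sum_sub_distrib]; abel
  rw [e]
  exact add_mem (sum_mem fun i _ => hc i) (sum_mem fun j _ => lie_mem_gam_one _ _)

/-- tuples of the same type: the second is the image of the first under an endomorphism taking
the generators to a base-like tuple -/
theorem exists_endo (hgen : LieSubalgebra.lieSpan K F (Set.range x) = ⊤)
    (h : F →ₗ⁅K⁆ TestLie K r) (hh : ∀ i, h (x i) = ⟨Pi.single i 1, 0⟩)
    (huni : ∀ y : Fin r → F, ∃ f : F →ₗ⁅K⁆ F, ∀ i, f (x i) = y i)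
    {m : ℕ} {μ ν : Fin m → F} (hμν : SameType K F μ ν) :
    ∃ σ : F →ₗ⁅K⁆ F, IsBaseLike (fun i => σ (x i)) ∧ ∀ i, σ (μ i) = ν i := by
  choose t ht using fun i => exists_term hgen (μ i)
  let Φ : (lieLang K).Formula (Fin m) :=
    Language.Formula.iExs (Fin r) ((baseF K r).relabel (Sum.inr : Fin r → Fin m ⊕ Fin r) ⊓
      Language.Formula.iInf (fun i : Fin m =>
        Language.Term.equal (vr K (Sum.inl i : Fin m ⊕ Fin r)) ((t i).relabel Sum.inr)))
  have hΦ : ∀ z : Fin m → F, Φ.Realize z ↔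
      ∃ y : Fin r → F, IsBaseLike y ∧ ∀ i, z i = (t i).realize y := by
    intro z
    rw [Language.Formula.realize_iExs]
    refine exists_congr fun y => ?_
    rw [Language.Formula.realize_inf, Language.Formula.realize_relabel, realize_baseF,
      Language.Formula.realize_iInf]
    refine and_congr Iff.rfl (forall_congr' fun i => ?_)
    rw [Language.Formula.realize_equal, Language.Term.realize_relabel]
    rfl
  have h1 : Φ.Realize μ := (hΦ μ).2 ⟨x, isBaseLike_gen hgen h hh, fun i => (ht i).symm⟩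
  obtain ⟨y, hy, hy'⟩ := (hΦ ν).1 ((hμν Φ).1 h1)
  obtain ⟨σ, hσ⟩ := huni y
  refine ⟨σ, ?_, ?_⟩
  · have : (fun i => σ (x i)) = y := funext hσ
    rw [this]; exact hy
  · intro i
    rw [← ht i, hy' i, map_realize]
    congr 1
    funext j
    exact hσ j

end BaseLike

section Free

variable {K : Type u} [Field K] {r : ℕ}

theorem injective_of_baseLike (σ : FreeLieAlgebra K (Fin r) →ₗ⁅K⁆ FreeLieAlgebra K (Fin r))
    (hy : IsBaseLike (fun i => σ (FreeLieAlgebra.of K i))) : Function.Injective σ := by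
  have hgen := free_gen K r
  let h : FreeLieAlgebra K (Fin r) →ₗ⁅K⁆ TestLie K r :=
    FreeLieAlgebra.lift K (fun i => ⟨Pi.single i 1, 0⟩)
  have hh : ∀ i, h (FreeLieAlgebra.of K i) = ⟨Pi.single i 1, 0⟩ := fun i =>
    FreeLieAlgebra.lift_of_apply (R := K) (L := TestLie K r) _ i
  have hli : LinearIndependent K (fun i => ab (σ (FreeLieAlgebra.of K i))) := by
    apply linearIndependent_of_top_le_span_of_card_eq_finrank
    · intro c _
      obtain ⟨a, ha⟩ := baseLike_span hgen h hh hy (linc c)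
      have h1 : ab (linc c - ∑ i, a i • σ (FreeLieAlgebra.of K i)) = 0 := by
        have := gam_succ_le (K := K) (A := FreeLieAlgebra K (Fin r)) (k := 0)
          (P := LinearMap.ker ab) (fun a b _ => by
            rw [LinearMap.mem_ker]; exact ab_lie a b) _ ha
        exact this
      rw [map_sub, ab_linc, sub_eq_zero, map_sum] at h1
      rw [h1]
      refine Submodule.sum_mem _ fun i _ => ?_
      rw [map_smul]
      exact Submodule.smul_mem _ _ (Submodule.subset_span ⟨i, rfl⟩)
    · simp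
  have h2 := lift_injective_of_linearIndependent (fun i => σ (FreeLieAlgebra.of K i)) hli
  have h3 : FreeLieAlgebra.lift K (fun i => σ (FreeLieAlgebra.of K i)) = σ := by
    apply FreeLieAlgebra.hom_ext
    intro i
    rw [FreeLieAlgebra.lift_of_apply]
  rw [h3] at h2
  exact h2

/-- Free Lie algebras of finite rank over a field are logically homogeneous. -/
theorem free_homogeneous (K : Type u) [Field K] (r : ℕ) :
    LogicallyHomogeneous K (FreeLieAlgebra K (Fin r)) := by
  intro m _ μ ν hμν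
  have hgen := free_gen K r
  let h : FreeLieAlgebra K (Fin r) →ₗ⁅K⁆ TestLie K r :=
    FreeLieAlgebra.lift K (fun i => ⟨Pi.single i 1, 0⟩)
  have hh : ∀ i, h (FreeLieAlgebra.of K i) = ⟨Pi.single i 1, 0⟩ := fun i =>
    FreeLieAlgebra.lift_of_apply (R := K) (L := TestLie K r) _ i
  have huni : ∀ y : Fin r → FreeLieAlgebra K (Fin r),
      ∃ f : FreeLieAlgebra K (Fin r) →ₗ⁅K⁆ FreeLieAlgebra K (Fin r),
        ∀ i, f (FreeLieAlgebra.of K i) = y i := fun y =>
    ⟨FreeLieAlgebra.lift K y, fun i => FreeLieAlgebra.lift_of_apply _ _⟩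
  obtain ⟨σ, hσ, hσ'⟩ := exists_endo hgen h hh huni hμν
  obtain ⟨σ', hσ₂, hσ₂'⟩ := exists_endo hgen h hh huni
    (μ := ν) (ν := μ) (fun φ => (hμν φ).symm)
  exact exists_automorphism σ σ' (injective_of_baseLike σ hσ) (injective_of_baseLike σ' hσ₂)
    μ ν hσ' hσ₂'

end Free

end Pool.Agent.Helper771.LieHomog
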