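import Mathlib
import Pool.Agent.Helper771.LieHomogDefs
import Pool.Agent.Helper771.LieHomogNilp
import Pool.Agent.Helper771.LieHomogEF

set_option autoImplicit false

namespace Pool.Agent.Helper771.LieHomog

open FirstOrder

universe u v w

set_option linter.unusedSectionVars false

/-! ### The derived series -/

section Derived

variable {K : Type u} [Field K] {A : Type v} [LieRing A] [LieAlgebra K A]

variable (K A) in
/-- the derived series, `dser 0 = A` -/
def dser (k : ℕ) : LieIdeal K A := LieAlgebra.derivedSeries K A k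

theorem lie_mem_dser {k : ℕ} {a b : A} (ha : a ∈ dser K A k) (hb : b ∈ dser K A k) :
    ⁅a, b⁆ ∈ dser K A (k + 1) := by
  unfold dser at *
  rw [LieAlgebra.derivedSeries_def, LieAlgebra.derivedSeriesOfIdeal_succ] at *
  exact LieSubmodule.lie_mem_lie ha hb

theorem dser_succ_le {k : ℕ} {P : Submodule K A}
    (h : ∀ a ∈ dser K A k, ∀ b ∈ dser K A k, ⁅a, b⁆ ∈ P) :
    ∀ z ∈ dser K A (k + 1), z ∈ P := by
  intro z hz
  have h1 : z ∈ (dser K A (k + 1)).toSubmodule := hz
  unfold dser at h1 h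
  rw [LieAlgebra.derivedSeries_def, LieAlgebra.derivedSeriesOfIdeal_succ,
    LieSubmodule.lieIdeal_oper_eq_linear_span'] at h1
  refine (Submodule.span_le.2 ?_) h1
  rintro _ ⟨a, ha, b, hb, rfl⟩
  exact h a ha b hb

theorem mem_dser_zero (a : A) : a ∈ dser K A 0 := by
  unfold dser
  rw [LieAlgebra.derivedSeries_def, LieAlgebra.derivedSeriesOfIdeal_zero]
  exact LieSubmodule.mem_top a

theorem lie_mem_dser_one (a b : A) : ⁅a, b⁆ ∈ dser K A 1 :=
  lie_mem_dser (mem_dser_zero a) (mem_dser_zero b)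

theorem map_mem_dser {B : Type w} [LieRing B] [LieAlgebra K B] (f : A →ₗ⁅K⁆ B) (k : ℕ) :
    ∀ z ∈ dser K A k, f z ∈ dser K B k := by
  induction k with
  | zero => intro z _; exact mem_dser_zero _
  | succ k ih =>
    refine dser_succ_le (P := (dser K B (k + 1)).toSubmodule.comap (f : A →ₗ[K] B)) ?_
    intro a ha b hb
    change f ⁅a, b⁆ ∈ dser K B (k + 1)
    rw [LieHom.map_lie]
    exact lie_mem_dser (ih a ha) (ih b hb)

end Derived

/-! ### The universal property of the free solvable Lie algebra -/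

section Univ

variable (K : Type u) [Field K] (r n : ℕ)

/-- the quotient map as a homomorphism of Lie algebras -/
noncomputable def qs : FreeLieAlgebra K (Fin r) →ₗ⁅K⁆ FreeSolvLie K r n where
  toFun a := LieSubmodule.Quotient.mk a
  map_add' _ _ := rfl
  map_smul' _ _ := rfl
  map_lie' := rfl

theorem qs_surj : Function.Surjective (qs K r n) := fun z => Quot.exists_rep z

theorem qs_eq_zero {a : FreeLieAlgebra K (Fin r)} :
    qs K r n a = 0 ↔ a ∈ dser K (FreeLieAlgebra K (Fin r)) n :=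
  Submodule.Quotient.mk_eq_zero _

/-- the generators -/
noncomputable def sx (i : Fin r) : FreeSolvLie K r n := qs K r n (FreeLieAlgebra.of K i)

theorem solv_gen : LieSubalgebra.lieSpan K (FreeSolvLie K r n) (Set.range (sx K r n)) = ⊤ := by
  rw [eq_top_iff]
  intro z _
  obtain ⟨a, rfl⟩ := qs_surj K r n z
  have ha : a ∈ LieSubalgebra.lieSpan K (FreeLieAlgebra K (Fin r))
      (Set.range (FreeLieAlgebra.of K)) := by rw [free_gen]; trivial
  have hle : LieSubalgebra.lieSpan K (FreeLieAlgebra K (Fin r))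
      (Set.range (FreeLieAlgebra.of K)) ≤
      (LieSubalgebra.lieSpan K (FreeSolvLie K r n) (Set.range (sx K r n))).comap (qs K r n) := by
    rw [LieSubalgebra.lieSpan_le]
    rintro _ ⟨i, rfl⟩
    exact LieSubalgebra.subset_lieSpan ⟨i, rfl⟩
  exact hle ha

theorem solv_solv : ∀ z ∈ dser K (FreeSolvLie K r n) n, z = 0 := by
  have key : ∀ k : ℕ, ∀ z ∈ dser K (FreeSolvLie K r n) k,
      ∃ a ∈ dser K (FreeLieAlgebra K (Fin r)) k, qs K r n a = z := by
    intro k
    induction k with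
    | zero =>
      intro z _
      obtain ⟨a, rfl⟩ := qs_surj K r n z
      exact ⟨a, mem_dser_zero a, rfl⟩
    | succ k ih =>
      intro z hz
      have : z ∈ ((dser K (FreeLieAlgebra K (Fin r)) (k + 1)).toSubmodule.map
          (qs K r n : FreeLieAlgebra K (Fin r) →ₗ[K] FreeSolvLie K r n)) := by
        refine dser_succ_le ?_ z hz
        intro a ha b hb
        obtain ⟨a', ha', rfl⟩ := ih a ha
        obtain ⟨b', hb', rfl⟩ := ih b hb
        exact ⟨⁅a', b'⁆, lie_mem_dser ha' hb', LieHom.map_lie _ _ _⟩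
      obtain ⟨a, ha, ha'⟩ := this
      exact ⟨a, ha, ha'⟩
  intro z hz
  obtain ⟨a, ha, rfl⟩ := key n z hz
  exact (qs_eq_zero K r n).2 ha

theorem exists_lift_solv {B : Type u} [LieRing B] [LieAlgebra K B]
    (hB : ∀ z ∈ dser K B n, z = 0)
    (y : Fin r → B) : ∃ g : FreeSolvLie K r n →ₗ⁅K⁆ B, ∀ i, g (sx K r n i) = y i := by
  let f : FreeLieAlgebra K (Fin r) →ₗ⁅K⁆ B := FreeLieAlgebra.lift K y
  let g₀ : FreeSolvLie K r n →ₗ[K] B :=
    (LieAlgebra.derivedSeries K (FreeLieAlgebra K (Fin r))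
      n).toSubmodule.liftQ (f : FreeLieAlgebra K (Fin r) →ₗ[K] B) (by
        intro a ha
        exact hB _ (map_mem_dser f n a ha))
  have hg : ∀ a, g₀ (qs K r n a) = f a := fun a => rfl
  refine ⟨{ g₀ with map_lie' := ?_ }, ?_⟩
  · intro a b
    obtain ⟨a, rfl⟩ := qs_surj K r n a
    obtain ⟨b, rfl⟩ := qs_surj K r n b
    change g₀ ⁅qs K r n a, qs K r n b⁆ = ⁅g₀ (qs K r n a), g₀ (qs K r n b)⁆
    rw [← LieHom.map_lie, hg, hg, hg, LieHom.map_lie]
  · intro i
    change g₀ (qs K r n (FreeLieAlgebra.of K i)) = y i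
    rw [hg]
    simp [f]

end Univ

/-- two homomorphisms which agree on generators agree -/
theorem hom_eq_of_gen {K : Type u} [Field K] {F : Type u} {B : Type u} [LieRing F]
    [LieAlgebra K F] [LieRing B] [LieAlgebra K B] {r : ℕ} {x : Fin r → F}
    (hgen : LieSubalgebra.lieSpan K F (Set.range x) = ⊤) (f g : F →ₗ⁅K⁆ B)
    (h : ∀ i, f (x i) = g (x i)) : ∀ z, f z = g z := by
  let T : LieSubalgebra K F :=
    { carrier := {z | f z = g z}
      add_mem' := by
        intro a b (ha : f a = g a) (hb : f b = g b)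
        change f (a + b) = g (a + b)
        rw [map_add, map_add, ha, hb]
      zero_mem' := by
        change f 0 = g 0
        rw [map_zero, map_zero]
      smul_mem' := by
        intro c a (ha : f a = g a)
        change f (c • a) = g (c • a)
        rw [map_smul, map_smul, ha]
      lie_mem' := by
        intro a b (ha : f a = g a) (hb : f b = g b)
        change f ⁅a, b⁆ = g ⁅a, b⁆
        rw [LieHom.map_lie, LieHom.map_lie, ha, hb] }
  have hT : T = ⊤ := by
    rw [eq_top_iff, ← hgen, LieSubalgebra.lieSpan_le]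
    rintro _ ⟨i, rfl⟩
    exact h i
  intro z
  have hz : z ∈ T := by rw [hT]; trivial
  exact hz

/-! ### The Magnus algebra -/

noncomputable section Magnus

/-- The metabelian Lie algebra `R ⋉ R^r`, `R = K[X_1, …, X_r]`, with bracket
`[(p,f),(q,g)] = (0, p g - q f)`. -/
structure Mag (K : Type u) [Field K] (r : ℕ) where
  lin : MvPolynomial (Fin r) K
  vec : Fin r → MvPolynomial (Fin r) K

variable (K : Type u) [Field K] (r : ℕ)

theorem Mag.ext' {K : Type u} [Field K] {r : ℕ} {a b : Mag K r} (h : a.lin = b.lin)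
    (h' : a.vec = b.vec) : a = b := by
  cases a; cases b; simp_all

namespace Mag

instance : Add (Mag K r) := ⟨fun a b => ⟨a.lin + b.lin, a.vec + b.vec⟩⟩
instance : Zero (Mag K r) := ⟨⟨0, 0⟩⟩
instance : Neg (Mag K r) := ⟨fun a => ⟨-a.lin, -a.vec⟩⟩
instance : SMul K (Mag K r) := ⟨fun c a => ⟨c • a.lin, c • a.vec⟩⟩

@[simp] theorem add_lin (a b : Mag K r) : (a + b).lin = a.lin + b.lin := rfl
@[simp] theorem add_vec (a b : Mag K r) : (a + b).vec = a.vec + b.vec := rfl
@[simp] theorem zero_lin : (0 : Mag K r).lin = 0 := rfl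
@[simp] theorem zero_vec : (0 : Mag K r).vec = 0 := rfl
@[simp] theorem neg_lin (a : Mag K r) : (-a).lin = -a.lin := rfl
@[simp] theorem neg_vec (a : Mag K r) : (-a).vec = -a.vec := rfl
@[simp] theorem smul_lin (c : K) (a : Mag K r) : (c • a).lin = c • a.lin := rfl
@[simp] theorem smul_vec (c : K) (a : Mag K r) : (c • a).vec = c • a.vec := rfl

instance : AddCommGroup (Mag K r) where
  add_assoc a b c := Mag.ext' (by simp [add_assoc]) (by simp [add_assoc])
  zero_add a := Mag.ext' (by simp) (by simp)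
  add_zero a := Mag.ext' (by simp) (by simp)
  add_comm a b := Mag.ext' (by simp [add_comm]) (by simp [add_comm])
  neg_add_cancel a := Mag.ext' (by simp) (by simp)
  nsmul := nsmulRec
  zsmul := zsmulRec

instance : Bracket (Mag K r) (Mag K r) :=
  ⟨fun a b => ⟨0, fun i => a.lin * b.vec i - b.lin * a.vec i⟩⟩

@[simp] theorem lie_lin (a b : Mag K r) : ⁅a, b⁆.lin = 0 := rfl
@[simp] theorem lie_vec (a b : Mag K r) :
    ⁅a, b⁆.vec = fun i => a.lin * b.vec i - b.lin * a.vec i := rfl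

instance : LieRing (Mag K r) where
  add_lie a b c := Mag.ext' (by simp) (by ext1 i; simp; ring)
  lie_add a b c := Mag.ext' (by simp) (by ext1 i; simp; ring)
  lie_self a := Mag.ext' (by simp) (by ext1 i; simp)
  leibniz_lie a b c := Mag.ext' (by simp) (by ext1 i; simp; ring)

instance : Module K (Mag K r) where
  one_smul a := Mag.ext' (by simp) (by simp)
  mul_smul a b c := Mag.ext' (by simp [mul_smul]) (by simp [mul_smul])
  smul_zero a := Mag.ext' (by simp) (by simp)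
  smul_add a b c := Mag.ext' (by simp) (by simp)
  add_smul a b c := Mag.ext' (by simp [add_smul]) (by simp [add_smul])
  zero_smul a := Mag.ext' (by simp) (by simp)

instance : LieAlgebra K (Mag K r) where
  lie_smul c a b := Mag.ext' (by simp) (by
    ext1 i
    simp only [lie_vec, smul_lin, smul_vec, Pi.smul_apply, MvPolynomial.smul_eq_C_mul]
    ring)

theorem solv : ∀ z ∈ dser K (Mag K r) 2, z = 0 := by
  have h1 : ∀ z ∈ dser K (Mag K r) 1, z.lin = 0 := by
    intro z hz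
    have := dser_succ_le (K := K) (A := Mag K r) (k := 0)
      (P := LinearMap.ker (⟨⟨fun a => a.lin, fun _ _ => rfl⟩, fun _ _ => rfl⟩ :
        Mag K r →ₗ[K] MvPolynomial (Fin r) K)) (fun a _ b _ => rfl) z hz
    exact this
  intro z hz
  have := dser_succ_le (K := K) (A := Mag K r) (k := 1) (P := ⊥) (by
    intro a ha b hb
    rw [Submodule.mem_bot]
    exact Mag.ext' (by simp) (by ext1 i; simp [h1 a ha, h1 b hb])) z hz
  simpa using this

/-- the endomorphism of the Magnus algebra given by a matrix -/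
def matHom (y : Fin r → (Fin r → MvPolynomial (Fin r) K)) : Mag K r →ₗ⁅K⁆ Mag K r where
  toFun a := ⟨a.lin, fun j => ∑ i, a.vec i * y i j⟩
  map_add' a b := Mag.ext' (by simp) (by
    ext1 j; simp [add_mul, Finset.sum_add_distrib])
  map_smul' c a := Mag.ext' (by simp) (by
    ext1 j; simp [Finset.smul_sum])
  map_lie' := by
    intro a b
    refine Mag.ext' (by simp) ?_
    ext1 j
    simp only [lie_vec, sub_mul, Finset.sum_sub_distrib, Finset.mul_sum, mul_assoc]

end Mag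

end Magnus

/-! ### The two tuples -/

section Tuples

/-- the element `[x₀,x₁] + [x₀,x₂] + [x₁,[x₀,x₂]]` -/
def aa {L : Type u} [LieRing L] (x₀ x₁ x₂ : L) : L :=
  ⁅x₀, x₁⁆ + ⁅x₀, x₂⁆ + ⁅x₁, ⁅x₀, x₂⁆⁆

/-- the key computation -/
theorem map_aa {K : Type u} [Field K] {F : Type u} [LieRing F] [LieAlgebra K F]
    (hF : ∀ z ∈ dser K F 2, z = 0) (x₀ x₁ x₂ : F) (σ : F →ₗ⁅K⁆ F) (h0 : σ x₀ = x₀)
    (h1 : σ x₁ = x₁ + ⁅x₂, x₁⁆) (h2 : σ x₂ = x₂) : σ (aa x₀ x₁ x₂) = aa x₀ x₂ x₁ := by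
  have hm : ⁅⁅x₂, x₁⁆, ⁅x₀, x₂⁆⁆ = 0 :=
    hF _ (lie_mem_dser (lie_mem_dser_one _ _) (lie_mem_dser_one _ _))
  unfold aa
  simp only [map_add, LieHom.map_lie, h0, h1, h2, lie_add, add_lie, hm, add_zero]
  rw [leibniz_lie x₀ x₂ x₁, ← lie_skew x₁ ⁅x₀, x₂⁆]
  abel

variable (K : Type u) [Field K] (r : ℕ)

theorem mod_dser {F : Type u} [LieRing F] [LieAlgebra K F] {x : Fin r → F}
    (hgen : LieSubalgebra.lieSpan K F (Set.range x) = ⊤) (σ : F →ₗ⁅K⁆ F)
    (h : ∀ i, σ (x i) - x i ∈ dser K F 1) : ∀ z, σ z - z ∈ dser K F 1 := by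
  let T : LieSubalgebra K F :=
    { carrier := {z | σ z - z ∈ dser K F 1}
      add_mem' := by
        intro a b (ha : σ a - a ∈ dser K F 1) (hb : σ b - b ∈ dser K F 1)
        change σ (a + b) - (a + b) ∈ dser K F 1
        have := add_mem ha hb
        convert this using 1
        rw [map_add]; abel
      zero_mem' := by
        change σ 0 - 0 ∈ dser K F 1
        rw [map_zero, sub_zero]
        exact zero_mem _
      smul_mem' := by
        intro c a (ha : σ a - a ∈ dser K F 1)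
        change σ (c • a) - c • a ∈ dser K F 1
        rw [map_smul, ← smul_sub]
        exact (dser K F 1).smul_mem c ha
      lie_mem' := by
        intro a b _ _
        change σ ⁅a, b⁆ - ⁅a, b⁆ ∈ dser K F 1
        rw [LieHom.map_lie]
        exact sub_mem (lie_mem_dser_one _ _) (lie_mem_dser_one _ _) }
  have hT : T = ⊤ := by
    rw [eq_top_iff, ← hgen, LieSubalgebra.lieSpan_le]
    rintro _ ⟨i, rfl⟩
    exact h i
  intro z
  have hz : z ∈ T := by rw [hT]; trivial
  exact hz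

theorem finite_quot {F : Type u} [LieRing F] [LieAlgebra K F] [Finite K] {x : Fin r → F}
    (hgen : LieSubalgebra.lieSpan K F (Set.range x) = ⊤) :
    Finite (F ⧸ (dser K F 1).toSubmodule) := by
  refine Finite.of_surjective (fun c : Fin r → K =>
    (Submodule.Quotient.mk (∑ i, c i • x i) : F ⧸ (dser K F 1).toSubmodule)) ?_
  intro z
  obtain ⟨z, rfl⟩ := Submodule.Quotient.mk_surjective _ z
  obtain ⟨c, w, rfl⟩ := exists_repr hgen z
  refine ⟨c, ?_⟩
  rw [Submodule.Quotient.eq]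
  have : ∑ i, c i • x i - (∑ i, c i • x i + ∑ i, ⁅x i, w i⁆) = - ∑ i, ⁅x i, w i⁆ := by abel
  rw [this]
  exact neg_mem (sum_mem fun i _ => lie_mem_dser_one _ _)

/-- the tuple built from an element `a` -/
noncomputable def tup {F : Type u} [LieRing F] [LieAlgebra K F] (x : Fin r → F) (i₁ i₂ : Fin r)
    (a : F) : Fin (r + 1) → F :=
  Fin.cons a (fun i => if i = i₁ ∨ i = i₂ then ⁅x i, a⁆ else x i)

/-- the endomorphism moving only `x₁` -/
theorem exists_sigma (i₀ i₁ i₂ : Fin r) (h01 : i₀ ≠ i₁) (h12 : i₁ ≠ i₂) :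
    ∃ σ : FreeSolvLie K r 2 →ₗ⁅K⁆ FreeSolvLie K r 2,
      (∀ z, σ z - z ∈ dser K (FreeSolvLie K r 2) 1) ∧
      (∀ i, i ≠ i₁ → σ (sx K r 2 i) = sx K r 2 i) ∧
      σ (sx K r 2 i₁) = sx K r 2 i₁ + ⁅sx K r 2 i₂, sx K r 2 i₁⁆ ∧
      σ (aa (sx K r 2 i₀) (sx K r 2 i₁) (sx K r 2 i₂)) =
        aa (sx K r 2 i₀) (sx K r 2 i₂) (sx K r 2 i₁) := by
  obtain ⟨σ, hσ⟩ := exists_lift_solv K r 2 (solv_solv K r 2)
    (fun i => if i = i₁ then sx K r 2 i₁ + ⁅sx K r 2 i₂, sx K r 2 i₁⁆ else sx K r 2 i)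
  have h1 : ∀ i, i ≠ i₁ → σ (sx K r 2 i) = sx K r 2 i := by
    intro i hi
    rw [hσ, if_neg hi]
  have h2 : σ (sx K r 2 i₁) = sx K r 2 i₁ + ⁅sx K r 2 i₂, sx K r 2 i₁⁆ := by
    rw [hσ, if_pos rfl]
  refine ⟨σ, ?_, h1, h2, ?_⟩
  · refine mod_dser K r (solv_gen K r 2) σ ?_
    intro i
    by_cases hi : i = i₁
    · subst hi
      rw [h2, add_sub_cancel_left]
      exact lie_mem_dser_one _ _
    · rw [h1 i hi, sub_self]
      exact zero_mem _
  · exact map_aa (solv_solv K r 2) _ _ _ σ (h1 _ h01) h2 (h1 _ h12.symm)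

theorem map_tup (i₁ i₂ : Fin r)
    (σ : FreeSolvLie K r 2 →ₗ⁅K⁆ FreeSolvLie K r 2)
    (hσ : ∀ z, σ z - z ∈ dser K (FreeSolvLie K r 2) 1)
    (h1 : ∀ i, i ≠ i₁ → σ (sx K r 2 i) = sx K r 2 i)
    {a a' : FreeSolvLie K r 2} (ha' : a' ∈ dser K (FreeSolvLie K r 2) 1)
    (ha : σ a = a') (j : Fin (r + 1)) :
    σ (tup K r (sx K r 2) i₁ i₂ a j) = tup K r (sx K r 2) i₁ i₂ a' j := by
  unfold tup
  refine Fin.cases ?_ (fun i => ?_) j
  · simpa using ha
  · simp only [Fin.cons_succ]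
    by_cases hi : i = i₁ ∨ i = i₂
    · rw [if_pos hi, if_pos hi, LieHom.map_lie, ha]
      have : σ (sx K r 2 i) = sx K r 2 i + (σ (sx K r 2 i) - sx K r 2 i) := by abel
      rw [this, add_lie, solv_solv K r 2 _ (lie_mem_dser (hσ (sx K r 2 i)) ha'), add_zero]
    · rw [if_neg hi, if_neg hi]
      exact h1 i fun h => hi (Or.inl h)

theorem tup_comm (i₁ i₂ : Fin r) {F : Type u} [LieRing F] [LieAlgebra K F] (x : Fin r → F)
    (a : F) : tup K r x i₁ i₂ a = tup K r x i₂ i₁ a := by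
  unfold tup
  congr 1
  funext i
  simp only [or_comm]

theorem aa_mem (x₀ x₁ x₂ : FreeSolvLie K r 2) :
    aa x₀ x₁ x₂ ∈ dser K (FreeSolvLie K r 2) 1 := by
  unfold aa
  exact add_mem (add_mem (lie_mem_dser_one _ _) (lie_mem_dser_one _ _)) (lie_mem_dser_one _ _)

theorem sameType_tup [Finite K] (i₀ i₁ i₂ : Fin r) (h01 : i₀ ≠ i₁) (h02 : i₀ ≠ i₂)
    (h12 : i₁ ≠ i₂) :
    SameType K (FreeSolvLie K r 2)
      (tup K r (sx K r 2) i₁ i₂ (aa (sx K r 2 i₀) (sx K r 2 i₁) (sx K r 2 i₂)))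
      (tup K r (sx K r 2) i₁ i₂ (aa (sx K r 2 i₀) (sx K r 2 i₂) (sx K r 2 i₁))) := by
  obtain ⟨σ, hσ, h1, _, h3⟩ := exists_sigma K r i₀ i₁ i₂ h01 h12
  obtain ⟨σ', hσ', h1', _, h3'⟩ := exists_sigma K r i₀ i₂ i₁ h02 h12.symm
  have := finite_quot K r (solv_gen K r 2)
  refine sameType_of_endos (dser K (FreeSolvLie K r 2) 1).toSubmodule ?_ ?_ _ _ σ σ' hσ hσ' ?_ ?_
  · intro x a _
    exact lie_mem_dser_one _ _
  · intro a ha b hb
    exact solv_solv K r 2 _ (lie_mem_dser ha hb)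
  · exact map_tup K r i₁ i₂ σ hσ h1 (aa_mem K r _ _ _) h3
  · intro j
    rw [tup_comm K r i₁ i₂, tup_comm K r i₁ i₂]
    exact map_tup K r i₂ i₁ σ' hσ' h1' (aa_mem K r _ _ _) h3' j

end Tuples

/-! ### The tuples are not conjugate -/

section NotConj

variable (K : Type u) [Field K] (r : ℕ)

/-- The algebraic heart: a unimodular `2 × 2` matrix over a polynomial ring with certain
column relations does not exist. -/
theorem no_matrix (i₁ i₂ : Fin r) (h12 : i₁ ≠ i₂)
    (A11 A12 A21 A22 D : MvPolynomial (Fin r) K)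
    (hdet : (A11 * A22 - A12 * A21) * D = 1)
    (q1 q2 : MvPolynomial (Fin r) K)
    (hq1 : ∀ f : MvPolynomial (Fin r) K →ₐ[K] RatFunc K,
      (∀ i, i ≠ i₁ → i ≠ i₂ → f (MvPolynomial.X i) = 0) → f q1 = 0)
    (hq2 : ∀ f : MvPolynomial (Fin r) K →ₐ[K] RatFunc K,
      (∀ i, i ≠ i₁ → i ≠ i₂ → f (MvPolynomial.X i) = 0) → f q2 = 0)
    (hp1 : q1 + MvPolynomial.X i₁ * A11 + MvPolynomial.X i₂ * A21 = MvPolynomial.X i₁)
    (hp2 : q2 + MvPolynomial.X i₁ * A12 + MvPolynomial.X i₂ * A22 = MvPolynomial.X i₂)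
    (hs : 1 = A21 + (1 + MvPolynomial.X i₁) * A22) : False := by
  let t : RatFunc K := RatFunc.X
  have ht : t ≠ 0 := RatFunc.X_ne_zero
  have hXC : ∀ c : K, (RatFunc.X : RatFunc K) ≠ RatFunc.C c := by
    intro c hc
    rw [← RatFunc.algebraMap_X, ← RatFunc.algebraMap_C] at hc
    have := RatFunc.algebraMap_injective K hc
    have h2 := congrArg (fun p => Polynomial.coeff p 1) this
    simp at h2
  have ht1 : t ≠ 1 := by
    have := hXC 1
    simpa using this
  let f : MvPolynomial (Fin r) K →ₐ[K] RatFunc K := MvPolynomial.aeval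
    (fun i => if i = i₁ then t⁻¹ - 1 else if i = i₂ then t - 1 else 0)
  have hf1 : f (MvPolynomial.X i₁) = t⁻¹ - 1 := by simp [f]
  have hf2 : f (MvPolynomial.X i₂) = t - 1 := by simp [f, h12.symm]
  have hf0 : ∀ i, i ≠ i₁ → i ≠ i₂ → f (MvPolynomial.X i) = 0 := by
    intro i h1 h2
    simp [f, h1, h2]
  have e1 := congrArg f hp1
  have e2 := congrArg f hp2
  have e3 := congrArg f hs
  simp only [map_add, map_mul, map_one, hf1, hf2, hq1 f hf0, hq2 f hf0, zero_add] at e1 e2 e3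
  have hne : 1 - t ≠ 0 := sub_ne_zero.2 (Ne.symm ht1)
  have e4 : f A11 = 1 + t * f A21 := by
    field_simp at e1
    apply mul_left_cancel₀ hne
    linear_combination e1
  have e5 : f A12 = t * f A22 - t := by
    field_simp at e2
    apply mul_left_cancel₀ hne
    linear_combination e2
  have e6 : f (A11 * A22 - A12 * A21) = t := by
    rw [map_sub, map_mul, map_mul, e4, e5]
    field_simp at e3
    linear_combination -e3
  have hu : IsUnit (A11 * A22 - A12 * A21) := IsUnit.of_mul_eq_one _ hdet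
  rw [MvPolynomial.isUnit_iff_totalDegree_of_isReduced] at hu
  obtain ⟨_, hu2⟩ := hu
  rw [MvPolynomial.totalDegree_eq_zero_iff_eq_C] at hu2
  rw [hu2] at e6
  have e7 : f (MvPolynomial.C (MvPolynomial.coeff 0 (A11 * A22 - A12 * A21))) =
      RatFunc.C (MvPolynomial.coeff 0 (A11 * A22 - A12 * A21)) := by
    rw [← MvPolynomial.algebraMap_eq, AlgHom.commutes]
    rfl
  rw [e7] at e6
  exact hXC _ e6.symm

/-- vectors in the image of the Magnus embedding are compatible with the linear part -/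
theorem mag_pi {F : Type u} [LieRing F] [LieAlgebra K F] {x : Fin r → F}
    (hgen : LieSubalgebra.lieSpan K F (Set.range x) = ⊤) (θ : F →ₗ⁅K⁆ Mag K r)
    (hθ : ∀ i, θ (x i) = ⟨MvPolynomial.X i, Pi.single i 1⟩) (z : F) :
    ∑ j, MvPolynomial.X j * (θ z).vec j = (θ z).lin := by
  let T : LieSubalgebra K F :=
    { carrier := {z | ∑ j, MvPolynomial.X j * (θ z).vec j = (θ z).lin}
      add_mem' := by
        intro a b (ha : ∑ j, MvPolynomial.X j * (θ a).vec j = (θ a).lin)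
          (hb : ∑ j, MvPolynomial.X j * (θ b).vec j = (θ b).lin)
        change ∑ j, MvPolynomial.X j * (θ (a + b)).vec j = (θ (a + b)).lin
        rw [map_add]
        simp only [Mag.add_vec, Mag.add_lin, Pi.add_apply, mul_add, Finset.sum_add_distrib, ha, hb]
      zero_mem' := by
        change ∑ j, MvPolynomial.X j * (θ 0).vec j = (θ 0).lin
        rw [map_zero]
        simp
      smul_mem' := by
        intro c a (ha : ∑ j, MvPolynomial.X j * (θ a).vec j = (θ a).lin)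
        change ∑ j, MvPolynomial.X j * (θ (c • a)).vec j = (θ (c • a)).lin
        rw [map_smul]
        simp only [Mag.smul_vec, Mag.smul_lin, Pi.smul_apply, mul_smul_comm, ← Finset.smul_sum, ha]
      lie_mem' := by
        intro a b (ha : ∑ j, MvPolynomial.X j * (θ a).vec j = (θ a).lin)
          (hb : ∑ j, MvPolynomial.X j * (θ b).vec j = (θ b).lin)
        change ∑ j, MvPolynomial.X j * (θ ⁅a, b⁆).vec j = (θ ⁅a, b⁆).lin
        rw [LieHom.map_lie]
        simp only [Mag.lie_vec, Mag.lie_lin]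
        have : ∀ j, MvPolynomial.X j * ((θ a).lin * (θ b).vec j - (θ b).lin * (θ a).vec j) =
            (θ a).lin * (MvPolynomial.X j * (θ b).vec j) -
              (θ b).lin * (MvPolynomial.X j * (θ a).vec j) := by
          intro j; ring
        simp only [this, Finset.sum_sub_distrib, ← Finset.mul_sum, ha, hb]
        ring }
  have hT : T = ⊤ := by
    rw [eq_top_iff, ← hgen, LieSubalgebra.lieSpan_le]
    rintro _ ⟨i, rfl⟩
    change ∑ j, MvPolynomial.X j * (θ (x i)).vec j = (θ (x i)).lin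
    rw [hθ]
    simp [Pi.single_apply]
  have hz : z ∈ T := by rw [hT]; trivial
  exact hz

theorem vec_aa {F : Type u} [LieRing F] [LieAlgebra K F] {x : Fin r → F}
    (θ : F →ₗ⁅K⁆ Mag K r)
    (hθ : ∀ i, θ (x i) = ⟨MvPolynomial.X i, Pi.single i 1⟩) (i₀ i₁ i₂ : Fin r) :
    θ (aa (x i₀) (x i₁) (x i₂)) = ⟨0, fun j =>
      -(MvPolynomial.X i₁ + MvPolynomial.X i₂ + MvPolynomial.X i₁ * MvPolynomial.X i₂) *
        (Pi.single i₀ 1 : Fin r → MvPolynomial (Fin r) K) j
      + MvPolynomial.X i₀ * (Pi.single i₁ 1 : Fin r → MvPolynomial (Fin r) K) j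
      + MvPolynomial.X i₀ * (1 + MvPolynomial.X i₁) *
        (Pi.single i₂ 1 : Fin r → MvPolynomial (Fin r) K) j⟩ := by
  unfold aa
  rw [map_add, map_add, LieHom.map_lie, LieHom.map_lie, LieHom.map_lie, LieHom.map_lie, hθ, hθ, hθ]
  refine Mag.ext' (by simp) ?_
  ext1 j
  simp only [Mag.add_vec, Mag.lie_vec, Mag.lie_lin, Pi.add_apply]
  ring

theorem not_conj (i₀ i₁ i₂ : Fin r) (h01 : i₀ ≠ i₁) (h02 : i₀ ≠ i₂) (h12 : i₁ ≠ i₂)
    (τ : FreeSolvLie K r 2 ≃ₗ⁅K⁆ FreeSolvLie K r 2)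
    (hτ : ∀ j, τ (tup K r (sx K r 2) i₁ i₂ (aa (sx K r 2 i₀) (sx K r 2 i₁) (sx K r 2 i₂)) j) =
      tup K r (sx K r 2) i₁ i₂ (aa (sx K r 2 i₀) (sx K r 2 i₂) (sx K r 2 i₁)) j) : False := by
  obtain ⟨θ, hθ⟩ := exists_lift_solv K r 2 (Mag.solv K r)
    (fun i => (⟨MvPolynomial.X i, Pi.single i 1⟩ : Mag K r))
  set x := sx K r 2 with hx
  set a := aa (x i₀) (x i₁) (x i₂) with ha
  set a' := aa (x i₀) (x i₂) (x i₁) with ha'
  have hgen := solv_gen K r 2
  rw [← hx] at hgen
  have hτa : τ a = a' := by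
    have := hτ 0
    simpa [tup] using this
  have hτ0 : ∀ i, i ≠ i₁ → i ≠ i₂ → τ (x i) = x i := by
    intro i h1 h2
    have := hτ i.succ
    simpa [tup, h1, h2] using this
  have hτ1 : ∀ i, (i = i₁ ∨ i = i₂) → ⁅τ (x i), a'⁆ = ⁅x i, a'⁆ := by
    intro i hi
    have := hτ i.succ
    simp only [tup, Fin.cons_succ, if_pos hi] at this
    rw [← this, ← hτa]
    exact (LieEquiv.map_lie τ _ _).symm
  have hva := vec_aa K r θ hθ i₀ i₁ i₂
  have hva' := vec_aa K r θ hθ i₀ i₂ i₁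
  rw [← ha] at hva
  rw [← ha'] at hva'
  -- the linear parts of the images of the generators
  have hlin : ∀ i, (θ (τ (x i))).lin = MvPolynomial.X i := by
    intro i
    by_cases hi : i = i₁ ∨ i = i₂
    · have h1 := congrArg (fun z => (θ z).vec i₁) (hτ1 i hi)
      simp only [LieHom.map_lie, Mag.lie_vec, hva', hθ] at h1
      simp only [Pi.single_eq_same, Pi.single_eq_of_ne h01.symm, Pi.single_eq_of_ne h12,
        mul_zero, mul_one, zero_mul, sub_zero, zero_add] at h1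
      have hne : (MvPolynomial.X i₀ * (1 + MvPolynomial.X i₂) : MvPolynomial (Fin r) K) ≠ 0 := by
        refine mul_ne_zero (MvPolynomial.X_ne_zero _) ?_
        intro h0
        have := congrArg (MvPolynomial.coeff 0) h0
        simp at this
      exact mul_right_cancel₀ hne h1
    · push Not at hi
      rw [hτ0 i hi.1 hi.2, hθ]
  -- chain rule
  let y : Fin r → Fin r → MvPolynomial (Fin r) K := fun i => (θ (τ (x i))).vec
  have hchain : ∀ z, θ (τ z) = Mag.matHom K r y (θ z) := by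
    have := hom_eq_of_gen hgen (θ.comp (τ : FreeSolvLie K r 2 →ₗ⁅K⁆ FreeSolvLie K r 2))
      ((Mag.matHom K r y).comp θ) (by
        intro i
        change θ (τ (x i)) = Mag.matHom K r y (θ (x i))
        rw [hθ]
        refine Mag.ext' (hlin i) ?_
        ext1 j
        change (θ (τ (x i))).vec j = ∑ l, (Pi.single i 1 : Fin r → MvPolynomial (Fin r) K) l * y l j
        simp [Pi.single_apply, y])
    exact this
  have hτs : ∀ z, τ (τ.symm z) = z := fun z => τ.apply_symm_apply z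
  let b : Fin r → Fin r → MvPolynomial (Fin r) K := fun i => (θ (τ.symm (x i))).vec
  have hAB : ∀ i j, (Pi.single i 1 : Fin r → MvPolynomial (Fin r) K) j =
      ∑ l, b i l * y l j := by
    intro i j
    have h1 := hchain (τ.symm (x i))
    rw [hτs, hθ] at h1
    exact congrArg (fun m : Mag K r => m.vec j) h1
  have hy0 : ∀ l, l ≠ i₁ → l ≠ i₂ → y l = Pi.single l 1 := by
    intro l h1 h2
    simp only [y]
    rw [hτ0 l h1 h2, hθ]
  have hAB2 : ∀ i, ∀ j, (j = i₁ ∨ j = i₂) → (Pi.single i 1 : Fin r → MvPolynomial (Fin r) K) j =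
      b i i₁ * y i₁ j + b i i₂ * y i₂ j := by
    intro i j hj
    rw [hAB i j]
    rw [Finset.sum_eq_add i₁ i₂ h12]
    · intro l _ hl
      rw [hy0 l hl.1 hl.2]
      have : j ≠ l := by
        rintro rfl
        rcases hj with h | h
        · exact hl.1 h
        · exact hl.2 h
      rw [Pi.single_eq_of_ne this, mul_zero]
    · simp
    · simp
  have g11 := hAB2 i₁ i₁ (Or.inl rfl)
  have g12 := hAB2 i₁ i₂ (Or.inr rfl)
  have g21 := hAB2 i₂ i₁ (Or.inl rfl)
  have g22 := hAB2 i₂ i₂ (Or.inr rfl)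
  rw [Pi.single_eq_same] at g11 g22
  rw [Pi.single_eq_of_ne h12.symm] at g12
  rw [Pi.single_eq_of_ne h12] at g21
  have hdet : (y i₁ i₁ * y i₂ i₂ - y i₂ i₁ * y i₁ i₂) * (b i₁ i₁ * b i₂ i₂ - b i₁ i₂ * b i₂ i₁) =
      1 := by
    have : (b i₁ i₁ * y i₁ i₁ + b i₁ i₂ * y i₂ i₁) * (b i₂ i₁ * y i₁ i₂ + b i₂ i₂ * y i₂ i₂) -
      (b i₁ i₁ * y i₁ i₂ + b i₁ i₂ * y i₂ i₂) * (b i₂ i₁ * y i₁ i₁ + b i₂ i₂ * y i₂ i₁) = 1 := by
      rw [← g11, ← g12, ← g21, ← g22]; ring
    rw [← this]; ring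
  -- the compatibility with the augmentation
  have hpi : ∀ l, (∑ j ∈ (Finset.univ \ {i₁, i₂} : Finset (Fin r)), MvPolynomial.X j * y l j) +
      MvPolynomial.X i₁ * y l i₁ + MvPolynomial.X i₂ * y l i₂ = MvPolynomial.X l := by
    intro l
    have h1 := mag_pi K r hgen θ hθ (τ (x l))
    rw [hlin l] at h1
    rw [← h1, ← Finset.sum_sdiff (Finset.subset_univ ({i₁, i₂} : Finset (Fin r))),
      Finset.sum_pair h12]
    ring
  have hq : ∀ l, ∀ f : MvPolynomial (Fin r) K →ₐ[K] RatFunc K,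
      (∀ i, i ≠ i₁ → i ≠ i₂ → f (MvPolynomial.X i) = 0) →
      f (∑ j ∈ (Finset.univ \ {i₁, i₂} : Finset (Fin r)), MvPolynomial.X j * y l j) = 0 := by
    intro l f hf
    rw [map_sum]
    refine Finset.sum_eq_zero fun j hj => ?_
    simp only [Finset.mem_sdiff, Finset.mem_insert, Finset.mem_singleton, not_or] at hj
    rw [map_mul, hf j hj.2.1 hj.2.2, zero_mul]
  -- the relation coming from `τ a = a'`
  have hs : (1 : MvPolynomial (Fin r) K) = y i₁ i₂ + (1 + MvPolynomial.X i₁) * y i₂ i₂ := by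
    have h1 := hchain a
    rw [hτa, hva', hva] at h1
    have h2 := congrArg (fun m : Mag K r => m.vec i₂) h1
    simp only [Mag.matHom] at h2
    have h3 : ∑ l, ((-(MvPolynomial.X i₁ + MvPolynomial.X i₂ +
        MvPolynomial.X i₁ * MvPolynomial.X i₂) *
        (Pi.single i₀ 1 : Fin r → MvPolynomial (Fin r) K) l
      + MvPolynomial.X i₀ * (Pi.single i₁ 1 : Fin r → MvPolynomial (Fin r) K) l
      + MvPolynomial.X i₀ * (1 + MvPolynomial.X i₁) *
        (Pi.single i₂ 1 : Fin r → MvPolynomial (Fin r) K) l) * y l i₂) =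
        -(MvPolynomial.X i₁ + MvPolynomial.X i₂ + MvPolynomial.X i₁ * MvPolynomial.X i₂) *
          y i₀ i₂ + MvPolynomial.X i₀ * y i₁ i₂ +
          MvPolynomial.X i₀ * (1 + MvPolynomial.X i₁) * y i₂ i₂ := by
      simp only [add_mul, Finset.sum_add_distrib, Pi.single_apply]
      simp
    have h4 : y i₀ i₂ = 0 := by
      rw [hy0 i₀ h01 h02, Pi.single_eq_of_ne h02.symm]
    apply mul_left_cancel₀ (MvPolynomial.X_ne_zero i₀ : (MvPolynomial.X i₀ : MvPolynomial _ K) ≠ 0)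
    have h5 : (-(MvPolynomial.X i₂ + MvPolynomial.X i₁ + MvPolynomial.X i₂ * MvPolynomial.X i₁) *
        (Pi.single i₀ 1 : Fin r → MvPolynomial (Fin r) K) i₂
      + MvPolynomial.X i₀ * (Pi.single i₂ 1 : Fin r → MvPolynomial (Fin r) K) i₂
      + MvPolynomial.X i₀ * (1 + MvPolynomial.X i₂) *
        (Pi.single i₁ 1 : Fin r → MvPolynomial (Fin r) K) i₂) = MvPolynomial.X i₀ := by
      rw [Pi.single_eq_of_ne h02.symm, Pi.single_eq_same, Pi.single_eq_of_ne h12.symm]
      ring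
    have h6 := h5.symm.trans (h2.trans h3)
    rw [h4] at h6
    linear_combination h6
  exact no_matrix K r i₁ i₂ h12 (y i₁ i₁) (y i₂ i₁) (y i₁ i₂) (y i₂ i₂) _ hdet _ _ (hq i₁) (hq i₂)
    (hpi i₁) (hpi i₂) hs

end NotConj

/-- Over a finite field the free metabelian Lie algebra of rank at least three is not logically
homogeneous. -/
theorem metabelian_not_homogeneous (K : Type u) [Field K] [Finite K] (r : ℕ) (hr : 3 ≤ r) :
    ¬ LogicallyHomogeneous K (FreeSolvLie K r 2) := by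
  intro h
  let i₀ : Fin r := ⟨0, by omega⟩
  let i₁ : Fin r := ⟨1, by omega⟩
  let i₂ : Fin r := ⟨2, by omega⟩
  have h01 : i₀ ≠ i₁ := by simp [i₀, i₁]
  have h02 : i₀ ≠ i₂ := by simp [i₀, i₂]
  have h12 : i₁ ≠ i₂ := by simp [i₁, i₂]
  obtain ⟨τ, hτ⟩ := h (r + 1) (by omega) _ _ (sameType_tup K r i₀ i₁ i₂ h01 h02 h12)
  exact not_conj K r i₀ i₁ i₂ h01 h02 h12 τ hτ

end Pool.Agent.Helper771.LieHomog
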