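import Mathlib

set_option autoImplicit false

namespace Pool.Agent.Helper771.MultSeq

open Polynomial

/-- `p` has only real zeros (the zero polynomial is admitted, as usual in this theory). -/
def OnlyRealZeros (p : ℝ[X]) : Prop := p = 0 ∨ ∀ z : ℂ, aeval z p = 0 → z.im = 0

/-- The polynomial `∑ γ_k a_k x^k` obtained from `p = ∑ a_k x^k`. -/
noncomputable def act (γ : ℕ → ℝ) (p : ℝ[X]) : ℝ[X] := p.sum fun k a => monomial k (γ k * a)

/-- Multiplier sequences in the sense of Polya and Schur. -/
def IsMultiplierSequence (γ : ℕ → ℝ) : Prop :=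
  ∀ p : ℝ[X], OnlyRealZeros p → OnlyRealZeros (act γ p)

/-- `Ψ` is admissible: termwise application of `Ψ` to two multiplier sequences with nonnegative
terms always gives a multiplier sequence. -/
def Admissible (Ψ : ℝ × ℝ → ℝ) : Prop :=
  ∀ α β : ℕ → ℝ, (∀ k, 0 ≤ α k) → (∀ k, 0 ≤ β k) →
    IsMultiplierSequence α → IsMultiplierSequence β →
    IsMultiplierSequence (fun k => Ψ (α k, β k))

/-- `p` is a nonzero polynomial with only real zeros (strict reading: the zero polynomial is
excluded). -/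
def OnlyRealZerosStrict (p : ℝ[X]) : Prop := ∀ z : ℂ, aeval z p = 0 → z.im = 0

/-- Multiplier sequences for the strict reading. -/
def IsMultiplierSequenceStrict (γ : ℕ → ℝ) : Prop :=
  ∀ p : ℝ[X], OnlyRealZerosStrict p → OnlyRealZerosStrict (act γ p)

/-- Admissible functions for the strict reading. -/
def AdmissibleStrict (Ψ : ℝ × ℝ → ℝ) : Prop :=
  ∀ α β : ℕ → ℝ, (∀ k, 0 ≤ α k) → (∀ k, 0 ≤ β k) →
    IsMultiplierSequenceStrict α → IsMultiplierSequenceStrict β →
    IsMultiplierSequenceStrict (fun k => Ψ (α k, β k))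

/-! ### Real-rooted polynomials -/

theorem orz_zero : OnlyRealZeros 0 := Or.inl rfl

theorem orz_roots {p : ℝ[X]} (hp : p ≠ 0) (h : OnlyRealZeros p) :
    ∃ s : Multiset ℝ, s.card = p.natDegree ∧
      p = C p.leadingCoeff * (s.map fun r => X - C r).prod ∧
      ∀ z : ℂ, aeval z p ≠ 0 →
        aeval z (derivative p) = aeval z p * (s.map fun r : ℝ => 1 / (z - (r : ℂ))).sum := by
  have h' : ∀ z : ℂ, aeval z p = 0 → z.im = 0 := h.resolve_left hp
  set P : ℂ[X] := p.map (algebraMap ℝ ℂ) with hP
  have hsplit : P.Splits := IsAlgClosed.splits P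
  have hP0 : P ≠ 0 := by
    rw [hP]; exact (Polynomial.map_ne_zero_iff (algebraMap ℝ ℂ).injective).2 hp
  have hre : ∀ w ∈ P.roots, ((w.re : ℝ) : ℂ) = w := by
    intro w hw
    have hw0 : aeval w p = 0 := by
      have : P.eval w = 0 := (mem_roots hP0).1 hw
      rwa [hP, eval_map_algebraMap] at this
    have him := h' w hw0
    apply Complex.ext <;> simp [him]
  refine ⟨P.roots.map Complex.re, ?_, ?_, ?_⟩
  · rw [Multiset.card_map, ← hsplit.natDegree_eq_card_roots, hP,
      natDegree_map_eq_of_injective (algebraMap ℝ ℂ).injective]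
  · apply Polynomial.map_injective _ (algebraMap ℝ ℂ).injective
    rw [← hP, Polynomial.map_mul, map_C, Polynomial.map_multiset_prod, Multiset.map_map,
      Multiset.map_map]
    have e1 := hsplit.eq_prod_roots
    have e2 : P.leadingCoeff = algebraMap ℝ ℂ p.leadingCoeff := by
      rw [hP, leadingCoeff_map_of_injective (algebraMap ℝ ℂ).injective]
    rw [e2] at e1
    conv_lhs => rw [e1]
    congr 2
    apply Multiset.map_congr rfl
    intro w hw
    have := hre w hw
    simp only [Function.comp_apply, Polynomial.map_sub, map_X, map_C]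
    rw [Complex.coe_algebraMap, this]
  · intro z hz
    have e1 : aeval z p = P.eval z := by rw [hP, eval_map_algebraMap]
    have e2 : aeval z (derivative p) = (derivative P).eval z := by
      rw [hP, derivative_map, eval_map_algebraMap]
    rw [e1, e2, hsplit.eval_derivative_eq_eval_mul_sum (by rwa [← e1]), Multiset.map_map]
    congr 2
    apply Multiset.map_congr rfl
    intro w hw
    simp [Function.comp, hre w hw]

/-- points of the form `(z - r)⁻¹` lie on a circle through the origin -/
theorem circle_id {z : ℂ} (hz : z.im ≠ 0) (r : ℝ) :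
    Complex.normSq (1 / (z - (r : ℂ))) = - (1 / (z - (r : ℂ))).im / z.im := by
  have h1 : Complex.normSq (z - r) ≠ 0 := by
    rw [Ne, Complex.normSq_eq_zero]
    intro h
    apply hz
    have := congrArg Complex.im h
    simpa using this
  rw [one_div, Complex.inv_im, Complex.normSq_inv]
  simp only [Complex.sub_im, Complex.ofReal_im, sub_zero]
  field_simp

/-- the same for `u / (1 + u z)` -/
theorem circle_id' {z : ℂ} (hz : z.im ≠ 0) (u : ℝ) :
    Complex.normSq ((u : ℂ) / (1 + u * z)) = - ((u : ℂ) / (1 + u * z)).im / z.im := by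
  by_cases hu : u = 0
  · simp [hu]
  · have : (u : ℂ) / (1 + u * z) = 1 / (z - ((-1 / u : ℝ) : ℂ)) := by
      have hu' : (u : ℂ) ≠ 0 := by exact_mod_cast hu
      have h2 : z - ((-1 / u : ℝ) : ℂ) ≠ 0 := by
        intro h
        apply hz
        have := congrArg Complex.im h
        simpa using this
      have h3 : 1 + (u : ℂ) * z ≠ 0 := by
        intro h
        apply h2
        push_cast
        field_simp
        linear_combination h
      rw [div_eq_div_iff h3 h2]
      push_cast
      field_simp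
      ring
    rw [this]
    exact circle_id hz _

theorem sum_normSq {z : ℂ} (hz : z.im ≠ 0) (T : ℂ) (s : Multiset ℝ) :
    (s.map fun r : ℝ => Complex.normSq (1 / (z - (r : ℂ)) - T)).sum =
      - ((s.map fun r : ℝ => 1 / (z - (r : ℂ))).sum).im / z.im + s.card * Complex.normSq T
        - 2 * ((s.map fun r : ℝ => 1 / (z - (r : ℂ))).sum * (starRingEnd ℂ) T).re := by
  induction s using Multiset.induction_on with
  | empty => simp
  | cons a s ih =>
    rw [Multiset.map_cons, Multiset.sum_cons, Multiset.map_cons, Multiset.sum_cons, ih,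
      Complex.normSq_sub, circle_id hz, Multiset.card_cons]
    rw [Complex.add_im, add_mul, Complex.add_re]
    push_cast
    ring

/-- The polar derivative of a real-rooted polynomial is real-rooted. -/
theorem orz_polar {G : ℝ[X]} {N : ℕ} (hN : 1 ≤ N) (hdeg : G.natDegree ≤ N)
    (hG : OnlyRealZeros G) (u : ℝ) :
    OnlyRealZeros ((1 + C u * X) * derivative G - C ((N : ℝ) * u) * G) := by
  by_cases hG0 : G = 0
  · subst hG0; simp [OnlyRealZeros]
  obtain ⟨s, hs, hprod, hder⟩ := orz_roots hG0 hG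
  by_cases hex : ∃ z : ℂ, aeval z ((1 + C u * X) * derivative G - C ((N : ℝ) * u) * G) = 0 ∧
      z.im ≠ 0
  swap
  · right
    intro z hz
    by_contra h
    exact hex ⟨z, hz, h⟩
  left
  obtain ⟨z, hz, him⟩ := hex
  have hGz : aeval z G ≠ 0 := fun h => him ((hG.resolve_left hG0) z h)
  set S : ℂ := (s.map fun r : ℝ => 1 / (z - (r : ℂ))).sum with hS
  have h1 : 1 + (u : ℂ) * z ≠ 0 := by
    by_cases hu : u = 0
    · simp [hu]
    · intro h
      have := congrArg Complex.im h
      simp at this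
      tauto
  have h2 : (1 + (u : ℂ) * z) * S = N * u := by
    have h3 : (1 + (u : ℂ) * z) * (aeval z G * S) - (N * u) * aeval z G = 0 := by
      rw [← hder z hGz, ← hz]
      simp
    have h4 : aeval z G * ((1 + (u : ℂ) * z) * S - N * u) = 0 := by linear_combination h3
    exact sub_eq_zero.1 ((mul_eq_zero.1 h4).resolve_left hGz)
  set T : ℂ := (u : ℂ) / (1 + u * z) with hT
  have hST : S = N * T := by
    rw [hT]; field_simp; linear_combination h2
  have hsum := sum_normSq him T s
  rw [← hS, hST] at hsum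
  have hTc := circle_id' him u
  rw [← hT] at hTc
  have e1 : ((N : ℂ) * T).im = N * T.im := by simp
  have e2 : ((N : ℂ) * T * (starRingEnd ℂ) T).re = N * Complex.normSq T := by
    rw [mul_assoc, Complex.mul_conj]; simp
  have hsum' : (s.map fun r : ℝ => Complex.normSq (1 / (z - (r : ℂ)) - T)).sum =
      ((s.card : ℝ) - N) * Complex.normSq T := by
    rw [hsum, e1, e2, hTc]
    field_simp
    ring
  have hcard : (s.card : ℝ) ≤ N := by rw [hs]; exact_mod_cast hdeg
  have hnn : ∀ x ∈ (s.map fun r : ℝ => Complex.normSq (1 / (z - (r : ℂ)) - T)), 0 ≤ x := by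
    intro x hx
    obtain ⟨r, _, rfl⟩ := Multiset.mem_map.1 hx
    exact Complex.normSq_nonneg _
  have hsum0 : (s.map fun r : ℝ => Complex.normSq (1 / (z - (r : ℂ)) - T)).sum ≤ 0 := by
    rw [hsum']
    have := Complex.normSq_nonneg T
    nlinarith
  have hsum1 := Multiset.sum_nonneg hnn
  have hall : ∀ r ∈ s, 1 / (z - (r : ℂ)) = T := by
    intro r hr
    have h5 := Multiset.single_le_sum hnn _ (Multiset.mem_map_of_mem
      (fun r : ℝ => Complex.normSq (1 / (z - (r : ℂ)) - T)) hr)
    have h6 : Complex.normSq (1 / (z - (r : ℂ)) - T) = 0 :=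
      le_antisymm (h5.trans hsum0) (Complex.normSq_nonneg _)
    exact sub_eq_zero.1 (Complex.normSq_eq_zero.1 h6)
  have hzr : ∀ r : ℝ, z - (r : ℂ) ≠ 0 := by
    intro r h
    have := congrArg Complex.im h
    simp at this
    exact him this
  by_cases hu : u = 0
  · have hT0 : T = 0 := by rw [hT, hu]; simp
    have hs0 : s = 0 := by
      rw [Multiset.eq_zero_iff_forall_notMem]
      intro r hr
      have := hall r hr
      rw [hT0, one_div, inv_eq_zero] at this
      exact hzr r this
    rw [hs0, Multiset.card_zero] at hs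
    rw [eq_C_of_natDegree_eq_zero hs.symm]
    simp [hu]
  · have hT0 : T ≠ 0 := by
      rw [hT]; exact div_ne_zero (by exact_mod_cast hu) h1
    have hN' : s.card = N := by
      have h7 : ((s.card : ℝ) - N) * Complex.normSq T = 0 := by
        rw [← hsum']; exact le_antisymm hsum0 hsum1
      rcases mul_eq_zero.1 h7 with h8 | h8
      · have : (s.card : ℝ) = N := by linarith
        exact_mod_cast this
      · exact absurd (Complex.normSq_eq_zero.1 h8) hT0
    have hr : ∀ r ∈ s, r = - 1 / u := by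
      intro r hr
      have h9 := hall r hr
      rw [hT, div_eq_div_iff (hzr r) h1] at h9
      have h10 : (u : ℂ) * r = -1 := by linear_combination h9
      have h11 : u * r = -1 := by exact_mod_cast h10
      field_simp
      linarith
    have hrep : s = Multiset.replicate N (-1 / u) := by
      rw [Multiset.eq_replicate]
      exact ⟨hN', hr⟩
    rw [hrep, Multiset.map_replicate, Multiset.prod_replicate] at hprod
    obtain ⟨M, rfl⟩ : ∃ M, N = M + 1 := ⟨N - 1, by omega⟩
    rw [hprod]
    have hX : (1 + C u * X : ℝ[X]) = C u * (X - C (-1 / u)) := by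
      have : (1 : ℝ[X]) = C (- (u * (-1 / u))) := by
        rw [← C_1]; congr 1; field_simp
      rw [this]
      simp only [C_neg, C_mul]
      ring
    rw [hX]
    simp only [derivative_mul, derivative_C, zero_mul, zero_add, derivative_X_sub_C_pow]
    push_cast
    simp only [C_mul, C_add, C_1, map_natCast]
    ring

theorem orz_of_X_pow_mul {m : ℕ} {q : ℝ[X]} (h : OnlyRealZeros (X ^ m * q)) :
    OnlyRealZeros q := by
  rcases h with h | h
  · left
    rcases mul_eq_zero.1 h with h | h
    · exact absurd h (pow_ne_zero _ X_ne_zero)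
    · exact h
  · right
    intro z hz
    apply h
    rw [map_mul, hz, mul_zero]

theorem orz_C_mul {c : ℝ} {q : ℝ[X]} (h : OnlyRealZeros q) : OnlyRealZeros (C c * q) := by
  by_cases hc : c = 0
  · left; simp [hc]
  rcases h with h | h
  · left; simp [h]
  · right
    intro z hz
    rw [map_mul, aeval_C] at hz
    exact h z ((mul_eq_zero.1 hz).resolve_left (by simpa using hc))

theorem orz_of_C_mul {c : ℝ} (hc : c ≠ 0) {q : ℝ[X]} (h : OnlyRealZeros (C c * q)) :
    OnlyRealZeros q := by
  have := orz_C_mul (c := c⁻¹) h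
  rwa [← mul_assoc, ← C_mul, inv_mul_cancel₀ hc, C_1, one_mul] at this

theorem orz_base (m n : ℕ) : OnlyRealZeros (X ^ m * (1 + X) ^ n : ℝ[X]) := by
  right
  intro z hz
  rw [map_mul, map_pow, map_pow, map_add, map_one, aeval_X] at hz
  rcases mul_eq_zero.1 hz with h | h
  · rw [pow_eq_zero_iff'] at h
    rw [h.1]; simp
  · rw [pow_eq_zero_iff'] at h
    have : z = -1 := by linear_combination h.1
    rw [this]; simp

/-! ### The class `J` of sequences -/

/-- The polynomials `∑_k C(n,k) γ_{m+k} x^k`. -/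
noncomputable def jen (γ : ℕ → ℝ) (m n : ℕ) : ℝ[X] :=
  ∑ k ∈ Finset.range (n + 1), monomial k ((n.choose k : ℝ) * γ (m + k))

theorem coeff_jen (γ : ℕ → ℝ) (m n k : ℕ) :
    (jen γ m n).coeff k = (n.choose k : ℝ) * γ (m + k) := by
  unfold jen
  rw [finsetSum_coeff]
  simp only [coeff_monomial]
  rw [Finset.sum_ite_eq' (Finset.range (n + 1)) k]
  split_ifs with h
  · rfl
  · rw [Nat.choose_eq_zero_of_lt (by simpa using h)]
    simp

/-- All the polynomials attached to `γ` are real-rooted. -/
def InJ (γ : ℕ → ℝ) : Prop := ∀ m n : ℕ, OnlyRealZeros (jen γ m n)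

theorem act_eq (γ : ℕ → ℝ) (p : ℝ[X]) (k : ℕ) : (act γ p).coeff k = γ k * p.coeff k := by
  unfold act Polynomial.sum
  rw [finsetSum_coeff]
  simp only [coeff_monomial]
  rw [Finset.sum_ite_eq' p.support k]
  split_ifs with h
  · rfl
  · rw [notMem_support_iff.1 h, mul_zero]

theorem inJ_of_ms {γ : ℕ → ℝ} (h : IsMultiplierSequence γ) : InJ γ := by
  intro m n
  have h1 := h _ (orz_base m n)
  have h2 : act γ (X ^ m * (1 + X) ^ n) = X ^ m * jen γ m n := by
    ext k
    rw [act_eq, coeff_X_pow_mul', coeff_X_pow_mul']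
    split_ifs with hk
    · rw [coeff_jen, coeff_one_add_X_pow, mul_comm]
      congr 2
      omega
    · simp
  rw [h2] at h1
  exact orz_of_X_pow_mul h1

theorem jen_natDegree (γ : ℕ → ℝ) (m n : ℕ) : (jen γ m n).natDegree ≤ n := by
  rw [natDegree_le_iff_coeff_eq_zero]
  intro k hk
  rw [coeff_jen, Nat.choose_eq_zero_of_lt hk]
  simp

/-- The class `J` is stable under `E - u` where `E` is the shift. -/
theorem InJ.shift_sub {γ : ℕ → ℝ} (h : InJ γ) (u : ℝ) : InJ (fun k => γ (k + 1) - u * γ k) := by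
  intro m n
  have h1 := orz_polar (N := n + 1) (by omega) (jen_natDegree γ m (n + 1)) (h m (n + 1)) u
  refine orz_of_C_mul (c := (n : ℝ) + 1) (by positivity) ?_
  convert h1 using 1
  ext k
  have e0 : (1 + C u * X) * derivative (jen γ m (n + 1)) =
      derivative (jen γ m (n + 1)) + C u * (X * derivative (jen γ m (n + 1))) := by ring
  rw [e0, coeff_C_mul, coeff_sub, coeff_C_mul, coeff_add, coeff_C_mul,
    coeff_jen, coeff_jen, coeff_derivative, coeff_jen]
  have e : ((n + 1).choose (k + 1) : ℝ) * (k + 1) = (n + 1) * n.choose k := by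
    have := Nat.add_one_mul_choose_eq n k
    have h2 : ((n + 1) * n.choose k : ℝ) = (n + 1).choose (k + 1) * (k + 1) := by
      exact_mod_cast this
    linarith
  cases k with
  | zero =>
    rw [coeff_X_mul_zero]
    have e' : ((n + 1).choose (0 + 1) : ℝ) = (n + 1) := by simp
    simp only [Nat.choose_zero_right, Nat.cast_zero, add_zero, zero_add, Nat.choose_one_right]
    push_cast
    ring
  | succ k =>
    rw [coeff_X_mul, coeff_derivative, coeff_jen]
    have e3 : ((n + 1).choose (k + 1) : ℝ) = n.choose k + n.choose (k + 1) := by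
      rw [Nat.choose_succ_succ]; push_cast; ring
    have e4 : ((n + 1).choose (k + 1) : ℝ) * (k + 1) = (n + 1) * n.choose k := by
      have := Nat.add_one_mul_choose_eq n k
      have h2 : ((n + 1) * n.choose k : ℝ) = (n + 1).choose (k + 1) * (k + 1) := by
        exact_mod_cast this
      linarith
    push_cast
    push_cast at e
    rw [show m + (k + 1 + 1) = m + (k + 1) + 1 by ring]
    linear_combination (-(γ (m + (k + 1) + 1))) * e - u * γ (m + (k + 1)) * e4 +
      u * (n + 1) * γ (m + (k + 1)) * e3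

/-- Newton's inequality. -/
theorem InJ.newton {γ : ℕ → ℝ} (h : InJ γ) (k : ℕ) : γ k * γ (k + 2) ≤ γ (k + 1) ^ 2 := by
  by_contra hlt
  push Not at hlt
  have hc : γ (k + 2) ≠ 0 := by
    intro h0
    rw [h0, mul_zero] at hlt
    nlinarith [sq_nonneg (γ (k + 1))]
  have h1 := h k 2
  set a := γ k with ha
  set b := γ (k + 1) with hb
  set c := γ (k + 2) with hc'
  set w : ℝ := Real.sqrt (a * c - b ^ 2) with hw
  have hw2 : w ^ 2 = a * c - b ^ 2 := Real.sq_sqrt (by linarith)
  have hwpos : 0 < w := Real.sqrt_pos.2 (by linarith)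
  have hjen : jen γ k 2 = C a + C (2 * b) * X + C c * X ^ 2 := by
    ext j
    rw [coeff_jen]
    simp only [coeff_add, coeff_C_mul, coeff_C, coeff_X, coeff_X_pow]
    match j with
    | 0 => simp [ha]
    | 1 => simp [hb]
    | 2 => simp [hc']
    | (j + 3) => simp [Nat.choose_eq_zero_of_lt (show 2 < j + 3 by omega)]
  have hne : jen γ k 2 ≠ 0 := by
    intro h0
    have := congrArg (fun p => coeff p 2) h0
    simp only [coeff_jen, coeff_zero] at this
    simp at this
    exact hc this
  have h2 := (h1.resolve_left hne) (((-b : ℝ) + w * Complex.I) / (c : ℝ)) (by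
    rw [hjen]
    have hcC : (c : ℂ) ≠ 0 := by exact_mod_cast hc
    have hw2C : (w : ℂ) ^ 2 = a * c - b ^ 2 := by exact_mod_cast hw2
    simp only [map_add, map_mul, aeval_C, aeval_X, map_pow, Complex.coe_algebraMap]
    push_cast
    field_simp
    linear_combination (-1 : ℂ) * hw2C + (w : ℂ) ^ 2 * Complex.I_sq)
  rw [Complex.div_ofReal_im] at h2
  simp at h2
  rcases h2 with h2 | h2
  · exact hwpos.ne' h2
  · exact hc h2

/-- A log-concave sequence which stays above a positive constant is nondecreasing. -/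
theorem logconcave_mono {ψ : ℕ → ℝ} {k : ℕ} {c : ℝ} (hc : 0 < c) (h : ∀ i, k ≤ i → c ≤ ψ i)
    (hN : ∀ i, ψ i * ψ (i + 2) ≤ ψ (i + 1) ^ 2) : ψ k ≤ ψ (k + 1) := by
  by_contra hlt
  push Not at hlt
  have hk : 0 < ψ k := hc.trans_le (h k le_rfl)
  set q : ℝ := ψ (k + 1) / ψ k with hq
  have hq0 : 0 ≤ q := div_nonneg (hc.le.trans (h _ (by omega))) hk.le
  have hq1 : q < 1 := by rw [hq, div_lt_one hk]; exact hlt
  have step : ∀ i : ℕ, ψ (k + i + 1) ≤ q * ψ (k + i) := by
    intro i
    induction i with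
    | zero => simp only [add_zero]; rw [hq]; field_simp; exact le_rfl
    | succ i ih =>
      have h1 := hN (k + i)
      have h2 : 0 < ψ (k + i) := hc.trans_le (h _ (by omega))
      have h3 : 0 < ψ (k + i + 1) := hc.trans_le (h _ (by omega))
      have h4 : ψ (k + i) * ψ (k + i + 2) ≤ ψ (k + i) * (q * ψ (k + i + 1)) := by
        calc ψ (k + i) * ψ (k + i + 2) ≤ ψ (k + i + 1) ^ 2 := h1
          _ = ψ (k + i + 1) * ψ (k + i + 1) := by ring
          _ ≤ (q * ψ (k + i)) * ψ (k + i + 1) := by gcongr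
          _ = ψ (k + i) * (q * ψ (k + i + 1)) := by ring
      exact le_of_mul_le_mul_left h4 h2
  have bound : ∀ i : ℕ, ψ (k + i) ≤ q ^ i * ψ k := by
    intro i
    induction i with
    | zero => simp
    | succ i ih =>
      calc ψ (k + (i + 1)) ≤ q * ψ (k + i) := step i
        _ ≤ q * (q ^ i * ψ k) := by gcongr
        _ = q ^ (i + 1) * ψ k := by ring
  obtain ⟨n, hn⟩ := exists_pow_lt_of_lt_one (show 0 < c / ψ k by positivity) hq1
  have h5 := bound n
  have h6 := h (k + n) (by omega)
  have h7 : q ^ n * ψ k < c := by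
    rwa [lt_div_iff₀ hk] at hn
  linarith

theorem InJ.diff_mono {γ : ℕ → ℝ} (h : InJ γ) (h0 : ∀ k, 0 ≤ γ k) (hm : ∀ k, γ k ≤ γ (k + 1))
    (k : ℕ) : γ (k + 1) - γ k ≤ γ (k + 2) - γ (k + 1) := by
  have hmono : Monotone γ := monotone_nat_of_le_succ hm
  rcases (h0 (k + 1)).eq_or_lt with h1 | h1
  · have h2 : γ k = 0 := le_antisymm (by rw [h1]; exact hm k) (h0 k)
    rw [← h1, h2]
    have := h0 (k + 2)
    linarith
  · have key : ∀ u : ℝ, 0 < u → u < 1 → u * (γ (k + 1) - γ k) ≤ γ (k + 2) - γ (k + 1) := by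
      intro u hu0 hu1
      have h3 := logconcave_mono (ψ := fun k => γ (k + 1) - u * γ k) (k := k)
        (c := (1 - u) * γ (k + 1)) (by nlinarith) ?_ (h.shift_sub u).newton
      · have e : k + 1 + 1 = k + 2 := rfl
        rw [e] at h3
        linarith
      · intro i hi
        have h4 : γ i ≤ γ (i + 1) := hm i
        have h5 : γ (k + 1) ≤ γ (i + 1) := hmono (by omega)
        nlinarith
    by_contra hcon
    push Not at hcon
    have hd : 0 ≤ γ (k + 1) - γ k := by have := hm k; linarith
    have hd' : 0 ≤ γ (k + 2) - γ (k + 1) := by have := hm (k + 1); linarith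
    set A := γ (k + 1) - γ k with hA
    set B := γ (k + 2) - γ (k + 1) with hB
    have hApos : 0 < A := by linarith
    have hu := key ((1 + B / A) / 2) (by positivity) (by
      have : B / A < 1 := by rw [div_lt_one hApos]; exact hcon
      linarith)
    have : (1 + B / A) / 2 * A = (A + B) / 2 := by field_simp
    rw [this] at hu
    linarith

/-- Nonnegative nondecreasing sequences of the class `J` of polynomial growth are polynomial. -/
theorem InJ.poly (D : ℕ) : ∀ γ : ℕ → ℝ, InJ γ → (∀ k, 0 ≤ γ k) → (∀ k, γ k ≤ γ (k + 1)) →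
    (∃ c : ℝ, ∀ k : ℕ, γ k ≤ c * ((k : ℝ) + 1) ^ D) →
    ∃ a : ℕ → ℝ, ∀ k : ℕ, γ k = ∑ j ∈ Finset.range (D + 1), a j * (k.choose j : ℝ) := by
  have aux : ∀ γ : ℕ → ℝ, InJ γ → (∀ k, 0 ≤ γ k) → (∀ k, γ k ≤ γ (k + 1)) →
      ∀ j n : ℕ, (n : ℝ) * (γ (j + 1) - γ j) ≤ γ (j + n) - γ j := by
    intro γ h h0 hm j n
    have hmono : Monotone (fun k => γ (k + 1) - γ k) :=
      monotone_nat_of_le_succ (fun k => h.diff_mono h0 hm k)
    induction n with
    | zero => simp
    | succ n ih =>
      have h1 := hmono (show j ≤ j + n by omega)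
      simp only at h1
      push_cast
      rw [show j + (n + 1) = j + n + 1 by ring]
      linarith
  induction D with
  | zero =>
    rintro γ h h0 hm ⟨c, hc⟩
    have hη : ∀ j, γ (j + 1) - γ j = 0 := by
      intro j
      by_contra hne
      have hpos : 0 < γ (j + 1) - γ j := lt_of_le_of_ne (by have := hm j; linarith) (Ne.symm hne)
      obtain ⟨n, hn⟩ := exists_nat_gt (c / (γ (j + 1) - γ j))
      rw [div_lt_iff₀ hpos] at hn
      have h1 := aux γ h h0 hm j n
      have h2 := hc (j + n)
      have h3 := h0 j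
      simp at h2
      linarith
    refine ⟨fun _ => γ 0, ?_⟩
    intro k
    have : γ k = γ 0 := by
      induction k with
      | zero => rfl
      | succ k ih => rw [← ih]; have := hη k; linarith
    simp [this]
  | succ D ih =>
    rintro γ h h0 hm ⟨c, hc⟩
    have hηJ : InJ (fun k => γ (k + 1) - γ k) := by
      have := h.shift_sub 1
      simpa using this
    obtain ⟨a, ha⟩ := ih (fun k => γ (k + 1) - γ k) hηJ
      (fun k => by have := hm k; linarith) (fun k => h.diff_mono h0 hm k)
      ⟨c * 2 ^ (D + 1), by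
        intro k
        have h1 := aux γ h h0 hm k (k + 1)
        have h2 := hc (k + (k + 1))
        have h3 := h0 k
        have h4 : ((k : ℝ) + 1) * (γ (k + 1) - γ k) ≤
            ((k : ℝ) + 1) * (c * 2 ^ (D + 1) * ((k : ℝ) + 1) ^ D) := by
          push_cast at h1 h2
          have e : c * ((k : ℝ) + (k + 1) + 1) ^ (D + 1) =
              ((k : ℝ) + 1) * (c * 2 ^ (D + 1) * ((k : ℝ) + 1) ^ D) := by
            rw [show (k : ℝ) + (k + 1) + 1 = 2 * ((k : ℝ) + 1) by ring, mul_pow]
            ring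
          rw [← e]
          linarith
        exact le_of_mul_le_mul_left h4 (by positivity)⟩
    refine ⟨fun j => match j with
      | 0 => γ 0
      | (j + 1) => a j, ?_⟩
    intro k
    rw [Finset.sum_range_succ']
    simp only [Nat.choose_zero_right, Nat.cast_one, mul_one]
    induction k with
    | zero => simp
    | succ k ihk =>
      have h1 := ha k
      have h2 : ∑ x ∈ Finset.range (D + 1), a x * ((k + 1).choose (x + 1) : ℝ) =
          ∑ x ∈ Finset.range (D + 1), a x * (k.choose x : ℝ) +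
          ∑ x ∈ Finset.range (D + 1), a x * (k.choose (x + 1) : ℝ) := by
        rw [← Finset.sum_add_distrib]
        refine Finset.sum_congr rfl fun x _ => ?_
        rw [Nat.choose_succ_succ]
        push_cast
        ring
      rw [h2]
      linarith

/-! ### From sequences to functions -/

theorem exists_poly_of_choose (D : ℕ) (a : ℕ → ℝ) :
    ∃ Q : ℝ[X], ∀ k : ℕ, Q.eval (k : ℝ) = ∑ j ∈ Finset.range (D + 1), a j * (k.choose j : ℝ) := by
  refine ⟨∑ j ∈ Finset.range (D + 1), C (a j / (j.factorial : ℝ)) * descPochhammer ℝ j, ?_⟩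
  intro k
  rw [eval_finsetSum]
  refine Finset.sum_congr rfl fun j _ => ?_
  rw [eval_mul, eval_C, descPochhammer_eval_eq_descFactorial,
    Nat.descFactorial_eq_factorial_mul_choose]
  have : (j.factorial : ℝ) ≠ 0 := by exact_mod_cast j.factorial_ne_zero
  push_cast
  field_simp

theorem global_poly {f : ℝ → ℝ} (hmono : ∀ x y, 0 < x → x ≤ y → f x ≤ f y)
    (hpoly : ∀ a b : ℝ, 0 < a → 0 < b → ∃ Q : ℝ[X], ∀ k : ℕ, f (a + b * k) = Q.eval (k : ℝ)) :
    ∃ Q : ℝ[X], ∀ x, 0 < x → f x = Q.eval x := by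
  -- the polynomials on the grids
  have hgrid : ∀ N : ℕ, ∃ R : ℝ[X], ∀ j : ℕ, f (((j : ℝ) + 1) / ((N : ℝ) + 1)) =
      R.eval (((j : ℝ) + 1) / ((N : ℝ) + 1)) := by
    intro N
    have hN : (0 : ℝ) < (N : ℝ) + 1 := by positivity
    obtain ⟨Q, hQ⟩ := hpoly (1 / ((N : ℝ) + 1)) (1 / ((N : ℝ) + 1)) (by positivity) (by positivity)
    refine ⟨Q.comp (C ((N : ℝ) + 1) * X - 1), ?_⟩
    intro j
    have h1 := hQ j
    have e1 : 1 / ((N : ℝ) + 1) + 1 / ((N : ℝ) + 1) * j = ((j : ℝ) + 1) / ((N : ℝ) + 1) := by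
      field_simp; ring
    rw [e1] at h1
    rw [h1, eval_comp]
    congr 1
    simp only [eval_sub, eval_mul, eval_C, eval_X, eval_one]
    field_simp
    ring
  choose R hR using hgrid
  have hsame : ∀ N, R N = R 0 := by
    intro N
    have hinf : Set.Infinite {x : ℝ | (R N).eval x = (R 0).eval x} := by
      have hsub : Set.range (fun j : ℕ => (j : ℝ) + 1) ⊆
          {x : ℝ | (R N).eval x = (R 0).eval x} := by
        rintro x ⟨j, rfl⟩
        have h0 := hR 0 j
        have hN := hR N ((N + 1) * (j + 1) - 1)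
        have e : (((N + 1) * (j + 1) - 1 : ℕ) : ℝ) = ((N : ℝ) + 1) * ((j : ℝ) + 1) - 1 := by
          rw [Nat.cast_sub (by nlinarith)]; push_cast; ring
        rw [e] at hN
        have e2 : (((N : ℝ) + 1) * ((j : ℝ) + 1) - 1 + 1) / ((N : ℝ) + 1) = (j : ℝ) + 1 := by
          have : (0 : ℝ) < (N : ℝ) + 1 := by positivity
          field_simp
          ring
        rw [e2] at hN
        simp only [Nat.cast_zero, zero_add, div_one] at h0
        simp only [Set.mem_ofPred_eq]
        rw [← h0, ← hN]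
      refine Set.Infinite.mono hsub (Set.infinite_range_of_injective ?_)
      intro a b hab
      simpa using hab
    exact Polynomial.eq_of_infinite_eval_eq _ _ hinf
  refine ⟨R 0, ?_⟩
  have hrat : ∀ q : ℚ, 0 < q → f (q : ℝ) = (R 0).eval (q : ℝ) := by
    intro q hq
    have hnum : 0 < q.num := Rat.num_pos.2 hq
    have h1 := hR (q.den - 1) (q.num.toNat - 1)
    have hden := q.den_pos
    have e1 : ((q.den - 1 : ℕ) : ℝ) + 1 = q.den := by
      rw [Nat.cast_sub (by omega)]; push_cast; ring
    have e2 : ((q.num.toNat - 1 : ℕ) : ℝ) + 1 = q.num := by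
      rw [Nat.cast_sub (by omega)]
      have : ((q.num.toNat : ℤ) : ℝ) = (q.num : ℝ) := by
        rw [Int.toNat_of_nonneg hnum.le]
      push_cast at this ⊢
      rw [this]
      ring
    rw [e1, e2, hsame] at h1
    have e3 : ((q.num : ℝ) / (q.den : ℝ)) = (q : ℝ) := by
      rw [Rat.cast_def]
    rwa [e3] at h1
  intro x hx
  have hcont : ContinuousAt (fun y => (R 0).eval y) x := (R 0).continuous.continuousAt
  rw [Metric.continuousAt_iff] at hcont
  apply le_antisymm
  · apply le_of_forall_pos_le_add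
    intro ε hε
    obtain ⟨δ, hδ, hδ'⟩ := hcont ε hε
    obtain ⟨q, hq1, hq2⟩ := exists_rat_btwn (show x < x + δ by linarith)
    have h1 := hmono x q hx hq1.le
    rw [hrat q (by have : (0 : ℝ) < q := hx.trans hq1; exact_mod_cast this)] at h1
    have h2 := hδ' (x := (q : ℝ)) (by rw [Real.dist_eq, abs_lt]; constructor <;> linarith)
    rw [Real.dist_eq, abs_lt] at h2
    linarith [h2.2]
  · apply le_of_forall_pos_le_add
    intro ε hε
    obtain ⟨δ, hδ, hδ'⟩ := hcont ε hε
    obtain ⟨q, hq1, hq2⟩ := exists_rat_btwn (show max (x - δ) 0 < x by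
      rw [max_lt_iff]; constructor <;> linarith)
    have hq0 : (0 : ℝ) < q := (le_max_right _ _).trans_lt hq1
    have hq3 : x - δ < q := (le_max_left _ _).trans_lt hq1
    have h1 := hmono q x hq0 hq2.le
    rw [hrat q (by exact_mod_cast hq0)] at h1
    have h2 := hδ' (x := (q : ℝ)) (by rw [Real.dist_eq, abs_lt]; constructor <;> linarith)
    rw [Real.dist_eq, abs_lt] at h2
    linarith [h2.1]

/-- Two different exponentials cannot be combined in the class `J`. -/
theorem two_term {A B r s : ℝ} (hrs : r < s) (h : InJ (fun k => A * r ^ k + B * s ^ k)) :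
    A * B = 0 := by
  have h1 := h.newton 0
  have h2 := (h.shift_sub ((r + s) / 2)).newton 0
  simp only [zero_add, pow_zero, pow_one, mul_one] at h1 h2
  have h3 : A * B * (s - r) ^ 2 ≤ 0 := by nlinarith
  have h4 : 0 ≤ A * B * ((s - r) ^ 2 * (s - r) ^ 2) := by nlinarith
  have h5 : 0 < (s - r) ^ 2 := by have : 0 < s - r := by linarith
                                  positivity
  apply le_antisymm
  · by_contra hc
    push Not at hc
    nlinarith [mul_pos hc h5]
  · by_contra hc
    push Not at hc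
    have := mul_pos_of_neg_of_neg (show A * B < 0 from hc) (show -((s - r) ^ 2 * (s - r) ^ 2) < 0 by
      have := mul_pos h5 h5; linarith)
    nlinarith

theorem monomial_of_inJ {Q : ℝ[X]} (h : InJ (fun k => Q.eval ((2 : ℝ) ^ k))) :
    ∃ (c : ℝ) (m : ℕ), Q = C c * X ^ m := by
  have hcard : Q.support.card ≤ 1 := by
    by_contra hcard
    push Not at hcard
    obtain ⟨i, hi, l, hl, hil⟩ := Finset.one_lt_card.1 hcard
    wlog hlt : i < l generalizing i l
    · exact this l hl i hi (Ne.symm hil) (lt_of_le_of_ne (not_lt.1 hlt) (Ne.symm hil))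
    have key : ∀ T : Finset ℕ, InJ (fun k => ∑ j ∈ Q.support,
        Q.coeff j * (∏ s ∈ T, ((2 : ℝ) ^ j - 2 ^ s)) * ((2 : ℝ) ^ j) ^ k) := by
      intro T
      induction T using Finset.induction_on with
      | empty =>
        convert h using 2 with k
        rw [eval_eq_sum, Polynomial.sum]
        refine Finset.sum_congr rfl fun j _ => ?_
        rw [Finset.prod_empty, mul_one, ← pow_mul, ← pow_mul, mul_comm j k]
      | insert s T hs ih =>
        have := ih.shift_sub ((2 : ℝ) ^ s)
        convert this using 2 with k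
        rw [Finset.mul_sum, ← Finset.sum_sub_distrib]
        refine Finset.sum_congr rfl fun j _ => ?_
        rw [Finset.prod_insert hs]
        ring
    have h1 := key (Q.support \ {i, l})
    have h2 : (fun k : ℕ => ∑ j ∈ Q.support,
        Q.coeff j * (∏ s ∈ Q.support \ {i, l}, ((2 : ℝ) ^ j - 2 ^ s)) * ((2 : ℝ) ^ j) ^ k) =
        fun k : ℕ => (Q.coeff i * (∏ s ∈ Q.support \ {i, l}, ((2 : ℝ) ^ i - 2 ^ s))) *
          ((2 : ℝ) ^ i) ^ k + (Q.coeff l * (∏ s ∈ Q.support \ {i, l}, ((2 : ℝ) ^ l - 2 ^ s))) *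
          ((2 : ℝ) ^ l) ^ k := by
      funext k
      have hsub : ({i, l} : Finset ℕ) ⊆ Q.support := by
        intro j hj
        simp only [Finset.mem_insert, Finset.mem_singleton] at hj
        rcases hj with rfl | rfl <;> assumption
      rw [← Finset.sum_subset hsub, Finset.sum_pair hil]
      intro j hj hj'
      have : (∏ s ∈ Q.support \ {i, l}, ((2 : ℝ) ^ j - 2 ^ s)) = 0 := by
        apply Finset.prod_eq_zero (i := j)
        · exact Finset.mem_sdiff.2 ⟨hj, hj'⟩
        · simp
      rw [this]; simp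
    rw [h2] at h1
    have h3 := two_term (by
      exact pow_lt_pow_right₀ (by norm_num : (1 : ℝ) < 2) hlt) h1
    have hprod : ∀ j, j ∈ ({i, l} : Finset ℕ) →
        (∏ s ∈ Q.support \ {i, l}, ((2 : ℝ) ^ j - 2 ^ s)) ≠ 0 := by
      intro j hj
      rw [Finset.prod_ne_zero_iff]
      intro s hs
      have hs' := (Finset.mem_sdiff.1 hs).2
      intro h0
      have h4 : (2 : ℝ) ^ j = 2 ^ s := sub_eq_zero.1 h0
      have h5 : j = s := pow_right_injective₀ (by norm_num : (0 : ℝ) < 2) (by norm_num) h4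
      rw [← h5] at hs'
      exact hs' hj
    rcases mul_eq_zero.1 h3 with h4 | h4
    · rcases mul_eq_zero.1 h4 with h5 | h5
      · exact (mem_support_iff.1 hi) h5
      · exact hprod i (by simp) h5
    · rcases mul_eq_zero.1 h4 with h5 | h5
      · exact (mem_support_iff.1 hl) h5
      · exact hprod l (by simp) h5
  obtain ⟨m, c, hQ⟩ := card_support_le_one_iff_monomial.1 hcard
  exact ⟨c, m, by rw [hQ, C_mul_X_pow_eq_monomial]⟩

/-! ### Examples of multiplier sequences -/

theorem ms_mul {γ δ : ℕ → ℝ} (hγ : IsMultiplierSequence γ) (hδ : IsMultiplierSequence δ) :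
    IsMultiplierSequence (fun k => γ k * δ k) := by
  intro p hp
  have h := hγ _ (hδ p hp)
  convert h using 1
  ext k
  rw [act_eq, act_eq, act_eq, mul_assoc]

theorem ms_const (c : ℝ) : IsMultiplierSequence (fun _ => c) := by
  intro p hp
  have : act (fun _ => c) p = C c * p := by
    ext k; rw [act_eq, coeff_C_mul]
  rw [this]
  exact orz_C_mul hp

theorem ms_pow {γ : ℕ → ℝ} (hγ : IsMultiplierSequence γ) (n : ℕ) :
    IsMultiplierSequence (fun k => γ k ^ n) := by
  induction n with
  | zero => simpa using ms_const 1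
  | succ n ih => simpa only [pow_succ] using ms_mul ih hγ

theorem ms_geom (t : ℝ) {r : ℝ} (hr : 0 < r) : IsMultiplierSequence (fun k => t * r ^ k) := by
  refine ms_mul (ms_const t) ?_
  intro p hp
  have : act (fun k => r ^ k) p = p.comp (C r * X) := by
    ext k; rw [act_eq, comp_C_mul_X_coeff, mul_comm]
  rw [this]
  rcases hp with rfl | hp
  · left; simp
  · right
    intro z hz
    rw [aeval_comp] at hz
    have := hp _ hz
    simp at this
    exact this.resolve_left hr.ne'

theorem ms_lin {a b : ℝ} (ha : 0 ≤ a) (hb : 0 ≤ b) :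
    IsMultiplierSequence (fun k : ℕ => a + b * k) := by
  intro p hp
  have hact : act (fun k : ℕ => a + b * k) p = C a * p + C b * (X * derivative p) := by
    ext k
    rw [act_eq, coeff_add, coeff_C_mul, coeff_C_mul]
    cases k with
    | zero => simp
    | succ k => rw [coeff_X_mul, coeff_derivative]; push_cast; ring
  rw [hact]
  by_cases hp0 : p = 0
  · subst hp0; left; simp
  obtain ⟨s, hs, -, hder⟩ := orz_roots hp0 hp
  by_cases hex : ∃ z : ℂ, aeval z (C a * p + C b * (X * derivative p)) = 0 ∧ z.im ≠ 0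
  swap
  · right
    intro z hz
    by_contra h
    exact hex ⟨z, hz, h⟩
  left
  obtain ⟨z, hz, him⟩ := hex
  have hpz : aeval z p ≠ 0 := fun h => him ((hp.resolve_left hp0) z h)
  have hz0 : z ≠ 0 := by rintro rfl; simp at him
  set S : ℂ := (s.map fun r : ℝ => 1 / (z - (r : ℂ))).sum with hS
  have h2 : (a : ℂ) + b * (z * S) = 0 := by
    have h3 : (a : ℂ) * aeval z p + b * (z * (aeval z p * S)) = 0 := by
      rw [← hder z hpz, ← hz]
      simp
    have h4 : aeval z p * ((a : ℂ) + b * (z * S)) = 0 := by linear_combination h3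
    exact (mul_eq_zero.1 h4).resolve_left hpz
  -- imaginary parts
  have hSim : ∀ t : Multiset ℝ, ((t.map fun r : ℝ => 1 / (z - (r : ℂ))).sum).im =
      - z.im * (t.map fun r : ℝ => Complex.normSq (1 / (z - (r : ℂ)))).sum := by
    intro t
    induction t using Multiset.induction_on with
    | empty => simp
    | cons r t ih =>
      rw [Multiset.map_cons, Multiset.sum_cons, Multiset.map_cons, Multiset.sum_cons,
        Complex.add_im, ih, circle_id him r]
      field_simp
      ring
  have hnn : ∀ x ∈ (s.map fun r : ℝ => Complex.normSq (1 / (z - (r : ℂ)))), 0 ≤ x := by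
    intro x hx
    obtain ⟨r, _, rfl⟩ := Multiset.mem_map.1 hx
    exact Complex.normSq_nonneg _
  set W := (s.map fun r : ℝ => Complex.normSq (1 / (z - (r : ℂ)))).sum with hW
  have hW0 : 0 ≤ W := Multiset.sum_nonneg hnn
  have h5 : (a : ℂ) * z⁻¹ + b * S = 0 := by
    field_simp
    linear_combination h2
  have h6 := congrArg Complex.im h5
  rw [Complex.add_im, Complex.im_ofReal_mul, Complex.im_ofReal_mul, Complex.zero_im, hS, hSim,
    ← hW, Complex.inv_im] at h6
  have hnz : 0 < Complex.normSq z := Complex.normSq_pos.2 hz0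
  have h7 : a / Complex.normSq z + b * W = 0 := by
    have : -z.im * (a / Complex.normSq z + b * W) = 0 := by
      rw [← h6]; ring
    exact (mul_eq_zero.1 this).resolve_left (neg_ne_zero.2 him)
  have h8 : 0 ≤ a / Complex.normSq z := by positivity
  have h9 : 0 ≤ b * W := by positivity
  have ha0 : a = 0 := by
    have : a / Complex.normSq z = 0 := by linarith
    rcases div_eq_zero_iff.1 this with h | h
    · exact h
    · exact absurd h hnz.ne'
  have hbW : b * W = 0 := by linarith
  rw [ha0]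
  rcases mul_eq_zero.1 hbW with hb0 | hW1
  · rw [hb0]; simp
  · have hs0 : s = 0 := by
      rw [Multiset.eq_zero_iff_forall_notMem]
      intro r hr
      have h10 := Multiset.single_le_sum hnn _ (Multiset.mem_map_of_mem
        (fun r : ℝ => Complex.normSq (1 / (z - (r : ℂ)))) hr)
      rw [← hW, hW1] at h10
      have h11 : Complex.normSq (1 / (z - (r : ℂ))) = 0 :=
        le_antisymm h10 (Complex.normSq_nonneg _)
      rw [Complex.normSq_eq_zero, one_div, inv_eq_zero] at h11
      have := congrArg Complex.im h11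
      simp at this
      exact him this
    rw [hs0, Multiset.card_zero] at hs
    rw [eq_C_of_natDegree_eq_zero hs.symm]
    simp

theorem orz_of_natDegree_le_one {p : ℝ[X]} (h : p.natDegree ≤ 1) : OnlyRealZeros p := by
  by_cases hp : p = 0
  · exact Or.inl hp
  right
  intro z hz
  obtain ⟨a, b, rfl⟩ := exists_eq_X_add_C_of_natDegree_le_one h
  simp only [map_add, map_mul, aeval_C, aeval_X, Complex.coe_algebraMap] at hz
  have him := congrArg Complex.im hz
  rw [Complex.add_im, Complex.im_ofReal_mul, Complex.ofReal_im, add_zero, Complex.zero_im] at him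
  rcases mul_eq_zero.1 him with ha | hz'
  · exfalso
    apply hp
    rw [ha] at hz
    simp at hz
    rw [ha, hz]
    simp
  · exact hz'

theorem ms_low {γ : ℕ → ℝ} (h : ∀ k, 2 ≤ k → γ k = 0) : IsMultiplierSequence γ := by
  intro p _
  apply orz_of_natDegree_le_one
  rw [natDegree_le_iff_coeff_eq_zero]
  intro k hk
  rw [act_eq, h k hk, zero_mul]

/-! ### The one-variable classification -/

/-- Functions of one variable preserving nonnegative multiplier sequences. -/
def Pres (f : ℝ → ℝ) : Prop :=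
  ∀ α : ℕ → ℝ, (∀ k, 0 ≤ α k) → IsMultiplierSequence α → IsMultiplierSequence (fun k => f (α k))

/-- Functions of one variable preserving positive multiplier sequences. -/
def PresPos (f : ℝ → ℝ) : Prop :=
  ∀ α : ℕ → ℝ, (∀ k, 0 < α k) → IsMultiplierSequence α → IsMultiplierSequence (fun k => f (α k))

theorem Pres.toPos {f : ℝ → ℝ} (hf : Pres f) : PresPos f := fun α h0 hα =>
  hf α (fun k => (h0 k).le) hα

theorem ms_sign {γ : ℕ → ℝ} (h : IsMultiplierSequence γ) : 0 ≤ γ 0 * γ 2 := by
  by_contra hlt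
  push Not at hlt
  have h0 : OnlyRealZeros (X ^ 2 - 1 : ℝ[X]) := by
    right
    intro z hz
    simp only [map_sub, map_pow, aeval_X, map_one] at hz
    have : (z - 1) * (z + 1) = 0 := by linear_combination hz
    rcases mul_eq_zero.1 this with h | h
    · rw [sub_eq_zero.1 h]; simp
    · rw [eq_neg_of_add_eq_zero_left h]; simp
  have h1 := h _ h0
  have hact : act γ (X ^ 2 - 1) = C (γ 2) * X ^ 2 - C (γ 0) := by
    ext k
    rw [act_eq, coeff_sub, coeff_sub, coeff_C_mul, coeff_X_pow, coeff_C, coeff_one]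
    match k with
    | 0 => simp
    | 1 => simp
    | 2 => simp
    | (k + 3) => simp
  rw [hact] at h1
  have hg2 : γ 2 ≠ 0 := by rintro h; rw [h, mul_zero] at hlt; exact lt_irrefl _ hlt
  have hne : C (γ 2) * X ^ 2 - C (γ 0) ≠ (0 : ℝ[X]) := by
    intro h2
    have := congrArg (fun p => coeff p 2) h2
    simp only [coeff_sub, coeff_C_mul, coeff_X_pow, coeff_C, coeff_zero] at this
    simp at this
    exact hg2 this
  have hq : γ 0 / γ 2 < 0 := by
    rcases lt_or_gt_of_ne hg2 with h2 | h2
    · exact div_neg_of_pos_of_neg (by nlinarith) h2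
    · exact div_neg_of_neg_of_pos (by nlinarith) h2
  set w : ℝ := Real.sqrt (-(γ 0 / γ 2)) with hw
  have hw2 : w ^ 2 = -(γ 0 / γ 2) := Real.sq_sqrt (by linarith)
  have hwpos : 0 < w := Real.sqrt_pos.2 (by linarith)
  have h3 := (h1.resolve_left hne) (w * Complex.I) (by
    simp only [map_sub, map_mul, map_pow, aeval_C, aeval_X, Complex.coe_algebraMap]
    rw [mul_pow, Complex.I_sq]
    have : (w : ℂ) ^ 2 = -((γ 0 : ℂ) / γ 2) := by
      rw [← Complex.ofReal_pow, hw2]; push_cast; ring
    rw [this]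
    have : (γ 2 : ℂ) ≠ 0 := by exact_mod_cast hg2
    field_simp
    ring)
  simp at h3
  exact hwpos.ne' h3

theorem PresPos.sign {f : ℝ → ℝ} (hf : PresPos f) {x z : ℝ} (hx : 0 < x) (hz : 0 < z) :
    0 ≤ f x * f z := by
  have hr : 0 < Real.sqrt (z / x) := Real.sqrt_pos.2 (by positivity)
  have h1 := hf (fun k => x * Real.sqrt (z / x) ^ k) (fun k => by positivity) (ms_geom x hr)
  have h2 := ms_sign h1
  simp only [pow_zero, mul_one] at h2
  rw [Real.sq_sqrt (by positivity)] at h2
  rwa [show x * (z / x) = z by field_simp] at h2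

theorem PresPos.mono {f : ℝ → ℝ} (hf : PresPos f) (hf0 : ∀ x, 0 < x → 0 ≤ f x) {x y : ℝ}
    (hx : 0 < x) (hxy : x ≤ y) : f x ≤ f y := by
  set Y : ℝ := y / x with hY
  have hY1 : 1 ≤ Y := by rw [hY, one_le_div hx]; exact hxy
  set u : ℝ := Real.sqrt (Y ^ 2 - 1) with hu
  have hu2 : u ^ 2 = Y ^ 2 - 1 := Real.sq_sqrt (by nlinarith)
  have hu0 : 0 ≤ u := Real.sqrt_nonneg _
  have huY : u < Y := by nlinarith
  set t : ℝ := Y - u with ht
  have ht0 : 0 < t := by rw [ht]; linarith
  have h1 := hf (fun k : ℕ => (x / t * t ^ k) * (t + u * k)) (fun k => by positivity)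
    (ms_mul (ms_geom (x / t) ht0) (ms_lin ht0.le hu0))
  have h2 := (inJ_of_ms h1).newton 0
  simp only [zero_add, pow_zero, mul_one, Nat.cast_zero, mul_zero, add_zero, pow_one,
    Nat.cast_one, Nat.cast_ofNat] at h2
  have e0 : x / t * t = x := by field_simp
  have e1 : x / t * t * (t + u) = y := by
    rw [e0, ht, sub_add_cancel, hY]; field_simp
  have e2 : x / t * t ^ 2 * (t + u * 2) = x := by
    have : t * (t + u * 2) = 1 := by
      rw [ht]; nlinarith
    calc x / t * t ^ 2 * (t + u * 2) = x / t * t * (t * (t + u * 2)) := by ring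
      _ = x := by rw [this, e0, mul_one]
  rw [e1, e0, e2] at h2
  have h3 := hf0 x hx
  have h4 := hf0 y (by linarith)
  nlinarith

theorem PresPos.growth {f : ℝ → ℝ} (hf : PresPos f) (hf0 : ∀ x, 0 < x → 0 ≤ f x) {x₀ : ℝ}
    (hx₀ : 0 < x₀) (hfx : 0 < f x₀) :
    ∃ R : ℝ, 1 ≤ R ∧ ∀ k : ℕ, f (x₀ * 2 ^ k) ≤ f x₀ * R ^ k := by
  have hpos : ∀ k : ℕ, f x₀ ≤ f (x₀ * 2 ^ k) := by
    intro k
    apply hf.mono hf0 hx₀
    have : (1 : ℝ) ≤ 2 ^ k := one_le_pow₀ (by norm_num)
    nlinarith
  have hJ := inJ_of_ms (hf (fun k => x₀ * 2 ^ k) (fun k => by positivity)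
    (ms_geom x₀ (by norm_num)))
  refine ⟨f (x₀ * 2 ^ 1) / f x₀, ?_, ?_⟩
  · rw [one_le_div hfx]; exact hpos 1
  · set R := f (x₀ * 2 ^ 1) / f x₀ with hR
    have hR0 : 0 ≤ R := div_nonneg (hfx.le.trans (hpos 1)) hfx.le
    have step : ∀ k : ℕ, f (x₀ * 2 ^ (k + 1)) ≤ R * f (x₀ * 2 ^ k) := by
      intro k
      induction k with
      | zero => simp only [zero_add, pow_zero, mul_one]; rw [hR]; field_simp; exact le_rfl
      | succ k ih =>
        have h1 := hJ.newton k
        have h2 : 0 < f (x₀ * 2 ^ k) := hfx.trans_le (hpos k)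
        have h3 : 0 < f (x₀ * 2 ^ (k + 1)) := hfx.trans_le (hpos _)
        have h4 : f (x₀ * 2 ^ k) * f (x₀ * 2 ^ (k + 2)) ≤
            f (x₀ * 2 ^ k) * (R * f (x₀ * 2 ^ (k + 1))) := by
          calc _ ≤ f (x₀ * 2 ^ (k + 1)) ^ 2 := h1
            _ = f (x₀ * 2 ^ (k + 1)) * f (x₀ * 2 ^ (k + 1)) := by ring
            _ ≤ (R * f (x₀ * 2 ^ k)) * f (x₀ * 2 ^ (k + 1)) := by gcongr
            _ = _ := by ring
        exact le_of_mul_le_mul_left h4 h2
    intro k
    induction k with
    | zero => simp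
    | succ k ih =>
      calc f (x₀ * 2 ^ (k + 1)) ≤ R * f (x₀ * 2 ^ k) := step k
        _ ≤ R * (f x₀ * R ^ k) := by gcongr
        _ = f x₀ * R ^ (k + 1) := by ring

theorem PresPos.polynomial {f : ℝ → ℝ} (hf : PresPos f) (hf0 : ∀ x, 0 < x → 0 ≤ f x) {x₀ : ℝ}
    (hx₀ : 0 < x₀) (hfx : 0 < f x₀) : ∃ Q : ℝ[X], ∀ x, 0 < x → f x = Q.eval x := by
  apply global_poly (fun x y hx hxy => hf.mono hf0 hx hxy)
  intro a b ha hb
  obtain ⟨R, hR1, hR⟩ := hf.growth hf0 hx₀ hfx
  obtain ⟨D, hD⟩ := pow_unbounded_of_one_lt R (by norm_num : (1 : ℝ) < 2)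
  obtain ⟨M, hM⟩ := exists_nat_gt ((a + b) / x₀)
  rw [div_lt_iff₀ hx₀] at hM
  have hMpos : 0 < (M : ℝ) := by
    by_contra h
    push Not at h
    nlinarith
  have hMpos' : 0 < M := by exact_mod_cast hMpos
  have hJ := inJ_of_ms (hf (fun k : ℕ => a + b * k) (fun k => by positivity)
    (ms_lin ha.le hb.le))
  have hpos : ∀ k : ℕ, 0 < a + b * (k : ℝ) := fun k => by positivity
  obtain ⟨c, hc⟩ := InJ.poly D (fun k : ℕ => f (a + b * k)) hJ (fun k => hf0 _ (hpos k))
    (fun k => hf.mono hf0 (hpos k) (by push_cast; nlinarith))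
    ⟨f x₀ * (2 * M) ^ D, by
      intro k
      set n := Nat.clog 2 (M * (k + 1)) with hn
      have h1 : M * (k + 1) ≤ 2 ^ n := Nat.le_pow_clog (by norm_num) _
      have h2 : 2 ^ n ≤ 2 * (M * (k + 1)) := by
        by_cases h : M * (k + 1) = 1
        · rw [hn, h]; simp
        · have hgt : 1 < M * (k + 1) := by
            have : 0 < M * (k + 1) := by positivity
            omega
          have h3 := Nat.pow_pred_clog_lt_self (b := 2) (by norm_num) hgt
          rw [← hn] at h3
          have hn0 : n ≠ 0 := by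
            rw [hn]
            exact (Nat.clog_pos (by norm_num) hgt).ne'
          obtain ⟨n', hn'⟩ := Nat.exists_eq_succ_of_ne_zero hn0
          rw [hn'] at h3 ⊢
          simp only [Nat.succ_eq_add_one, Nat.pred_eq_sub_one, Nat.add_sub_cancel] at h3
          rw [Nat.succ_eq_add_one, pow_succ]
          omega
      have h1' : (M : ℝ) * (k + 1) ≤ 2 ^ n := by exact_mod_cast h1
      have h2' : (2 : ℝ) ^ n ≤ 2 * (M * (k + 1)) := by exact_mod_cast h2
      have hk0 : (0 : ℝ) ≤ k := by positivity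
      have h3 : a + b * k ≤ x₀ * 2 ^ n := by
        calc a + b * k ≤ (a + b) * (k + 1) := by nlinarith
          _ ≤ (M * x₀) * (k + 1) := by gcongr
          _ = x₀ * (M * (k + 1)) := by ring
          _ ≤ x₀ * 2 ^ n := by gcongr
      calc f (a + b * k) ≤ f (x₀ * 2 ^ n) := hf.mono hf0 (hpos k) h3
        _ ≤ f x₀ * R ^ n := hR n
        _ ≤ f x₀ * ((2 : ℝ) ^ D) ^ n := by gcongr
        _ = f x₀ * (2 ^ n) ^ D := by rw [← pow_mul, ← pow_mul, mul_comm D n]
        _ ≤ f x₀ * (2 * (M * (k + 1))) ^ D := by gcongr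
        _ = f x₀ * (2 * M) ^ D * ((k : ℝ) + 1) ^ D := by rw [mul_assoc, ← mul_pow]; ring⟩
  obtain ⟨Q, hQ⟩ := exists_poly_of_choose D c
  exact ⟨Q, fun k => by rw [hQ, ← hc]⟩

/-- A step sequence `0, c, c, c, ...` is not a multiplier sequence. -/
theorem not_ms_step {c : ℝ} {γ : ℕ → ℝ} (h : IsMultiplierSequence γ) (h0 : γ 0 = 0)
    (hc : ∀ k, 1 ≤ k → γ k = c) : c = 0 := by
  have h1 := ((inJ_of_ms h).shift_sub (1 / 2)).newton 0
  simp only [zero_add] at h1
  rw [hc 1 (by norm_num), hc (2 + 1) (by norm_num), hc 2 (by norm_num), h0] at h1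
  nlinarith [sq_nonneg c]

theorem PresPos.pos_part {f : ℝ → ℝ} (hf : PresPos f) (hf0 : ∀ x, 0 < x → 0 ≤ f x) :
    ∃ (c : ℝ) (m : ℕ), ∀ x, 0 < x → f x = c * x ^ m := by
  by_cases hex : ∃ x₀, 0 < x₀ ∧ 0 < f x₀
  · obtain ⟨x₀, hx₀, hfx⟩ := hex
    obtain ⟨Q, hQ⟩ := hf.polynomial hf0 hx₀ hfx
    have hJ := inJ_of_ms (hf (fun k => 1 * 2 ^ k) (fun k => by positivity)
      (ms_geom 1 (by norm_num)))
    have hJ' : InJ (fun k => Q.eval ((2 : ℝ) ^ k)) := by
      convert hJ using 2 with k
      rw [one_mul]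
      exact (hQ _ (by positivity)).symm
    obtain ⟨c, m, rfl⟩ := monomial_of_inJ hJ'
    refine ⟨c, m, fun x hx => ?_⟩
    rw [hQ x hx]
    simp
  · push Not at hex
    exact ⟨0, 0, fun x hx => by rw [le_antisymm (hex x hx) (hf0 x hx)]; simp⟩

theorem PresPos.neg {f : ℝ → ℝ} (hf : PresPos f) : PresPos (fun x => - f x) := by
  intro α h0 hα
  have := ms_mul (ms_const (-1)) (hf α h0 hα)
  simpa using this

theorem PresPos.pos_part' {f : ℝ → ℝ} (hf : PresPos f) :
    ∃ (c : ℝ) (m : ℕ), ∀ x, 0 < x → f x = c * x ^ m := by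
  by_cases hex : ∃ x₀, 0 < x₀ ∧ 0 < f x₀
  · obtain ⟨x₀, hx₀, hfx⟩ := hex
    apply hf.pos_part
    intro x hx
    have := hf.sign hx₀ hx
    exact nonneg_of_mul_nonneg_right this hfx
  · push Not at hex
    obtain ⟨c, m, h⟩ := hf.neg.pos_part (fun x hx => by have := hex x hx; linarith)
    refine ⟨-c, m, fun x hx => ?_⟩
    have := h x hx
    linarith

/-- The one-variable classification. -/
theorem Pres.classify {f : ℝ → ℝ} (hf : Pres f) :
    ∃ (c : ℝ) (m : ℕ), ∀ x, 0 ≤ x → f x = c * x ^ m := by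
  obtain ⟨c, m, h⟩ := hf.toPos.pos_part'
  have hzero : f 0 = c * 0 ^ m := by
    by_cases hc : c = 0
    · -- `f = 0` on the positive axis
      subst hc
      have h1 := hf (fun k => if k = 0 then 1 else 0) (fun k => by positivity)
        (ms_low fun k hk => by simp; omega)
      have h2 := not_ms_step (c := f 0) h1 (by simp [h 1 one_pos])
        (fun k hk => by rw [if_neg (by omega)])
      rw [h2]; simp
    · -- use `(x, x, 0, 0, ...)`
      have hx : ∀ x : ℝ, 0 < x → f 0 = 0 ∨ f 0 = c * x ^ m := by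
        intro x hx
        have h1 := hf (fun k => if k < 2 then x else 0) (fun k => by positivity)
          (ms_low fun k hk => by simp; omega)
        have h2 := ms_sign h1
        have h3 := (inJ_of_ms h1).newton 0
        have h4 := (inJ_of_ms h1).newton 1
        norm_num at h2 h3 h4
        rw [h x hx] at h2 h3 h4
        by_cases hf0 : f 0 = 0
        · exact Or.inl hf0
        · right
          set g := c * x ^ m with hg
          have hgne : g ≠ 0 := mul_ne_zero hc (pow_ne_zero _ hx.ne')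
          have h5 : 0 < g * f 0 := lt_of_le_of_ne h2 (Ne.symm (mul_ne_zero hgne hf0))
          rcases lt_or_gt_of_ne hgne with hg' | hg'
          · have : f 0 < 0 := by nlinarith
            nlinarith
          · have : 0 < f 0 := by nlinarith
            nlinarith
      by_cases hm : m = 0
      · subst hm
        rcases hx 1 one_pos with h0 | h0
        · exfalso
          have h1 := hf (fun k : ℕ => 0 + 1 * (k : ℝ)) (fun k => by positivity)
            (ms_lin le_rfl zero_le_one)
          have h2 := not_ms_step (c := c) h1 (by simpa using h0) (by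
            intro k hk
            have hk' : (0 : ℝ) < 0 + 1 * (k : ℝ) := by
              have : (0 : ℝ) < k := by exact_mod_cast hk
              linarith
            rw [h _ hk']
            simp)
          exact hc h2
        · simpa using h0
      · rcases hx 1 one_pos with h0 | h0
        · rw [h0, zero_pow hm, mul_zero]
        · rcases hx 2 two_pos with h1 | h1
          · rw [h1, zero_pow hm, mul_zero]
          · exfalso
            rw [h0] at h1
            have h2 : (1 : ℝ) ^ m = 2 ^ m := mul_left_cancel₀ hc h1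
            rw [one_pow] at h2
            have h3 : (1 : ℝ) < 2 ^ m := one_lt_pow₀ (by norm_num) hm
            linarith
  refine ⟨c, m, fun x hx => ?_⟩
  rcases hx.eq_or_lt with rfl | hx
  · exact hzero
  · exact h x hx

/-! ### The two-variable classification -/

/-- `Ψ` is admissible if and only if there are a real constant `c` and
nonnegative integers `m, n` with `Ψ(x,y) = c x^m y^n` for all `x, y ≥ 0`. -/
theorem classification (Ψ : ℝ × ℝ → ℝ) : Admissible Ψ ↔
    ∃ (c : ℝ) (m n : ℕ), ∀ x y : ℝ, 0 ≤ x → 0 ≤ y → Ψ (x, y) = c * x ^ m * y ^ n := by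
  constructor
  · intro h
    have hrow : ∀ y : ℝ, 0 ≤ y → Pres (fun x => Ψ (x, y)) := fun y hy α h0 hα =>
      h α (fun _ => y) h0 (fun _ => hy) hα (ms_const y)
    have hcol : ∀ x : ℝ, 0 ≤ x → Pres (fun y => Ψ (x, y)) := fun x hx α h0 hα =>
      h (fun _ => x) α (fun _ => hx) h0 (ms_const x) hα
    have hrow' : ∀ y : ℝ, ∃ (c : ℝ) (m : ℕ), 0 ≤ y → ∀ x, 0 ≤ x → Ψ (x, y) = c * x ^ m := by
      intro y
      by_cases hy : 0 ≤ y
      · obtain ⟨c, m, hcm⟩ := (hrow y hy).classify
        exact ⟨c, m, fun _ => hcm⟩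
      · exact ⟨0, 0, fun h => absurd h hy⟩
    have hcol' : ∀ x : ℝ, ∃ (d : ℝ) (n : ℕ), 0 ≤ x → ∀ y, 0 ≤ y → Ψ (x, y) = d * y ^ n := by
      intro x
      by_cases hx : 0 ≤ x
      · obtain ⟨c, m, hcm⟩ := (hcol x hx).classify
        exact ⟨c, m, fun _ => hcm⟩
      · exact ⟨0, 0, fun h => absurd h hx⟩
    choose C M hC using hrow'
    choose D N hD using hcol'
    set c := Ψ (1, 1) with hc
    -- values on the two unit lines
    have hC1 : ∀ y, 0 ≤ y → C y = c * y ^ N 1 := by
      intro y hy
      have h1 := hC y hy 1 zero_le_one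
      have h2 := hD 1 zero_le_one y hy
      have h3 := hD 1 zero_le_one 1 zero_le_one
      rw [one_pow, mul_one] at h1 h3
      rw [← h1, h2, hc, h3]
    have hD1 : ∀ x, 0 ≤ x → D x = c * x ^ M 1 := by
      intro x hx
      have h1 := hD x hx 1 zero_le_one
      have h2 := hC 1 zero_le_one x hx
      have h3 := hC 1 zero_le_one 1 zero_le_one
      rw [one_pow, mul_one] at h1 h3
      rw [← h1, h2, hc, h3]
    refine ⟨c, M 1, N 1, ?_⟩
    by_cases hc0 : c = 0
    · intro x y hx hy
      rw [hD x hx y hy, hD1 x hx, hc0]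
      simp
    -- the two expressions
    have e1 : ∀ x y, 0 ≤ x → 0 ≤ y → Ψ (x, y) = c * y ^ N 1 * x ^ M y := by
      intro x y hx hy
      rw [hC y hy x hx, hC1 y hy]
    have e2 : ∀ x y, 0 ≤ x → 0 ≤ y → Ψ (x, y) = c * x ^ M 1 * y ^ N x := by
      intro x y hx hy
      rw [hD x hx y hy, hD1 x hx]
    have h23 : (3 : ℝ) ^ N 1 * 2 ^ M 3 = 2 ^ M 1 * 3 ^ N 2 := by
      have h1 := e1 2 3 (by norm_num) (by norm_num)
      have h2 := e2 2 3 (by norm_num) (by norm_num)
      rw [h1, mul_assoc, mul_assoc] at h2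
      exact mul_left_cancel₀ hc0 h2
    have hN2 : N 2 = N 1 := by
      have h1 : (3 : ℕ) ^ N 1 * 2 ^ M 3 = 2 ^ M 1 * 3 ^ N 2 := by exact_mod_cast h23
      have h2 := congrArg (fun t => t.factorization 3) h1
      beta_reduce at h2
      rw [Nat.factorization_mul (by positivity) (by positivity),
        Nat.factorization_mul (by positivity) (by positivity)] at h2
      simp only [Nat.factorization_pow, Finsupp.add_apply, Finsupp.smul_apply, smul_eq_mul] at h2
      have h3 : Nat.factorization 3 3 = 1 := Nat.Prime.factorization_self Nat.prime_three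
      have h4 : Nat.factorization 2 3 = 0 := by
        rw [Nat.Prime.factorization Nat.prime_two]; simp
      rw [h3, h4] at h2
      omega
    have hMy : ∀ y, 0 < y → M y = M 1 := by
      intro y hy
      have h1 := e1 2 y (by norm_num) hy.le
      have h2 := e2 2 y (by norm_num) hy.le
      rw [h1, hN2] at h2
      have h3 : (c * y ^ N 1) * 2 ^ M y = (c * y ^ N 1) * 2 ^ M 1 := by
        rw [h2]; ring
      have h4 : (2 : ℝ) ^ M y = 2 ^ M 1 :=
        mul_left_cancel₀ (mul_ne_zero hc0 (pow_ne_zero _ hy.ne')) h3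
      exact pow_right_injective₀ (by norm_num : (0 : ℝ) < 2) (by norm_num) h4
    intro x y hx hy
    rcases hy.eq_or_lt with rfl | hy'
    · by_cases hn : N 1 = 0
      · have h1 := e1 2 0 (by norm_num) le_rfl
        have h2 := e2 2 0 (by norm_num) le_rfl
        rw [h1, hN2, hn] at h2
        simp only [pow_zero, mul_one] at h2
        have h4 : (2 : ℝ) ^ M 0 = 2 ^ M 1 := mul_left_cancel₀ hc0 h2
        have h5 : M 0 = M 1 := pow_right_injective₀ (by norm_num : (0 : ℝ) < 2) (by norm_num) h4
        rw [e1 x 0 hx le_rfl, h5, hn]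
        simp
      · rw [e1 x 0 hx le_rfl, zero_pow hn]
        simp
    · rw [e1 x y hx hy, hMy y hy']
      ring
  · rintro ⟨c, m, n, h⟩ α β hα0 hβ0 hα hβ
    have h1 := ms_mul (ms_mul (ms_const c) (ms_pow hα m)) (ms_pow hβ n)
    convert h1 using 2 with k
    exact h _ _ (hα0 k) (hβ0 k)

/-! ### The strict convention (zero polynomial excluded) -/

theorem strict_ne_zero {p : ℝ[X]} (h : OnlyRealZerosStrict p) : p ≠ 0 := by
  rintro rfl
  have := h Complex.I (by simp)
  simp at this

theorem strict_iff_orz {p : ℝ[X]} : OnlyRealZerosStrict p ↔ OnlyRealZeros p ∧ p ≠ 0 := by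
  constructor
  · intro h
    exact ⟨Or.inr h, strict_ne_zero h⟩
  · rintro ⟨h, h0⟩
    exact h.resolve_left h0

theorem strict_iff {γ : ℕ → ℝ} : IsMultiplierSequenceStrict γ ↔
    IsMultiplierSequence γ ∧ ∀ k, γ k ≠ 0 := by
  constructor
  · intro h
    refine ⟨?_, ?_⟩
    · intro p hp
      by_cases hp0 : p = 0
      · left; rw [hp0]; ext k; rw [act_eq]; simp
      · exact (strict_iff_orz.1 (h p (strict_iff_orz.2 ⟨hp, hp0⟩))).1
    · intro k hk
      have h1 : OnlyRealZerosStrict (X ^ k : ℝ[X]) := by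
        rw [strict_iff_orz]
        exact ⟨by simpa using orz_base k 0, pow_ne_zero _ X_ne_zero⟩
      have h2 := strict_ne_zero (h _ h1)
      apply h2
      ext j
      rw [act_eq, coeff_X_pow, coeff_zero]
      split_ifs with hjk
      · rw [hjk, hk, zero_mul]
      · rw [mul_zero]
  · rintro ⟨h, h0⟩ p hp
    have hp0 := strict_ne_zero hp
    rw [strict_iff_orz]
    refine ⟨h p (Or.inr hp), ?_⟩
    intro h1
    have h2 := congrArg (fun q => coeff q p.natDegree) h1
    beta_reduce at h2
    rw [act_eq, coeff_zero] at h2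
    rcases mul_eq_zero.1 h2 with h3 | h3
    · exact h0 _ h3
    · exact hp0 (leadingCoeff_eq_zero.1 h3)

theorem classification_strict (Ψ : ℝ × ℝ → ℝ) : AdmissibleStrict Ψ ↔
    ∃ (c : ℝ) (m n : ℕ), c ≠ 0 ∧ ∀ x y : ℝ, 0 < x → 0 < y → Ψ (x, y) = c * x ^ m * y ^ n := by
  constructor
  · intro h
    have hpos : ∀ α β : ℕ → ℝ, (∀ k, 0 < α k) → (∀ k, 0 < β k) → IsMultiplierSequence α →
        IsMultiplierSequence β → IsMultiplierSequenceStrict (fun k => Ψ (α k, β k)) :=
      fun α β hα hβ h1 h2 => h α β (fun k => (hα k).le) (fun k => (hβ k).le)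
        (strict_iff.2 ⟨h1, fun k => (hα k).ne'⟩) (strict_iff.2 ⟨h2, fun k => (hβ k).ne'⟩)
    have hrow : ∀ y : ℝ, 0 < y → PresPos (fun x => Ψ (x, y)) := fun y hy α h0 hα =>
      (strict_iff.1 (hpos α (fun _ => y) h0 (fun _ => hy) hα (ms_const y))).1
    have hcol : ∀ x : ℝ, 0 < x → PresPos (fun y => Ψ (x, y)) := fun x hx α h0 hα =>
      (strict_iff.1 (hpos (fun _ => x) α (fun _ => hx) h0 (ms_const x) hα)).1
    have hrow' : ∀ y : ℝ, ∃ (c : ℝ) (m : ℕ), 0 < y → ∀ x, 0 < x → Ψ (x, y) = c * x ^ m := by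
      intro y
      by_cases hy : 0 < y
      · obtain ⟨c, m, hcm⟩ := (hrow y hy).pos_part'
        exact ⟨c, m, fun _ => hcm⟩
      · exact ⟨0, 0, fun h => absurd h hy⟩
    have hcol' : ∀ x : ℝ, ∃ (d : ℝ) (n : ℕ), 0 < x → ∀ y, 0 < y → Ψ (x, y) = d * y ^ n := by
      intro x
      by_cases hx : 0 < x
      · obtain ⟨c, m, hcm⟩ := (hcol x hx).pos_part'
        exact ⟨c, m, fun _ => hcm⟩
      · exact ⟨0, 0, fun h => absurd h hx⟩
    choose C M hC using hrow'
    choose D N hD using hcol'
    set c := Ψ (1, 1) with hc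
    have hc0 : c ≠ 0 := (strict_iff.1 (hpos (fun _ => 1) (fun _ => 1) (fun _ => one_pos)
      (fun _ => one_pos) (ms_const 1) (ms_const 1))).2 0
    have hC1 : ∀ y, 0 < y → C y = c * y ^ N 1 := by
      intro y hy
      have h1 := hC y hy 1 one_pos
      have h2 := hD 1 one_pos y hy
      have h3 := hD 1 one_pos 1 one_pos
      rw [one_pow, mul_one] at h1 h3
      rw [← h1, h2, hc, h3]
    have hD1 : ∀ x, 0 < x → D x = c * x ^ M 1 := by
      intro x hx
      have h1 := hD x hx 1 one_pos
      have h2 := hC 1 one_pos x hx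
      have h3 := hC 1 one_pos 1 one_pos
      rw [one_pow, mul_one] at h1 h3
      rw [← h1, h2, hc, h3]
    refine ⟨c, M 1, N 1, hc0, ?_⟩
    have e1 : ∀ x y, 0 < x → 0 < y → Ψ (x, y) = c * y ^ N 1 * x ^ M y := by
      intro x y hx hy
      rw [hC y hy x hx, hC1 y hy]
    have e2 : ∀ x y, 0 < x → 0 < y → Ψ (x, y) = c * x ^ M 1 * y ^ N x := by
      intro x y hx hy
      rw [hD x hx y hy, hD1 x hx]
    have h23 : (3 : ℝ) ^ N 1 * 2 ^ M 3 = 2 ^ M 1 * 3 ^ N 2 := by
      have h1 := e1 2 3 (by norm_num) (by norm_num)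
      have h2 := e2 2 3 (by norm_num) (by norm_num)
      rw [h1, mul_assoc, mul_assoc] at h2
      exact mul_left_cancel₀ hc0 h2
    have hN2 : N 2 = N 1 := by
      have h1 : (3 : ℕ) ^ N 1 * 2 ^ M 3 = 2 ^ M 1 * 3 ^ N 2 := by exact_mod_cast h23
      have h2 := congrArg (fun t => t.factorization 3) h1
      beta_reduce at h2
      rw [Nat.factorization_mul (by positivity) (by positivity),
        Nat.factorization_mul (by positivity) (by positivity)] at h2
      simp only [Nat.factorization_pow, Finsupp.add_apply, Finsupp.smul_apply, smul_eq_mul] at h2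
      have h3 : Nat.factorization 3 3 = 1 := Nat.Prime.factorization_self Nat.prime_three
      have h4 : Nat.factorization 2 3 = 0 := by
        rw [Nat.Prime.factorization Nat.prime_two]; simp
      rw [h3, h4] at h2
      omega
    intro x y hx hy
    have h1 := e1 2 y (by norm_num) hy
    have h2 := e2 2 y (by norm_num) hy
    rw [h1, hN2] at h2
    have h3 : (c * y ^ N 1) * 2 ^ M y = (c * y ^ N 1) * 2 ^ M 1 := by
      rw [h2]; ring
    have h4 : (2 : ℝ) ^ M y = 2 ^ M 1 :=
      mul_left_cancel₀ (mul_ne_zero hc0 (pow_ne_zero _ hy.ne')) h3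
    have h5 : M y = M 1 := pow_right_injective₀ (by norm_num : (0 : ℝ) < 2) (by norm_num) h4
    rw [e1 x y hx hy, h5]
    ring
  · rintro ⟨c, m, n, hc, h⟩ α β hα0 hβ0 hα hβ
    have hα' := strict_iff.1 hα
    have hβ' := strict_iff.1 hβ
    have hαp : ∀ k, 0 < α k := fun k => lt_of_le_of_ne (hα0 k) (hα'.2 k).symm
    have hβp : ∀ k, 0 < β k := fun k => lt_of_le_of_ne (hβ0 k) (hβ'.2 k).symm
    have h1 := ms_mul (ms_mul (ms_const c) (ms_pow hα'.1 m)) (ms_pow hβ'.1 n)
    rw [strict_iff]
    refine ⟨?_, ?_⟩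
    · convert h1 using 2 with k
      exact h _ _ (hαp k) (hβp k)
    · intro k
      rw [h _ _ (hαp k) (hβp k)]
      exact mul_ne_zero (mul_ne_zero hc (pow_ne_zero _ (hαp k).ne')) (pow_ne_zero _ (hβp k).ne')

end Pool.Agent.Helper771.MultSeq
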